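import Pool.Agent.helper90.LX.RVOf
import Pool.Agent.helper90.LX.GrpFin

/-! Project LUW: the value group is finitely generated in the Abhyankar case. -/

set_option autoImplicit false

namespace LUW

open LX

variable {k K : Type*} [Field k] [Field K] [Algebra k K] {V : RV k K} {r : ℕ}

/-- the value of a monomial -/
private theorem fa_val (y : Fin r → K) (hy : ∀ i, y i ≠ 0) (m : Fin r →₀ ℕ) (s : Finset (Fin r)) :
    ∏ i ∈ s, y i ^ m i ≠ 0 ∧ V.v (∏ i ∈ s, y i ^ m i) = ∑ i ∈ s, (m i : ℝ) * V.v (y i) := by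
  classical
  induction s using Finset.induction_on with
  | empty =>
    refine ⟨by simp, ?_⟩
    rw [Finset.prod_empty, Finset.sum_empty, ← map_one (algebraMap k K)]
    exact V.map_const 1 one_ne_zero
  | insert a s ha ih =>
    rw [Finset.prod_insert ha, Finset.sum_insert ha]
    refine ⟨mul_ne_zero (pow_ne_zero _ (hy a)) ih.1, ?_⟩
    rw [V.map_mul _ _ (pow_ne_zero _ (hy a)) ih.1, v_pow (hy a), ih.2]

private theorem fa_aeval (y : Fin r → K) (hy : ∀ i, y i ≠ 0)
    (hind : ∀ a : Fin r → ℤ, ∑ i, (a i : ℝ) * V.v (y i) = 0 → a = 0)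
    (p : MvPolynomial (Fin r) k) (hp : p ≠ 0) :
    MvPolynomial.aeval y p ≠ 0 ∧
      ∃ m : Fin r →₀ ℕ, V.v (MvPolynomial.aeval y p) = ∑ i, (m i : ℝ) * V.v (y i) := by
  classical
  have h1 : MvPolynomial.aeval y p = ∑ d ∈ p.support,
      algebraMap k K (p.coeff d) * ∏ i, y i ^ d i := by
    rw [MvPolynomial.aeval_def, MvPolynomial.eval₂_eq']
  have hc : ∀ d ∈ p.support, algebraMap k K (p.coeff d) ≠ 0 := by
    intro d hd
    rw [Ne, map_eq_zero]
    exact MvPolynomial.mem_support_iff.mp hd
  have h0 : ∀ d ∈ p.support, algebraMap k K (p.coeff d) * ∏ i, y i ^ d i ≠ 0 :=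
    fun d hd => mul_ne_zero (hc d hd) (fa_val (V := V) y hy d Finset.univ).1
  have hv : ∀ d ∈ p.support,
      V.v (algebraMap k K (p.coeff d) * ∏ i, y i ^ d i) = ∑ i, (d i : ℝ) * V.v (y i) := by
    intro d hd
    rw [V.map_mul _ _ (hc d hd) (fa_val (V := V) y hy d Finset.univ).1,
      V.map_const _ (MvPolynomial.mem_support_iff.mp hd), zero_add,
      (fa_val (V := V) y hy d Finset.univ).2]
  have hs : p.support.Nonempty := by
    rw [Finset.nonempty_iff_ne_empty, Ne, MvPolynomial.support_eq_empty]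
    exact hp
  obtain ⟨h2, d, hd, h3⟩ := val_sum V p.support hs _ h0 (fun d hd d' hd' he => by
    rw [hv d hd, hv d' hd'] at he
    have h4 := hind (fun i => (d i : ℤ) - (d' i : ℤ)) (by
      push_cast
      simp only [sub_mul]
      rw [Finset.sum_sub_distrib, he, sub_self])
    ext i
    have h5 := congrFun h4 i
    simp only [Pi.zero_apply] at h5
    exact_mod_cast sub_eq_zero.1 h5)
  rw [h1]
  exact ⟨h2, d, h3.trans (hv d hd)⟩

universe u

/-- The value group is finitely generated in the Abhyankar case. -/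
theorem fg_of_abh {k K : Type u} [Field k] [Field K] [Algebra k K] [Algebra.EssFiniteType k K]
    (W : ValuationSubring K)
    (hW : ∀ c : k, algebraMap k K c ∈ W) (harch : MulArchimedean W.ValueGroup)
    (hres : ∀ x ∈ W, ∃ c : k, W.valuation (x - algebraMap k K c) < 1) (r : ℕ)
    (hrk : Module.finrank ℤ (Additive (W.ValueGroup)ˣ) = r)
    (hr : Algebra.trdeg k K = (r : ℕ)) (hr0 : 0 < r) : Group.FG (W.ValueGroup)ˣ := by
  classical
  obtain ⟨V, hVW, hfg, hrk'⟩ := exists_rv W hW harch hres
  obtain ⟨y, hy, hind⟩ := hrk' r hr0 hrk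
  apply hfg
  have hX : AlgebraicIndependent k y := by
    rw [algebraicIndependent_iff]
    intro p hp
    by_contra hp0
    exact (fa_aeval (V := V) y hy hind p hp0).1 hp
  have hb : IsTranscendenceBasis k y := by
    refine hX.isTranscendenceBasis_of_lift_trdeg_le_of_finite ?_
    rw [hr]
    simp
  have halg := hb.isAlgebraic_field
  have hess : Algebra.EssFiniteType (IntermediateField.adjoin k (Set.range y)) K :=
    Algebra.EssFiniteType.of_comp k _ K
  have hfin : FiniteDimensional (IntermediateField.adjoin k (Set.range y)) K :=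
    Algebra.finite_of_essFiniteType_of_isAlgebraic
  let F : (Fin r → ℤ) →+ ℝ :=
    { toFun := fun a => ∑ i, (a i : ℝ) * V.v (y i)
      map_zero' := by simp
      map_add' := fun a b => by
        rw [← Finset.sum_add_distrib]
        refine Finset.sum_congr rfl fun i _ => ?_
        rw [Pi.add_apply]
        push_cast
        ring }
  have hΓ : F.range.FG := by
    have h1 : AddGroup.FG (Fin r → ℤ) := inferInstance
    exact (AddGroup.fg_iff_addSubgroup_fg _).mp (AddGroup.fg_of_surjective
      (f := F.rangeRestrict) F.rangeRestrict_surjective)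
  have hA : ∀ x ∈ Algebra.adjoin k (Set.range y), x ≠ 0 → V.v x ∈ F.range := by
    intro x hx hx0
    rw [Algebra.adjoin_range_eq_range_aeval] at hx
    obtain ⟨p, rfl⟩ := hx
    have hp : p ≠ 0 := by
      rintro rfl
      exact hx0 (map_zero _)
    obtain ⟨-, m, h2⟩ := fa_aeval (V := V) y hy hind p hp
    refine ⟨fun i => (m i : ℤ), ?_⟩
    refine Eq.trans ?_ h2.symm
    change ∑ i, (((m i : ℤ)) : ℝ) * V.v (y i) = _
    push_cast
    rfl
  have hE : ∀ x ∈ IntermediateField.adjoin k (Set.range y), x ≠ 0 → V.v x ∈ F.range := by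
    intro x hx hx0
    refine val_adjoin V (Algebra.adjoin k (Set.range y)) F.range hA x ?_ hx0
    exact IntermediateField.adjoin.mono k _ _ Algebra.subset_adjoin hx
  exact fg_of_finite V _ F.range hΓ hE

end LUW
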