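import Pool.Agent.LUW.Basic

/-! Project LUW: (A1) the closed field of the toric variables. -/

set_option autoImplicit false

namespace LUW

open Polynomial

variable {k : Type*} [Field k] {Ω : Type*} [NormedField Ω] [Algebra k Ω] [Big k Ω] {r : ℕ}

variable (k) in
include k in
theorem FDense_sum_lt {ι : Type*} (s : Finset ι) (f : ι → Ω) {B : ℝ} (hB : 0 < B)
    (h : ∀ i ∈ s, ‖f i‖ < B) : ‖∑ i ∈ s, f i‖ < B := by
  classical
  induction s using Finset.induction_on with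
  | empty => simpa using hB
  | insert a s ha ih =>
    rw [Finset.sum_insert ha]
    exact (Big.add_le k _ _).trans_lt (max_lt (h a (Finset.mem_insert_self _ _))
      (ih fun i hi => h i (Finset.mem_insert_of_mem hi)))

/-- Leading term of a Laurent polynomial. -/
theorem FDense_lead {u : Fin r → Ω} (hu : Base u) (P : A k r) (hP : P ≠ 0)
    (h0 : ∀ q ∈ P.coeff.support, q.2 = 0) (x : Ω) :
    ∃ b : G r, (b, 0) ∈ P.coeff.support ∧
      ‖ev hu.ne x P - algebraMap k Ω (P.coeff (b, 0)) * mon u b‖ < ‖mon u b‖ ∧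
      ∀ q ∈ P.coeff.support, q ≠ (b, 0) → wt u b < wt u q.1 := by
  classical
  have hne : P.coeff.support.Nonempty := by
    rw [Finsupp.support_nonempty_iff]
    intro h
    apply hP
    ext q
    rw [h]
    rfl
  obtain ⟨q0, hq0, hmin⟩ := Finset.exists_min_image P.coeff.support (fun q => wt u q.1) hne
  have hq0' : q0 = (q0.1, 0) := Prod.ext rfl (h0 q0 hq0)
  have hlt : ∀ q ∈ P.coeff.support, q ≠ (q0.1, 0) → wt u q0.1 < wt u q.1 := by
    intro q hq hne'
    refine lt_of_le_of_ne (hmin q hq) fun he => hne' ?_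
    exact Prod.ext (hu.inj he).symm (h0 q hq)
  refine ⟨q0.1, hq0' ▸ hq0, ?_, hlt⟩
  rw [ev_eq_sum, ← Finset.add_sum_erase _ _ (hq0' ▸ hq0)]
  rw [pow_zero, mul_one, add_sub_cancel_left]
  refine FDense_sum_lt k _ _ (norm_pos_iff.2 (mon_ne hu.ne _)) ?_
  intro q hq
  have hq1 := Finset.mem_of_mem_erase hq
  rw [h0 q hq1, pow_zero, mul_one, norm_mul]
  calc ‖algebraMap k Ω (P.coeff q)‖ * ‖mon u q.1‖ ≤ 1 * ‖mon u q.1‖ :=
        mul_le_mul_of_nonneg_right (Big.norm_c_le k _) (norm_nonneg _)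
    _ = ‖mon u q.1‖ := one_mul _
    _ < ‖mon u q0.1‖ := (norm_mon_lt hu.ne).2 (hlt q hq1 (Finset.ne_of_mem_erase hq))

/-- Norm of a finite sum of monomials in `u`. -/
theorem norm_ev_zero {u : Fin r → Ω} (hu : Base u) (P : A k r) (hP : P ≠ 0)
    (h0 : ∀ q ∈ P.coeff.support, q.2 = 0) (x : Ω) :
    ∃ b : G r, (b, 0) ∈ P.coeff.support ∧ ‖ev hu.ne x P‖ = ‖mon u b‖ ∧
      ∀ q ∈ P.coeff.support, q ≠ (b, 0) → wt u b < wt u q.1 := by
  obtain ⟨b, hb, h1, h2⟩ := FDense_lead hu P hP h0 x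
  refine ⟨b, hb, ?_, h2⟩
  have h3 : ‖algebraMap k Ω (P.coeff (b, 0)) * mon u b‖ = ‖mon u b‖ := by
    rw [norm_mul, Big.norm_k _ (Finsupp.mem_support_iff.1 hb), one_mul]
  rw [← h3]
  exact Big.norm_eq k (by rw [h3]; exact h1)

/-- The inclusion of the Laurent polynomials. -/
noncomputable def FDense_inc (k : Type*) [Field k] (r : ℕ) : AddMonoidAlgebra k (G r) →ₐ[k] A k r :=
  AddMonoidAlgebra.mapDomainAlgHom k k (AddMonoidHom.inl (G r) ℕ)

theorem FDense_inc_supp (P : AddMonoidAlgebra k (G r)) :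
    ∀ q ∈ (FDense_inc k r P).coeff.support, q.2 = 0 := by
  classical
  intro q hq
  have h : (FDense_inc k r P).coeff = Finsupp.mapDomain (fun b : G r => ((b, 0) : Ex r)) P.coeff := rfl
  rw [h] at hq
  have h1 := Finsupp.mapDomain_support hq
  obtain ⟨b, _, rfl⟩ := Finset.mem_image.1 h1
  rfl

/-- Laurent polynomials in `u`, as a subalgebra. -/
noncomputable def FDense_S (k : Type*) [Field k] {Ω : Type*} [NormedField Ω] [Algebra k Ω] {r : ℕ}
    {u : Fin r → Ω} (hu : ∀ i, u i ≠ 0) : Subalgebra k Ω :=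
  ((ev hu 0).comp (FDense_inc k r)).range

omit [Big k Ω] in
theorem FDense_S_mem {u : Fin r → Ω} (hu : ∀ i, u i ≠ 0) {z : Ω} (hz : z ∈ FDense_S k hu) :
    ∃ P : A k r, (∀ q ∈ P.coeff.support, q.2 = 0) ∧ ev hu 0 P = z := by
  obtain ⟨P, rfl⟩ := hz
  exact ⟨FDense_inc k r P, FDense_inc_supp P, rfl⟩

omit [Big k Ω] in
theorem FDense_mon_mem {u : Fin r → Ω} (hu : ∀ i, u i ≠ 0) (b : G r) : mon u b ∈ FDense_S k hu := by
  refine ⟨AddMonoidAlgebra.single b 1, ?_⟩
  have h : FDense_inc k r (AddMonoidAlgebra.single b 1) = mono b 0 1 := by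
    simp [FDense_inc, mono]
  change ev hu 0 (FDense_inc k r (AddMonoidAlgebra.single b 1)) = mon u b
  rw [h, ev_mono]
  simp

variable (k) in
include k in
theorem FDense_geom {η : Ω} (hη : ‖η‖ < 1) (n : ℕ) :
    ‖(1 + η)⁻¹ - ∑ i ∈ Finset.range n, (-η) ^ i‖ = ‖η‖ ^ n := by
  have h1 : ‖1 + η‖ = 1 := by
    have : ‖(1 + η) - 1‖ < ‖(1 : Ω)‖ := by simpa using hη
    rw [Big.norm_eq k this, norm_one]
  have h2 : (1 + η) ≠ 0 := by
    intro h
    rw [h, norm_zero] at h1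
    exact zero_ne_one h1
  have h3 : (∑ i ∈ Finset.range n, (-η) ^ i) * (1 + η) = 1 - (-η) ^ n := by
    have := geom_sum_mul_neg (-η) n
    rwa [sub_neg_eq_add] at this
  have h4 : (1 + η)⁻¹ - ∑ i ∈ Finset.range n, (-η) ^ i = (-η) ^ n * (1 + η)⁻¹ := by
    field_simp
    rw [mul_comm (1 + η), h3]
    ring
  rw [h4, norm_mul, norm_inv, h1, inv_one, mul_one, norm_pow, norm_neg]

theorem FDense_inv {u : Fin r → Ω} (hu : Base u) {z : Ω} (hz : z ∈ FDense_S k hu.ne) (hz0 : z ≠ 0) :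
    z⁻¹ ∈ closure (FDense_S k hu.ne : Set Ω) := by
  obtain ⟨P, hP0, rfl⟩ := FDense_S_mem hu.ne hz
  have hP : P ≠ 0 := by
    rintro rfl
    exact hz0 (map_zero _)
  obtain ⟨b, hb, h1, -⟩ := FDense_lead hu P hP hP0 0
  set c : k := P.coeff (b, 0) with hc
  have hc0 : c ≠ 0 := Finsupp.mem_support_iff.1 hb
  have hcΩ : algebraMap k Ω c ≠ 0 := by simpa using hc0
  have hm0 : mon u b ≠ 0 := mon_ne hu.ne b
  set z : Ω := ev hu.ne 0 P with hzdef
  -- the inverse of the leading term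
  set l : Ω := algebraMap k Ω c⁻¹ * mon u (-b) with hl
  have hlS : l ∈ FDense_S k hu.ne := mul_mem (Subalgebra.algebraMap_mem _ _) (FDense_mon_mem hu.ne _)
  have hl1 : l * (algebraMap k Ω c * mon u b) = 1 := by
    rw [hl, map_inv₀, mon_neg]
    field_simp
  have hln : ‖l‖ = ‖mon u b‖⁻¹ := by
    rw [hl, norm_mul, Big.norm_k _ (inv_ne_zero hc0), one_mul, mon_neg, norm_inv]
  set η : Ω := l * z - 1 with hη
  have hηS : η ∈ FDense_S k hu.ne := sub_mem (mul_mem hlS hz) (one_mem _)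
  have hη1 : ‖η‖ < 1 := by
    have : η = l * (z - algebraMap k Ω c * mon u b) := by
      rw [mul_sub, hl1]
    rw [this, norm_mul, hln, inv_mul_lt_iff₀ (norm_pos_iff.2 hm0), mul_one]
    exact h1
  have hl0 : l ≠ 0 := by
    intro h
    rw [h, zero_mul] at hl1
    exact zero_ne_one hl1
  have hz1 : z⁻¹ = l * (1 + η)⁻¹ := by
    have : 1 + η = l * z := by rw [hη]; ring
    rw [this, mul_inv, ← mul_assoc, mul_inv_cancel₀ hl0, one_mul]
  rw [Metric.mem_closure_iff]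
  intro ε hε
  have hlpos : 0 < ‖l‖ := norm_pos_iff.2 hl0
  obtain ⟨n, hn⟩ := exists_pow_lt_of_lt_one (div_pos hε hlpos) hη1
  refine ⟨l * ∑ i ∈ Finset.range n, (-η) ^ i, mul_mem hlS (sum_mem fun i _ => pow_mem (neg_mem hηS) _), ?_⟩
  rw [dist_eq_norm, hz1, ← mul_sub, norm_mul, FDense_geom k hη1]
  rw [lt_div_iff₀ hlpos] at hn
  linarith [mul_comm ‖l‖ (‖η‖ ^ n)]

/-- The closure of the Laurent polynomials is closed under inverses. -/
theorem FDense_inv_closure {u : Fin r → Ω} (hu : Base u) {y : Ω}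
    (hy : y ∈ closure (FDense_S k hu.ne : Set Ω)) : y⁻¹ ∈ closure (FDense_S k hu.ne : Set Ω) := by
  by_cases hy0 : y = 0
  · rw [hy0, inv_zero]
    exact subset_closure (zero_mem (FDense_S k hu.ne))
  have hpos : 0 < ‖y‖ := norm_pos_iff.2 hy0
  rw [← closure_closure, Metric.mem_closure_iff]
  intro ε hε
  rw [Metric.mem_closure_iff] at hy
  obtain ⟨z, hz, hyz⟩ := hy (min ‖y‖ (ε * ‖y‖ ^ 2)) (lt_min hpos (by positivity))
  rw [dist_eq_norm] at hyz
  have h1 : ‖z - y‖ < ‖y‖ := by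
    rw [norm_sub_rev]
    exact hyz.trans_le (min_le_left _ _)
  have h2 : ‖z‖ = ‖y‖ := Big.norm_eq k h1
  have hz0 : z ≠ 0 := by
    intro h
    rw [h, norm_zero] at h2
    exact hpos.ne h2
  refine ⟨z⁻¹, FDense_inv hu hz hz0, ?_⟩
  have h3 : y⁻¹ - z⁻¹ = -(y - z) / (y * z) := by
    field_simp
    ring
  rw [dist_eq_norm, h3, norm_div, norm_neg, norm_mul, h2, div_lt_iff₀ (by positivity)]
  calc ‖y - z‖ < ε * ‖y‖ ^ 2 := hyz.trans_le (min_le_right _ _)
    _ = ε * (‖y‖ * ‖y‖) := by ring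

/-- The closure of the Laurent polynomials, as a field. -/
noncomputable def FDense_F {u : Fin r → Ω} (hu : Base u) : IntermediateField k Ω :=
  (FDense_S k hu.ne).topologicalClosure.toIntermediateField fun _ hx => FDense_inv_closure hu hx

/-- Laurent polynomials in `u` are dense in the closed subfield `clF k u`. -/
theorem clF_dense {u : Fin r → Ω} (hu : Base u) {y : Ω} (hy : y ∈ clF k u) {ε : ℝ} (hε : 0 < ε) :
    ∃ P : A k r, (∀ q ∈ P.coeff.support, q.2 = 0) ∧ ‖y - ev hu.ne 0 P‖ < ε := by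
  have hle : clF k u ≤ FDense_F hu := by
    refine clF_le (isClosed_closure (s := (FDense_S k hu.ne : Set Ω))) fun i => ?_
    have h : u i = mon u (Pi.single i 1) := by
      classical
      rw [mon, Finset.prod_eq_single i]
      · simp
      · intro j _ hj
        rw [Pi.single_eq_of_ne hj, zpow_zero]
      · intro h
        exact absurd (Finset.mem_univ _) h
    have h2 : u i ∈ FDense_S k hu.ne := by
      rw [h]
      exact FDense_mon_mem hu.ne _
    exact subset_closure h2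
  have hy' : y ∈ closure (FDense_S k hu.ne : Set Ω) := hle hy
  rw [Metric.mem_closure_iff] at hy'
  obtain ⟨z, hz, hyz⟩ := hy' ε hε
  obtain ⟨P, hP0, rfl⟩ := FDense_S_mem hu.ne hz
  exact ⟨P, hP0, by rwa [dist_eq_norm] at hyz⟩

theorem clF_imm {u : Fin r → Ω} (hu : Base u) : Imm u (clF k u) := by
  intro y hy hy0
  obtain ⟨P, hP0, h1⟩ := clF_dense hu hy (norm_pos_iff.2 hy0)
  have h2 : ‖ev hu.ne 0 P‖ = ‖y‖ := Big.norm_eq k (by rw [norm_sub_rev]; exact h1)
  have hP : P ≠ 0 := by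
    rintro rfl
    rw [map_zero, norm_zero] at h2
    exact hy0 (norm_eq_zero.1 h2.symm)
  obtain ⟨b, hb, h3, _⟩ := FDense_lead hu P hP hP0 0
  have h4 : ‖algebraMap k Ω (P.coeff (b, 0)) * mon u b‖ = ‖mon u b‖ := by
    rw [norm_mul, Big.norm_k _ (Finsupp.mem_support_iff.1 hb), one_mul]
  have h5 : ‖ev hu.ne 0 P‖ = ‖mon u b‖ := by
    rw [← h4]
    exact Big.norm_eq k (by rw [h4]; exact h3)
  refine ⟨b, P.coeff (b, 0), ?_⟩
  have h6 : y - algebraMap k Ω (P.coeff (b, 0)) * mon u b =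
      (y - ev hu.ne 0 P) + (ev hu.ne 0 P - algebraMap k Ω (P.coeff (b, 0)) * mon u b) := by ring
  rw [h6]
  refine (Big.add_le k _ _).trans_lt (max_lt h1 ?_)
  rw [← h2, h5]
  exact h3

end LUW
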