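import Pool.Agent.LUW.SluRel
import Pool.Agent.LUW.FDense

/-! Project LUW: relative monomialization in k(u). -/

set_option autoImplicit false

namespace LUW

open Polynomial

variable {k : Type*} [Field k] {K : Type*} [Field K] [Algebra k K]
  {Ω : Type*} [NormedField Ω] [Algebra k Ω] [Big k Ω] {r : ℕ}

open SluAux

/-- The monomial in the new variables. -/
noncomputable def mq (k : Type*) [Field k] (b : Module.Basis (Fin r) ℤ (G r)) (a : G r) :
    MvPolynomial (Fin r) k :=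
  ∏ j : Fin r, MvPolynomial.X j ^ (b.repr a j).toNat

omit [Big k Ω] in
theorem aeval_mq {u : Fin r → Ω} (hu : ∀ i, u i ≠ 0) (b : Module.Basis (Fin r) ℤ (G r))
    (s : Fin r → Ω) (hs : ∀ j, s j = mon u (b j)) (a : G r)
    (ha : ∀ j, 0 ≤ b.repr a j) : MvPolynomial.aeval s (mq k b a) = mon u a := by
  rw [mq, map_prod, mon_basis hu b a]
  refine Finset.prod_congr rfl fun j _ => ?_
  rw [map_pow, MvPolynomial.aeval_X, hs, ← zpow_natCast, Int.toNat_of_nonneg (ha j)]

theorem constantCoeff_mq (b : Module.Basis (Fin r) ℤ (G r)) (a : G r)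
    (ha : ∀ j, 0 ≤ b.repr a j) :
    MvPolynomial.constantCoeff (mq k b a) = if a = 0 then 1 else 0 := by
  rw [mq, map_prod]
  simp only [map_pow, MvPolynomial.constantCoeff_X]
  split_ifs with h
  · subst h
    simp
  · have : ∃ j, b.repr a j ≠ 0 := by
      by_contra hcon
      push Not at hcon
      apply h
      apply b.repr.injective
      ext j
      rw [hcon j]
      simp
    obtain ⟨j, hj⟩ := this
    apply Finset.prod_eq_zero (Finset.mem_univ j)
    rw [zero_pow]
    intro h0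
    have h1 := ha j
    omega

/-- The polynomial in the new variables attached to `P`. -/
noncomputable def nq (b : Module.Basis (Fin r) ℤ (G r)) (bP : G r) (P : A k r) :
    MvPolynomial (Fin r) k :=
  ∑ q ∈ P.coeff.support, MvPolynomial.C (P.coeff q) * mq k b (q.1 - bP)

theorem constantCoeff_nq (b : Module.Basis (Fin r) ℤ (G r)) (bP : G r) (P : A k r)
    (h0 : ∀ q ∈ P.coeff.support, q.2 = 0) (hb : (bP, 0) ∈ P.coeff.support)
    (h : ∀ q ∈ P.coeff.support, ∀ j, 0 ≤ b.repr (q.1 - bP) j) :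
    MvPolynomial.constantCoeff (nq b bP P) = P.coeff (bP, 0) := by
  classical
  rw [nq, map_sum, Finset.sum_eq_single (bP, 0)]
  · rw [map_mul, constantCoeff_mq b _ (h _ hb), MvPolynomial.constantCoeff_C, if_pos (sub_self _),
      mul_one]
  · intro q hq hne
    rw [map_mul, constantCoeff_mq b _ (h q hq), if_neg, mul_zero]
    intro h1
    apply hne
    exact Prod.ext (sub_eq_zero.1 h1) (h0 q hq)
  · intro h1
    exact absurd hb h1

omit [Big k Ω] in
theorem aeval_nq {u : Fin r → Ω} (hu : ∀ i, u i ≠ 0) (b : Module.Basis (Fin r) ℤ (G r))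
    (s : Fin r → Ω) (hs : ∀ j, s j = mon u (b j)) (bP : G r)
    (P : A k r) (h0 : ∀ q ∈ P.coeff.support, q.2 = 0)
    (h : ∀ q ∈ P.coeff.support, ∀ j, 0 ≤ b.repr (q.1 - bP) j) :
    mon u bP * MvPolynomial.aeval s (nq b bP P) = ev hu 0 P := by
  rw [nq, map_sum, ev_eq_sum, Finset.mul_sum]
  refine Finset.sum_congr rfl fun q hq => ?_
  rw [map_mul, aeval_mq hu b s hs _ (h q hq), MvPolynomial.aeval_C, h0 q hq, pow_zero, mul_one]
  have h1 : mon u bP * mon u (q.1 - bP) = mon u q.1 := by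
    rw [← mon_add hu]
    congr 1
    abel
  calc mon u bP * (algebraMap k Ω (P.coeff q) * mon u (q.1 - bP))
      = algebraMap k Ω (P.coeff q) * (mon u bP * mon u (q.1 - bP)) := by ring
    _ = _ := by rw [h1]

omit [Big k Ω] in
/-- Elements of `k[u]` are values of Laurent polynomials. -/
theorem exists_ev0 (ι : K →ₐ[k] Ω) (u : Fin r → K) (hu : ∀ i, ι (u i) ≠ 0) (z : K)
    (hz : z ∈ Algebra.adjoin k (Set.range u)) :
    ∃ P : A k r, (∀ q ∈ P.coeff.support, q.2 = 0) ∧ ev hu 0 P = ι z := by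
  have h : Algebra.adjoin k (Set.range u) ≤ (FDense_S k hu).comap ι := by
    refine Algebra.adjoin_le ?_
    rintro x ⟨i, rfl⟩
    have h1 := FDense_mon_mem (k := k) hu (Pi.single i 1)
    have h2 : mon (fun i => ι (u i)) (Pi.single i 1) = ι (u i) := by
      rw [mon, Finset.prod_eq_single i]
      · simp
      · intro j _ hj
        simp [hj]
      · simp
    rw [h2] at h1
    exact h1
  exact FDense_S_mem hu (h hz)

omit [Big k Ω] in
/-- Elements of `k(u)` are fractions. -/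
theorem exists_ev0_div (ι : K →ₐ[k] Ω) (u : Fin r → K) (hu : ∀ i, ι (u i) ≠ 0) (z : K)
    (hz : z ∈ IntermediateField.adjoin k (Set.range u)) (hz0 : z ≠ 0) :
    ∃ P Q : A k r, (∀ q ∈ P.coeff.support, q.2 = 0) ∧ (∀ q ∈ Q.coeff.support, q.2 = 0) ∧
      ev hu 0 Q ≠ 0 ∧ ev hu 0 P ≠ 0 ∧ ι z * ev hu 0 Q = ev hu 0 P := by
  rw [IntermediateField.mem_adjoin_iff_div] at hz
  obtain ⟨a, ha, b, hb, rfl⟩ := hz
  have hb0 : b ≠ 0 := by
    rintro rfl
    rw [div_zero] at hz0
    exact hz0 rfl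
  have ha0 : a ≠ 0 := by
    rintro rfl
    rw [zero_div] at hz0
    exact hz0 rfl
  obtain ⟨P, hP0, hP⟩ := exists_ev0 ι u hu a ha
  obtain ⟨Q, hQ0, hQ⟩ := exists_ev0 ι u hu b hb
  have hb1 : ι b ≠ 0 := fun h => hb0 ((map_eq_zero ι).1 h)
  have ha1 : ι a ≠ 0 := fun h => ha0 ((map_eq_zero ι).1 h)
  refine ⟨P, Q, hP0, hQ0, by rw [hQ]; exact hb1, by rw [hP]; exact ha1, ?_⟩
  rw [hQ, hP, map_div₀, div_mul_cancel₀ _ hb1]

/-- Simultaneous relative monomialization in `k(u)`. -/
theorem abh_mon (ι : K →ₐ[k] Ω) (u : Fin r → K) (hu : Base fun i => ι (u i))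
    (hu1 : ∀ i, ‖ι (u i)‖ < 1) (Z : Finset K)
    (hZ : ∀ z ∈ Z, z ∈ IntermediateField.adjoin k (Set.range u) ∧ z ≠ 0) :
    ∃ s : Fin r → K, (∀ i, s i ≠ 0 ∧ ‖ι (s i)‖ < 1) ∧
      IntermediateField.adjoin k (Set.range s) = IntermediateField.adjoin k (Set.range u) ∧
      (∀ z ∈ Z, ∃ (a : Fin r → ℤ) (N D : MvPolynomial (Fin r) k),
        MvPolynomial.constantCoeff N ≠ 0 ∧ MvPolynomial.constantCoeff D ≠ 0 ∧
        z * MvPolynomial.aeval s D = (∏ i, s i ^ a i) * MvPolynomial.aeval s N ∧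
        (‖ι z‖ < 1 → ∀ i : Fin r, 1 ≤ a i) ∧ (‖ι z‖ = 1 → a = 0)) ∧
      (∃ a : Fin r → ℤ, ∏ i, u i = ∏ i, s i ^ a i ∧
        (‖ι (∏ i, u i)‖ < 1 → ∀ i : Fin r, 1 ≤ a i) ∧
        (‖ι (∏ i, u i)‖ = 1 → a = 0)) ∧
      ∀ i, ∃ e : ℕ, (∏ i, u i) ^ e * s i ∈ Algebra.adjoin k (Set.range u) := by
  classical
  set v : Fin r → Ω := fun i => ι (u i) with hv
  -- data for each z
  have hdata : ∀ z : K, ∃ (P Q : A k r) (bP bQ : G r), z ∈ Z → z ≠ 0 →
      ι z * ev hu.ne 0 Q = ev hu.ne 0 P ∧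
      (∀ q ∈ P.coeff.support, q.2 = 0) ∧ (∀ q ∈ Q.coeff.support, q.2 = 0) ∧
      (bP, 0) ∈ P.coeff.support ∧ (bQ, 0) ∈ Q.coeff.support ∧
      (∀ q ∈ P.coeff.support, 0 ≤ wt v (q.1 - bP)) ∧
      (∀ q ∈ Q.coeff.support, 0 ≤ wt v (q.1 - bQ)) ∧
      (‖ι z‖ < 1 → 0 < wt v (bP - bQ)) ∧ (‖ι z‖ = 1 → wt v (bP - bQ) = 0) := by
    intro z
    by_cases hz : z ∈ Z ∧ z ≠ 0
    · obtain ⟨hzZ, hz0⟩ := hz
      obtain ⟨hz1, hz2⟩ := hZ z hzZ
      obtain ⟨P, Q, hP0, hQ0, hQ, hP, hPQ⟩ := exists_ev0_div ι u hu.ne z hz1 hz0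
      have hPn : P ≠ 0 := by rintro rfl; exact hP (map_zero _)
      have hQn : Q ≠ 0 := by rintro rfl; exact hQ (map_zero _)
      obtain ⟨bP, hbP, n1, m1⟩ := norm_ev_zero hu P hPn hP0 0
      obtain ⟨bQ, hbQ, n2, m2⟩ := norm_ev_zero hu Q hQn hQ0 0
      have n5 : ‖mon v bP‖ = ‖ι z‖ * ‖mon v bQ‖ := by
        rw [← n1, ← n2, ← hPQ, norm_mul]
      have n6 : 0 < ‖mon v bQ‖ := norm_pos_iff.2 (mon_ne hu.ne _)
      have aux : ∀ (P : A k r) (bP : G r),
          (∀ q ∈ P.coeff.support, q ≠ (bP, 0) → wt v bP < wt v q.1) →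
          ∀ q ∈ P.coeff.support, 0 ≤ wt v (q.1 - bP) := by
        intro P bP h q hq
        by_cases hqe : q = (bP, 0)
        · rw [hqe, sub_self, map_zero]
        · rw [map_sub]
          linarith [h q hq hqe]
      refine ⟨P, Q, bP, bQ, fun _ _ => ⟨hPQ, hP0, hQ0, hbP, hbQ, aux P bP m1, aux Q bQ m2,
        fun hz3 => ?_, fun hz3 => ?_⟩⟩
      · have n3 : ‖mon v bP‖ < ‖mon v bQ‖ := by
          rw [n5]
          exact mul_lt_of_lt_one_left n6 hz3
        have n4 := (norm_mon_lt hu.ne).1 n3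
        rw [map_sub]
        linarith
      · have n3 : ‖mon v bP‖ = ‖mon v bQ‖ := by
          rw [n5, hz3, one_mul]
        rw [norm_mon hu.ne, norm_mon hu.ne, Real.exp_eq_exp, neg_inj] at n3
        rw [map_sub, n3, sub_self]
    · exact ⟨0, 0, 0, 0, fun h1 h2 => absurd ⟨h1, h2⟩ hz⟩
  choose P Q bP bQ hd using hdata
  -- vectors of nonnegative weight
  set T : Finset (G r) := insert (fun _ => 1) (Z.biUnion (fun z =>
    (if ‖ι z‖ < 1 then {bP z - bQ z} else ∅) ∪ (((P z).coeff.support.image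
      (fun q => q.1 - bP z)) ∪ ((Q z).coeff.support.image
      (fun q => q.1 - bQ z))))) with hT
  have hone : mon v (fun _ => 1) = ι (∏ i, u i) := by
    rw [mon, map_prod]
    exact Finset.prod_congr rfl fun i _ => zpow_one _
  have hT0 : ∀ a ∈ T, 0 ≤ wt v a := by
    intro a ha
    rw [hT, Finset.mem_insert, Finset.mem_biUnion] at ha
    rcases ha with rfl | ha
    · have h1 : ‖mon v (fun _ => 1)‖ ≤ ‖mon v 0‖ := by
        rw [hone, mon_zero, norm_one, map_prod, norm_prod]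
        exact Finset.prod_le_one (fun i _ => norm_nonneg _) fun i _ => (hu1 i).le
      have h2 := (norm_mon_le hu.ne).1 h1
      rwa [map_zero] at h2
    obtain ⟨z, hz, ha⟩ := ha
    obtain ⟨e1, -, -, -, -, e2, e3, e4, -⟩ := hd z hz (hZ z hz).2
    rw [Finset.mem_union, Finset.mem_union, Finset.mem_image, Finset.mem_image] at ha
    rcases ha with ha | ⟨q, hq, rfl⟩ | ⟨q, hq, rfl⟩
    · split_ifs at ha with h1
      · rw [Finset.mem_singleton.1 ha]
        exact (e4 h1).le
      · exact absurd ha (Finset.notMem_empty _)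
    · exact e2 q hq
    · exact e3 q hq
  obtain ⟨b, hb1, hb2, hb3⟩ := LY.perron_pos (wt v) hu.inj T hT0
  -- the new variables
  set s : Fin r → K := fun j => monK u (b j) with hs
  have hιs1 : ∀ j : Fin r, ι (s j) = mon v (b j) := fun j => by
    rw [hs, map_monK]
  refine ⟨s, ?_, ?_, ?_, ?_, ?_⟩
  · intro j
    constructor
    · intro h0
      have h1 := hιs1 j
      rw [h0, map_zero] at h1
      exact mon_ne hu.ne _ h1.symm
    · rw [hιs1, norm_mon hu.ne, Real.exp_lt_one_iff]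
      have := hb1 j
      linarith
  · apply le_antisymm
    · rw [IntermediateField.adjoin_le_iff]
      rintro _ ⟨i, rfl⟩
      have hu' : ∀ i, u i ∈ IntermediateField.adjoin k (Set.range u) := fun i =>
        IntermediateField.subset_adjoin _ _ ⟨i, rfl⟩
      exact monK_mem hu' _
    · rw [IntermediateField.adjoin_le_iff]
      have hsm : ∀ i, s i ∈ IntermediateField.adjoin k (Set.range s) := fun i =>
        IntermediateField.subset_adjoin _ _ ⟨i, rfl⟩
      rintro _ ⟨i, rfl⟩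
      have h1 : u i = ∏ j, monK u (b j) ^ (b.repr (Pi.single i 1) j) := by
        apply ι.toRingHom.injective
        change ι (u i) = ι _
        rw [map_prod]
        simp only [map_zpow₀, map_monK]
        have h2 := mon_basis hu.ne b (Pi.single i 1)
        have h3 : mon v (Pi.single i 1) = ι (u i) := by
          rw [mon, Finset.prod_eq_single i]
          · simp [hv]
          · intro j _ hj
            simp [hj]
          · simp
        rw [← h3]
        exact h2
      rw [h1]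
      exact prod_mem fun j _ => zpow_mem (hsm j) _
  · intro z hz
    have hz0 : z ≠ 0 := (hZ z hz).2
    obtain ⟨e1, hP0, hQ0, hbP, hbQ, e2, e3, e4, e5⟩ := hd z hz hz0
    have hTz : ∀ a ∈ (if ‖ι z‖ < 1 then {bP z - bQ z} else ∅) ∪ (((P z).coeff.support.image
        (fun q => q.1 - bP z)) ∪ ((Q z).coeff.support.image
        (fun q => q.1 - bQ z))), a ∈ T := by
      intro a ha
      rw [hT, Finset.mem_insert, Finset.mem_biUnion]
      exact Or.inr ⟨z, hz, ha⟩
    have k1 : ‖ι z‖ < 1 → ∀ j, 1 ≤ b.repr (bP z - bQ z) j := fun h j =>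
      hb3 _ (hTz _ (Finset.mem_union_left _ (by
        rw [if_pos h]; exact Finset.mem_singleton_self _))) (e4 h) j
    have k2 : ∀ q ∈ (P z).coeff.support, ∀ j, 0 ≤ b.repr (q.1 - bP z) j := fun q hq j =>
      hb2 _ (hTz _ (Finset.mem_union_right _ (Finset.mem_union_left _
        (Finset.mem_image_of_mem _ hq)))) j
    have k3 : ∀ q ∈ (Q z).coeff.support, ∀ j, 0 ≤ b.repr (q.1 - bQ z) j := fun q hq j =>
      hb2 _ (hTz _ (Finset.mem_union_right _ (Finset.mem_union_right _
        (Finset.mem_image_of_mem _ hq)))) j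
    refine ⟨fun j => b.repr (bP z - bQ z) j, nq b (bP z) (P z), nq b (bQ z) (Q z),
      ?_, ?_, ?_, k1, ?_⟩
    · rw [constantCoeff_nq b _ _ hP0 hbP k2]
      exact Finsupp.mem_support_iff.1 hbP
    · rw [constantCoeff_nq b _ _ hQ0 hbQ k3]
      exact Finsupp.mem_support_iff.1 hbQ
    · apply ι.toRingHom.injective
      change ι _ = ι _
      have hae : ∀ p : MvPolynomial (Fin r) k,
          ι (MvPolynomial.aeval s p) = MvPolynomial.aeval (fun i => ι (s i)) p := fun p => by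
        rw [← MvPolynomial.comp_aeval_apply]
      rw [map_mul, hae, map_mul, hae]
      have a1 : ι (∏ i, s i ^ (b.repr (bP z - bQ z) i)) = mon v (bP z - bQ z) := by
        rw [map_prod, mon_basis hu.ne b]
        refine Finset.prod_congr rfl fun j _ => ?_
        rw [map_zpow₀, hιs1]
      have a2 := aeval_nq (k := k) hu.ne b (fun i => ι (s i)) hιs1 (bP z) (P z) hP0 k2
      have a3 := aeval_nq (k := k) hu.ne b (fun i => ι (s i)) hιs1 (bQ z) (Q z) hQ0 k3
      rw [a1]
      have hQn : mon v (bQ z) ≠ 0 := mon_ne hu.ne _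
      apply mul_left_cancel₀ hQn
      have a4 : mon v (bQ z) * mon v (bP z - bQ z) = mon v (bP z) := by
        rw [← mon_add hu.ne]
        congr 1
        abel
      rw [← mul_assoc (mon v (bQ z)) (mon v (bP z - bQ z)), a4]
      rw [a2, ← e1, ← a3]
      ring
    · intro h
      have h1 : bP z - bQ z = 0 := hu.inj (by rw [e5 h, map_zero])
      funext j
      rw [h1, map_zero]
      rfl
  · have hoT : (fun _ => 1 : G r) ∈ T := by
      rw [hT]
      exact Finset.mem_insert_self _ _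
    refine ⟨fun j => b.repr (fun _ => 1) j, ?_, ?_, ?_⟩
    · apply ι.toRingHom.injective
      change ι _ = ι _
      rw [← hone, map_prod, mon_basis hu.ne b]
      refine Finset.prod_congr rfl fun j _ => ?_
      rw [map_zpow₀, hιs1]
    · intro h j
      refine hb3 _ hoT ?_ j
      have h1 : ‖mon v (fun _ => 1)‖ < ‖mon v 0‖ := by
        rw [hone, mon_zero, norm_one]
        exact h
      have h2 := (norm_mon_lt hu.ne).1 h1
      rwa [map_zero] at h2
    · intro h
      have h0 : wt v (fun _ => 1) = wt v 0 := by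
        have h1 : ‖mon v (fun _ => 1)‖ = ‖mon v 0‖ := by
          rw [hone, mon_zero, norm_one]
          exact h
        rwa [norm_mon hu.ne, norm_mon hu.ne, Real.exp_eq_exp, neg_inj] at h1
      have h1 : (fun _ => 1 : G r) = 0 := hu.inj h0
      funext j
      rw [h1, map_zero]
      rfl
  · have hu0 : ∀ i, u i ≠ 0 := fun i h => hu.ne i (show ι (u i) = 0 by rw [h, map_zero])
    have huA : ∀ i, u i ∈ Algebra.adjoin k (Set.range u) := fun i =>
      Algebra.subset_adjoin ⟨i, rfl⟩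
    intro j
    exact monK_sluLoc hu0 huA _

end LUW
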