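import Mathlib

/-! Project LUW: (E2a) derivations and separability. -/

set_option autoImplicit false

namespace LUW

open Polynomial

universe u

variable {k K : Type u} [Field k] [Field K] [Algebra k K] [Algebra.EssFiniteType k K]

/-- `K/k` is separably generated. -/
def SG (k K : Type*) [Field k] [Field K] [Algebra k K] : Prop :=
  ∃ s : Finset K, IsTranscendenceBasis k ((↑) : s → K) ∧
    Algebra.IsSeparable (IntermediateField.adjoin k (s : Set K)) K

/-- No derivations over `E`: separable algebraic over `E`. -/
theorem sep_of_der (E : IntermediateField k K)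
    (h : ∀ D : Derivation k K K, (∀ e ∈ E, D e = 0) → D = 0) : Algebra.IsSeparable E K := by
  have : Algebra.EssFiniteType E K := Algebra.EssFiniteType.of_comp k E K
  have h1 : ∀ f : KaehlerDifferential E K →ₗ[K] K, f = 0 := by
    intro f
    apply Derivation.liftKaehlerDifferential_unique
    have h2 := h ((f.compDer (KaehlerDifferential.D E K)).restrictScalars k) (fun e he => by
      have h3 : (f.compDer (KaehlerDifferential.D E K)) (algebraMap E K ⟨e, he⟩) = 0 :=
        Derivation.map_algebraMap _ _
      exact h3)
    ext x
    have h4 := DFunLike.congr_fun h2 x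
    simpa using h4
  have : Algebra.FormallyUnramified E K := by
    rw [Algebra.formallyUnramified_iff]
    refine subsingleton_of_forall_eq 0 fun x => ?_
    rw [← Module.forall_dual_apply_eq_zero_iff K]
    intro f
    rw [h1 f]
    rfl
  exact Algebra.FormallyUnramified.isSeparable E K

omit [Algebra.EssFiniteType k K] in
open scoped IntermediateField.algebraAdjoinAdjoin in
private theorem fe_adjoin {n : ℕ} {z : Fin n → K}
    (hsep : Algebra.IsSeparable (IntermediateField.adjoin k (Set.range z)) K) :
    Algebra.FormallyEtale (Algebra.adjoin k (Set.range z)) K := by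
  have := hsep
  have h1 : Algebra.FormallyEtale (Algebra.adjoin k (Set.range z))
      (IntermediateField.adjoin k (Set.range z)) :=
    Algebra.FormallyEtale.of_isLocalization (nonZeroDivisors _)
  have h2 : Algebra.FormallyEtale (IntermediateField.adjoin k (Set.range z)) K :=
    Algebra.FormallyEtale.of_isSeparable _ K
  exact Algebra.FormallyEtale.comp _ (IntermediateField.adjoin k (Set.range z)) _

omit [Algebra.EssFiniteType k K] in
/-- A basis of the derivations of a separably generated function field. -/
theorem exists_der_basis (hsg : SG k K) (n : ℕ) (hn : Algebra.trdeg k K = n) :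
    ∃ (z : Fin n → K) (d : Fin n → Derivation k K K), (∀ i j, d i (z j) = if i = j then 1 else 0) ∧
      ∀ D : Derivation k K K, D = ∑ i, D (z i) • d i := by
  classical
  obtain ⟨s, hs, hsep⟩ := hsg
  have hcard : Fintype.card s = n := by
    have h1 := hs.cardinalMk_eq_trdeg
    rw [hn] at h1
    exact_mod_cast (Cardinal.mk_fintype s).symm.trans h1
  let e : Fin n ≃ s := (Fintype.equivFinOfCardEq hcard).symm
  let z : Fin n → K := fun i => (e i : K)
  have hz : AlgebraicIndependent k z := hs.1.comp e e.injective
  have hr : Set.range z = (s : Set K) := by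
    ext x
    constructor
    · rintro ⟨i, rfl⟩
      exact (e i).2
    · intro hx
      exact ⟨e.symm ⟨x, hx⟩, by simp [z]⟩
  have hsep' : Algebra.IsSeparable (IntermediateField.adjoin k (Set.range z)) K := by
    rw [hr]; exact hsep
  have hfe := fe_adjoin hsep'
  let alg1 : Algebra (MvPolynomial (Fin n) k) (Algebra.adjoin k (Set.range z)) :=
    (hz.aevalEquiv : MvPolynomial (Fin n) k →+* Algebra.adjoin k (Set.range z)).toAlgebra
  let alg2 : Algebra (MvPolynomial (Fin n) k) K :=
    ((MvPolynomial.aeval z : MvPolynomial (Fin n) k →ₐ[k] K) : MvPolynomial (Fin n) k →+* K).toAlgebra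
  have ha1 : ∀ P : MvPolynomial (Fin n) k,
      algebraMap (MvPolynomial (Fin n) k) (Algebra.adjoin k (Set.range z)) P = hz.aevalEquiv P :=
    fun P => rfl
  have ha2 : ∀ P : MvPolynomial (Fin n) k,
      algebraMap (MvPolynomial (Fin n) k) K P = MvPolynomial.aeval z P := fun P => rfl
  have tow1 : IsScalarTower k (MvPolynomial (Fin n) k) K :=
    IsScalarTower.of_algebraMap_eq fun c => by
      rw [ha2, MvPolynomial.algebraMap_eq, MvPolynomial.aeval_C]
  have tow2 : IsScalarTower (MvPolynomial (Fin n) k) (Algebra.adjoin k (Set.range z)) K :=
    IsScalarTower.of_algebraMap_eq fun P => by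
      rw [ha1, ha2, hz.algebraMap_aevalEquiv]
  have fe1 : Algebra.FormallyEtale (MvPolynomial (Fin n) k) (Algebra.adjoin k (Set.range z)) := by
    let e' : MvPolynomial (Fin n) k ≃ₐ[MvPolynomial (Fin n) k] Algebra.adjoin k (Set.range z) :=
      AlgEquiv.ofRingEquiv (f := hz.aevalEquiv.toRingEquiv) fun P => rfl
    exact Algebra.FormallyEtale.of_equiv e'
  have fe2 : Algebra.FormallyEtale (MvPolynomial (Fin n) k) K :=
    Algebra.FormallyEtale.comp _ (Algebra.adjoin k (Set.range z)) _
  let b : Module.Basis (Fin n) K (KaehlerDifferential k K) :=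
    (Algebra.TensorProduct.basis K (KaehlerDifferential.mvPolynomialBasis k (Fin n))).map
      (KaehlerDifferential.tensorKaehlerEquivOfFormallyEtale k (MvPolynomial (Fin n) k) K)
  have hb : ∀ i, b i = KaehlerDifferential.D k K (z i) := by
    intro i
    simp only [b, Module.Basis.map_apply, Algebra.TensorProduct.basis_apply,
      KaehlerDifferential.mvPolynomialBasis_apply,
      KaehlerDifferential.tensorKaehlerEquivOfFormallyEtale_apply,
      KaehlerDifferential.mapBaseChange_tmul, one_smul, KaehlerDifferential.map_D, ha2,
      MvPolynomial.aeval_X]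
  refine ⟨z, fun i => (b.coord i).compDer (KaehlerDifferential.D k K), fun i j => ?_, fun D => ?_⟩
  · change b.coord i (KaehlerDifferential.D k K (z j)) = _
    rw [← hb, Module.Basis.coord_apply, Module.Basis.repr_self, Finsupp.single_apply]
    simp only [eq_comm]
  · have h1 : D.liftKaehlerDifferential = ∑ i, D (z i) • b.coord i := by
      apply b.ext
      intro j
      rw [hb, Derivation.liftKaehlerDifferential_comp_D, LinearMap.sum_apply]
      simp only [LinearMap.smul_apply]
      rw [Finset.sum_eq_single j]
      · rw [← hb, Module.Basis.coord_apply, Module.Basis.repr_self, Finsupp.single_eq_same,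
          smul_eq_mul, mul_one]
      · intro i _ hij
        rw [← hb, Module.Basis.coord_apply, Module.Basis.repr_self,
          Finsupp.single_eq_of_ne hij, smul_zero]
      · intro hj
        exact absurd (Finset.mem_univ j) hj
    ext x
    have h2 := LinearMap.congr_fun h1 (KaehlerDifferential.D k K x)
    rw [Derivation.liftKaehlerDifferential_comp_D, LinearMap.sum_apply] at h2
    rw [h2]
    have h3 : ∀ s : Finset (Fin n), (∑ i ∈ s, D (z i) •
        ((b.coord i).compDer (KaehlerDifferential.D k K) : Derivation k K K)) x
        = ∑ i ∈ s, D (z i) • (b.coord i) (KaehlerDifferential.D k K x) := by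
      intro s
      induction s using Finset.induction_on with
      | empty => simp
      | insert a s ha ih =>
        rw [Finset.sum_insert ha, Finset.sum_insert ha, Derivation.add_apply, ih]
        rfl
    exact (h3 Finset.univ).symm

end LUW
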