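import Pool.Agent.LUW.Basic
import Pool.Agent.LUW.SepDer

/-! Project LUW: choice of u, Abhyankar case. -/

set_option autoImplicit false

namespace LUW

open Polynomial

universe u

private theorem ua_sum {k K : Type u} [Field k] [Field K] [Algebra k K] {n : ℕ}
    (c : Fin n → K) (d : Fin n → Derivation k K K) (a : K) :
    (∑ j, c j • d j) a = ∑ j, c j * d j a := by
  have h := map_sum (Derivation.coeFnAddMonoidHom (R := k) (A := K) (M := K))
    (fun j => c j • d j) Finset.univ
  have h2 := congrFun h a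
  rw [Finset.sum_apply] at h2
  exact h2

/-- `D (h^p x) = h^p D x` in characteristic `p` -/
private theorem ua_pow {k K : Type u} [Field k] [Field K] [Algebra k K] (p : ℕ) [CharP K p]
    (D : Derivation k K K) (h x : K) : D (h ^ p * x) = h ^ p * D x := by
  rw [D.leibniz, D.leibniz_pow, nsmul_eq_mul, CharP.cast_eq_zero, zero_mul, smul_zero, add_zero,
    smul_eq_mul]

variable {k K : Type u} [Field k] [Field K] [Algebra k K]
  [Algebra.EssFiniteType k K] {Ω : Type*} [NormedField Ω] [Algebra k Ω] [Big k Ω] {r : ℕ}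

omit [Algebra.EssFiniteType k K] [Big k Ω] in
/-- a small element -/
private theorem ua_small (ι : K →ₐ[k] Ω) (hr : 0 < r) (y : Fin r → K)
    (hy : Base fun i => ι (y i)) : ∃ g : K, 0 < ‖ι g‖ ∧ ‖ι g‖ < 1 := by
  set i0 : Fin r := ⟨0, hr⟩
  have hne : ι (y i0) ≠ 0 := hy.ne i0
  have hpos : 0 < ‖ι (y i0)‖ := norm_pos_iff.2 hne
  have h1 : ‖ι (y i0)‖ ≠ 1 := by
    intro h
    have h2 : wt (fun i => ι (y i)) (Pi.single i0 1) = wt (fun i => ι (y i)) 0 := by
      rw [map_zero]
      change ∑ i, (((Pi.single i0 1 : G r) i : ℤ) : ℝ) * (-Real.log ‖ι (y i)‖) = 0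
      rw [Finset.sum_eq_single i0]
      · rw [h]; simp
      · intro b _ hb
        rw [Pi.single_eq_of_ne hb]; simp
      · intro h; exact absurd (Finset.mem_univ _) h
    have h3 := congrFun (hy.inj h2) i0
    rw [Pi.single_eq_same] at h3
    exact one_ne_zero h3
  rcases lt_or_gt_of_ne h1 with h | h
  · exact ⟨y i0, hpos, h⟩
  · refine ⟨(y i0)⁻¹, ?_, ?_⟩
    · rw [map_inv₀, norm_inv]; positivity
    · rw [map_inv₀, norm_inv]; exact inv_lt_one_of_one_lt₀ h

/-- Changing the toric variables so that they are a separating transcendence basis. -/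
theorem exists_ua (hsg : SG k K) (p : ℕ) [Fact p.Prime] [CharP k p] (ι : K →ₐ[k] Ω) (hr : 0 < r)
    (hn : Algebra.trdeg k K = (r : ℕ)) (y : Fin r → K) (hy : Base fun i => ι (y i)) :
    ∃ (u : Fin r → K), (∀ i, ‖ι (u i)‖ = ‖ι (y i)‖) ∧ (Base fun i => ι (u i)) ∧
      Algebra.IsSeparable (IntermediateField.adjoin k (Set.range u)) K := by
  classical
  have hp : p ≠ 0 := (Fact.out : p.Prime).ne_zero
  have hcK : CharP K p := charP_of_injective_algebraMap (algebraMap k K).injective p
  obtain ⟨z, d, hdz, hD⟩ := exists_der_basis (k := k) (K := K) hsg r hn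
  obtain ⟨g, hg0, hg1⟩ := ua_small ι hr y hy
  have hgne : g ≠ 0 := by
    rintro rfl
    rw [map_zero, norm_zero] at hg0
    exact lt_irrefl _ hg0
  -- the matrix
  let N : Matrix (Fin r) (Fin r) K := fun i j => -(d j (y i))
  -- good exponents
  have hinj : Function.Injective fun m : ℕ => (g ^ m) ^ p := by
    intro m m' hm
    have h1 : ‖ι g‖ ^ (m * p) = ‖ι g‖ ^ (m' * p) := by
      have h2 := congrArg (fun a => ‖ι a‖) hm
      simpa only [map_pow, norm_pow, ← pow_mul] using h2
    have h3 := (pow_right_strictAnti₀ hg0 hg1).injective h1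
    exact Nat.eq_of_mul_eq_mul_right (Nat.pos_of_ne_zero hp) h3
  have hdet : ∀ᶠ m : ℕ in Filter.atTop, N.charpoly.eval ((g ^ m) ^ p) ≠ 0 := by
    rw [← Nat.cofinite_eq_atTop]
    have hfin : {x : K | N.charpoly.eval x = 0}.Finite := by
      have h0 : N.charpoly ≠ 0 := (Matrix.charpoly_monic N).ne_zero
      refine (N.charpoly.roots.toFinset.finite_toSet).subset fun x hx => ?_
      simpa [h0] using hx
    have := hfin.preimage (f := fun m : ℕ => (g ^ m) ^ p) hinj.injOn
    filter_upwards [this.compl_mem_cofinite] with m hm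
    exact hm
  have hsmall : ∀ i : Fin r, ∀ᶠ m : ℕ in Filter.atTop,
      ‖ι ((g ^ m) ^ p * z i)‖ < ‖ι (y i)‖ := by
    intro i
    have h1 : Filter.Tendsto (fun m : ℕ => ‖ι ((g ^ m) ^ p * z i)‖) Filter.atTop
        (nhds 0) := by
      have h2 : Filter.Tendsto (fun m : ℕ => (‖ι g‖ ^ p) ^ m * ‖ι (z i)‖) Filter.atTop
          (nhds (0 * ‖ι (z i)‖)) :=
        (tendsto_pow_atTop_nhds_zero_of_lt_one (by positivity)
          (pow_lt_one₀ hg0.le hg1 hp)).mul_const _
      rw [zero_mul] at h2
      refine h2.congr fun m => ?_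
      rw [map_mul, map_pow, map_pow, norm_mul, norm_pow, norm_pow, ← pow_mul, ← pow_mul,
        mul_comm m p]
    exact h1.eventually_lt_const (norm_pos_iff.2 (hy.ne i))
  obtain ⟨m, hm1, hm2⟩ := (hdet.and (Filter.eventually_all.2 hsmall)).exists
  set h : K := g ^ m with hh
  let v : Fin r → K := fun i => y i + h ^ p * z i
  have hnorm : ∀ i : Fin r, ‖ι (v i)‖ = ‖ι (y i)‖ := by
    intro i
    refine Big.norm_eq k ?_
    have e : ι (v i) - ι (y i) = ι (h ^ p * z i) := by
      rw [← map_sub]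
      congr 1
      simp only [v]
      ring
    rw [e]
    exact hm2 i
  refine ⟨v, hnorm, ⟨fun i => ?_, ?_⟩, ?_⟩
  · have := norm_pos_iff.2 (hy.ne i)
    rw [← hnorm i] at this
    exact norm_pos_iff.1 this
  · have e : wt (fun i => ι (v i)) = wt (fun i => ι (y i)) := by
      refine AddMonoidHom.ext fun e => ?_
      change ∑ i : Fin r, ((e i : ℤ) : ℝ) * (-Real.log ‖ι (v i)‖) =
        ∑ i : Fin r, ((e i : ℤ) : ℝ) * (-Real.log ‖ι (y i)‖)
      exact Finset.sum_congr rfl fun i _ => by rw [hnorm i]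
    rw [e]
    exact hy.inj
  · refine sep_of_der _ fun D hDE => ?_
    have hDv : ∀ i : Fin r, D (v i) = 0 := by
      intro i
      exact hDE _ (IntermediateField.subset_adjoin k _ ⟨i, rfl⟩)
    have h1 : (Matrix.scalar (Fin r) (h ^ p) - N).mulVec (fun j => D (z j)) = 0 := by
      ext i
      rw [Pi.zero_apply, Matrix.sub_mulVec, Pi.sub_apply]
      have e1 : (Matrix.scalar (Fin r) (h ^ p)).mulVec (fun j => D (z j)) i =
          h ^ p * D (z i) := by
        rw [Matrix.scalar_apply, Matrix.mulVec_diagonal]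
      have e2 : N.mulVec (fun j => D (z j)) i = -D (y i) := by
        conv_rhs => rw [hD D]
        rw [Matrix.mulVec, dotProduct]
        simp only [N]
        rw [ua_sum, ← Finset.sum_neg_distrib]
        refine Finset.sum_congr rfl fun j _ => ?_
        ring
      rw [e1, e2, sub_neg_eq_add, ← ua_pow p D h (z i), ← map_add, add_comm]
      exact hDv i
    have h2 : (fun j => D (z j)) = 0 := by
      refine Matrix.eq_zero_of_mulVec_eq_zero ?_ h1
      rw [← Matrix.eval_charpoly]
      exact hm1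
    rw [hD D]
    refine Finset.sum_eq_zero fun j _ => ?_
    rw [congrFun h2 j, Pi.zero_apply, zero_smul]

end LUW
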