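import Pool.Agent.LUW.MainS
import Pool.Agent.LUW.AbhMon
import Pool.Agent.LUW.ExistsUa
import Pool.Agent.LUW.AbhFG
import Pool.Agent.helper90.LY.RelDense

/-! Project LUW: the Abhyankar case (value group of rank `n`, residue field `k`). -/

set_option autoImplicit false

namespace LUW

open Polynomial

universe u

variable {k : Type u} [Field k]

/-- There are no proper algebraic immediate extensions of the closure of `k(u)`. -/
theorem mem_clF_of_alg {Ω : Type*} [NormedField Ω] [Algebra k Ω] [Big k Ω] {r : ℕ}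
    {u : Fin r → Ω} (hu : Base u) {L : IntermediateField k Ω}
    (huL : ∀ i, u i ∈ L) (hI : Imm u L) {t : Ω} (ht : t ∈ L) (Q : Polynomial Ω) (hQ : Q ≠ 0)
    (hQF : ∀ i, Q.coeff i ∈ clF k u) (hQt : Q.eval t = 0) : t ∈ clF k u := by
  by_contra hF
  obtain ⟨ρ, hL, hC⟩ := lim_cau hu huL hI ht hF
  obtain ⟨R, hR, h⟩ := hC Q hQ hQF
  have hR0 : 0 < R := hL.pos.trans hR
  apply hQ
  have h1 : Polynomial.taylor t Q = 0 := by
    ext i
    have h2 := h i
    rw [hQt, norm_zero] at h2
    have h3 : ‖(Polynomial.taylor t Q).coeff i‖ ≤ 0 := by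
      by_contra h4
      exact absurd h2 (not_le.2 (mul_pos (not_le.1 h4) (pow_pos hR0 i)))
    rw [Polynomial.coeff_zero]
    exact norm_le_zero_iff.1 h3
  exact (Polynomial.taylor_injective t) (h1.trans (map_zero _).symm)

variable {K : Type u} [Field K] [Algebra k K]

/-- Normalizing the toric variables. -/
theorem norm_base {Ω : Type*} [NormedField Ω] [Algebra k Ω] {r : ℕ} (ι : K →ₐ[k] Ω)
    (u : Fin r → K) (hu : Base fun i => ι (u i))
    (hI : ∀ z : K, z ≠ 0 → ∃ g : G r, ‖ι z‖ = ‖mon (fun i => ι (u i)) g‖) :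
    ∃ u' : Fin r → K, (Base fun i => ι (u' i)) ∧ (∀ i, ‖ι (u' i)‖ < 1) ∧
      IntermediateField.adjoin k (Set.range u') = IntermediateField.adjoin k (Set.range u) ∧
      ∀ z : K, z ≠ 0 → ∃ g : G r, ‖ι z‖ = ‖mon (fun i => ι (u' i)) g‖ := by
  classical
  have hwt : ∀ i : Fin r, ‖ι (u i)‖ ≠ 1 := by
    intro i h1
    have h2 : wt (fun i => ι (u i)) (Pi.single i 1) = wt (fun i => ι (u i)) 0 := by
      have h3 : ‖mon (fun i => ι (u i)) (Pi.single i 1)‖ = ‖mon (fun i => ι (u i)) 0‖ := by
        rw [mon_zero, norm_one, mon, Finset.prod_eq_single i]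
        · simpa using h1
        · intro j _ hj
          simp [hj]
        · simp
      rw [norm_mon hu.ne, norm_mon hu.ne, Real.exp_eq_exp, neg_inj] at h3
      exact h3
    have h4 := congrFun (hu.inj h2) i
    simp at h4
  let e : Fin r → ℤ := fun i => if ‖ι (u i)‖ < 1 then 1 else -1
  have he : ∀ i, e i = 1 ∨ e i = -1 := by
    intro i
    by_cases h : ‖ι (u i)‖ < 1
    · left; exact if_pos h
    · right; exact if_neg h
  have hee : ∀ i, e i * e i = 1 := by
    intro i
    rcases he i with h | h <;> rw [h] <;> norm_num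
  let u' : Fin r → K := fun i => u i ^ e i
  have hu'v : ∀ i, ι (u' i) = ι (u i) ^ e i := fun i => map_zpow₀ ι _ _
  have hmon' : ∀ g : G r, mon (fun i => ι (u' i)) g =
      mon (fun i => ι (u i)) (fun i => e i * g i) := by
    intro g
    simp only [mon, hu'v]
    exact Finset.prod_congr rfl fun i _ => (zpow_mul _ _ _).symm
  have hu'ne : ∀ i, ι (u' i) ≠ 0 := fun i => by
    rw [hu'v]; exact zpow_ne_zero _ (hu.ne i)
  refine ⟨u', ⟨hu'ne, fun a b hab => ?_⟩, fun i => ?_, ?_, fun z hz => ?_⟩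
  · have h1 : ‖mon (fun i => ι (u' i)) a‖ = ‖mon (fun i => ι (u' i)) b‖ := by
      rw [norm_mon hu'ne, norm_mon hu'ne, hab]
    rw [hmon', hmon', norm_mon hu.ne, norm_mon hu.ne, Real.exp_eq_exp, neg_inj] at h1
    have h2 := hu.inj h1
    funext i
    have h3 := congrFun h2 i
    have h4 : e i * (e i * a i) = e i * (e i * b i) := congrArg (fun z => e i * z) h3
    rwa [← mul_assoc, ← mul_assoc, hee, one_mul, one_mul] at h4
  · rw [hu'v, norm_zpow]
    by_cases h : ‖ι (u i)‖ < 1
    · have h1 : e i = 1 := if_pos h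
      rw [h1, zpow_one]
      exact h
    · have h1 : e i = -1 := if_neg h
      rw [h1, zpow_neg, zpow_one]
      exact inv_lt_one_of_one_lt₀ (lt_of_le_of_ne (not_lt.1 h) (Ne.symm (hwt i)))
  · apply le_antisymm
    · rw [IntermediateField.adjoin_le_iff]
      rintro _ ⟨i, rfl⟩
      exact zpow_mem (IntermediateField.subset_adjoin k _ (Set.mem_range_self i)) _
    · rw [IntermediateField.adjoin_le_iff]
      rintro _ ⟨i, rfl⟩
      have h1 : u i = u' i ^ e i := by
        change u i = (u i ^ e i) ^ e i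
        rw [← zpow_mul, hee, zpow_one]
      rw [h1]
      exact zpow_mem (IntermediateField.subset_adjoin k _ (Set.mem_range_self i)) _
  · obtain ⟨g, hg⟩ := hI z hz
    refine ⟨fun i => e i * g i, ?_⟩
    rw [hg, hmon']
    congr 2
    funext i
    rw [← mul_assoc, hee, one_mul]

variable [Algebra.EssFiniteType k K]

/-- Relative strong local uniformization, Abhyankar case, over an arbitrary field of characteristic
`p`: rank one, residue field `k`, value group of rank `n`. -/
theorem abh_rel (p : ℕ) [Fact p.Prime] [CharP k p] (V : ValuationSubring K)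
    (hV : ∀ c : k, algebraMap k K c ∈ V) (harch : MulArchimedean V.ValueGroup)
    (hres : ∀ x ∈ V, ∃ c : k, V.valuation (x - algebraMap k K c) < 1)
    (hfg : Group.FG (V.ValueGroup)ˣ) (r : ℕ)
    (hrk : Module.finrank ℤ (Additive (V.ValueGroup)ˣ) = r)
    (hr : Algebra.trdeg k K = (r : ℕ)) (hr0 : 0 < r) :
    LY.RelU k V r := by
  classical
  obtain ⟨Ω, _, _, _, _, _, ι, hR, hι⟩ :=
    exists_omega_s (k := k) p V hV (Main_ne_top V (by rw [hrk]; exact hr0)) harch hres
  have hBk : Big k Ω := big_of_tower k (SeparableClosure k)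
  have hresK : ResK ι := resK_of_val V ι hι hres
  have hsg : SG k K := sg_of_res p hresK
  obtain ⟨y0, hy0, hyI⟩ := exists_basis (k := k) V ι hι r hfg hrk
  obtain ⟨u0, hnorm, hu0, hsep0⟩ := exists_ua hsg p ι hr0 hr y0 hy0
  have hmon : ∀ g, ‖mon (fun i => ι (u0 i)) g‖ = ‖mon (fun i => ι (y0 i)) g‖ := by
    intro g
    simp only [mon, norm_prod, norm_zpow, hnorm]
  have hI0 : ∀ z : K, z ≠ 0 → ∃ g, ‖ι z‖ = ‖mon (fun i => ι (u0 i)) g‖ := by
    intro z hz
    obtain ⟨g, hg⟩ := hyI z hz
    exact ⟨g, hg.trans (hmon g).symm⟩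
  obtain ⟨u, hu, hu1, hadj, hI⟩ := norm_base ι u0 hu0 hI0
  rw [← hadj] at hsep0
  have halg : Algebra.IsAlgebraic (IntermediateField.adjoin k (Set.range u)) K := inferInstance
  have hfd := Main_fd (IntermediateField.adjoin k (Set.range u)) halg
  have hImm : Imm (k := k) (fun i => ι (u i)) (cl k (Set.range ι)) := imm_cl hresK u hu hI
  have hlt : ∀ x z : K, ‖ι x‖ < ‖ι z‖ ↔ V.valuation x < V.valuation z := by
    intro x z
    rw [← not_le, ← not_le, hι]
  have hlt1 : ∀ x : K, ‖ι x‖ < 1 ↔ V.valuation x < 1 := by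
    intro x
    rw [← V.valuation.map_one, ← hlt, map_one, norm_one]
  have heq1 : ∀ x : K, ‖ι x‖ = 1 ↔ V.valuation x = 1 := by
    intro x
    have h1 := hι x 1
    have h2 := hι 1 x
    rw [map_one, map_one, norm_one] at h1 h2
    constructor
    · intro h
      exact le_antisymm (h1.1 h.le) (h2.1 h.ge)
    · intro h
      exact le_antisymm (h1.2 h.le) (h2.2 h.ge)
  refine LY.rel_of_dense V hV r r hr
    (IntermediateField.adjoin k (Set.range u)) hsep0 ?_ harch ?_ ?_
  · exact ⟨u ⟨0, hr0⟩, fun h => hu.ne ⟨0, hr0⟩ (by rw [h, map_zero]), (hlt1 _).1 (hu1 _)⟩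
  · -- density
    intro z w hw
    have hw' : 0 < ‖ι w‖ := norm_pos_iff.2 ((_root_.map_ne_zero ι).2 hw)
    have himg : Set.range (fun i => ι (u i)) = ι '' (Set.range u) := by
      rw [← Set.range_comp]
      rfl
    have hEF : ∀ e ∈ IntermediateField.adjoin k (Set.range u),
        ι e ∈ clF k (fun i => ι (u i)) := by
      intro e he
      refine adjoin_le_cl _ ?_
      rw [himg, ← IntermediateField.adjoin_map]
      exact ⟨e, he, rfl⟩
    have hz : ι z ∈ clF k (fun i => ι (u i)) := by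
      have hint : IsIntegral (IntermediateField.adjoin k (Set.range u)) z :=
        IsIntegral.of_finite _ z
      refine mem_clF_of_alg hu (L := cl k (Set.range ι)) (fun i => subset_cl _ ⟨u i, rfl⟩) hImm
        (subset_cl _ ⟨z, rfl⟩)
        ((minpoly (IntermediateField.adjoin k (Set.range u)) z).map
          ((ι : K →+* Ω).comp (algebraMap (IntermediateField.adjoin k (Set.range u)) K))) ?_ ?_ ?_
      · exact (Polynomial.map_ne_zero_iff (RingHom.injective _)).2 (minpoly.ne_zero hint)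
      · intro i
        rw [Polynomial.coeff_map]
        exact hEF _ (Subtype.mem _)
      · rw [Polynomial.eval_map]
        change Polynomial.eval₂ _ ((ι : K →+* Ω) z) _ = 0
        rw [← Polynomial.hom_eval₂]
        have h1 : Polynomial.eval₂ (algebraMap (IntermediateField.adjoin k (Set.range u)) K) z
            (minpoly (IntermediateField.adjoin k (Set.range u)) z) = 0 := minpoly.aeval _ z
        rw [h1, map_zero]
    obtain ⟨x, hx, hxz⟩ := mem_cl_iff.1 hz ‖ι w‖ hw'
    rw [himg, ← IntermediateField.adjoin_map] at hx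
    obtain ⟨e, he, rfl⟩ := hx
    refine ⟨e, he, (hlt _ _).1 ?_⟩
    rw [map_sub]
    exact hxz
  · -- monomialization
    have hB : ((Finset.univ.image u : Finset K) : Set K) = Set.range u := by
      rw [Finset.coe_image, Finset.coe_univ, Set.image_univ]
    refine ⟨Finset.univ.image u, by rw [hB], fun Z hZ => ?_⟩
    rw [hB]
    obtain ⟨s, hs1, hsE, hsZ, ⟨a, ha0, ha2, ha3⟩, hsH⟩ := abh_mon ι u hu hu1 Z hZ
    refine ⟨s, fun i => ⟨(hs1 i).1, (hlt1 _).1 (hs1 i).2⟩, hsE, fun z hz => ?_,
      ∏ i, u i, ?_, ?_, ?_, hsH⟩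
    · obtain ⟨a, N, D, h1, h2, h3, h5, h6⟩ := hsZ z hz
      exact ⟨a, N, D, h1, h2, h3, fun i hi => absurd i.2 (not_lt.2 hi),
        fun h i _ => h5 ((hlt1 z).2 h) i, fun h => h6 ((heq1 z).2 h)⟩
    · exact prod_mem fun i _ => Algebra.subset_adjoin ⟨i, rfl⟩
    · exact Finset.prod_ne_zero_iff.2 fun i _ h => hu.ne i (by rw [h, map_zero])
    · refine ⟨a, 1, 1, ?_, ?_, ?_, fun i hi => absurd i.2 (not_lt.2 hi),
        fun h i _ => ha2 ((hlt1 _).2 h) i, fun h => ha3 ((heq1 _).2 h)⟩
      · rw [map_one]; exact one_ne_zero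
      · rw [map_one]; exact one_ne_zero
      · rw [map_one, mul_one, mul_one, ha0]

/-- `abh_rel`; the value group is automatically finitely generated. -/
theorem abh_rel_any (p : ℕ) [Fact p.Prime] [CharP k p] (V : ValuationSubring K)
    (hV : ∀ c : k, algebraMap k K c ∈ V) (harch : MulArchimedean V.ValueGroup)
    (hres : ∀ x ∈ V, ∃ c : k, V.valuation (x - algebraMap k K c) < 1) (r : ℕ)
    (hrk : Module.finrank ℤ (Additive (V.ValueGroup)ˣ) = r)
    (hr : Algebra.trdeg k K = (r : ℕ)) (hr0 : 0 < r) :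
    LY.RelU k V r :=
  abh_rel p V hV harch hres (fg_of_abh V hV harch hres r hrk hr hr0) r hrk hr hr0

end LUW
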