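import Pool.Agent.LUW.Basic

/-! Project LUW: (S1) solving h^p - h = f. -/

set_option autoImplicit false

namespace LUW

open Polynomial

variable {k : Type*} [Field k] {Ω : Type*} [NormedField Ω] [Algebra k Ω] [Big k Ω]

variable [IsSepClosed k] (p : ℕ) [Fact p.Prime] [CharP k p]

omit [Big k Ω] [IsSepClosed k] in
private theorem charP_Om (k : Type*) [Field k] {Ω : Type*} [NormedField Ω] [Algebra k Ω] (p : ℕ)
    [CharP k p] : CharP Ω p :=
  charP_of_injective_algebraMap (algebraMap k Ω).injective p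

/-- Elements of norm at most one of a closed field are of the form `h^p - h`. -/
theorem as_small (N : IntermediateField k Ω) (hN : IsClosed (N : Set Ω)) {f : Ω} (hf : f ∈ N)
    (h : ∃ c : k, ‖f - algebraMap k Ω c‖ < 1) : ∃ e ∈ N, e ^ p - e = f := by
  have _ : CharP Ω p := charP_Om k p
  have _ : CompleteSpace Ω := Big.complete k
  have hp : p.Prime := Fact.out
  obtain ⟨c, hc⟩ := h
  -- the constant part
  obtain ⟨d, hd⟩ : ∃ d : k, d ^ p - d = c := by
    have h1 : (X ^ p - X - C c : k[X]).degree ≠ 0 := by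
      apply ne_of_gt
      apply natDegree_pos_iff_degree_pos.1
      rw [natDegree_sub_C, FiniteField.X_pow_card_sub_X_natDegree_eq k hp.one_lt]
      exact hp.pos
    have h2 : (X ^ p - X - C c : k[X]).Separable := by
      rw [separable_def]
      have h3 : derivative (X ^ p - X - C c : k[X]) = -1 := by
        simp [derivative_X_pow, CharP.cast_eq_zero]
      rw [h3]
      exact isCoprime_one_right.neg_right
    obtain ⟨d, hd⟩ := IsSepClosed.exists_root _ h1 h2
    refine ⟨d, ?_⟩
    rw [IsRoot.def, eval_sub, eval_sub, eval_pow, eval_X, eval_C] at hd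
    exact sub_eq_zero.1 hd
  -- the small part
  set ε : Ω := f - algebraMap k Ω c with hε
  have hεN : ε ∈ N := sub_mem hf (N.algebraMap_mem c)
  have hsum : Summable fun i : ℕ => ε ^ p ^ i := by
    refine Summable.of_norm_bounded (g := fun i : ℕ => ‖ε‖ ^ i)
      (summable_geometric_of_lt_one (norm_nonneg _) hc) fun i => ?_
    rw [norm_pow]
    exact pow_le_pow_of_le_one (norm_nonneg _) hc.le (Nat.lt_pow_self hp.one_lt).le
  set s : Ω := ∑' i : ℕ, ε ^ p ^ i with hs
  have hsN : s ∈ N := by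
    refine hN.mem_of_tendsto hsum.hasSum.tendsto_sum_nat (Filter.Eventually.of_forall fun n => ?_)
    exact sum_mem fun i _ => pow_mem hεN _
  have hsp : s ^ p = ∑' i : ℕ, ε ^ p ^ (i + 1) := by
    have h1 := hsum.hasSum.map (frobenius Ω p) (continuous_pow p)
    have h2 : (⇑(frobenius Ω p) ∘ fun i : ℕ => ε ^ p ^ i) = fun i : ℕ => ε ^ p ^ (i + 1) := by
      funext i
      simp only [Function.comp, frobenius_def]
      rw [← pow_mul, pow_succ]
    rw [h2] at h1
    exact h1.tsum_eq.symm
  have hs0 : s = ε + s ^ p := by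
    rw [hsp, hs, hsum.tsum_eq_zero_add, pow_zero, pow_one]
  refine ⟨algebraMap k Ω d - s, sub_mem (N.algebraMap_mem d) hsN, ?_⟩
  have h3 : (algebraMap k Ω d - s) ^ p = algebraMap k Ω d ^ p - s ^ p := sub_pow_char _ _
  rw [h3]
  have h4 : algebraMap k Ω d ^ p - algebraMap k Ω d = algebraMap k Ω c := by
    rw [← map_pow, ← map_sub, hd]
  have h5 : f = ε + algebraMap k Ω c := by rw [hε]; ring
  rw [h5, ← h4]
  linear_combination hs0

/-- Uniqueness up to `𝔽_p`. -/
theorem as_unique {N : IntermediateField k Ω} {z e : Ω} (he : e ∈ N)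
    (h : z ^ p - z = e ^ p - e) : z ∈ N := by
  have _ : CharP Ω p := charP_Om k p
  have h1 : (z - e) ^ p = z - e := by
    have h2 : (z - e) ^ p = z ^ p - e ^ p := sub_pow_char _ _
    rw [h2]
    linear_combination h
  have h2 : z - e ∈ (⊥ : Subfield Ω) := (Subfield.mem_bot_iff_pow_eq_self Ω p).2 h1
  have h3 : z - e ∈ N := (bot_le : (⊥ : Subfield Ω) ≤ N.toSubfield) h2
  have h4 := add_mem h3 he
  rwa [sub_add_cancel] at h4

omit [IsSepClosed k] [CharP k p] in
variable (k) in
include k in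
/-- the norm of a solution -/
theorem norm_as {z f : Ω} (h : z ^ p - z = f) (hf : 1 < ‖f‖) : ‖z‖ ^ p = ‖f‖ := by
  have hp : p.Prime := Fact.out
  have h1 : 1 < ‖z‖ := by
    by_contra h2
    push Not at h2
    have h3 := Big.sub_le k (z ^ p) z
    rw [h, norm_pow] at h3
    have h4 : ‖z‖ ^ p ≤ 1 := pow_le_one₀ (norm_nonneg _) h2
    exact absurd (h3.trans (max_le h4 h2)) (not_le.2 hf)
  have h5 : ‖z‖ < ‖z‖ ^ p := by
    calc ‖z‖ = ‖z‖ ^ 1 := (pow_one _).symm
      _ < ‖z‖ ^ p := pow_lt_pow_right₀ h1 hp.one_lt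
  have h6 := Big.norm_eq k (x := f) (y := z ^ p) (by
    rw [← h, norm_pow, show z ^ p - z - z ^ p = -z by ring, norm_neg]
    exact h5)
  rw [h6, norm_pow]

end LUW
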