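import Pool.Agent.LUW.Defs

/-! Project LUW: (C6) Artin-Schreier reduction in the algebra. -/

set_option autoImplicit false

namespace LUW

open Polynomial

/-- A `p`-th root of the projection of `k` onto `k^p`. -/
structure RootProj (k : Type*) [Field k] (p : ℕ) (κ : k → k) : Prop where
  add : ∀ a b, κ (a + b) = κ a + κ b
  mul : ∀ a b, κ (a ^ p * b) = a * κ b
  one : κ 1 = 1

theorem exists_rootProj (k : Type*) [Field k] (p : ℕ) [hp : Fact p.Prime] [CharP k p] :
    ∃ κ : k → k, RootProj k p κ := by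
  classical
  let F : Subfield k := (frobenius k p).fieldRange
  obtain ⟨g, hg⟩ := (Algebra.linearMap F k).exists_leftInverse_of_injective
    (LinearMap.ker_eq_bot.2 (algebraMap F k).injective)
  have hg1 : ∀ a : F, g (a : k) = a := fun a => LinearMap.congr_fun hg a
  have hroot : ∀ a : F, ∃ b : k, b ^ p = a := fun a => by
    obtain ⟨b, hb⟩ := a.2
    exact ⟨b, hb⟩
  choose ρ hρ using hroot
  have hinj : Function.Injective fun a : k => a ^ p := (frobenius k p).injective
  refine ⟨fun c => ρ (g c), ⟨fun a b => hinj ?_, fun a b => hinj ?_, hinj ?_⟩⟩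
  · change ρ (g (a + b)) ^ p = (ρ (g a) + ρ (g b)) ^ p
    rw [add_pow_char, hρ, hρ, hρ, map_add]
    rfl
  · change ρ (g (a ^ p * b)) ^ p = (a * ρ (g b)) ^ p
    rw [mul_pow, hρ, hρ]
    have h1 : a ^ p * b = (⟨a ^ p, ⟨a, rfl⟩⟩ : F) • b := rfl
    rw [h1, map_smul]
    rfl
  · change ρ (g 1) ^ p = 1 ^ p
    rw [hρ, one_pow]
    have h1 := hg1 1
    rw [show ((1 : F) : k) = 1 from rfl] at h1
    rw [h1]
    rfl

namespace RootProj

variable {k : Type*} [Field k] {p : ℕ} {κ : k → k} (h : RootProj k p κ)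
include h

theorem pow (a : k) : κ (a ^ p) = a := by
  have := h.mul a 1
  rwa [mul_one, h.one, mul_one] at this

theorem zero : κ 0 = 0 := by
  have := h.add 0 0
  rw [add_zero] at this
  exact left_eq_add.1 this

theorem sub_self (c : k) : κ (c - κ c ^ p) = 0 := by
  have h1 := h.add (c - κ c ^ p) (κ c ^ p)
  rw [sub_add_cancel, h.pow] at h1
  linear_combination -h1

theorem sum {ι : Type*} (s : Finset ι) (f : ι → k) : κ (∑ i ∈ s, f i) = ∑ i ∈ s, κ (f i) := by
  classical
  induction s using Finset.induction_on with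
  | empty => simpa using h.zero
  | insert a s ha ih => rw [Finset.sum_insert ha, Finset.sum_insert ha, h.add, ih]

end RootProj

variable {k : Type*} [Field k] {r : ℕ}

/-- The exponents which are reduced. -/
def PDiv (p : ℕ) (q : Ex r) : Prop := q ≠ 0 ∧ ∃ q' : Ex r, q = p • q'

open Classical in
/-- Reduction of a coefficient. -/
noncomputable def rd (p : ℕ) (κ : k → k) (q : Ex r) (c : k) : k :=
  if PDiv p q then c - κ c ^ p else c

theorem rd_of_not {p : ℕ} {κ : k → k} {q : Ex r} (h : ¬ PDiv p q) (c : k) : rd p κ q c = c :=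
  if_neg h

theorem rd_of {p : ℕ} {κ : k → k} {q : Ex r} (h : PDiv p q) (c : k) :
    rd p κ q c = c - κ c ^ p := if_pos h

/-- The coefficients at nonzero exponents divisible by `p` have no component in `k^p`. -/
def Reduced (p : ℕ) (κ : k → k) (P : A k r) : Prop := ∀ q, PDiv p q → κ (P.coeff q) = 0

theorem rd_eq {p : ℕ} [Fact p.Prime] {κ : k → k} {q : Ex r} {c : k} (h : PDiv p q → κ c = 0) :
    rd p κ q c = c := by
  by_cases hq : PDiv p q
  · rw [rd_of hq, h hq, zero_pow (Fact.out : p.Prime).ne_zero, sub_zero]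
  · exact rd_of_not hq c

/-- The size of an exponent. -/
private def rsize (q : Ex r) : ℕ := (∑ i, (q.1 i).natAbs) + q.2

private theorem rsize_nsmul (n : ℕ) (q : Ex r) : rsize (n • q) = n * rsize q := by
  simp only [rsize, Prod.smul_fst, Prod.smul_snd, Pi.smul_apply, smul_eq_mul, mul_add,
    Finset.mul_sum]
  congr 1
  refine Finset.sum_congr rfl fun i _ => ?_
  rw [nsmul_eq_mul, Int.natAbs_mul, Int.natAbs_natCast]

private theorem rsize_pos {q : Ex r} (h : q ≠ 0) : 0 < rsize q := by
  rw [Nat.pos_iff_ne_zero]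
  intro h0
  apply h
  rw [rsize, Nat.add_eq_zero_iff, Finset.sum_eq_zero_iff] at h0
  refine Prod.ext (funext fun i => ?_) h0.2
  simpa using h0.1 i (Finset.mem_univ i)

private theorem charP_A (p : ℕ) [Fact p.Prime] [CharP k p] : CharP (A k r) p :=
  charP_of_injective_algebraMap (algebraMap k (A k r)).injective p

private theorem single_coeff (q q' : Ex r) (c : k) :
    (AddMonoidAlgebra.single q c : A k r).coeff q' = if q = q' then c else 0 := by
  classical
  rw [AddMonoidAlgebra.coeff_single, Finsupp.single_apply]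

private theorem red_mono (p : ℕ) [hp : Fact p.Prime] [CharP k p] {κ : k → k}
    (hκ : RootProj k p κ) :
    ∀ (n : ℕ) (q : Ex r) (c : k), rsize q ≤ n →
    ∃ R H : A k r, (AddMonoidAlgebra.single q c : A k r) = R + (H ^ p - H) ∧
      Reduced p κ R ∧ (∀ q', R.coeff q' ≠ 0 → ∃ a : ℕ, p ^ a • q' = q) ∧
      R.coeff q = rd p κ q c := by
  classical
  have : CharP (A k r) p := charP_A p
  have hp0 : p ≠ 0 := hp.out.ne_zero
  -- exponents which are not divisible
  have htriv : ∀ (q : Ex r) (c : k), ¬ PDiv p q → ∃ R H : A k r,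
      (AddMonoidAlgebra.single q c : A k r) = R + (H ^ p - H) ∧
      Reduced p κ R ∧ (∀ q', R.coeff q' ≠ 0 → ∃ a : ℕ, p ^ a • q' = q) ∧
      R.coeff q = rd p κ q c := by
    intro q c hq
    refine ⟨AddMonoidAlgebra.single q c, 0, ?_, ?_, ?_, ?_⟩
    · rw [zero_pow hp0, sub_zero, add_zero]
    · intro q' hq'
      rw [single_coeff, if_neg (by rintro rfl; exact hq hq'), hκ.zero]
    · intro q' h
      rw [single_coeff] at h
      by_cases h1 : q = q'
      · exact ⟨0, by rw [pow_zero, one_smul, h1]⟩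
      · rw [if_neg h1] at h
        exact absurd rfl h
    · rw [single_coeff, if_pos rfl, rd_of_not hq]
  intro n
  induction n with
  | zero =>
    intro q c hq
    have hq0 : q = 0 := by
      by_contra h
      exact absurd (rsize_pos h) (by omega)
    exact htriv q c fun h => h.1 hq0
  | succ n ih =>
    intro q c hq
    by_cases hdiv : PDiv p q
    · obtain ⟨hq0, q', rfl⟩ := hdiv
      have hq' : q' ≠ 0 := by
        rintro rfl
        exact hq0 (smul_zero _)
      have hlt1 : rsize q' < rsize (p • q') := by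
        rw [rsize_nsmul]
        have h1 := rsize_pos hq'
        have h2 := hp.out.two_le
        nlinarith
      have hlt : rsize q' ≤ n := by omega
      obtain ⟨R, H, h1, h2, h3, -⟩ := ih q' (κ c) hlt
      have hR0 : R.coeff (p • q') = 0 := by
        by_contra h
        obtain ⟨a, ha⟩ := h3 _ h
        have h4 := congrArg rsize ha
        rw [rsize_nsmul] at h4
        have h5 : 1 ≤ p ^ a := Nat.one_le_pow _ _ hp.out.pos
        nlinarith
      refine ⟨AddMonoidAlgebra.single (p • q') (c - κ c ^ p) + R,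
        AddMonoidAlgebra.single q' (κ c) + H, ?_, ?_, ?_, ?_⟩
      · rw [add_pow_char, AddMonoidAlgebra.single_pow]
        have h4 : (AddMonoidAlgebra.single (p • q') c : A k r) =
            AddMonoidAlgebra.single (p • q') (c - κ c ^ p) +
              AddMonoidAlgebra.single (p • q') (κ c ^ p) := by
          rw [← AddMonoidAlgebra.single_add, sub_add_cancel]
        rw [h4]
        linear_combination h1
      · intro q'' hq''
        rw [AddMonoidAlgebra.coeff_add, Finsupp.add_apply, hκ.add, h2 q'' hq'', add_zero,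
          single_coeff]
        split_ifs
        · exact hκ.sub_self c
        · exact hκ.zero
      · intro q'' h
        rw [AddMonoidAlgebra.coeff_add, Finsupp.add_apply, single_coeff] at h
        by_cases h4 : p • q' = q''
        · exact ⟨0, by rw [pow_zero, one_smul, h4]⟩
        · rw [if_neg h4, zero_add] at h
          obtain ⟨a, ha⟩ := h3 q'' h
          exact ⟨a + 1, by rw [pow_succ', mul_smul, ha]⟩
      · rw [AddMonoidAlgebra.coeff_add, Finsupp.add_apply, single_coeff, if_pos rfl, hR0,
          add_zero, rd_of ⟨hq0, q', rfl⟩]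
    · exact htriv q c hdiv

/-- Artin-Schreier reduction. -/
theorem red (p : ℕ) [Fact p.Prime] [CharP k p] {κ : k → k} (hκ : RootProj k p κ) (P : A k r) :
    ∃ P' H : A k r, P = P' + (H ^ p - H) ∧ Reduced p κ P' ∧
      (∀ q ∈ P'.coeff.support, ∃ a : ℕ, p ^ a • q ∈ P.coeff.support) ∧
      (∀ q : Ex r, (∀ a : ℕ, p ^ (a + 1) • q ∉ P.coeff.support) →
        P'.coeff q = rd p κ q (P.coeff q)) := by
  classical
  have : CharP (A k r) p := charP_A p
  choose R H h1 h2 h3 h4 using fun q : Ex r => red_mono p hκ (rsize q) q (P.coeff q) le_rfl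
  have hP : P = ∑ q ∈ P.coeff.support, AddMonoidAlgebra.single q (P.coeff q) :=
    (AddMonoidAlgebra.sum_coeff_single P).symm
  have hcoeff : ∀ q : Ex r, (∑ q₁ ∈ P.coeff.support, R q₁).coeff q =
      ∑ q₁ ∈ P.coeff.support, (R q₁).coeff q := by
    intro q
    rw [AddMonoidAlgebra.coeff_sum, Finsupp.finsetSum_apply]
  refine ⟨∑ q ∈ P.coeff.support, R q, ∑ q ∈ P.coeff.support, H q, ?_, ?_, ?_, ?_⟩
  · rw [sum_pow_char, ← Finset.sum_sub_distrib, ← Finset.sum_add_distrib]
    conv_lhs => rw [hP]
    exact Finset.sum_congr rfl fun q _ => h1 q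
  · intro q hq
    rw [hcoeff, hκ.sum]
    exact Finset.sum_eq_zero fun q₁ _ => h2 q₁ q hq
  · intro q hq
    rw [Finsupp.mem_support_iff, hcoeff] at hq
    obtain ⟨q₁, hq₁, hne⟩ := Finset.exists_ne_zero_of_sum_ne_zero hq
    obtain ⟨a, ha⟩ := h3 q₁ q hne
    exact ⟨a, by rw [ha]; exact hq₁⟩
  · intro q hqa
    rw [hcoeff]
    have hother : ∀ q₁ ∈ P.coeff.support, q₁ ≠ q → (R q₁).coeff q = 0 := by
      intro q₁ hq₁ hne
      by_contra hR
      obtain ⟨a, ha⟩ := h3 q₁ q hR
      cases a with
      | zero =>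
        rw [pow_zero, one_smul] at ha
        exact hne ha.symm
      | succ b => exact hqa b (by rw [ha]; exact hq₁)
    by_cases hmem : q ∈ P.coeff.support
    · rw [Finset.sum_eq_single_of_mem q hmem fun q₁ hq₁ hne => hother q₁ hq₁ hne, h4]
    · rw [Finsupp.notMem_support_iff.1 hmem, rd_eq (fun _ => hκ.zero)]
      exact Finset.sum_eq_zero fun q₁ hq₁ =>
        hother q₁ hq₁ (by rintro rfl; exact hmem hq₁)

end LUW
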