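import Pool.Agent.LUW.Basic
import Pool.Agent.LUW.FDense
import Pool.Agent.LUW.Red
import Pool.Agent.LUW.AsSmall

/-! Project LUW: (S2) Artin-Schreier extensions of the toric field. -/

set_option autoImplicit false

namespace LUW

open Polynomial

variable {k : Type*} [Field k] {Ω : Type*} [NormedField Ω] [Algebra k Ω] [Big k Ω] {r : ℕ}

variable [IsSepClosed k] (p : ℕ) [Fact p.Prime] [CharP k p]

/-- Artin-Schreier elements over `clF k u` in an immediate field are trivial. -/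
theorem as_base {u : Fin r → Ω} (hu : Base u) {L : IntermediateField k Ω}
    (hLc : IsClosed (L : Set Ω)) (huL : ∀ i, u i ∈ L) (hI : Imm u L) {z : Ω} (hz : z ∈ L) (h : z ^ p - z ∈ clF k u) :
    z ∈ clF k u := by
  have hp : p.Prime := Fact.out
  have hch : CharP Ω p := charP_of_injective_algebraMap (algebraMap k Ω).injective p
  obtain ⟨P, hP0, hPn⟩ := clF_dense (k := k) hu h (ε := 1) one_pos
  obtain ⟨κ, hκ⟩ := exists_rootProj k p
  obtain ⟨P', H, hPH, hR, hsup, -⟩ := red p hκ P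
  have h0' : ∀ q ∈ P'.coeff.support, q.2 = 0 := by
    intro q hq
    obtain ⟨a, ha⟩ := hsup q hq
    have h1 := hP0 _ ha
    have h2 : p ^ a * q.2 = 0 := by simpa using h1
    rcases Nat.mul_eq_zero.1 h2 with h3 | h3
    · exact absurd h3 (pow_ne_zero _ hp.ne_zero)
    · exact h3
  have hev : ev hu.ne 0 P = ev hu.ne 0 P' + (ev hu.ne 0 H ^ p - ev hu.ne 0 H) := by
    rw [hPH, map_add, map_sub, map_pow]
  have hHF : ev hu.ne 0 H ∈ clF k u := ev_mem hu.ne (u_mem_clF u) (zero_mem _) H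
  have hHL : ev hu.ne 0 H ∈ L := ev_mem hu.ne huL (zero_mem _) H
  have hP'F : ev hu.ne 0 P' ∈ clF k u := ev_mem hu.ne (u_mem_clF u) (zero_mem _) P'
  have hPF : ev hu.ne 0 P ∈ clF k u := ev_mem hu.ne (u_mem_clF u) (zero_mem _) P
  have hclosed : IsClosed ((clF k u : IntermediateField k Ω) : Set Ω) := cl_closed _
  -- the element `y = z - ev H`
  obtain ⟨y, hy⟩ : ∃ y : Ω, y = z - ev hu.ne 0 H := ⟨_, rfl⟩
  have hyp : y ^ p - y = (z ^ p - z - ev hu.ne 0 P) + ev hu.ne 0 P' := by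
    rw [hy, sub_pow_char, hev]; ring
  have hzy : y ∈ clF k u → z ∈ clF k u := by
    intro hyF
    have : z = y + ev hu.ne 0 H := by rw [hy]; ring
    rw [this]
    exact add_mem hyF hHF
  have key : ‖ev hu.ne 0 P'‖ ≤ 1 → z ∈ clF k u := by
    intro hle
    have hmem : y ^ p - y ∈ clF k u := by
      rw [hyp]
      exact add_mem (sub_mem h hPF) hP'F
    have hn : ‖y ^ p - y‖ ≤ 1 := by
      rw [hyp]
      exact (Big.add_le k _ _).trans (max_le hPn.le hle)
    obtain ⟨e, he, hee⟩ := as_small (k := k) p (clF k u) hclosed hmem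
      (hI.res hu (clF_le hLc huL hmem) hn)
    exact hzy (as_unique p he hee.symm)
  by_cases hP'0 : P' = 0
  · apply key
    rw [hP'0]
    simp
  obtain ⟨b, hb, hbc, -⟩ := FDense_lead hu P' hP'0 h0' 0
  have hcb : ‖algebraMap k Ω (P'.coeff (b, 0)) * mon u b‖ = ‖mon u b‖ := by
    rw [norm_mul, Big.norm_k _ (Finsupp.mem_support_iff.1 hb), one_mul]
  have hbn : ‖ev hu.ne 0 P'‖ = ‖mon u b‖ := by
    rw [← hcb]
    exact Big.norm_eq k (by rw [hcb]; exact hbc)
  by_cases hle : ‖ev hu.ne 0 P'‖ ≤ 1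
  · exact key hle
  exfalso
  push Not at hle
  have hn : ‖y ^ p - y‖ = ‖ev hu.ne 0 P'‖ := by
    apply Big.norm_eq k
    rw [hyp, add_sub_cancel_right]
    exact hPn.trans hle
  have hyn : ‖y‖ ^ p = ‖y ^ p - y‖ := norm_as k p rfl (by rw [hn]; exact hle)
  have hyL : y ∈ L := by rw [hy]; exact sub_mem hz hHL
  have hy0 : y ≠ 0 := by
    intro h0
    rw [hn, h0, norm_zero, zero_pow hp.ne_zero] at hyn
    rw [← hyn] at hle
    linarith
  obtain ⟨g, d, hd0, hg, hgd⟩ := hI.exists_c hu.ne hyL hy0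
  have h1 : ‖mon u (p • g)‖ = ‖mon u b‖ := by
    rw [mon_nsmul, norm_pow, ← hg, hyn, hn, hbn]
  have h2 : wt u (p • g) = wt u b := by
    rw [norm_mon hu.ne, norm_mon hu.ne] at h1
    have := Real.exp_injective h1
    linarith
  have h3 : p • g = b := hu.inj h2
  -- the coefficient is a `p`-th power
  have hmb : 0 < ‖mon u b‖ := norm_pos_iff.2 (mon_ne hu.ne b)
  have hb1 : 1 < ‖mon u b‖ := by rw [← hbn]; exact hle
  have hb0 : b ≠ 0 := by
    rintro rfl
    rw [mon_zero, norm_one] at hb1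
    exact lt_irrefl _ hb1
  have hPD : PDiv p ((b, 0) : Ex r) := by
    refine ⟨fun h => hb0 (congrArg Prod.fst h), (g, 0), ?_⟩
    rw [Prod.smul_mk, h3, smul_zero]
  have h5 : ‖y ^ p - algebraMap k Ω (d ^ p) * mon u b‖ < ‖mon u b‖ := by
    have h6 : y ^ p - algebraMap k Ω (d ^ p) * mon u b = (y - algebraMap k Ω d * mon u g) ^ p := by
      rw [sub_pow_char, mul_pow, map_pow, ← mon_nsmul, h3]
    rw [h6, norm_pow, ← h1, mon_nsmul, norm_pow]
    exact pow_lt_pow_left₀ hgd (norm_nonneg _) hp.ne_zero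
  have h7 : ‖y ^ p - ev hu.ne 0 P'‖ < ‖mon u b‖ := by
    have h8 : y ^ p - ev hu.ne 0 P' = (z ^ p - z - ev hu.ne 0 P) + y := by
      linear_combination hyp
    rw [h8]
    refine (Big.add_le k _ _).trans_lt (max_lt (hPn.trans hb1) ?_)
    have h9 : 1 < ‖y‖ := by
      by_contra hcon
      have h10 : ‖y‖ ^ p ≤ 1 := pow_le_one₀ (norm_nonneg _) (not_lt.1 hcon)
      rw [hyn, hn] at h10
      exact absurd h10 (not_le.2 hle)
    calc ‖y‖ = ‖y‖ ^ 1 := (pow_one _).symm
      _ < ‖y‖ ^ p := pow_lt_pow_right₀ h9 hp.one_lt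
      _ = ‖mon u b‖ := by rw [hyn, hn, hbn]
  have h11 : ‖algebraMap k Ω (P'.coeff (b, 0) - d ^ p) * mon u b‖ < ‖mon u b‖ := by
    have h12 : algebraMap k Ω (P'.coeff (b, 0) - d ^ p) * mon u b =
        (y ^ p - algebraMap k Ω (d ^ p) * mon u b) - (y ^ p - ev hu.ne 0 P') -
          (ev hu.ne 0 P' - algebraMap k Ω (P'.coeff (b, 0)) * mon u b) := by
      rw [map_sub]
      ring
    rw [h12]
    exact (Big.sub_le k _ _).trans_lt (max_lt ((Big.sub_le k _ _).trans_lt (max_lt h5 h7)) hbc)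
  have h13 : P'.coeff (b, 0) - d ^ p = 0 := by
    by_contra hcon
    rw [norm_mul, Big.norm_k _ hcon, one_mul] at h11
    exact lt_irrefl _ h11
  have h14 := hR _ hPD
  rw [sub_eq_zero.1 h13, hκ.pow] at h14
  exact hd0 h14

end LUW
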