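import Mathlib

/-! Project LUW: (C1) finiteness of bounded parts of finitely generated cones. -/

set_option autoImplicit false

namespace LUW

open Polynomial

/-- the rational cone over a set -/
def rcone (S : Set ℝ) : Set ℝ := {x | ∃ N : ℕ, 0 < N ∧ (N : ℝ) * x ∈ AddSubmonoid.closure S}

theorem cone_of {S : Set ℝ} {x : ℝ} (hx : x ∈ S) : x ∈ rcone S :=
  ⟨1, one_pos, by simpa using AddSubmonoid.subset_closure hx⟩

theorem cone_zero (S : Set ℝ) : (0 : ℝ) ∈ rcone S :=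
  ⟨1, one_pos, by simp⟩

theorem cone_add {S : Set ℝ} {x y : ℝ} (hx : x ∈ rcone S) (hy : y ∈ rcone S) : x + y ∈ rcone S := by
  obtain ⟨N, hN, h1⟩ := hx
  obtain ⟨N', hN', h2⟩ := hy
  refine ⟨N * N', Nat.mul_pos hN hN', ?_⟩
  have e : ((N * N' : ℕ) : ℝ) * (x + y) = N' • ((N : ℝ) * x) + N • ((N' : ℝ) * y) := by
    simp only [nsmul_eq_mul]; push_cast; ring
  rw [e]
  exact AddSubmonoid.add_mem _ (AddSubmonoid.nsmul_mem _ h1 _) (AddSubmonoid.nsmul_mem _ h2 _)

theorem cone_nmul {S : Set ℝ} {x : ℝ} (hx : x ∈ rcone S) (n : ℕ) : (n : ℝ) * x ∈ rcone S := by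
  induction n with
  | zero => simp [cone_zero]
  | succ n ih =>
    have e : ((n + 1 : ℕ) : ℝ) * x = (n : ℝ) * x + x := by push_cast; ring
    rw [e]; exact cone_add ih hx

theorem cone_div {S : Set ℝ} {x : ℝ} (n : ℕ) (hn : 0 < n) (hx : (n : ℝ) * x ∈ rcone S) :
    x ∈ rcone S := by
  obtain ⟨N, hN, h1⟩ := hx
  refine ⟨N * n, Nat.mul_pos hN hn, ?_⟩
  have e : ((N * n : ℕ) : ℝ) * x = (N : ℝ) * ((n : ℝ) * x) := by push_cast; ring
  rw [e]; exact h1

/-- (2a): the cone over a finite set of positive elements of a finitely generated group has only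
finitely many elements of this group below every bound -/
theorem cone_finite (H : AddSubgroup ℝ) [Module.Finite ℤ H] (S : Set ℝ) (hS : S.Finite)
    (hpos : ∀ s ∈ S, 0 < s) (hSH : S ⊆ H) (B : ℝ) :
    {x : ℝ | x ∈ H ∧ x ∈ rcone S ∧ x ≤ B}.Finite := by
  classical
  have hfree : Module.Free ℤ H := inferInstance
  let bs := Module.Free.chooseBasis ℤ H
  -- a common bound for the coordinates and a lower bound for the elements of `S`
  obtain ⟨μ, hμ, hμS⟩ : ∃ μ : ℝ, 0 < μ ∧ ∀ s ∈ S, μ ≤ s := by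
    clear hSH
    induction S, hS using Set.Finite.induction_on with
    | empty => exact ⟨1, one_pos, fun k hk => absurd hk (Set.notMem_empty k)⟩
    | @insert a K _ _ ih =>
      obtain ⟨μ, hμ, h⟩ := ih (fun s hs => hpos s (Or.inr hs))
      refine ⟨min μ a, lt_min hμ (hpos a (Or.inl rfl)), fun s hs => ?_⟩
      rcases hs with rfl | hs
      · exact min_le_right _ _
      · exact (min_le_left _ _).trans (h s hs)
  obtain ⟨C, hC0, hC⟩ : ∃ C : ℝ, 0 ≤ C ∧ ∀ s (hs : s ∈ S), ∀ k, |((bs.repr ⟨s, hSH hs⟩ k : ℤ) : ℝ)| ≤ C := by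
    have hfin : (Set.range fun q : S × Module.Free.ChooseBasisIndex ℤ H =>
        |((bs.repr ⟨q.1.1, hSH q.1.2⟩ q.2 : ℤ) : ℝ)|).Finite := by
      have : Finite S := hS
      exact Set.finite_range _
    obtain ⟨C, hC⟩ := hfin.bddAbove
    refine ⟨max C 0, le_max_right _ _, fun s hs k => (hC ⟨(⟨s, hs⟩, k), rfl⟩).trans (le_max_left _ _)⟩
  -- the main estimate on the closure
  have key : ∀ x, x ∈ AddSubmonoid.closure S → 0 ≤ x ∧ ∃ hx : x ∈ H, ∀ k,
      |((bs.repr ⟨x, hx⟩ k : ℤ) : ℝ)| ≤ C / μ * x := by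
    intro x hx
    induction hx using AddSubmonoid.closure_induction with
    | mem s hs =>
      refine ⟨(hpos s hs).le, hSH hs, fun k => (hC s hs k).trans ?_⟩
      have h1 := hμS s hs
      rw [div_mul_eq_mul_div, le_div_iff₀ hμ]
      exact mul_le_mul_of_nonneg_left h1 hC0
    | zero =>
      refine ⟨le_rfl, H.zero_mem, fun k => ?_⟩
      have : (⟨0, H.zero_mem⟩ : H) = 0 := rfl
      rw [this]; simp
    | add x y _ _ ihx ihy =>
      obtain ⟨hx0, hxH, hx⟩ := ihx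
      obtain ⟨hy0, hyH, hy⟩ := ihy
      refine ⟨add_nonneg hx0 hy0, H.add_mem hxH hyH, fun k => ?_⟩
      have e : (⟨x + y, H.add_mem hxH hyH⟩ : H) = ⟨x, hxH⟩ + ⟨y, hyH⟩ := rfl
      rw [e, map_add, Finsupp.add_apply, Int.cast_add, mul_add]
      exact (abs_add_le _ _).trans (add_le_add (hx k) (hy k))
  -- the coordinates are bounded
  set R : ℕ := ⌈C / μ * B⌉₊ with hR
  have hinj : Set.InjOn (fun x : ℝ => if hx : x ∈ H then (bs.repr ⟨x, hx⟩ : _ → ℤ) else 0)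
      {x : ℝ | x ∈ H ∧ x ∈ rcone S ∧ x ≤ B} := by
    intro x hx y hy hxy
    simp only [dif_pos hx.1, dif_pos hy.1] at hxy
    have h1 : bs.repr ⟨x, hx.1⟩ = bs.repr ⟨y, hy.1⟩ := Finsupp.ext (fun k => congrFun hxy k)
    have h2 := bs.repr.injective h1
    exact congrArg Subtype.val h2
  refine Set.Finite.of_finite_image ?_ hinj
  refine (Set.Finite.pi' (t := fun _ => Set.Icc (-(R : ℤ)) (R : ℤ)) (fun _ => Set.finite_Icc _ _)).subset ?_
  rintro f ⟨x, ⟨hxH, ⟨N, hN, hc⟩, hxB⟩, rfl⟩ k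
  simp only [dif_pos hxH]
  obtain ⟨h0, hNH, hk⟩ := key _ hc
  have hN' : (0 : ℝ) < N := by exact_mod_cast hN
  have e : (⟨(N : ℝ) * x, hNH⟩ : H) = N • ⟨x, hxH⟩ := by
    apply Subtype.ext
    simp [nsmul_eq_mul]
  have h1 := hk k
  rw [e, map_nsmul, Finsupp.smul_apply, nsmul_eq_mul] at h1
  push_cast at h1
  rw [abs_mul, abs_of_pos hN'] at h1
  have h2 : |((bs.repr ⟨x, hxH⟩ k : ℤ) : ℝ)| ≤ C / μ * x := by
    have : (N : ℝ) * |((bs.repr ⟨x, hxH⟩ k : ℤ) : ℝ)| ≤ (N : ℝ) * (C / μ * x) := by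
      linarith [h1]
    exact le_of_mul_le_mul_left this hN'
  have h3 : |((bs.repr ⟨x, hxH⟩ k : ℤ) : ℝ)| ≤ R := by
    refine h2.trans ((mul_le_mul_of_nonneg_left hxB (div_nonneg hC0 hμ.le)).trans ?_)
    exact Nat.le_ceil _
  have h4 : |bs.repr ⟨x, hxH⟩ k| ≤ (R : ℤ) := by exact_mod_cast h3
  exact abs_le.mp h4

/-- Finiteness of bounded pieces of cones in a finitely generated group of reals: only finitely many
`x ≤ B` of the group have a positive multiple which is a sum of elements of the finite set `S`. -/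
theorem fin_cone {N : ℕ} (φ : (Fin N → ℤ) →+ ℝ) (S : Set ℝ) (hS : S.Finite)
    (hpos : ∀ s ∈ S, 0 < s) (hmem : ∀ s ∈ S, s ∈ Set.range φ) (B : ℝ) :
    {x : ℝ | x ∈ Set.range φ ∧ x ≤ B ∧
      ∃ M : ℕ, 0 < M ∧ (M : ℝ) * x ∈ AddSubmonoid.closure S}.Finite := by
  have : Module.Finite ℤ φ.range :=
    Module.Finite.of_surjective φ.rangeRestrict.toIntLinearMap φ.rangeRestrict_surjective
  refine (cone_finite φ.range S hS hpos (fun s hs => hmem s hs) B).subset ?_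
  rintro x ⟨h1, h2, h3⟩
  exact ⟨h1, h3, h2⟩

end LUW
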