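import Pool.Agent.LUW.Defs
import Pool.Agent.LUW.BSum

/-! Project LUW: (C3a) the quantity kap along the dynamics. -/

set_option autoImplicit false

namespace LUW

open Polynomial

/-- `kap (b, i) = wt b* - wt b + (j - i) γ`. -/
noncomputable def kap {r : ℕ} (wt : G r →+ ℝ) (γ : ℝ) (bs : G r) (j : ℕ) (q : Ex r) : ℝ :=
  wt bs - wt q.1 + ((j : ℝ) - q.2) * γ

/-- One step of the dynamics: `q'` is a `p^a`-th root of a monomial of the recentering of `q`. -/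
def IsStep {r : ℕ} (wt : G r →+ ℝ) (p : ℕ) (g : G r) (γ : ℝ) (bs : G r) (j : ℕ)
    (q q' : Ex r) : Prop :=
  ∃ a n : ℕ, (a ≠ 0 → wt bs + j * γ ≤ 0) ∧ p ^ a * q'.2 + n = q.2 ∧
    p ^ a • q'.1 = q.1 + n • g

theorem kap_step {r : ℕ} (wt : G r →+ ℝ) {p : ℕ} (g : G r) (γ : ℝ) (bs : G r) (j : ℕ)
    {q q' : Ex r} {a n : ℕ} (h2 : p ^ a * q'.2 + n = q.2) (h1 : p ^ a • q'.1 = q.1 + n • g) :
    (p : ℝ) ^ a * kap wt γ bs j q' =
      kap wt γ bs j q + n * (γ - wt g) + ((p : ℝ) ^ a - 1) * (wt bs + j * γ) := by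
  have e1 := congrArg wt h1
  rw [map_nsmul, map_add, map_nsmul, nsmul_eq_mul, nsmul_eq_mul] at e1
  push_cast at e1
  have e2 : (p : ℝ) ^ a * (q'.2 : ℝ) + n = q.2 := by exact_mod_cast h2
  simp only [kap]
  rw [← e2]
  linear_combination -e1

/-- the defects `kap (b, i) = wt bs - wt b + (j - i) γ` of the monomials of positive degree are
non-negative or at most `-δ`, at all stages `m ≥ m0` (section (2b)/(2c)). -/
theorem kap_gap {G : Type*} [AddCommGroup G] (wt : G →+ ℝ) (p : ℕ)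
    (hp : 2 ≤ p) (g : ℕ → G) (γ : ℝ) (hmono : ∀ m, wt (g m) < wt (g (m + 1)))
    (hlim : Filter.Tendsto (fun m => wt (g m)) Filter.atTop (nhds γ))
    (S : ℕ → Set (G × ℕ)) (m0 : ℕ) (hS0 : (S m0).Finite) (bs : G) (j : ℕ)
    (h1 : ∀ m, m0 ≤ m → ∀ q' ∈ S (m + 1), ∃ q ∈ S m, ∃ i' ≤ q.2, ∃ e : ℕ,
      (e = 0 ∨ wt bs + j * γ ≤ 0) ∧ (p ^ e) • q'.1 = q.1 + (q.2 - i') • g m ∧
      p ^ e * q'.2 = i') :
    (∃ δ : ℝ, 0 < δ ∧ ∀ m, m0 ≤ m → ∀ q ∈ S m, 1 ≤ q.2 →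
      0 ≤ wt bs - wt q.1 + ((j : ℝ) - q.2) * γ ∨ wt bs - wt q.1 + ((j : ℝ) - q.2) * γ ≤ -δ) ∧
    ∃ D : ℕ, ∀ m, m0 ≤ m → ∀ q ∈ S m, q.2 ≤ D := by
  classical
  set ω : ℝ := wt bs + j * γ with hω
  -- the defects
  set ε : ℕ → ℝ := fun m => γ - wt (g m) with hε
  have hsm : StrictMono (fun m => wt (g m)) := strictMono_nat_of_lt_succ hmono
  have hεpos : ∀ m, 0 < ε m := by
    intro m
    have h4 : wt (g (m + 1)) ≤ γ := hsm.monotone.ge_of_tendsto hlim (m + 1)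
    have := hmono m
    simp only [hε]; linarith
  have hεanti : ∀ m m', m < m' → ε m' < ε m := fun m m' h => by
    have := hsm h
    simp only [hε]; simp only at this; linarith
  have hεlim : Filter.Tendsto ε Filter.atTop (nhds 0) := by
    have := hlim.const_sub γ
    simpa [hε] using this
  set kap : G × ℕ → ℝ := fun q => wt bs - wt q.1 + ((j : ℝ) - q.2) * γ with hkap
  -- recentering
  have hrec : ∀ (m : ℕ) (q q'' : G × ℕ), q''.2 ≤ q.2 → q''.1 = q.1 + (q.2 - q''.2) • g m →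
      kap q'' = kap q + ((q.2 - q''.2 : ℕ) : ℝ) * ε m := by
    intro m q q'' hle he
    simp only [hkap, hε, he, map_add, map_nsmul, nsmul_eq_mul, Nat.cast_sub hle]
    ring
  -- roots
  have hroot : ∀ (e : ℕ) (q' q'' : G × ℕ), (p ^ e) • q'.1 = q''.1 → p ^ e * q'.2 = q''.2 →
      ((p ^ e : ℕ) : ℝ) * (kap q' - ω) = kap q'' - ω := by
    intro e q' q'' ha hb
    have h5 : wt q''.1 = ((p ^ e : ℕ) : ℝ) * wt q'.1 := by
      rw [← ha, map_nsmul, nsmul_eq_mul]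
    have h6 : (q''.2 : ℝ) = ((p ^ e : ℕ) : ℝ) * q'.2 := by rw [← hb]; push_cast; ring
    simp only [hkap, hω, h5, h6]
    ring
  have hpe : ∀ e : ℕ, (0 : ℝ) < ((p ^ e : ℕ) : ℝ) := fun e => by
    have : 0 < p ^ e := Nat.pow_pos (by omega)
    exact_mod_cast this
  -- the bound for the degrees
  obtain ⟨D, hD⟩ : ∃ D : ℕ, ∀ q ∈ S m0, q.2 ≤ D := by
    obtain ⟨D, hD⟩ := (hS0.image Prod.snd).bddAbove
    exact ⟨D, fun q hq => hD ⟨q, hq, rfl⟩⟩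
  -- unfolding of `h1`
  have h1' : ∀ m, m0 ≤ m → ∀ q' ∈ S (m + 1), ∃ q ∈ S m, ∃ q'' : G × ℕ, ∃ e : ℕ,
      q''.2 ≤ q.2 ∧ q''.1 = q.1 + (q.2 - q''.2) • g m ∧ (e = 0 ∨ ω ≤ 0) ∧
      (p ^ e) • q'.1 = q''.1 ∧ p ^ e * q'.2 = q''.2 := by
    intro m hm q' hq'
    obtain ⟨q, hq, i', hi', e, he, ha, hb⟩ := h1 m hm q' hq'
    exact ⟨q, hq, (q.1 + (q.2 - i') • g m, i'), e, hi', rfl, he, ha, hb⟩
  -- the set of the possible summands
  set E : ℕ → Set ℝ := fun a => {x | ∃ l, ∃ a' ≤ a, x = ε l / ((p ^ a' : ℕ) : ℝ)} with hE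
  have hEmono : ∀ a a', a ≤ a' → E a ⊆ E a' := by
    rintro a a' h x ⟨l, b, hb, rfl⟩
    exact ⟨l, b, hb.trans h, rfl⟩
  have hE0 : ∀ a l, ε l ∈ E a := fun a l => ⟨l, 0, Nat.zero_le _, by simp⟩
  have hEs : ∀ a e, ∀ x ∈ E a, x / ((p ^ e : ℕ) : ℝ) ∈ E (a + e) := by
    rintro a e x ⟨l, b, hb, rfl⟩
    refine ⟨l, b + e, by omega, ?_⟩
    rw [div_div]; congr 1; push_cast; ring
  -- the invariant
  have hinv : ∀ m, m0 ≤ m → ∀ q ∈ S m, 1 ≤ q.2 → ∃ a c : ℕ, ∃ q0 ∈ S m0, p ^ a * q.2 ≤ D ∧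
      c + q.2 ≤ D ∧ ∃ s ∈ SE (E a) c, kap q = ω + (kap q0 - ω) / ((p ^ a : ℕ) : ℝ) + s := by
    intro m hm
    induction m, hm using Nat.le_induction with
    | base =>
      intro q hq _
      exact ⟨0, 0, q, hq, by simpa using hD q hq, by simpa using hD q hq, 0, rfl, by simp⟩
    | succ m hm ih =>
      intro q' hq' hi
      obtain ⟨q, hq, q'', e, hle, hb, _, hr1, hr2⟩ := h1' m hm q' hq'
      have hpe1 : 1 ≤ p ^ e := Nat.pow_pos (by omega)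
      have hq'' : q'.2 ≤ q''.2 := by rw [← hr2]; exact Nat.le_mul_of_pos_left _ hpe1
      obtain ⟨a, c, q0, hq0, hA, hc, s, hs, hk⟩ := ih q hq (by omega)
      refine ⟨a + e, c + (q.2 - q''.2), q0, hq0, ?_, by omega,
        (s + ((q.2 - q''.2 : ℕ) : ℝ) * ε m) / ((p ^ e : ℕ) : ℝ), ?_, ?_⟩
      · calc p ^ (a + e) * q'.2 = p ^ a * (p ^ e * q'.2) := by rw [pow_add]; ring
          _ = p ^ a * q''.2 := by rw [hr2]
          _ ≤ p ^ a * q.2 := Nat.mul_le_mul_left _ hle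
          _ ≤ D := hA
      · exact SE_scale _ (hEs a e) _ _ (SE_add (hE0 a m) hs _)
      · have h5 := hroot e q' q'' hr1 hr2
        have h6 := hrec m q q'' hle hb
        have h7 := hpe e
        have h8 := hpe a
        have h9 : kap q' = ω + (kap q'' - ω) / ((p ^ e : ℕ) : ℝ) := by
          rw [← h5]; field_simp; ring
        have h10 : ((p ^ (a + e) : ℕ) : ℝ) = ((p ^ a : ℕ) : ℝ) * ((p ^ e : ℕ) : ℝ) := by
          push_cast; ring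
        rw [h9, h6, hk, h10]
        field_simp
        ring
  -- the gap
  obtain ⟨δ, hδ, hgap⟩ : ∃ δ : ℝ, 0 < δ ∧ ∀ m, m0 ≤ m → ∀ q ∈ S m, 1 ≤ q.2 →
      0 ≤ kap q ∨ kap q ≤ -δ := by
    have hEpos : ∀ x ∈ E D, 0 < x := by
      rintro x ⟨l, a, _, rfl⟩
      exact div_pos (hεpos l) (hpe a)
    have hEfin : ∀ η : ℝ, 0 < η → {x ∈ E D | η ≤ x}.Finite := by
      intro η hη
      obtain ⟨n, hn⟩ := (hεlim.eventually (gt_mem_nhds hη)).exists_forall_of_atTop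
      refine (((Set.finite_Iio n).prod (Set.finite_Iic D)).image
        (fun x : ℕ × ℕ => ε x.1 / ((p ^ x.2 : ℕ) : ℝ))).subset ?_
      rintro x ⟨⟨l, a, ha, rfl⟩, hx⟩
      refine ⟨(l, a), ⟨?_, ha⟩, rfl⟩
      by_contra hl
      have h5 := hn l (not_lt.mp hl)
      have h6 : ε l / ((p ^ a : ℕ) : ℝ) ≤ ε l := by
        apply div_le_self (hεpos l).le
        have : 1 ≤ p ^ a := Nat.pow_pos (by omega)
        exact_mod_cast this
      linarith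
    have hK : ((fun x : (G × ℕ) × ℕ => ω + (kap x.1 - ω) / ((p ^ x.2 : ℕ) : ℝ)) ''
        (S m0 ×ˢ Set.Iic D)).Finite := (hS0.prod (Set.finite_Iic D)).image _
    obtain ⟨δ, hδ, h⟩ := gap hEpos hEfin D _ hK
    refine ⟨δ, hδ, fun m hm q hq hi => ?_⟩
    obtain ⟨a, c, q0, hq0, hA, hc, s, hs, hk⟩ := hinv m hm q hq hi
    have haD : a ≤ D := by
      have h5 : a < p ^ a := Nat.lt_pow_self (by omega)
      have h6 : p ^ a * 1 ≤ p ^ a * q.2 := Nat.mul_le_mul_left _ hi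
      omega
    rw [hk]
    exact h c (by omega) _ ⟨(q0, a), ⟨hq0, haD⟩, rfl⟩ s (SE_mono (hEmono a D haD) c hs)
  -- the degrees are bounded
  have hdeg : ∀ m, m0 ≤ m → ∀ q ∈ S m, q.2 ≤ D := by
    intro m hm
    induction m, hm using Nat.le_induction with
    | base => exact hD
    | succ m hm ih =>
      intro q' hq'
      obtain ⟨q, hq, q'', e, hle, _, _, _, hr2⟩ := h1' m hm q' hq'
      have hpe1 : 1 ≤ p ^ e := Nat.pow_pos (by omega)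
      have hq'' : q'.2 ≤ q''.2 := by rw [← hr2]; exact Nat.le_mul_of_pos_left _ hpe1
      exact (hq''.trans hle).trans (ih q hq)
  exact ⟨⟨δ, hδ, hgap⟩, D, hdeg⟩

theorem isStep_unfold {r : ℕ} {wt : G r →+ ℝ} {p : ℕ} {g : G r} {γ : ℝ} {bs : G r} {j : ℕ}
    {q q' : Ex r} (h : IsStep wt p g γ bs j q q') : ∃ i' ≤ q.2, ∃ e : ℕ,
      (e = 0 ∨ wt bs + j * γ ≤ 0) ∧ (p ^ e) • q'.1 = q.1 + (q.2 - i') • g ∧ p ^ e * q'.2 = i' := by
  obtain ⟨a, n, h0, h1, h2⟩ := h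
  refine ⟨p ^ a * q'.2, by omega, a, ?_, ?_, rfl⟩
  · rcases Nat.eq_zero_or_pos a with h | h
    · exact Or.inl h
    · exact Or.inr (h0 (by omega))
  · rw [h2]; congr 2; omega

/-- The dichotomy: along the dynamics, at indices `≥ 1`, `kap` is `≥ 0` or `≤ -δ`. -/
theorem kap_dich {r : ℕ} (wt : G r →+ ℝ) (p : ℕ) (hp : 2 ≤ p) (g : ℕ → G r) (γ : ℝ)
    (hmono : StrictMono fun m => wt (g m))
    (hlim : Filter.Tendsto (fun m => wt (g m)) Filter.atTop (nhds γ)) (bs : G r) (j : ℕ)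
    (S : ℕ → Finset (Ex r))
    (hstep : ∀ m, ∀ q' ∈ S (m + 1), ∃ q ∈ S m, IsStep wt p (g m) γ bs j q q') :
    ∃ δ : ℝ, 0 < δ ∧ ∀ m, ∀ q ∈ S m, 1 ≤ q.2 →
      0 ≤ kap wt γ bs j q ∨ kap wt γ bs j q ≤ -δ := by
  obtain ⟨⟨δ, hδ, h⟩, _⟩ := kap_gap wt p hp g γ (fun m => hmono (Nat.lt_succ_self m)) hlim
    (fun m => (S m : Set (Ex r))) 0 (S 0).finite_toSet bs j (fun m _ q' hq' => by
      obtain ⟨q, hq, hs⟩ := hstep m q' hq'
      exact ⟨q, hq, isStep_unfold hs⟩)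
  exact ⟨δ, hδ, fun m q hq h1 => h m (Nat.zero_le m) q hq h1⟩

end LUW
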