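import Pool.Agent.LUW.Defs

/-! Project LUW: (C5) recentering and leading forms. -/

set_option autoImplicit false

namespace LUW

open Polynomial

variable {k : Type*} [Field k] {r : ℕ}

theorem lf_coeff (g b : G r) (P : A k r) (i : ℕ) :
    (lf g b P).coeff i = P.coeff (b - i • g, i) := by
  classical
  rw [lf, Polynomial.finsetSum_coeff]
  simp only [Polynomial.coeff_monomial]
  rw [← Finset.sum_filter, Finset.filter_filter]
  by_cases h : P.coeff (b - i • g, i) = 0
  · rw [h]
    apply Finset.sum_eq_zero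
    rintro ⟨q1, q2⟩ hq
    simp only [Finset.mem_filter] at hq
    obtain ⟨_, h1, h2⟩ := hq
    subst h2
    rw [← h, ← h1, add_sub_cancel_right]
  · rw [Finset.sum_eq_single (b - i • g, i)]
    · rintro ⟨q1, q2⟩ hq hne
      simp only [Finset.mem_filter] at hq
      obtain ⟨_, h1, h2⟩ := hq
      exfalso
      apply hne
      subst h2
      rw [← h1, add_sub_cancel_right]
    · intro hn
      exact absurd (Finset.mem_filter.2 ⟨Finsupp.mem_support_iff.2 h, by simp, rfl⟩) hn

private theorem lf_zero (g b : G r) : lf g b (0 : A k r) = 0 := by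
  ext i
  rw [lf_coeff]
  simp

private theorem lf_add (g b : G r) (P Q : A k r) : lf g b (P + Q) = lf g b P + lf g b Q := by
  ext i
  rw [Polynomial.coeff_add, lf_coeff, lf_coeff, lf_coeff]
  simp [AddMonoidAlgebra.coeff_add]

private theorem lf_smul (g b : G r) (a : k) (P : A k r) : lf g b (a • P) = a • lf g b P := by
  ext i
  rw [Polynomial.coeff_smul, lf_coeff, lf_coeff]
  simp [AddMonoidAlgebra.coeff_smul]

private theorem lf_mono (g b b' : G r) (i : ℕ) (a : k) [Decidable (b' + i • g = b)] :
    lf g b (mono b' i a) = if b' + i • g = b then Polynomial.monomial i a else 0 := by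
  classical
  ext j
  rw [lf_coeff, mono, AddMonoidAlgebra.coeff_single, Finsupp.single_apply]
  by_cases hb : b' + i • g = b
  · rw [if_pos hb, Polynomial.coeff_monomial]
    by_cases hj : i = j
    · subst hj
      rw [if_pos (by rw [← hb]; simp), if_pos rfl]
    · rw [if_neg hj, if_neg]
      intro h
      exact hj (Prod.ext_iff.1 h).2
  · rw [if_neg hb, Polynomial.coeff_zero, if_neg]
    intro h
    obtain ⟨h1, h2⟩ := Prod.ext_iff.1 h
    simp only at h1 h2
    apply hb
    rw [h1, h2]
    simp

/-- Induction for properties of elements of the algebra. -/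
private theorem ind {p : A k r → Prop} (P : A k r) (h0 : p 0)
    (h1 : ∀ (b : G r) (i : ℕ) (a : k), p (mono b i a)) (h2 : ∀ P Q, p P → p Q → p (P + Q)) : p P := by
  induction P using AddMonoidAlgebra.induction_linear with
  | zero => exact h0
  | add a b ha hb => exact h2 _ _ ha hb
  | single q a => exact h1 q.1 q.2 a

private theorem lf_mono_mul (g b b' : G r) (Q : A k r) :
    lf g b (mono b' 0 1 * Q) = lf g (b - b') Q := by
  classical
  induction Q using ind with
  | h0 => simp [lf_zero]
  | h1 b1 i a =>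
    rw [mono_mul, lf_mono, lf_mono, zero_add, one_mul]
    have : (b' + b1 + i • g = b) ↔ (b1 + i • g = b - b') := by
      rw [eq_sub_iff_add_eq]
      constructor <;> intro h <;> rw [← h] <;> abel
    simp only [this]
  | h2 P Q hP hQ => rw [mul_add, lf_add, lf_add, hP, hQ]

private theorem lf_Y_mul (g b : G r) (c : k) (Q : A k r) :
    lf g b ((mono g 0 c + mono 0 1 1) * Q) = (X + C c) * lf g (b - g) Q := by
  classical
  induction Q using ind with
  | h0 => simp [lf_zero]
  | h1 b1 i a =>
    rw [add_mul, lf_add, mono_mul, mono_mul, lf_mono, lf_mono, lf_mono, zero_add, one_mul, zero_add]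
    have e1 : (g + b1 + i • g = b) ↔ (b1 + i • g = b - g) := by
      rw [eq_sub_iff_add_eq]
      constructor <;> intro h <;> rw [← h] <;> abel
    have e2 : (b1 + (1 + i) • g = b) ↔ (b1 + i • g = b - g) := by
      rw [eq_sub_iff_add_eq, add_smul, one_smul]
      constructor <;> intro h <;> rw [← h] <;> abel
    simp only [e1, e2]
    split_ifs
    · rw [add_mul, Polynomial.C_mul_monomial, Polynomial.X_mul_monomial, add_comm 1 i, add_comm]
    · simp
  | h2 P Q hP hQ => rw [mul_add, lf_add, lf_add, hP, hQ, mul_add]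

private theorem lf_Y_pow (g b : G r) (c : k) (i : ℕ) [Decidable (i • g = b)] :
    lf g b ((mono g 0 c + mono 0 1 1) ^ i) = if i • g = b then (X + C c) ^ i else 0 := by
  classical
  induction i generalizing b with
  | zero =>
    rw [pow_zero, ← mono_zero_one, lf_mono]
    simp
  | succ i ih =>
    rw [pow_succ', lf_Y_mul, ih, mul_ite, mul_zero, ← pow_succ']
    have e : ((i + 1) • g = b) ↔ (i • g = b - g) := by
      rw [eq_sub_iff_add_eq, add_smul, one_smul]
    simp only [e]

private theorem Y_supp (c : k) (g : G r) (i : ℕ) :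
    ∀ q' ∈ ((mono g 0 c + mono 0 1 1 : A k r) ^ i).coeff.support, ∃ n : ℕ,
      q'.2 + n = i ∧ q'.1 = n • g := by
  classical
  induction i with
  | zero =>
    intro q' hq'
    rw [pow_zero, ← mono_zero_one, mono, AddMonoidAlgebra.coeff_single] at hq'
    have := Finsupp.support_single_subset hq'
    rw [Finset.mem_singleton] at this
    subst this
    exact ⟨0, by simp⟩
  | succ i ih =>
    intro q' hq'
    rw [pow_succ] at hq'
    obtain ⟨q1, h1, q2, h2, rfl⟩ := Finset.mem_add.1
      (AddMonoidAlgebra.support_coeff_mul_subset _ _ hq')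
    obtain ⟨n, hn1, hn2⟩ := ih q1 h1
    rw [AddMonoidAlgebra.coeff_add] at h2
    rcases Finset.mem_union.1 (Finsupp.support_add h2) with h3 | h3
    · rw [mono, AddMonoidAlgebra.coeff_single] at h3
      have := Finsupp.support_single_subset h3
      rw [Finset.mem_singleton] at this
      subst this
      refine ⟨n + 1, ?_, ?_⟩
      · simp only [Prod.snd_add]
        omega
      · simp only [Prod.fst_add, hn2, add_smul, one_smul]
    · rw [mono, AddMonoidAlgebra.coeff_single] at h3
      have := Finsupp.support_single_subset h3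
      rw [Finset.mem_singleton] at this
      subst this
      refine ⟨n, ?_, ?_⟩
      · simp only [Prod.snd_add]
        omega
      · simp only [Prod.fst_add, hn2, add_zero]

private theorem rho_mono (c : k) (g b : G r) (i : ℕ) (a : k) :
    rho c g (mono b i a) = a • (mono b 0 1 * (mono g 0 c + mono 0 1 1) ^ i) := by
  rw [rho, subst_mono]

theorem rho_supp (c : k) (g : G r) (P : A k r) :
    ∀ q' ∈ (rho c g P).coeff.support, ∃ q ∈ P.coeff.support, ∃ n : ℕ,
      q'.2 + n = q.2 ∧ q'.1 = q.1 + n • g := by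
  classical
  intro q' hq'
  have hP : P = ∑ q ∈ P.coeff.support, mono q.1 q.2 (P.coeff q) := by
    apply AddMonoidAlgebra.coeff_injective
    rw [AddMonoidAlgebra.coeff_sum]
    conv_lhs => rw [← Finsupp.sum_single P.coeff]
    rfl
  have h1 : rho c g P = ∑ q ∈ P.coeff.support, rho c g (mono q.1 q.2 (P.coeff q)) := by
    conv_lhs => rw [hP]
    rw [map_sum]
  rw [h1, AddMonoidAlgebra.coeff_sum] at hq'
  obtain ⟨q, hq, hq2⟩ := Finset.mem_biUnion.1 (Finsupp.support_finsetSum hq')
  refine ⟨q, hq, ?_⟩
  rw [rho_mono, AddMonoidAlgebra.coeff_smul] at hq2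
  have hq3 := Finsupp.support_smul hq2
  obtain ⟨q1, h1, q2, h2, rfl⟩ := Finset.mem_add.1
    (AddMonoidAlgebra.support_coeff_mul_subset _ _ hq3)
  obtain ⟨n, hn1, hn2⟩ := Y_supp c g q.2 q2 h2
  rw [mono, AddMonoidAlgebra.coeff_single] at h1
  have := Finsupp.support_single_subset h1
  rw [Finset.mem_singleton] at this
  subst this
  refine ⟨n, ?_, ?_⟩
  · simp only [Prod.snd_add]
    omega
  · simp only [Prod.fst_add, hn2]

theorem lf_rho (c : k) (g b : G r) (P : A k r) :
    lf g b (rho c g P) = (lf g b P).comp (X + C c) := by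
  classical
  induction P using ind with
  | h0 => simp [lf_zero]
  | h1 b1 i a =>
    rw [rho_mono, lf_smul, lf_mono_mul, lf_Y_pow, lf_mono]
    have e : (b1 + i • g = b) ↔ (i • g = b - b1) := by
      rw [eq_sub_iff_add_eq, add_comm]
    simp only [e]
    split_ifs
    · rw [Polynomial.monomial_comp, Polynomial.smul_eq_C_mul]
    · simp
  | h2 P Q hP hQ => rw [map_add, lf_add, lf_add, hP, hQ, Polynomial.add_comp]

private theorem exists_lf_ne (g : G r) {P : A k r} {q : Ex r} (hq : q ∈ P.coeff.support) :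
    lf g (q.1 + q.2 • g) P ≠ 0 := by
  intro h
  have h2 := lf_coeff g (q.1 + q.2 • g) P q.2
  rw [h, Polynomial.coeff_zero, add_sub_cancel_right] at h2
  exact Finsupp.mem_support_iff.1 hq h2.symm

private theorem supp_nonempty {P : A k r} (hP : P ≠ 0) : P.coeff.support.Nonempty := by
  rw [Finset.nonempty_iff_ne_empty]
  intro h
  apply hP
  rw [Finsupp.support_eq_empty] at h
  exact AddMonoidAlgebra.coeff_eq_zero.1 h

theorem rho_ne_zero (c : k) (g : G r) {P : A k r} (hP : P ≠ 0) : rho c g P ≠ 0 := by
  obtain ⟨q, hq⟩ := supp_nonempty hP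
  intro h
  have h1 := lf_rho c g (q.1 + q.2 • g) P
  rw [h, lf_zero] at h1
  exact exists_lf_ne g hq (Polynomial.comp_X_add_C_eq_zero_iff.1 h1.symm)

theorem lev_add (wt : G r →+ ℝ) (g : G r) (q : Ex r) :
    lev wt (wt g) q = wt (q.1 + q.2 • g) := by
  rw [lev, map_add, map_nsmul, nsmul_eq_mul]

/-- Recentering at `g` does not lower the levels at slope `wt g`. -/
theorem rho_lev (wt : G r →+ ℝ) (c : k) (g : G r) (P : A k r) (W : ℝ)
    (h : ∀ q ∈ P.coeff.support, W ≤ lev wt (wt g) q) :
    ∀ q ∈ (rho c g P).coeff.support, W ≤ lev wt (wt g) q := by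
  intro q' hq'
  obtain ⟨q, hq, n, h1, h2⟩ := rho_supp c g P q' hq'
  have h3 := h q hq
  rw [lev_add] at h3 ⊢
  have : q'.1 + q'.2 • g = q.1 + q.2 • g := by
    rw [h2, ← h1, add_smul]
    abel
  rwa [this]

/-- The minimal level. -/
theorem exists_min (wt : G r →+ ℝ) (g : G r) {P : A k r} (hP : P ≠ 0) :
    ∃ b, lf g b P ≠ 0 ∧ ∀ q ∈ P.coeff.support, wt b ≤ lev wt (wt g) q := by
  obtain ⟨q, hq, hmin⟩ := Finset.exists_min_image P.coeff.support (lev wt (wt g)) (supp_nonempty hP)
  exact ⟨q.1 + q.2 • g, exists_lf_ne g hq, fun q' hq' => by rw [← lev_add]; exact hmin q' hq'⟩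

end LUW
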