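import Pool.Agent.LUW.Defs
import Pool.Agent.LUW.Cone
import Pool.Agent.LUW.Stab
import Pool.Agent.LUW.Rho
import Pool.Agent.LUW.Red

/-! Project LUW: (C8) the combinatorial Artin-Schreier step. -/

set_option autoImplicit false

namespace LUW

open Polynomial

variable {k : Type*} [Field k] {r : ℕ}

private theorem ac_lev_smul (wt : G r →+ ℝ) (s : ℝ) (n : ℕ) (q : Ex r) :
    lev wt s (n • q) = n * lev wt s q := by
  change wt (n • q.1) + ((n • q.2 : ℕ) : ℝ) * s = n * (wt q.1 + q.2 * s)
  rw [map_nsmul, nsmul_eq_mul, smul_eq_mul]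
  push_cast
  ring

private theorem ac_root (wt : G r →+ ℝ) (s W : ℝ) (hW : W < 0) (p : ℕ) (hp : 2 ≤ p) (q : Ex r)
    (a : ℕ) (h : W ≤ lev wt s (p ^ a • q)) : W ≤ lev wt s q ∧ (lev wt s q = W → a = 0) := by
  rw [ac_lev_smul] at h
  push_cast at h
  have hp1 : (1 : ℝ) ≤ (p : ℝ) := by exact_mod_cast (by omega : 1 ≤ p)
  have hp2 : (2 : ℝ) ≤ (p : ℝ) := by exact_mod_cast hp
  have hpa : (1 : ℝ) ≤ (p : ℝ) ^ a := one_le_pow₀ hp1
  constructor
  · by_contra hlt
    push Not at hlt
    nlinarith
  · intro he
    by_contra ha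
    have h2 : (2 : ℝ) ≤ (p : ℝ) ^ a := by
      obtain ⟨a', rfl⟩ := Nat.exists_eq_succ_of_ne_zero ha
      rw [pow_succ]
      have h3 : (1 : ℝ) ≤ (p : ℝ) ^ a' := one_le_pow₀ hp1
      nlinarith
    rw [he] at h
    nlinarith

private theorem ac_eq (wt : G r →+ ℝ) (hinj : Function.Injective wt) (g b : G r) (q : Ex r)
    (h : lev wt (wt g) q = wt b) : q = (b - q.2 • g, q.2) := by
  rw [lev_add] at h
  have h1 := hinj h
  refine Prod.ext ?_ rfl
  change q.1 = b - q.2 • g
  rw [← h1, add_sub_cancel_right]

private theorem ac_lev (wt : G r →+ ℝ) (g b : G r) (i : ℕ) :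
    lev wt (wt g) (b - i • g, i) = wt b := by
  rw [lev_add]
  change wt (b - i • g + i • g) = wt b
  rw [sub_add_cancel]

/-- one step of the reduction -/
private theorem ac_step (p : ℕ) (hp : p.Prime) {κ : k → k} (wt : G r →+ ℝ)
    (hinj : Function.Injective wt) (c : k) (g : G r) (P P' : A k r) (b : G r)
    (hmin : ∀ q ∈ P.coeff.support, wt b ≤ lev wt (wt g) q) (hW : wt b < 0)
    (h1 : ∀ q ∈ P'.coeff.support, ∃ a : ℕ, p ^ a • q ∈ (rho c g P).coeff.support)
    (h2 : ∀ q : Ex r, (∀ a : ℕ, p ^ (a + 1) • q ∉ (rho c g P).coeff.support) →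
        P'.coeff q = rd p κ q ((rho c g P).coeff q)) :
    (∀ q ∈ P'.coeff.support, wt b ≤ lev wt (wt g) q) ∧
    (∀ q ∈ P'.coeff.support, lev wt (wt g) q = wt b → q.2 ≤ (lf g b P).natDegree) ∧
    (∀ i : ℕ, P'.coeff (b - i • g, i) =
      rd p κ (b - i • g, i) (((lf g b P).comp (X + C c)).coeff i)) := by
  have hl := rho_lev wt c g P (wt b) hmin
  refine ⟨?_, ?_, ?_⟩
  · intro q hq
    obtain ⟨a, ha⟩ := h1 q hq
    exact (ac_root wt _ _ hW p hp.two_le q a (hl _ ha)).1
  · intro q hq he
    obtain ⟨a, ha⟩ := h1 q hq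
    have ha0 := (ac_root wt _ _ hW p hp.two_le q a (hl _ ha)).2 he
    subst ha0
    rw [pow_zero, one_smul] at ha
    have hq1 := ac_eq wt hinj g b q he
    rw [Finsupp.mem_support_iff, hq1] at ha
    change (rho c g P).coeff (b - q.2 • g, q.2) ≠ 0 at ha
    rw [← lf_coeff, lf_rho] at ha
    have h3 := Polynomial.le_natDegree_of_ne_zero ha
    rwa [Polynomial.natDegree_comp, Polynomial.natDegree_X_add_C, mul_one] at h3
  · intro i
    rw [h2, ← lf_coeff, lf_rho]
    intro a ha
    have h3 := hl _ ha
    have h4 := (ac_root wt _ _ hW p hp.two_le _ (a + 1) h3).2 (ac_lev wt g b i)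
    omega

/-- The combinatorial Artin-Schreier step. -/
theorem as_comb (p : ℕ) [Fact p.Prime] [CharP k p] (wt : G r →+ ℝ)
    (hinj : Function.Injective wt) (c : ℕ → k) (hc : ∀ m, c m ≠ 0) (g : ℕ → G r)
    (hmono : StrictMono fun m => wt (g m)) (hbdd : BddAbove (Set.range fun m => wt (g m)))
    (P : A k r) :
    ∃ (m : ℕ) (R H : A k r), shift c g m P = R + (H ^ p - H) ∧
      ((∀ q ∈ R.coeff.support, 0 ≤ lev wt (wt (g m)) q) ∨
       (∃ b : G r, (b, 0) ∈ R.coeff.support ∧ wt b < 0 ∧
          (∀ (b' : G r) (d : k), b = p • b' → R.coeff (b, 0) ≠ d ^ p) ∧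
          ∀ q ∈ R.coeff.support, q ≠ (b, 0) → wt b < lev wt (wt (g m)) q) ∨
       (∃ b : G r, (b, 1) ∈ R.coeff.support ∧
          (∀ q ∈ R.coeff.support, lev wt (wt (g m)) (b, 1) ≤ lev wt (wt (g m)) q) ∧
          ∀ q ∈ R.coeff.support, 2 ≤ q.2 →
            lev wt (wt (g m)) (b, 1) < lev wt (wt (g m)) q)) := by
  classical
  have hp : p.Prime := Fact.out
  have : CharP (A k r) p :=
    charP_of_injective_algebraMap (algebraMap k (A k r)).injective p
  obtain ⟨κ, hκ⟩ := exists_rootProj k p
  choose rP rH hr1 hr2 hr3 hr4 using fun Q : A k r => red (k := k) (r := r) p hκ Q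
  let seq : ℕ → A k r := fun m => Nat.rec (rP P) (fun m Q => rP (rho (c m) (g m) Q)) m
  have seq_zero : seq 0 = rP P := rfl
  have seq_succ : ∀ m, seq (m + 1) = rP (rho (c m) (g m) (seq m)) := fun m => rfl
  have hinv : ∀ m, ∃ H : A k r, shift c g m P = seq m + (H ^ p - H) := by
    intro m
    induction m with
    | zero => exact ⟨rH P, hr1 P⟩
    | succ m ih =>
      obtain ⟨H, hH⟩ := ih
      refine ⟨rho (c m) (g m) H + rH (rho (c m) (g m) (seq m)), ?_⟩
      have h1 : shift c g (m + 1) P = rho (c m) (g m) (shift c g m P) := rfl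
      rw [h1, hH, map_add, map_sub, map_pow, seq_succ, add_pow_char]
      have h2 := hr1 (rho (c m) (g m) (seq m))
      linear_combination h2
  by_contra hno
  have key : ∀ m, ¬ ((∀ q ∈ (seq m).coeff.support, 0 ≤ lev wt (wt (g m)) q) ∨
       (∃ b : G r, (b, 0) ∈ (seq m).coeff.support ∧ wt b < 0 ∧
          (∀ (b' : G r) (d : k), b = p • b' → (seq m).coeff (b, 0) ≠ d ^ p) ∧
          ∀ q ∈ (seq m).coeff.support, q ≠ (b, 0) → wt b < lev wt (wt (g m)) q) ∨
       (∃ b : G r, (b, 1) ∈ (seq m).coeff.support ∧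
          (∀ q ∈ (seq m).coeff.support, lev wt (wt (g m)) (b, 1) ≤ lev wt (wt (g m)) q) ∧
          ∀ q ∈ (seq m).coeff.support, 2 ≤ q.2 →
            lev wt (wt (g m)) (b, 1) < lev wt (wt (g m)) q)) := by
    intro m h
    obtain ⟨H, hH⟩ := hinv m
    exact hno ⟨m, seq m, H, hH, h⟩
  have hneg : ∀ m, ∃ q ∈ (seq m).coeff.support, lev wt (wt (g m)) q < 0 := by
    intro m
    by_contra h
    push Not at h
    exact key m (Or.inl h)
  have hne : ∀ m, seq m ≠ 0 := by
    intro m h
    obtain ⟨q, hq, _⟩ := hneg m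
    rw [h] at hq
    simp at hq
  choose b hb hmin using fun m => exists_min wt (g m) (hne m)
  have hW : ∀ m, wt (b m) < 0 := by
    intro m
    obtain ⟨q, hq, hq0⟩ := hneg m
    exact (hmin m q hq).trans_lt hq0
  have hRed : ∀ m, Reduced p κ (seq m) := by
    intro m
    cases m with
    | zero => exact hr2 P
    | succ m => exact hr2 _
  have hs := fun m => ac_step p hp (κ := κ) wt hinj (c m) (g m) (seq m) (seq (m + 1)) (b m) (hmin m) (hW m)
    (hr3 (rho (c m) (g m) (seq m))) (hr4 (rho (c m) (g m) (seq m)))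
  -- the top monomial
  have hmem : ∀ m, (b m - (lf (g m) (b m) (seq m)).natDegree • g m,
      (lf (g m) (b m) (seq m)).natDegree) ∈ (seq m).coeff.support := by
    intro m
    rw [Finsupp.mem_support_iff, ← lf_coeff, Polynomial.coeff_natDegree]
    exact Polynomial.leadingCoeff_ne_zero.mpr (hb m)
  have hle : ∀ m, ∀ q ∈ (seq m).coeff.support, lev wt (wt (g m)) q = wt (b m) →
      q.2 ≤ (lf (g m) (b m) (seq m)).natDegree := by
    intro m q hq he
    have hq1 := ac_eq wt hinj (g m) (b m) q he
    rw [Finsupp.mem_support_iff, hq1] at hq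
    change (seq m).coeff (b m - q.2 • g m, q.2) ≠ 0 at hq
    rw [← lf_coeff] at hq
    exact Polynomial.le_natDegree_of_ne_zero hq
  have hlt : ∀ m, ∀ q ∈ (seq m).coeff.support,
      (lf (g m) (b m) (seq m)).natDegree < q.2 → wt (b m) < lev wt (wt (g m)) q := by
    intro m q hq hd
    refine lt_of_le_of_ne (hmin m q hq) fun he => ?_
    exact absurd (hle m q hq he.symm) (not_le.2 hd)
  have hst := stab wt hinj g hmono (fun m => (seq m).coeff.support) b
    (fun m => (lf (g m) (b m) (seq m)).natDegree) hmem hmin (fun m => (hs m).1)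
    (fun m => (hs m).2.1) (by
      intro m
      change _ ∈ (seq (m + 1)).coeff.support
      rw [Finsupp.mem_support_iff, (hs m).2.2]
      have h1 : ((lf (g m) (b m) (seq m)).comp (X + C (c m))).natDegree =
          (lf (g m) (b m) (seq m)).natDegree := by
        rw [Polynomial.natDegree_comp, Polynomial.natDegree_X_add_C, mul_one]
      have h2 : ((lf (g m) (b m) (seq m)).comp (X + C (c m))).coeff
          (lf (g m) (b m) (seq m)).natDegree =
          (lf (g m) (b m) (seq m)).leadingCoeff := by
        conv_lhs => rw [← h1]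
        rw [Polynomial.coeff_natDegree, Polynomial.leadingCoeff_comp
          (by rw [Polynomial.natDegree_X_add_C]; exact one_ne_zero),
          Polynomial.leadingCoeff_X_add_C, one_pow, mul_one]
      have h3 : (lf (g m) (b m) (seq m)).leadingCoeff = (seq m).coeff
          (b m - (lf (g m) (b m) (seq m)).natDegree • g m,
            (lf (g m) (b m) (seq m)).natDegree) := by
        rw [← lf_coeff, Polynomial.coeff_natDegree]
      rw [h2, rd_eq (fun hq => by rw [h3]; exact hRed m _ hq)]
      exact Polynomial.leadingCoeff_ne_zero.mpr (hb m))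
  obtain ⟨-, m0, bs, J, hJ⟩ := hst
  rcases Nat.lt_or_ge J 2 with hJ2 | hJ2
  · -- the top index is at most one
    obtain ⟨hj, hbm, -⟩ := hJ m0 le_rfl
    have hm := hmem m0
    rw [hj] at hm
    have hle' := hle m0
    have hlt' := hlt m0
    rw [hj] at hle' hlt'
    interval_cases J
    · apply key m0
      right
      left
      rw [zero_smul, sub_zero] at hm
      refine ⟨b m0, hm, hW m0, ?_, ?_⟩
      · intro b' d hb' hd
        have h1 : PDiv p ((b m0, 0) : Ex r) := by
          refine ⟨fun h => ?_, (b', 0), ?_⟩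
          · have h2 : b m0 = 0 := congrArg Prod.fst h
            have h3 := hW m0
            rw [h2, map_zero] at h3
            exact lt_irrefl _ h3
          · rw [hb']
            refine Prod.ext rfl ?_
            change 0 = p • 0
            rw [smul_zero]
        have h2 := hRed m0 _ h1
        rw [hd, hκ.pow] at h2
        rw [Finsupp.mem_support_iff, hd, h2, zero_pow hp.ne_zero] at hm
        exact hm rfl
      · intro q hq hqb
        refine lt_of_le_of_ne (hmin m0 q hq) fun he => hqb ?_
        have h1 := ac_eq wt hinj (g m0) (b m0) q he.symm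
        have h2 : q.2 = 0 := Nat.le_zero.mp (hle' q hq he.symm)
        rw [h1, h2, zero_smul, sub_zero]
    · apply key m0
      right
      right
      refine ⟨b m0 - 1 • g m0, hm, ?_, ?_⟩
      · intro q hq
        rw [ac_lev]
        exact hmin m0 q hq
      · intro q hq hq2
        rw [ac_lev]
        exact hlt' q hq (by omega)
  · -- the cone lemma
    have hbdd' : BddAbove (Set.range fun m => wt (g (m0 + m))) := by
      obtain ⟨B, hB⟩ := hbdd
      refine ⟨B, ?_⟩
      rintro _ ⟨m, rfl⟩
      exact hB ⟨m0 + m, rfl⟩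
    have hmono' : StrictMono fun m => wt (g (m0 + m)) := by
      intro m m' h
      exact hmono (Nat.add_lt_add_left h m0)
    have hlim := tendsto_atTop_ciSup hmono'.monotone hbdd'
    set γ := ⨆ m, wt (g (m0 + m)) with hγ
    have hwb : ∀ m, wt (b (m0 + m)) = wt bs + J * wt (g (m0 + m)) := by
      intro m
      rw [(hJ (m0 + m) (Nat.le_add_right _ _)).2.1, map_add, map_nsmul, nsmul_eq_mul]
    have hω : wt bs + J * γ ≤ 0 := by
      have h1 : Filter.Tendsto (fun m => wt bs + J * wt (g (m0 + m))) Filter.atTop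
          (nhds (wt bs + J * γ)) := (hlim.const_mul (J : ℝ)).const_add (wt bs)
      refine le_of_tendsto' h1 fun m => ?_
      rw [← hwb m]
      exact (hW _).le
    refine cone wt p hp.two_le (fun m => g (m0 + m)) hmono' γ hlim bs J (by omega)
      (fun m => (seq (m0 + m)).coeff.support) ?_ ?_ ?_
    · intro m q' hq'
      have hq'' : q' ∈ (rP (rho (c (m0 + m)) (g (m0 + m)) (seq (m0 + m)))).coeff.support := hq'
      obtain ⟨a, ha⟩ := hr3 _ q' hq''
      obtain ⟨q, hq, n, hn1, hn2⟩ := rho_supp _ _ _ _ ha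
      refine ⟨q, hq, a, n, fun _ => hω, ?_, hn2⟩
      rw [← hn1]
      rfl
    · intro m q hq
      rw [← hwb m]
      exact hmin _ q hq
    · intro m
      by_contra hall
      push Not at hall
      obtain ⟨hj, hbm, hlow⟩ := hJ (m0 + m) (Nat.le_add_right _ _)
      have hj' : (lf (g (m0 + m)) (b (m0 + m)) (seq (m0 + m))).natDegree = J := hj
      have hmm := hmem (m0 + m)
      rw [hj'] at hmm
      have hL0 := hb (m0 + m)
      have hstep := (hs (m0 + m)).2.2
      have hcoef : ∀ i < J, (lf (g (m0 + m)) (b (m0 + m)) (seq (m0 + m))).coeff i = 0 := by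
        intro i hi
        rw [lf_coeff]
        by_contra hne0
        apply hall i hi
        rw [Finsupp.mem_support_iff]
        have h1 : bs + (J - i) • g (m0 + m) = b (m0 + m) - i • g (m0 + m) := by
          have h2 : J • g (m0 + m) = (J - i) • g (m0 + m) + i • g (m0 + m) := by
            rw [← add_smul, Nat.sub_add_cancel hi.le]
          rw [hbm, h2]
          abel
        rw [h1]
        exact hne0
      set L := lf (g (m0 + m)) (b (m0 + m)) (seq (m0 + m)) with hL
      have hLe : L = C L.leadingCoeff * X ^ J := by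
        ext i
        rw [Polynomial.coeff_C_mul, Polynomial.coeff_X_pow]
        rcases lt_trichotomy i J with h | h | h
        · rw [hcoef i h, if_neg h.ne, mul_zero]
        · rw [if_pos h, mul_one, h, ← hj', Polynomial.coeff_natDegree]
        · rw [if_neg h.ne', mul_zero]
          exact Polynomial.coeff_eq_zero_of_natDegree_lt (by rw [hj']; exact h)
      have hlc : L.leadingCoeff ≠ 0 := Polynomial.leadingCoeff_ne_zero.mpr hL0
      have hcomp : ∀ i, (L.comp (X + C (c (m0 + m)))).coeff i =
          L.leadingCoeff * (c (m0 + m) ^ (J - i) * (J.choose i : k)) := by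
        intro i
        conv_lhs => rw [hLe]
        rw [Polynomial.mul_comp, Polynomial.C_comp, Polynomial.X_pow_comp,
          Polynomial.coeff_C_mul, Polynomial.coeff_X_add_C_pow]
      have hcon : ∀ i < J, rd p κ (b (m0 + m) - i • g (m0 + m), i)
          ((L.comp (X + C (c (m0 + m)))).coeff i) = 0 := by
        intro i hi
        rw [← hstep i]
        by_contra hne0
        have h1 := hlow _ (Finsupp.mem_support_iff.mpr hne0) hi
        rw [ac_lev] at h1
        exact lt_irrefl _ h1
      by_cases hpJ : p ∣ J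
      · have h2 := hcon 0 (by omega)
        rw [rd_eq, hcomp, Nat.choose_zero_right, Nat.cast_one, mul_one, Nat.sub_zero] at h2
        · rcases mul_eq_zero.mp h2 with h | h
          · exact hlc h
          · exact hc _ (pow_eq_zero_iff (by omega) |>.mp h)
        · rintro ⟨-, q', hq'⟩
          obtain ⟨J', hJ'⟩ := hpJ
          have hb2 : b (m0 + m) = p • q'.1 := by
            have h3 : b (m0 + m) - 0 • g (m0 + m) = p • q'.1 := congrArg Prod.fst hq'
            rwa [zero_smul, sub_zero] at h3
          have htop : PDiv p ((b (m0 + m) - J • g (m0 + m), J) : Ex r) := by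
            refine ⟨fun h => ?_, (q'.1 - J' • g (m0 + m), J'), ?_⟩
            · have h3 : J = 0 := congrArg Prod.snd h
              omega
            · refine Prod.ext ?_ ?_
              · change b (m0 + m) - J • g (m0 + m) = p • (q'.1 - J' • g (m0 + m))
                rw [hb2, hJ', smul_sub, mul_smul]
              · change J = p • J'
                rw [smul_eq_mul, hJ']
          have h4 := hRed (m0 + m) _ htop
          have h5 : L.leadingCoeff = (seq (m0 + m)).coeff
              (b (m0 + m) - J • g (m0 + m), J) := by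
            rw [← lf_coeff, ← hL, ← hj', Polynomial.coeff_natDegree]
          rw [← h5] at h4
          rw [hcomp, Nat.choose_zero_right, Nat.cast_one, mul_one, Nat.sub_zero, hJ',
            mul_comm p J', pow_mul, mul_comm, hκ.mul, h4, mul_zero]
      · have h1 : ¬ PDiv p ((b (m0 + m) - 1 • g (m0 + m), 1) : Ex r) := by
          rintro ⟨-, q', hq'⟩
          have h2 : 1 = p • q'.2 := congrArg Prod.snd hq'
          rw [smul_eq_mul] at h2
          exact hp.one_lt.ne' (Nat.eq_one_of_mul_eq_one_right h2.symm)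
        have h2 := hcon 1 (by omega)
        rw [rd_of_not h1, hcomp, Nat.choose_one_right] at h2
        rcases mul_eq_zero.mp h2 with h | h
        · exact hlc h
        · rcases mul_eq_zero.mp h with h | h
          · exact hc _ (pow_eq_zero_iff (by omega) |>.mp h)
          · exact hpJ ((CharP.cast_eq_zero_iff k p J).mp h)

end LUW
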