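import Pool.Agent.LUW.Basic

/-! Project LUW: (A5) Hensel. -/

set_option autoImplicit false

namespace LUW

open Polynomial

variable {k : Type*} [Field k] {Ω : Type*} [NormedField Ω] [Algebra k Ω] [Big k Ω]

/-- the part of degree at least two -/
private noncomputable def henR {Ω : Type*} [NormedField Ω] (Φ : Polynomial Ω) (a : Ω) : Ω :=
  ∑ i ∈ Finset.range Φ.natDegree, Φ.coeff (i + 2) * a ^ (i + 2)

private theorem hen_eval {Ω : Type*} [NormedField Ω] (Φ : Polynomial Ω) (a : Ω) :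
    Φ.eval a = Φ.coeff 0 + Φ.coeff 1 * a + henR Φ a := by
  rw [Polynomial.eval_eq_sum_range' (n := Φ.natDegree + 2) (by omega), Finset.sum_range_succ',
    Finset.sum_range_succ', henR]
  simp only [zero_add, pow_zero, pow_one, mul_one]
  ring

private theorem hen_theta (g : ℕ → ℝ) (h : ∀ i, g i < 1) (n : ℕ) :
    ∃ θ : ℝ, 0 ≤ θ ∧ θ < 1 ∧ ∀ i < n, g i ≤ θ := by
  induction n with
  | zero => exact ⟨0, le_rfl, zero_lt_one, fun i hi => absurd hi (Nat.not_lt_zero i)⟩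
  | succ n ih =>
    obtain ⟨θ, h0, h1, h2⟩ := ih
    refine ⟨max θ (g n), h0.trans (le_max_left _ _), max_lt h1 (h n), fun i hi => ?_⟩
    rcases Nat.lt_succ_iff_lt_or_eq.1 hi with h3 | rfl
    · exact (h2 i h3).trans (le_max_left _ _)
    · exact le_max_right _ _

include k in
variable (k) in
private theorem hen_pow {R : ℝ} {a b : Ω} (ha : ‖a‖ ≤ R) (hb : ‖b‖ ≤ R) (n : ℕ) :
    ‖a ^ (n + 1) - b ^ (n + 1)‖ ≤ ‖a - b‖ * R ^ n := by
  have hR : 0 ≤ R := (norm_nonneg a).trans ha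
  induction n with
  | zero => simp
  | succ n ih =>
    rw [show a ^ (n + 1 + 1) - b ^ (n + 1 + 1) =
      a * (a ^ (n + 1) - b ^ (n + 1)) + (a - b) * b ^ (n + 1) by ring]
    refine (Big.add_le k _ _).trans (max_le ?_ ?_)
    · rw [norm_mul]
      calc ‖a‖ * ‖a ^ (n + 1) - b ^ (n + 1)‖ ≤ R * (‖a - b‖ * R ^ n) :=
            mul_le_mul ha ih (norm_nonneg _) hR
        _ = ‖a - b‖ * R ^ (n + 1) := by ring
    · rw [norm_mul, norm_pow]
      exact mul_le_mul_of_nonneg_left (pow_le_pow_left₀ (norm_nonneg b) hb _) (norm_nonneg _)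

include k in
variable (k) in
private theorem hen_diff (Φ : Polynomial Ω) {R θ : ℝ} (hθ : 0 ≤ θ)
    (h : ∀ i < Φ.natDegree, ‖Φ.coeff (i + 2)‖ * R ^ (i + 1) ≤ θ * ‖Φ.coeff 1‖) {a b : Ω}
    (ha : ‖a‖ ≤ R) (hb : ‖b‖ ≤ R) :
    ‖henR Φ a - henR Φ b‖ ≤ θ * ‖Φ.coeff 1‖ * ‖a - b‖ := by
  rw [henR, henR, ← Finset.sum_sub_distrib]
  refine Big.sum_le k _ _ (by positivity) fun i hi => ?_
  rw [← mul_sub, norm_mul]
  calc ‖Φ.coeff (i + 2)‖ * ‖a ^ (i + 2) - b ^ (i + 2)‖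
      ≤ ‖Φ.coeff (i + 2)‖ * (‖a - b‖ * R ^ (i + 1)) :=
        mul_le_mul_of_nonneg_left (hen_pow k ha hb (i + 1)) (norm_nonneg _)
    _ = ‖Φ.coeff (i + 2)‖ * R ^ (i + 1) * ‖a - b‖ := by ring
    _ ≤ θ * ‖Φ.coeff 1‖ * ‖a - b‖ :=
        mul_le_mul_of_nonneg_right (h i (Finset.mem_range.1 hi)) (norm_nonneg _)

/-- Hensel/Newton in a closed subfield: a polynomial over `N` whose linear coefficient dominates on
the disc of radius `R`, with an approximate root `x ∈ Ω`, has a root in `N` close to `x`. -/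
theorem hensel (N : IntermediateField k Ω) (hN : IsClosed (N : Set Ω)) (Φ : Polynomial Ω)
    (hΦ : ∀ i, Φ.coeff i ∈ N) (R : ℝ) (hR : 0 < R) (h1 : Φ.coeff 1 ≠ 0)
    (h2 : ∀ i, 2 ≤ i → ‖Φ.coeff i‖ * R ^ (i - 1) < ‖Φ.coeff 1‖) (x : Ω) (hx : ‖x‖ ≤ R)
    (h0 : ‖Φ.eval x‖ ≤ ‖Φ.coeff 1‖ * R) :
    ∃ x' ∈ N, ‖x'‖ ≤ R ∧ Φ.eval x' = 0 ∧ ‖x - x'‖ * ‖Φ.coeff 1‖ = ‖Φ.eval x‖ := by
  have : CompleteSpace Ω := Big.complete k
  have hc : 0 < ‖Φ.coeff 1‖ := norm_pos_iff.2 h1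
  obtain ⟨θ, hθ0, hθ1, hθ⟩ := hen_theta
    (fun i => ‖Φ.coeff (i + 2)‖ * R ^ (i + 1) / ‖Φ.coeff 1‖)
    (fun i => (div_lt_one hc).2 (h2 (i + 2) (by omega))) Φ.natDegree
  have hθ' : ∀ i < Φ.natDegree, ‖Φ.coeff (i + 2)‖ * R ^ (i + 1) ≤ θ * ‖Φ.coeff 1‖ :=
    fun i hi => (div_le_iff₀ hc).1 (hθ i hi)
  have hd := @hen_diff k _ Ω _ _ _ Φ R θ hθ0 hθ'
  -- the map is a similarity on the disc
  have hsim : ∀ a b : Ω, ‖a‖ ≤ R → ‖b‖ ≤ R →
      ‖Φ.eval a - Φ.eval b‖ = ‖a - b‖ * ‖Φ.coeff 1‖ := by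
    intro a b ha hb
    by_cases hab : a = b
    · rw [hab, sub_self, sub_self, norm_zero, zero_mul]
    · have hpos : 0 < ‖a - b‖ := norm_pos_iff.2 (sub_ne_zero.2 hab)
      have h3 : ‖Φ.eval a - Φ.eval b‖ = ‖Φ.coeff 1 * (a - b)‖ := by
        refine Big.norm_eq k ?_
        have h4 : Φ.eval a - Φ.eval b - Φ.coeff 1 * (a - b) = henR Φ a - henR Φ b := by
          rw [hen_eval Φ a, hen_eval Φ b]
          ring
        rw [h4, norm_mul]
        refine (hd ha hb).trans_lt ?_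
        have h5 : θ * ‖Φ.coeff 1‖ < ‖Φ.coeff 1‖ := by nlinarith
        exact mul_lt_mul_of_pos_right h5 hpos
      rw [h3, norm_mul, mul_comm]
  have hz : ‖(0 : Ω)‖ ≤ R := by rw [norm_zero]; exact hR.le
  have hr0 : henR Φ 0 = 0 := by
    rw [henR]
    exact Finset.sum_eq_zero fun i _ => by rw [zero_pow (by omega), mul_zero]
  have hΦ0 : ‖Φ.coeff 0‖ ≤ ‖Φ.coeff 1‖ * R := by
    have h3 : Φ.coeff 0 = Φ.eval x - (Φ.eval x - Φ.eval 0) := by
      rw [hen_eval Φ 0, hr0]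
      ring
    rw [h3]
    refine (Big.sub_le k _ _).trans (max_le h0 ?_)
    rw [hsim x 0 hx hz, sub_zero, mul_comm]
    exact mul_le_mul_of_nonneg_left hx hc.le
  -- the contraction
  let T : Ω → Ω := fun a => -(Φ.coeff 0 + henR Φ a) / Φ.coeff 1
  let s : Set Ω := (N : Set Ω) ∩ Metric.closedBall 0 R
  have hs : IsComplete s := (hN.inter Metric.isClosed_closedBall).isComplete
  have hTs : Set.MapsTo T s s := by
    rintro a ⟨haN, haR⟩
    rw [mem_closedBall_zero_iff] at haR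
    refine ⟨?_, ?_⟩
    · refine N.div_mem (N.neg_mem (N.add_mem (hΦ 0) ?_)) (hΦ 1)
      rw [henR]
      exact sum_mem fun i _ => mul_mem (hΦ _) (pow_mem haN _)
    · rw [mem_closedBall_zero_iff]
      change ‖-(Φ.coeff 0 + henR Φ a) / Φ.coeff 1‖ ≤ R
      rw [norm_div, norm_neg, div_le_iff₀ hc]
      refine (Big.add_le k _ _).trans (max_le (hΦ0.trans_eq (mul_comm _ _)) ?_)
      have h3 := hd haR hz
      rw [hr0, sub_zero, sub_zero] at h3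
      refine h3.trans ?_
      have h4 : ‖Φ.coeff 1‖ * ‖a‖ ≤ ‖Φ.coeff 1‖ * R := mul_le_mul_of_nonneg_left haR hc.le
      have h5 : 0 ≤ ‖Φ.coeff 1‖ * ‖a‖ := by positivity
      calc θ * ‖Φ.coeff 1‖ * ‖a‖ = θ * (‖Φ.coeff 1‖ * ‖a‖) := by ring
        _ ≤ 1 * (‖Φ.coeff 1‖ * ‖a‖) := mul_le_mul_of_nonneg_right hθ1.le h5
        _ ≤ R * ‖Φ.coeff 1‖ := by rw [one_mul, mul_comm R]; exact h4
  have hT : ContractingWith ⟨θ, hθ0⟩ (hTs.restrict T s s) := by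
    refine ⟨?_, LipschitzWith.of_dist_le_mul ?_⟩
    · exact hθ1
    · rintro ⟨a, haN, haR⟩ ⟨b, hbN, hbR⟩
      rw [mem_closedBall_zero_iff] at haR hbR
      change dist (T a) (T b) ≤ θ * dist a b
      rw [dist_eq_norm, dist_eq_norm]
      have h3 : T a - T b = -(henR Φ a - henR Φ b) / Φ.coeff 1 := by
        change -(Φ.coeff 0 + henR Φ a) / Φ.coeff 1 - -(Φ.coeff 0 + henR Φ b) / Φ.coeff 1 = _
        ring
      rw [h3, norm_div, norm_neg, div_le_iff₀ hc]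
      refine (hd haR hbR).trans_eq ?_
      ring
  have hs0 : (0 : Ω) ∈ s := ⟨N.zero_mem, by rw [mem_closedBall_zero_iff]; exact hz⟩
  obtain ⟨x', ⟨hxN, hxR⟩, hfix, -⟩ := hT.exists_fixedPoint' hs hTs hs0 (edist_ne_top _ _)
  rw [mem_closedBall_zero_iff] at hxR
  have hroot : Φ.eval x' = 0 := by
    have h3 : -(Φ.coeff 0 + henR Φ x') / Φ.coeff 1 = x' := hfix
    rw [div_eq_iff h1] at h3
    rw [hen_eval]
    linear_combination -h3
  refine ⟨x', hxN, hxR, hroot, ?_⟩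
  rw [← hsim x x' hx hxR, hroot, sub_zero]

end LUW
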