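import Pool.Agent.LUW.Defs
import Pool.Agent.LUW.Cone
import Pool.Agent.LUW.Stab
import Pool.Agent.LUW.Rho

/-! Project LUW: (C7) transcendental type and persistence. -/

set_option autoImplicit false

namespace LUW

open Polynomial

variable {k : Type*} [Field k] {r : ℕ}

private theorem Trans_shift_ne (c : ℕ → k) (g : ℕ → G r) (P : A k r) (hP : P ≠ 0) :
    ∀ m, shift c g m P ≠ 0
  | 0 => hP
  | m + 1 => rho_ne_zero (c m) (g m) (Trans_shift_ne c g P hP m)

/-- A polynomial `L` such that `L (X + c)` has no coefficients below `J` and `L (X + c)` has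
degree `J`, evaluated at `0`. -/
private theorem Trans_coeff_zero (L : Polynomial k) (c : k) (hc : c ≠ 0) (hL : L ≠ 0)
    (h : ∀ i < L.natDegree, (L.comp (X + C c)).coeff i = 0) : L.coeff 0 ≠ 0 := by
  have hd : (L.comp (X + C c)).natDegree = L.natDegree := by
    rw [natDegree_comp, natDegree_X_add_C, mul_one]
  have hlc : (L.comp (X + C c)).coeff L.natDegree = L.leadingCoeff := by
    have h1 := leadingCoeff_comp (p := L) (q := X + C c) (by rw [natDegree_X_add_C]; exact one_ne_zero)
    rw [leadingCoeff_X_add_C, one_pow, mul_one] at h1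
    rw [← h1, leadingCoeff, hd]
  have e : L.comp (X + C c) = monomial L.natDegree L.leadingCoeff := by
    ext i
    rw [coeff_monomial]
    split_ifs with hi
    · rw [← hi, hlc]
    · rcases lt_or_gt_of_ne hi with hlt | hgt
      · exact coeff_eq_zero_of_natDegree_lt (by rw [hd]; exact hlt)
      · exact h i hgt
  have h0 : L.coeff 0 = (L.comp (X + C c)).eval (-c) := by
    rw [eval_comp, eval_add, eval_X, eval_C, neg_add_cancel, coeff_zero_eq_eval_zero]
  rw [h0, e, eval_monomial]
  exact mul_ne_zero (leadingCoeff_ne_zero.2 hL) (pow_ne_zero _ (neg_ne_zero.2 hc))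

/-- Pseudo-limits of bounded increasing weights are of transcendental type. -/
theorem trans_type (wt : G r →+ ℝ) (hinj : Function.Injective wt) (c : ℕ → k)
    (hc : ∀ m, c m ≠ 0) (g : ℕ → G r) (hmono : StrictMono fun m => wt (g m))
    (hbdd : BddAbove (Set.range fun m => wt (g m))) (P : A k r) (hP : P ≠ 0) :
    ∃ m b, Good wt (c m) (g m) (shift c g m P) b := by
  by_contra hcon
  push Not at hcon
  have hne := Trans_shift_ne c g P hP
  choose b hb hmin using fun m => exists_min wt (g m) (hne m)
  have hev : ∀ m, (lf (g m) (b m) (shift c g m P)).eval (c m) = 0 := by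
    intro m
    by_contra h
    exact hcon m (b m) ⟨hmin m, h⟩
  set L : ℕ → Polynomial k := fun m => lf (g m) (b m) (shift c g m P) with hLdef
  have hL0 : ∀ m, L m ≠ 0 := hb
  set j : ℕ → ℕ := fun m => (L m).natDegree with hj
  set S : ℕ → Finset (Ex r) := fun m => (shift c g m P).coeff.support with hS
  have hLc : ∀ m i, (L m).coeff i = (shift c g m P).coeff (b m - i • g m, i) := fun m i =>
    lf_coeff _ _ _ _
  have hcomp : ∀ m i, ((L m).comp (X + C (c m))).coeff i =
      (shift c g (m + 1) P).coeff (b m - i • g m, i) := by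
    intro m i
    have h1 := lf_rho (c m) (g m) (b m) (shift c g m P)
    change _ = (rho (c m) (g m) (shift c g m P)).coeff (b m - i • g m, i)
    rw [← lf_coeff, h1]
  have hdeg : ∀ m, ((L m).comp (X + C (c m))).natDegree = j m := by
    intro m
    rw [natDegree_comp, natDegree_X_add_C, mul_one]
  have hlc : ∀ m, ((L m).comp (X + C (c m))).coeff (j m) ≠ 0 := by
    intro m
    have h1 := leadingCoeff_comp (p := L m) (q := X + C (c m))
      (by rw [natDegree_X_add_C]; exact one_ne_zero)
    rw [leadingCoeff_X_add_C, one_pow, mul_one] at h1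
    have h2 : ((L m).comp (X + C (c m))).coeff (j m) = (L m).leadingCoeff := by
      rw [← h1, leadingCoeff, hdeg]
    rw [h2]
    exact leadingCoeff_ne_zero.2 (hL0 m)
  obtain ⟨-, m0, bs, J, hst⟩ := stab wt hinj g hmono S b j
    (fun m => by
      rw [Finsupp.mem_support_iff, ← hLc]
      exact leadingCoeff_ne_zero.2 (hL0 m))
    hmin
    (fun m => rho_lev wt (c m) (g m) (shift c g m P) (wt (b m)) (hmin m))
    (fun m q hq hlev => by
      rw [lev_add] at hlev
      have h1 := hinj hlev
      have h2 : q = (b m - q.2 • g m, q.2) := by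
        ext1
        · change q.1 = b m - q.2 • g m
          rw [← h1, add_sub_cancel_right]
        · rfl
      have h3 : ((L m).comp (X + C (c m))).coeff q.2 ≠ 0 := by
        rw [hcomp, ← h2]
        exact Finsupp.mem_support_iff.1 hq
      rw [← hdeg m]
      exact le_natDegree_of_ne_zero h3)
    (fun m => by
      rw [Finsupp.mem_support_iff, ← hcomp]
      exact hlc m)
  have hjpos : 1 ≤ J := by
    by_contra h
    have hJ : J = 0 := by omega
    have h1 := (hst m0 le_rfl).1
    rw [hJ] at h1
    have h2 : L m0 = C ((L m0).coeff 0) := eq_C_of_natDegree_eq_zero h1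
    have h3 : (L m0).eval (c m0) = 0 := hev m0
    rw [h2, eval_C] at h3
    exact hL0 m0 (by rw [h2, h3, C_0])
  have hlim := tendsto_atTop_ciSup hmono.monotone hbdd
  have hlim' := hlim.comp (Filter.tendsto_add_atTop_nat m0)
  refine cone wt 2 le_rfl (fun m => g (m + m0)) (fun a a' h => hmono (by omega)) _ hlim' bs J hjpos
    (fun m => S (m + m0)) ?_ ?_ ?_
  · intro m q' hq'
    have e : m + 1 + m0 = (m + m0) + 1 := by omega
    change q' ∈ S (m + 1 + m0) at hq'
    rw [e] at hq'
    obtain ⟨q, hq, n, h1, h2⟩ := rho_supp (c (m + m0)) (g (m + m0)) (shift c g (m + m0) P) q' hq'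
    exact ⟨q, hq, 0, n, fun h => absurd rfl h, by rw [pow_zero, one_mul]; exact h1,
      by rw [pow_zero, one_smul]; exact h2⟩
  · intro m q hq
    have h1 := hmin (m + m0) q hq
    have h2 := (hst (m + m0) (by omega)).2.1
    rw [h2, map_add, map_nsmul, nsmul_eq_mul] at h1
    exact h1
  · intro m
    obtain ⟨h1, h2, h3⟩ := hst (m + m0) (by omega)
    refine ⟨0, by omega, ?_⟩
    change (bs + (J - 0) • g (m + m0), 0) ∈ S (m + m0)
    have h4 : (L (m + m0)).coeff 0 ≠ 0 := by
      refine Trans_coeff_zero _ (c (m + m0)) (hc _) (hL0 _) fun i hi => ?_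
      by_contra h5
      rw [hcomp] at h5
      have hi' : i < J := by rw [← h1]; exact hi
      have h6 := h3 _ (Finsupp.mem_support_iff.2 h5) hi'
      rw [lev_add] at h6
      change wt (b (m + m0)) < wt (b (m + m0) - i • g (m + m0) + i • g (m + m0)) at h6
      rw [sub_add_cancel] at h6
      exact lt_irrefl _ h6
    rw [hLc, zero_smul, sub_zero, h2] at h4
    rw [Nat.sub_zero]
    exact Finsupp.mem_support_iff.2 h4

/-- Persistence of `Good`. -/
theorem good_succ (wt : G r →+ ℝ) (c : ℕ → k) (g : ℕ → G r)
    (hmono : StrictMono fun m => wt (g m)) (P : A k r) (m : ℕ) (b : G r)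
    (h : Good wt (c m) (g m) (shift c g m P) b) :
    Good wt (c (m + 1)) (g (m + 1)) (shift c g (m + 1) P) b := by
  obtain ⟨hmin, hev⟩ := h
  have hlt : wt (g m) < wt (g (m + 1)) := hmono (Nat.lt_succ_self m)
  have hl : ∀ q ∈ (shift c g (m + 1) P).coeff.support, wt b ≤ lev wt (wt (g m)) q :=
    rho_lev wt (c m) (g m) (shift c g m P) (wt b) hmin
  refine ⟨fun q hq => ?_, ?_⟩
  · refine (hl q hq).trans ?_
    rw [lev, lev]
    have : (q.2 : ℝ) * wt (g m) ≤ q.2 * wt (g (m + 1)) :=
      mul_le_mul_of_nonneg_left hlt.le (Nat.cast_nonneg _)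
    linarith
  · have hz : ∀ i, 1 ≤ i → (lf (g (m + 1)) b (shift c g (m + 1) P)).coeff i = 0 := by
      intro i hi
      by_contra hne
      rw [lf_coeff] at hne
      have h1 := hl _ (Finsupp.mem_support_iff.2 hne)
      rw [lev] at h1
      change wt b ≤ wt (b - i • g (m + 1)) + (i : ℝ) * wt (g m) at h1
      rw [map_sub, map_nsmul, nsmul_eq_mul] at h1
      have hi' : (0 : ℝ) < i := by exact_mod_cast hi
      nlinarith [mul_pos hi' (sub_pos.2 hlt)]
    have h0 : lf (g (m + 1)) b (shift c g (m + 1) P) =
        C ((lf (g (m + 1)) b (shift c g (m + 1) P)).coeff 0) := by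
      ext i
      rw [coeff_C]
      split_ifs with hi
      · rw [hi]
      · exact hz i (by omega)
    have h1 : (lf (g (m + 1)) b (shift c g (m + 1) P)).coeff 0 =
        (lf (g m) b (shift c g m P)).eval (c m) := by
      have e1 : (lf (g m) b (rho (c m) (g m) (shift c g m P))).coeff 0 =
          (lf (g m) b (shift c g m P)).eval (c m) := by
        rw [lf_rho, coeff_zero_eq_eval_zero, eval_comp, eval_add, eval_X, eval_C, zero_add]
      rw [← e1, lf_coeff, lf_coeff, zero_smul, zero_smul]
      rfl
    rw [h0, eval_C, h1]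
    exact hev

theorem good_le (wt : G r →+ ℝ) (c : ℕ → k) (g : ℕ → G r)
    (hmono : StrictMono fun m => wt (g m)) (P : A k r) {m m' : ℕ} (hm : m ≤ m') (b : G r)
    (h : Good wt (c m) (g m) (shift c g m P) b) :
    Good wt (c m') (g m') (shift c g m' P) b := by
  induction m', hm using Nat.le_induction with
  | base => exact h
  | succ n _ ih => exact good_succ wt c g hmono P n b ih

end LUW
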