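import Pool.Agent.LUW.Basic

/-! Project LUW: (A6) shifting Taylor expansions. -/

set_option autoImplicit false

namespace LUW

open Polynomial

variable {k : Type*} [Field k] {Ω : Type*} [NormedField Ω] [Algebra k Ω] [Big k Ω]

private theorem TayShift_coeff {Ω : Type*} [Field Ω] (Q : Polynomial Ω) (a t : Ω) (i : ℕ) :
    (Polynomial.taylor a Q).coeff i = ∑ l ∈ (Polynomial.taylor t Q).support,
      ((l.choose i : ℕ) : Ω) * (Polynomial.taylor t Q).coeff l * (a - t) ^ (l - i) := by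
  have h : Polynomial.taylor a Q = Polynomial.taylor (a - t) (Polynomial.taylor t Q) := by
    rw [taylor_taylor, sub_add_cancel]
  rw [h, taylor_coeff, hasseDeriv_apply, Polynomial.sum, eval_finsetSum]
  exact Finset.sum_congr rfl fun l _ => by rw [eval_monomial]

private theorem TayShift_nat (k : Type*) [Field k] {Ω : Type*} [NormedField Ω] [Algebra k Ω]
    [Big k Ω] (n : ℕ) : ‖(n : Ω)‖ ≤ 1 := by
  rw [← map_natCast (algebraMap k Ω) n]
  exact Big.norm_c_le k _

private theorem TayShift_term (k : Type*) [Field k] {Ω : Type*} [NormedField Ω] [Algebra k Ω]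
    [Big k Ω] (n l i : ℕ) (q x : Ω) {R : ℝ} (hR : 0 < R) (hx : ‖x‖ ≤ R) (hil : i ≤ l) :
    ‖(n : Ω) * q * x ^ (l - i)‖ * R ^ i ≤ ‖q‖ * R ^ l := by
  have h1 : ‖(n : Ω) * q * x ^ (l - i)‖ ≤ ‖q‖ * R ^ (l - i) := by
    rw [norm_mul, norm_mul, norm_pow]
    refine mul_le_mul ?_ (pow_le_pow_left₀ (norm_nonneg _) hx _) (pow_nonneg (norm_nonneg _) _)
      (norm_nonneg _)
    exact mul_le_of_le_one_left (norm_nonneg _) (TayShift_nat k n)
  calc ‖(n : Ω) * q * x ^ (l - i)‖ * R ^ i ≤ ‖q‖ * R ^ (l - i) * R ^ i :=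
        mul_le_mul_of_nonneg_right h1 (pow_nonneg hR.le _)
    _ = ‖q‖ * R ^ l := by rw [mul_assoc, ← pow_add, Nat.sub_add_cancel hil]

private theorem TayShift_sum_lt (k : Type*) [Field k] {Ω : Type*} [NormedField Ω] [Algebra k Ω]
    [Big k Ω] {ι : Type*} (s : Finset ι) (f : ι → Ω) {B : ℝ} (hB : 0 < B)
    (h : ∀ i ∈ s, ‖f i‖ < B) : ‖∑ i ∈ s, f i‖ < B := by
  classical
  induction s using Finset.induction_on with
  | empty => simpa using hB
  | insert a s ha ih =>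
    rw [Finset.sum_insert ha]
    exact (Big.add_le k _ _).trans_lt (max_lt (h a (Finset.mem_insert_self _ _))
      (ih fun i hi => h i (Finset.mem_insert_of_mem hi)))

/-- Taylor coefficient bounds on a disc do not depend on the center. -/
theorem taylor_shift (k : Type*) [Field k] {Ω : Type*} [NormedField Ω] [Algebra k Ω] [Big k Ω]
    (Q : Polynomial Ω) {R B : ℝ} (hR : 0 < R) (hB : 0 ≤ B) {a t : Ω}
    (h : ‖a - t‖ ≤ R) (n0 : ℕ)
    (hQ : ∀ l, n0 ≤ l → ‖(Polynomial.taylor t Q).coeff l‖ * R ^ l ≤ B) :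
    ∀ i, n0 ≤ i → ‖(Polynomial.taylor a Q).coeff i‖ * R ^ i ≤ B := by
  intro i hi
  have hRi : 0 < R ^ i := pow_pos hR i
  rw [← le_div_iff₀ hRi, TayShift_coeff Q a t i]
  refine Big.sum_le k _ _ (div_nonneg hB hRi.le) fun l _ => ?_
  rw [le_div_iff₀ hRi]
  by_cases hil : i ≤ l
  · exact (TayShift_term k _ l i _ _ hR h hil).trans (hQ l (hi.trans hil))
  · rw [Nat.choose_eq_zero_of_lt (not_le.1 hil), Nat.cast_zero, zero_mul, zero_mul, norm_zero,
      zero_mul]
    exact hB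

/-- Strict version of the same statement. -/
theorem taylor_shift_lt (k : Type*) [Field k] {Ω : Type*} [NormedField Ω] [Algebra k Ω] [Big k Ω]
    (Q : Polynomial Ω) {R B : ℝ} (hR : 0 < R) {a t : Ω}
    (h : ‖a - t‖ ≤ R) (n0 : ℕ) (hB : 0 < B)
    (hQ : ∀ l, n0 ≤ l → ‖(Polynomial.taylor t Q).coeff l‖ * R ^ l < B) :
    ∀ i, n0 ≤ i → ‖(Polynomial.taylor a Q).coeff i‖ * R ^ i < B := by
  intro i hi
  have hRi : 0 < R ^ i := pow_pos hR i
  rw [← lt_div_iff₀ hRi, TayShift_coeff Q a t i]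
  refine TayShift_sum_lt k _ _ (div_pos hB hRi) fun l _ => ?_
  rw [lt_div_iff₀ hRi]
  by_cases hil : i ≤ l
  · exact (TayShift_term k _ l i _ _ hR h hil).trans_lt (hQ l (hi.trans hil))
  · rw [Nat.choose_eq_zero_of_lt (not_le.1 hil), Nat.cast_zero, zero_mul, zero_mul, norm_zero,
      zero_mul]
    exact hB

theorem taylor_eval_sub (Q : Polynomial Ω) (a t : Ω) :
    Q.eval a = ∑ i ∈ Finset.range (Q.natDegree + 1), (Polynomial.taylor t Q).coeff i * (a - t) ^ i := by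
  rw [← Polynomial.taylor_eval_sub t Q a, eval_eq_sum_range, natDegree_taylor]

theorem taylor_coeff_mem {F : IntermediateField k Ω} {Q : Polynomial Ω}
    (hQ : ∀ i, Q.coeff i ∈ F) {a : Ω} (ha : a ∈ F) (i : ℕ) : (Polynomial.taylor a Q).coeff i ∈ F := by
  rw [taylor_coeff, hasseDeriv_apply, Polynomial.sum, eval_finsetSum]
  refine sum_mem fun l _ => ?_
  rw [eval_monomial]
  exact mul_mem (mul_mem (natCast_mem F _) (hQ l)) (pow_mem ha _)

end LUW
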