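import Pool.Agent.LUW.Basic
import Pool.Agent.LUW.FDense
import Pool.Agent.LUW.AsComb
import Pool.Agent.LUW.AsSmall
import Pool.Agent.LUW.AsThree
import Pool.Agent.LUW.DenseT
import Pool.Agent.LUW.CauF

/-! Project LUW: (S4) the Artin-Schreier step. -/

set_option autoImplicit false

namespace LUW

open Polynomial

variable {k : Type*} [Field k] {Ω : Type*} [NormedField Ω] [Algebra k Ω] [Big k Ω] {r : ℕ}

variable (k) in
include k in
/-- Strict version of `Big.sum_le`. -/
private theorem as_sum_lt {ι : Type*} (s : Finset ι) (f : ι → Ω) {B : ℝ} (hB : 0 < B)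
    (h : ∀ i ∈ s, ‖f i‖ < B) : ‖∑ i ∈ s, f i‖ < B := by
  classical
  induction s using Finset.induction_on with
  | empty => simpa using hB
  | insert a s ha ih =>
    rw [Finset.sum_insert ha]
    exact (Big.add_le k _ _).trans_lt (max_lt (h a (Finset.mem_insert_self _ _))
      (ih fun i hi => h i (Finset.mem_insert_of_mem hi)))

/-- The norm of a term. -/
private theorem as_norm_term {u : Fin r → Ω} (hu : Base u) (R : A k r) (g : G r) {x : Ω}
    (hx : ‖x‖ = ‖mon u g‖) {q : Ex r} (hq : q ∈ R.coeff.support) :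
    ‖algebraMap k Ω (R.coeff q) * (mon u q.1 * x ^ q.2)‖
      = Real.exp (-(lev (wt u) (wt u g) q)) := by
  rw [norm_mul, norm_mul, norm_pow, Big.norm_k _ (Finsupp.mem_support_iff.1 hq), hx,
    norm_mon hu.ne, norm_mon hu.ne, ← Real.exp_nat_mul, ← Real.exp_add, one_mul, lev]
  congr 1
  ring

/-- The norm of a value, all levels being nonnegative. -/
private theorem as_norm_le_one {u : Fin r → Ω} (hu : Base u) (R : A k r) (g : G r) {x : Ω}
    (hx : ‖x‖ = ‖mon u g‖) (h : ∀ q ∈ R.coeff.support, 0 ≤ lev (wt u) (wt u g) q) :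
    ‖ev hu.ne x R‖ ≤ 1 := by
  rw [ev_eq_sum]
  refine Big.sum_le k _ _ zero_le_one fun q hq => ?_
  rw [as_norm_term hu R g hx hq, Real.exp_le_one_iff]
  linarith [h q hq]

/-- The norm of a value, a constant term being dominant. -/
private theorem as_norm_const {u : Fin r → Ω} (hu : Base u) (R : A k r) (g : G r) {x : Ω}
    (hx : ‖x‖ = ‖mon u g‖) {b : G r} (hb : (b, 0) ∈ R.coeff.support)
    (h : ∀ q ∈ R.coeff.support, q ≠ (b, 0) → wt u b < lev (wt u) (wt u g) q) :
    ‖ev hu.ne x R - algebraMap k Ω (R.coeff (b, 0)) * mon u b‖ < ‖mon u b‖ := by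
  classical
  have hterm : algebraMap k Ω (R.coeff (b, 0)) * mon u b =
      algebraMap k Ω (R.coeff (b, 0)) * (mon u b * x ^ 0) := by rw [pow_zero, mul_one]
  rw [hterm, ev_eq_sum, ← Finset.add_sum_erase _ _ hb, add_sub_cancel_left]
  refine as_sum_lt k _ _ (norm_pos_iff.2 (mon_ne hu.ne b)) fun q hq => ?_
  rw [Finset.mem_erase] at hq
  rw [as_norm_term hu R g hx hq.2, norm_mon hu.ne, Real.exp_lt_exp, neg_lt_neg_iff]
  exact h q hq.2 hq.1

variable (k) in
include k in
/-- Norms of Artin-Schreier elements. -/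
private theorem as_norm_pow {p : ℕ} (hp : 2 ≤ p) {z f : Ω} (h : z ^ p - z = f) (hf : 1 < ‖f‖) :
    ‖z‖ ^ p = ‖f‖ := by
  have hz : 1 < ‖z‖ := by
    by_contra hz
    rw [not_lt] at hz
    have h1 : ‖z ^ p - z‖ ≤ 1 := by
      refine (Big.sub_le k _ _).trans (max_le ?_ hz)
      rw [norm_pow]
      exact pow_le_one₀ (norm_nonneg _) hz
    rw [h] at h1
    exact absurd hf (not_lt.2 h1)
  have h2 : ‖f - z ^ p‖ < ‖z ^ p‖ := by
    rw [← h, show z ^ p - z - z ^ p = -z by ring, norm_neg, norm_pow]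
    calc ‖z‖ = ‖z‖ ^ 1 := (pow_one _).symm
      _ < ‖z‖ ^ p := pow_lt_pow_right₀ hz (by omega)
  rw [← norm_pow]
  exact (Big.norm_eq k h2).symm

variable [IsSepClosed k] (p : ℕ) [Fact p.Prime] [CharP k p]

/-- The Artin-Schreier step. -/
theorem as_step {u : Fin r → Ω} (hu : Base u) {L : IntermediateField k Ω}
    (hLc : IsClosed (L : Set Ω)) (huL : ∀ i, u i ∈ L) (hI : Imm u L) {t : Ω} (ht : t ∈ L)
    (htF : t ∉ clF k u) {z : Ω} (hz : z ∈ L) (h : z ^ p - z ∈ clT k u t) :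
    z ∈ clT k u t ∨ ∃ z' ∈ L, z - z' ∈ clT k u t ∧ t ∈ clT k u z' := by
  have : CharP Ω p := charP_of_injective_algebraMap (algebraMap k Ω).injective p
  have hp : 2 ≤ p := (Fact.out : p.Prime).two_le
  obtain ⟨c, g, hex⟩ := exists_expn hu huL hI ht fun P _ hP => htF (hP ▸
    ev_mem hu.ne (u_mem_clF u) (zero_mem _) P)
  have hbdd := (expn_bdd_iff hu hex).2 htF
  obtain ⟨ρ, hLim, hCau⟩ := lim_cau hu huL hI ht htF
  obtain ⟨P, hP⟩ := dense_A hu hLim hCau h one_pos
  obtain ⟨m, R, H, hsh, hcases⟩ := as_comb p (wt u) hu.inj c hex.c_ne g hex.mono hbdd P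
  have huM : ∀ i, u i ∈ clT k u t := fun i => clF_le_clT u t (u_mem_clF u i)
  have htM : t ∈ clT k u t := t_mem_clT u t
  have hML : clT k u t ≤ L := clT_le hLc huL ht
  obtain ⟨x, hx⟩ : ∃ x : Ω, x = t - psum u c g m := ⟨_, rfl⟩
  have hxn : ‖x‖ = ‖mon u (g m)‖ := by rw [hx]; exact hex.norm m
  have hxM : x ∈ clT k u t := by rw [hx]; exact sub_mem htM (psum_mem huM c g m)
  obtain ⟨y, hy⟩ : ∃ y : Ω, y = ev hu.ne x H := ⟨_, rfl⟩
  have hyM : y ∈ clT k u t := by rw [hy]; exact ev_mem hu.ne huM hxM H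
  have hevP : ev hu.ne t P = ev hu.ne x R + (y ^ p - y) := by
    rw [← ev_shift hu.ne t c g m P, hsh, ← hx, map_add, map_sub, map_pow, hy]
  obtain ⟨e, heM, he⟩ := as_small p (clT k u t) (cl_closed _)
    (f := z ^ p - z - ev hu.ne t P) (sub_mem h (ev_mem hu.ne huM htM P))
    (hI.res hu (hML (sub_mem h (ev_mem hu.ne huM htM P))) hP.le)
  obtain ⟨z', hz'⟩ : ∃ z' : Ω, z' = z - y - e := ⟨_, rfl⟩
  have hzz : z - z' ∈ clT k u t := by
    rw [hz', show z - (z - y - e) = y + e by ring]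
    exact add_mem hyM heM
  have hz'L : z' ∈ L := by
    rw [show z' = z - (z - z') by ring]
    exact sub_mem hz (hML hzz)
  have hAS : z' ^ p - z' = ev hu.ne x R := by
    have h1 : z' ^ p = z ^ p - y ^ p - e ^ p := by
      rw [hz', sub_pow_char, sub_pow_char]
    have h2 : ev hu.ne x R = ev hu.ne t P - (y ^ p - y) := by rw [hevP]; ring
    rw [h1, h2]
    have h3 : ev hu.ne t P = z ^ p - z - (e ^ p - e) := by rw [he]; ring
    rw [h3, hz']
    ring
  rcases hcases with h0 | ⟨b, hb, hb0, hbp, hbd⟩ | ⟨b, hb, h1, h2⟩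
  · left
    obtain ⟨e', he'M, he'⟩ := as_small p (clT k u t) (cl_closed _) (f := ev hu.ne x R)
      (ev_mem hu.ne huM hxM R)
      (hI.res hu (hML (ev_mem hu.ne huM hxM R)) (as_norm_le_one hu R (g m) hxn h0))
    have hz'M : z' ∈ clT k u t := as_unique p he'M (hAS.trans he'.symm)
    rw [show z = (z - z') + z' by ring]
    exact add_mem hzz hz'M
  · exfalso
    have hbc := as_norm_const hu R (g m) hxn hb hbd
    have hcb : ‖algebraMap k Ω (R.coeff (b, 0)) * mon u b‖ = ‖mon u b‖ := by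
      rw [norm_mul, Big.norm_k _ (Finsupp.mem_support_iff.1 hb), one_mul]
    have hn : ‖ev hu.ne x R‖ = ‖mon u b‖ := by
      rw [← hcb]
      exact Big.norm_eq k (by rw [hcb]; exact hbc)
    have hb1 : 1 < ‖mon u b‖ := by
      rw [norm_mon hu.ne, Real.one_lt_exp_iff]
      linarith
    have hzp : ‖z'‖ ^ p = ‖mon u b‖ := by
      rw [← hn]
      exact as_norm_pow k hp hAS (by rw [hn]; exact hb1)
    have hz'0 : z' ≠ 0 := by
      rintro rfl
      rw [norm_zero, zero_pow (by omega)] at hzp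
      linarith
    obtain ⟨g', d, hd0, hg', hgd⟩ := hI.exists_c hu.ne hz'L hz'0
    have hbg : b = p • g' := by
      have hzp' := hzp
      rw [hg', norm_mon hu.ne, norm_mon hu.ne, ← Real.exp_nat_mul, Real.exp_eq_exp] at hzp'
      apply hu.inj
      rw [map_nsmul, nsmul_eq_mul]
      linarith
    apply hbp g' d hbg
    have hp0 : p ≠ 0 := by omega
    have h5 : ‖z' ^ p - algebraMap k Ω (d ^ p) * mon u b‖ < ‖mon u b‖ := by
      have h6 : z' ^ p - algebraMap k Ω (d ^ p) * mon u b =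
          (z' - algebraMap k Ω d * mon u g') ^ p := by
        rw [sub_pow_char, mul_pow, map_pow, ← mon_nsmul, hbg]
      rw [h6, norm_pow, hbg, mon_nsmul, norm_pow]
      exact pow_lt_pow_left₀ hgd (norm_nonneg _) hp0
    have h7 : ‖z' ^ p - ev hu.ne x R‖ < ‖mon u b‖ := by
      have h8 : z' ^ p - ev hu.ne x R = z' := by rw [← hAS]; ring
      rw [h8]
      have h9 : 1 < ‖z'‖ := by
        by_contra hcon
        have h10 : ‖z'‖ ^ p ≤ 1 := pow_le_one₀ (norm_nonneg _) (not_lt.1 hcon)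
        rw [hzp] at h10
        exact absurd h10 (not_le.2 hb1)
      calc ‖z'‖ = ‖z'‖ ^ 1 := (pow_one _).symm
        _ < ‖z'‖ ^ p := pow_lt_pow_right₀ h9 (by omega)
        _ = ‖mon u b‖ := hzp
    have h11 : ‖algebraMap k Ω (R.coeff (b, 0) - d ^ p) * mon u b‖ < ‖mon u b‖ := by
      have h12 : algebraMap k Ω (R.coeff (b, 0) - d ^ p) * mon u b =
          (z' ^ p - algebraMap k Ω (d ^ p) * mon u b) - (z' ^ p - ev hu.ne x R) -
            (ev hu.ne x R - algebraMap k Ω (R.coeff (b, 0)) * mon u b) := by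
        rw [map_sub]
        ring
      rw [h12]
      exact (Big.sub_le k _ _).trans_lt (max_lt ((Big.sub_le k _ _).trans_lt (max_lt h5 h7)) hbc)
    by_contra hcon
    rw [norm_mul, Big.norm_k _ (sub_ne_zero.2 hcon), one_mul] at h11
    exact lt_irrefl _ h11
  · right
    refine ⟨z', hz'L, hzz, ?_⟩
    have huN : ∀ i, u i ∈ clT k u z' := fun i => clF_le_clT u z' (u_mem_clF u i)
    have hzN : z' ∈ clT k u z' := t_mem_clT u z'
    have hxN : x ∈ clT k u z' :=
      as_three hu R (g m) b hb h1 h2 (cl_closed _) huN hxn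
        (f := z' ^ p - z') (sub_mem (pow_mem hzN p) hzN) hAS.symm
    rw [show t = x + psum u c g m by rw [hx]; ring]
    exact add_mem hxN (psum_mem huN c g m)

end LUW
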