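import Pool.Agent.LUW.Basic

/-! Project LUW: (W2) elements of the compositum of `ks` and a subfield of `K`. -/

set_option autoImplicit false

namespace LUW

variable {k ks K : Type*} [Field k] [Field ks] [Algebra k ks] [Field K] [Algebra k K]
  {Ω : Type*} [Field Ω] [Algebra k Ω] [Algebra ks Ω] [IsScalarTower k ks Ω]

/-- the sums with coefficients in the basis of `ks` -/
private theorem span_basis {I : Type*} (b : Module.Basis I k ks) (ι : K →ₐ[k] Ω)
    (E : IntermediateField k K) (c : ks) (y : K) (hy : y ∈ E) :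
    ∃ f : I →₀ K, (∀ i, f i ∈ E) ∧
      algebraMap ks Ω c * ι y = f.sum fun i z => algebraMap ks Ω (b i) * ι z := by
  refine ⟨(b.repr c).mapRange (fun a => a • y) (zero_smul k y), fun i => ?_, ?_⟩
  · rw [Finsupp.mapRange_apply]
    exact E.smul_mem hy
  · rw [Finsupp.sum_mapRange_index (fun i => by rw [map_zero, mul_zero])]
    conv_lhs => rw [← b.linearCombination_repr c]
    rw [Finsupp.linearCombination_apply, Finsupp.sum, map_sum, Finset.sum_mul]
    refine Finset.sum_congr rfl fun i _ => ?_
    show algebraMap ks Ω (b.repr c i • b i) * ι y = algebraMap ks Ω (b i) * ι (b.repr c i • y)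
    rw [Algebra.smul_def, Algebra.smul_def, map_mul, map_mul, ← IsScalarTower.algebraMap_apply,
      ι.commutes]
    ring

/-- Elements of `ks(E)`, `E ⊆ K` an intermediate field, `ks/k` algebraic, are finite sums
`∑ ω_i y_i` with `ω_i ∈ ks` linearly independent over `k` and `y_i ∈ E`. Proof: with
`E' = E.map ι`, the set `ks(E)` is `E'(range ks)`, generated by algebraic elements, so it is
`Algebra.adjoin E' (range ks)` (`IntermediateField.adjoin_algebraic_toSubalgebra` or similar)
`= span_E' (range ks)`; then rewrite the constants in a basis of `ks/k`. -/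
theorem mem_span [Algebra.IsAlgebraic k ks] (ι : K →ₐ[k] Ω) (E : IntermediateField k K) {w : Ω}
    (hw : w ∈ IntermediateField.adjoin ks (ι '' (E : Set K))) :
    ∃ (m : ℕ) (ω : Fin m → ks) (y : Fin m → K), LinearIndependent k ω ∧ (∀ i, y i ∈ E) ∧
      w = ∑ i, algebraMap ks Ω (ω i) * ι (y i) := by
  classical
  let E' : IntermediateField k Ω := E.map ι
  have hE' : ∀ y ∈ E, ι y ∈ E' := fun y hy => ⟨y, hy, rfl⟩
  -- the compositum as a field over `E'`
  have h1 : w ∈ IntermediateField.adjoin E' (Set.range (algebraMap ks Ω)) := by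
    induction hw using IntermediateField.adjoin_induction with
    | mem x hx =>
      obtain ⟨y, hy, rfl⟩ := hx
      exact (IntermediateField.adjoin E' (Set.range (algebraMap ks Ω))).algebraMap_mem
        ⟨ι y, hE' y hy⟩
    | algebraMap c => exact IntermediateField.subset_adjoin _ _ ⟨c, rfl⟩
    | add x y _ _ hx hy => exact add_mem hx hy
    | inv x _ hx => exact inv_mem hx
    | mul x y _ _ hx hy => exact mul_mem hx hy
  have halg : ∀ x ∈ Set.range (algebraMap ks Ω), IsAlgebraic E' x := by
    rintro _ ⟨c, rfl⟩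
    have h0 : IsAlgebraic k c := Algebra.IsAlgebraic.isAlgebraic c
    have h2 : IsAlgebraic k (algebraMap ks Ω c) := h0.algebraMap
    exact h2.tower_top E'
  have h3 : w ∈ Algebra.adjoin E' (Set.range (algebraMap ks Ω)) := by
    rw [← IntermediateField.adjoin_toSubalgebra_of_isAlgebraic halg]
    exact h1
  have h4 : w ∈ Submodule.span E' (Set.range (algebraMap ks Ω)) := by
    have h5 : w ∈ Subalgebra.toSubmodule (Algebra.adjoin E' (Set.range (algebraMap ks Ω))) := h3
    rw [Algebra.adjoin_eq_span] at h5
    have h6 : (Submonoid.closure (Set.range (algebraMap ks Ω)) : Set Ω) =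
        Set.range (algebraMap ks Ω) := by
      have h7 : Set.range (algebraMap ks Ω) = (MonoidHom.mrange (algebraMap ks Ω : ks →* Ω) : Set Ω) := by
        ext x
        simp
      rw [h7, Submonoid.closure_eq]
    rw [h6] at h5
    exact h5
  let b := Module.Basis.ofVectorSpace k ks
  have h5 : ∃ f : Module.Basis.ofVectorSpaceIndex k ks →₀ K, (∀ i, f i ∈ E) ∧
      w = f.sum fun i z => algebraMap ks Ω (b i) * ι z := by
    have key : ∀ i z z', algebraMap ks Ω (b i) * ι (z + z') =
        algebraMap ks Ω (b i) * ι z + algebraMap ks Ω (b i) * ι z' := fun i z z' => by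
      rw [map_add, mul_add]
    clear h1 h3 hw halg
    induction h4 using Submodule.span_induction with
    | mem x hx =>
      obtain ⟨c, rfl⟩ := hx
      obtain ⟨f, hf, h6⟩ := span_basis b ι E c 1 E.one_mem
      refine ⟨f, hf, ?_⟩
      rw [← h6, map_one, mul_one]
    | zero => exact ⟨0, fun _ => E.zero_mem, by simp⟩
    | add x y _ _ hx hy =>
      obtain ⟨f, hf, rfl⟩ := hx
      obtain ⟨g, hg, rfl⟩ := hy
      refine ⟨f + g, fun i => E.add_mem (hf i) (hg i), ?_⟩
      rw [Finsupp.sum_add_index' (fun i => by rw [map_zero, mul_zero]) key]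
    | smul a x _ hx =>
      obtain ⟨f, hf, rfl⟩ := hx
      obtain ⟨a, ha⟩ := a
      obtain ⟨y, hy, rfl⟩ := ha
      refine ⟨f.mapRange (fun z => y * z) (mul_zero y), fun i => ?_, ?_⟩
      · rw [Finsupp.mapRange_apply]
        exact E.mul_mem hy (hf i)
      · rw [Finsupp.sum_mapRange_index (fun i => by rw [map_zero, mul_zero]), Algebra.smul_def,
          Finsupp.sum, Finsupp.sum, Finset.mul_sum]
        refine Finset.sum_congr rfl fun i _ => ?_
        rw [map_mul]
        show ι y * _ = _
        ring
  obtain ⟨f, hf, rfl⟩ := h5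
  let e := f.support.equivFin
  refine ⟨f.support.card, fun j => b (e.symm j).1, fun j => f (e.symm j).1, ?_, fun j => hf _, ?_⟩
  · exact b.linearIndependent.comp _ (Subtype.val_injective.comp e.symm.injective)
  · rw [Finsupp.sum, ← Finset.sum_coe_sort, ← e.symm.sum_comp]

end LUW
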