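import Pool.Agent.LUW.NSum
import Pool.Agent.LUW.Span

/-! Project LUW: (W3) automorphisms of the compositum of `ks` and `K`. -/

set_option autoImplicit false

namespace LUW

open scoped TensorProduct

universe u

variable {k ks K : Type*} [Field k] [Field ks] [Algebra k ks] [Field K] [Algebra k K]
  {Ω : Type*} [NormedField Ω] [Algebra k Ω] [Algebra ks Ω] [IsScalarTower k ks Ω]

/-- The compositum of `ks` and `K` in `Ω`. -/
noncomputable def Comp (ks : Type*) [Field ks] [Algebra ks Ω] (ι : K →ₐ[k] Ω) :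
    IntermediateField ks Ω := IntermediateField.adjoin ks (Set.range ι)

theorem mem_comp (ι : K →ₐ[k] Ω) (y : K) : ι y ∈ Comp ks ι :=
  IntermediateField.subset_adjoin _ _ ⟨y, rfl⟩

/-- `τ` is an isometric automorphism of the compositum which is the identity on `K` and `σ` on
`ks`. -/
structure IsExt (ι : K →ₐ[k] Ω) (σ : ks ≃ₐ[k] ks) (τ : Comp ks ι ≃+* Comp ks ι) : Prop where
  onK : ∀ y : K, τ ⟨ι y, mem_comp ι y⟩ = ⟨ι y, mem_comp ι y⟩
  onks : ∀ c : ks, τ (algebraMap ks (Comp ks ι) c) = algebraMap ks (Comp ks ι) (σ c)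
  norm : ∀ w : Comp ks ι, ‖((τ w : Comp ks ι) : Ω)‖ = ‖(w : Ω)‖

/-- The inclusion of `K` in the compositum. -/
noncomputable def Auto_g (ks : Type*) [Field ks] [Algebra k ks] [Algebra ks Ω]
    [IsScalarTower k ks Ω] (ι : K →ₐ[k] Ω) : K →ₐ[k] Comp ks ι where
  toFun y := ⟨ι y, mem_comp ι y⟩
  map_one' := Subtype.ext (map_one ι)
  map_mul' x y := Subtype.ext (map_mul ι x y)
  map_zero' := Subtype.ext (map_zero ι)
  map_add' x y := Subtype.ext (map_add ι x y)
  commutes' c := by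
    apply Subtype.ext
    change ι (algebraMap k K c) = ((algebraMap k (Comp ks ι) c : Comp ks ι) : Ω)
    rw [ι.commutes]
    rfl

/-- The map from the tensor product to the compositum. -/
noncomputable def Auto_mu (ks : Type*) [Field ks] [Algebra k ks] [Algebra ks Ω]
    [IsScalarTower k ks Ω] (ι : K →ₐ[k] Ω) : TensorProduct k ks K →ₐ[k] Comp ks ι :=
  Algebra.TensorProduct.productMap (IsScalarTower.toAlgHom k ks (Comp ks ι)) (Auto_g ks ι)

theorem Auto_mu_tmul (ι : K →ₐ[k] Ω) (c : ks) (y : K) :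
    ((Auto_mu ks ι (c ⊗ₜ[k] y) : Comp ks ι) : Ω) = algebraMap ks Ω c * ι y := rfl

theorem Auto_mu_sum (ι : K →ₐ[k] Ω) {J : Type*} [Fintype J] (ω : J → ks) (y : J → K) :
    ((Auto_mu ks ι (∑ i, ω i ⊗ₜ[k] y i) : Comp ks ι) : Ω) = ∑ i, algebraMap ks Ω (ω i) * ι (y i) := by
  rw [map_sum, AddSubmonoidClass.coe_finsetSum]
  exact Finset.sum_congr rfl fun i _ => Auto_mu_tmul ι (ω i) (y i)

theorem Auto_inj [Big ks Ω] {ι : K →ₐ[k] Ω} (hres : ResK ι) :
    Function.Injective (Auto_mu ks ι) := by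
  classical
  rw [injective_iff_map_eq_zero]
  intro t ht
  let ℬ := Module.Free.chooseBasis k ks
  obtain ⟨c, rfl⟩ := TensorProduct.eq_repr_basis_left ℬ t
  have hc : c = 0 := by
    by_contra hne
    obtain ⟨j, hj⟩ := Finsupp.ne_iff.1 hne
    have hjs : j ∈ c.support := Finsupp.mem_support_iff.2 hj
    have h1 := norm_le_sum hres (J := c.support) (fun i => ℬ i)
      (ℬ.linearIndependent.comp _ Subtype.val_injective) (fun i => c i) ⟨j, hjs⟩
    have h2 : ∑ i : c.support, algebraMap ks Ω (ℬ i) * ι (c i) = 0 := by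
      rw [← Auto_mu_sum ι (fun i : c.support => ℬ i) (fun i => c i)]
      have h3 : (∑ i : c.support, ℬ (i : Module.Free.ChooseBasisIndex k ks) ⊗ₜ[k] c i) =
          c.sum fun i n => ℬ i ⊗ₜ[k] n :=
        Finset.sum_coe_sort c.support (fun i => ℬ i ⊗ₜ[k] c i)
      rw [h3, ht]
      rfl
    rw [h2, norm_zero] at h1
    have h4 : ι (c j) = 0 := norm_le_zero_iff.1 h1
    exact hj ((map_eq_zero ι).1 h4)
  rw [hc, Finsupp.sum_zero_index]

theorem Auto_surj [Algebra.IsAlgebraic k ks] (ι : K →ₐ[k] Ω) (w : Comp ks ι) :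
    ∃ (m : ℕ) (ω : Fin m → ks) (y : Fin m → K), LinearIndependent k ω ∧
      w = Auto_mu ks ι (∑ i, ω i ⊗ₜ[k] y i) := by
  have hw : (w : Ω) ∈ IntermediateField.adjoin ks (ι '' ((⊤ : IntermediateField k K) : Set K)) := by
    have h1 : ι '' ((⊤ : IntermediateField k K) : Set K) = Set.range ι := by
      rw [← Set.image_univ]
      rfl
    rw [h1]
    exact w.2
  obtain ⟨m, ω, y, hω, -, he⟩ := mem_span (ks := ks) ι ⊤ hw
  refine ⟨m, ω, y, hω, Subtype.ext ?_⟩
  rw [Auto_mu_sum]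
  exact he

/-- Every automorphism of `ks/k` extends to an isometric automorphism of the compositum over `K`.
Proof: the map `μ : ks ⊗[k] K →ₐ[ks] Comp ks ι` is surjective (`mem_span` with `E = ⊤`) and
injective (`norm_le_sum`, every tensor is `∑ b ⊗ y_b` with `b` in a basis of `ks/k`); transport
`σ ⊗ id`. Isometric by `norm_sum_eq` (`σ b` are independent too). -/
theorem exists_ext [Big ks Ω] [Algebra.IsAlgebraic k ks] {ι : K →ₐ[k] Ω} (hres : ResK ι)
    (σ : ks ≃ₐ[k] ks) : ∃ τ : Comp ks ι ≃+* Comp ks ι, IsExt ι σ τ := by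
  have hbij : Function.Bijective (Auto_mu ks ι) :=
    ⟨Auto_inj hres, fun w => by
      obtain ⟨m, ω, y, -, he⟩ := Auto_surj ι w
      exact ⟨_, he.symm⟩⟩
  let μe : TensorProduct k ks K ≃ₐ[k] Comp ks ι := AlgEquiv.ofBijective (Auto_mu ks ι) hbij
  let S : TensorProduct k ks K ≃ₐ[k] TensorProduct k ks K :=
    Algebra.TensorProduct.congr σ AlgEquiv.refl
  let τ : Comp ks ι ≃ₐ[k] Comp ks ι := (μe.symm.trans S).trans μe
  have hτ : ∀ t, τ (Auto_mu ks ι t) = Auto_mu ks ι (S t) := by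
    intro t
    change μe (S (μe.symm (μe t))) = μe (S t)
    rw [μe.symm_apply_apply]
  have hS : ∀ (c : ks) (y : K), S (c ⊗ₜ[k] y) = σ c ⊗ₜ[k] y := fun c y => rfl
  refine ⟨τ.toRingEquiv, ?_, ?_, ?_⟩
  · intro y
    have h1 : (⟨ι y, mem_comp ι y⟩ : Comp ks ι) = Auto_mu ks ι (1 ⊗ₜ[k] y) := by
      apply Subtype.ext
      rw [Auto_mu_tmul, map_one, one_mul]
    change τ ⟨ι y, mem_comp ι y⟩ = ⟨ι y, mem_comp ι y⟩
    rw [h1, hτ, hS, map_one]
  · intro c
    have h1 : ∀ c : ks, algebraMap ks (Comp ks ι) c = Auto_mu ks ι (c ⊗ₜ[k] 1) := by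
      intro c
      apply Subtype.ext
      rw [Auto_mu_tmul, map_one, mul_one]
      rfl
    change τ (algebraMap ks (Comp ks ι) c) = algebraMap ks (Comp ks ι) (σ c)
    rw [h1, hτ, hS, h1]
  · intro w
    obtain ⟨m, ω, y, hω, he⟩ := Auto_surj ι w
    change ‖((τ w : Comp ks ι) : Ω)‖ = ‖(w : Ω)‖
    have h1 : S (∑ i, ω i ⊗ₜ[k] y i) = ∑ i, σ (ω i) ⊗ₜ[k] y i := by
      rw [map_sum]
      rfl
    rw [he, hτ, h1, Auto_mu_sum ι (fun i => σ (ω i)) y, Auto_mu_sum]
    refine norm_sum_eq hres (fun i => σ (ω i)) ω ?_ hω y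
    exact hω.map' σ.toLinearMap (LinearMap.ker_eq_bot.2 σ.injective)

end LUW
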