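import Pool.Agent.LUW.Auto
import Pool.Agent.LUW.CauF

/-! Project LUW: (W4) conjugates of generators. -/

set_option autoImplicit false

namespace LUW

variable {k ks K : Type*} [Field k] [Field ks] [Algebra k ks] [Field K] [Algebra k K]
  {Ω : Type*} [NormedField Ω] [Algebra k Ω] [Algebra ks Ω] [IsScalarTower k ks Ω] {r : ℕ}

/-- The inverse is an extension of the inverse. -/
theorem IsExt.symm {ι : K →ₐ[k] Ω} {σ : ks ≃ₐ[k] ks} {τ : Comp ks ι ≃+* Comp ks ι}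
    (h : IsExt ι σ τ) : IsExt ι σ.symm τ.symm where
  onK y := by
    rw [RingEquiv.symm_apply_eq]
    exact (h.onK y).symm
  onks c := by
    rw [RingEquiv.symm_apply_eq, h.onks, AlgEquiv.apply_symm_apply]
  norm w := by
    rw [← h.norm (τ.symm w), RingEquiv.apply_symm_apply]

/-- Fields generated by elements of the compositum are in the compositum; general transport. -/
private theorem IsExt.map_adjoin_set {ι : K →ₐ[k] Ω} {σ : ks ≃ₐ[k] ks}
    {τ : Comp ks ι ≃+* Comp ks ι} (h : IsExt ι σ τ) (S T : Set Ω)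
    (hST : ∀ x ∈ S, ∃ y : Comp ks ι, (y : Ω) = x ∧ ((τ y : Comp ks ι) : Ω) ∈
      IntermediateField.adjoin ks T) (w : Comp ks ι)
    (hw : (w : Ω) ∈ IntermediateField.adjoin ks S) :
    ((τ w : Comp ks ι) : Ω) ∈ IntermediateField.adjoin ks T := by
  suffices H : ∀ x ∈ IntermediateField.adjoin ks S, ∃ y : Comp ks ι, (y : Ω) = x ∧
      ((τ y : Comp ks ι) : Ω) ∈ IntermediateField.adjoin ks T by
    obtain ⟨y, hy, hy2⟩ := H _ hw
    have : y = w := Subtype.ext hy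
    rw [← this]
    exact hy2
  intro x hx
  induction hx using IntermediateField.adjoin_induction with
  | mem x hx => exact hST x hx
  | algebraMap c =>
    refine ⟨algebraMap ks (Comp ks ι) c, rfl, ?_⟩
    rw [h.onks]
    exact (IntermediateField.adjoin ks T).algebraMap_mem (σ c)
  | add x y hx hy ihx ihy =>
    obtain ⟨x', rfl, hx'⟩ := ihx
    obtain ⟨y', rfl, hy'⟩ := ihy
    refine ⟨x' + y', rfl, ?_⟩
    rw [map_add]
    exact add_mem hx' hy'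
  | inv x hx ihx =>
    obtain ⟨x', rfl, hx'⟩ := ihx
    refine ⟨x'⁻¹, rfl, ?_⟩
    rw [map_inv₀]
    exact inv_mem hx'
  | mul x y hx hy ihx ihy =>
    obtain ⟨x', rfl, hx'⟩ := ihx
    obtain ⟨y', rfl, hy'⟩ := ihy
    refine ⟨x' * y', rfl, ?_⟩
    rw [map_mul]
    exact mul_mem hx' hy'

/-- `τ` maps `ks(u, t)` into `ks(u, τ t)` (induction on the generated field). -/
theorem IsExt.map_adjoin {ι : K →ₐ[k] Ω} {σ : ks ≃ₐ[k] ks} {τ : Comp ks ι ≃+* Comp ks ι}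
    (h : IsExt ι σ τ) (u : Fin r → K) (t : Comp ks ι) (w : Comp ks ι)
    (hw : (w : Ω) ∈ IntermediateField.adjoin ks (insert (t : Ω) (Set.range fun i => ι (u i)))) :
    ((τ w : Comp ks ι) : Ω) ∈ IntermediateField.adjoin ks
      (insert ((τ t : Comp ks ι) : Ω) (Set.range fun i => ι (u i))) := by
  refine h.map_adjoin_set _ _ ?_ w hw
  rintro x (rfl | ⟨i, rfl⟩)
  · exact ⟨t, rfl, IntermediateField.subset_adjoin _ _ (Set.mem_insert _ _)⟩
  · refine ⟨⟨ι (u i), mem_comp ι (u i)⟩, rfl, ?_⟩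
    rw [h.onK]
    exact IntermediateField.subset_adjoin _ _ (Set.mem_insert_of_mem _ ⟨i, rfl⟩)

/-- `τ` maps `ks(u)` to itself. -/
theorem IsExt.map_adjoin_u {ι : K →ₐ[k] Ω} {σ : ks ≃ₐ[k] ks} {τ : Comp ks ι ≃+* Comp ks ι}
    (h : IsExt ι σ τ) (u : Fin r → K) (w : Comp ks ι)
    (hw : (w : Ω) ∈ IntermediateField.adjoin ks (Set.range fun i => ι (u i))) :
    ((τ w : Comp ks ι) : Ω) ∈ IntermediateField.adjoin ks (Set.range fun i => ι (u i)) := by
  refine h.map_adjoin_set _ _ ?_ w hw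
  rintro x ⟨i, rfl⟩
  refine ⟨⟨ι (u i), mem_comp ι (u i)⟩, rfl, ?_⟩
  rw [h.onK]
  exact IntermediateField.subset_adjoin _ _ ⟨i, rfl⟩

private theorem range_u_subset {ι : K →ₐ[k] Ω} (u : Fin r → K) :
    (Set.range fun i => ι (u i)) ⊆ Set.range ι := by
  rintro _ ⟨i, rfl⟩
  exact ⟨u i, rfl⟩

private theorem adjoin_u_le_comp (ι : K →ₐ[k] Ω) (u : Fin r → K) :
    IntermediateField.adjoin ks (Set.range fun i => ι (u i)) ≤ Comp ks ι :=
  IntermediateField.adjoin.mono _ _ _ (range_u_subset u)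

private theorem adjoin_ut_le_comp (ι : K →ₐ[k] Ω) (u : Fin r → K) (t : Comp ks ι) :
    IntermediateField.adjoin ks (insert (t : Ω) (Set.range fun i => ι (u i))) ≤ Comp ks ι := by
  rw [IntermediateField.adjoin_le_iff]
  rintro x (rfl | ⟨i, rfl⟩)
  · exact t.2
  · exact mem_comp ι (u i)

/-- Conjugates of generators are generators. For `w` in the compositum approximate
`τ⁻¹ w ∈ clT ks u t` by an element of `ks(u,t)` and apply `τ`. -/
theorem IsExt.gen [Big ks Ω] {ι : K →ₐ[k] Ω} {σ : ks ≃ₐ[k] ks} {τ : Comp ks ι ≃+* Comp ks ι}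
    (h : IsExt ι σ τ) (u : Fin r → K) (t : Comp ks ι)
    (hg : cl ks (Set.range ι) = clT ks (fun i => ι (u i)) (t : Ω)) :
    cl ks (Set.range ι) = clT ks (fun i => ι (u i)) ((τ t : Comp ks ι) : Ω) := by
  apply le_antisymm
  · refine cl_le (cl_closed _) ?_
    intro x hx
    change x ∈ clT ks (fun i => ι (u i)) ((τ t : Comp ks ι) : Ω)
    obtain ⟨w, rfl⟩ : ∃ w : Comp ks ι, (w : Ω) = x :=
      ⟨⟨x, IntermediateField.subset_adjoin _ _ hx⟩, rfl⟩
    rw [clT, mem_cl_iff]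
    intro ε hε
    have h1 : ((τ.symm w : Comp ks ι) : Ω) ∈ clT ks (fun i => ι (u i)) (t : Ω) := by
      rw [← hg]
      exact adjoin_le_cl _ (τ.symm w).2
    rw [clT, mem_cl_iff] at h1
    obtain ⟨z, hz, hz2⟩ := h1 ε hε
    obtain ⟨z', rfl⟩ : ∃ z' : Comp ks ι, (z' : Ω) = z := ⟨⟨z, adjoin_ut_le_comp ι u t hz⟩, rfl⟩
    refine ⟨((τ z' : Comp ks ι) : Ω), h.map_adjoin u t z' hz, ?_⟩
    have h2 : ‖((τ (τ.symm w - z') : Comp ks ι) : Ω)‖ = ‖((τ.symm w - z' : Comp ks ι) : Ω)‖ :=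
      h.norm _
    rw [map_sub, RingEquiv.apply_symm_apply] at h2
    calc ‖(w : Ω) - ((τ z' : Comp ks ι) : Ω)‖ = ‖((w - τ z' : Comp ks ι) : Ω)‖ := rfl
      _ = _ := h2
      _ < ε := hz2
  · refine clT_le (cl_closed _) (fun i => subset_cl _ ⟨u i, rfl⟩) ?_
    exact adjoin_le_cl _ (τ t).2

private theorem IsExt.norm_sub {ι : K →ₐ[k] Ω} {σ : ks ≃ₐ[k] ks} {τ : Comp ks ι ≃+* Comp ks ι}
    (h : IsExt ι σ τ) (x y : Comp ks ι) :
    ‖((τ x : Comp ks ι) : Ω) - ((τ y : Comp ks ι) : Ω)‖ = ‖(x : Ω) - (y : Ω)‖ := by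
  have h2 : ‖((τ (x - y) : Comp ks ι) : Ω)‖ = ‖((x - y : Comp ks ι) : Ω)‖ := h.norm _
  rw [map_sub] at h2
  exact h2

/-- Conjugates have the same radius. -/
theorem IsExt.lim [Big ks Ω] {ι : K →ₐ[k] Ω} {σ : ks ≃ₐ[k] ks} {τ : Comp ks ι ≃+* Comp ks ι}
    (h : IsExt ι σ τ) (u : Fin r → K) (t : Comp ks ι) {ρ : ℝ}
    (hL : Lim (clF ks fun i => ι (u i)) (t : Ω) ρ) :
    Lim (clF ks fun i => ι (u i)) ((τ t : Comp ks ι) : Ω) ρ where
  pos := hL.pos
  lt := by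
    intro b hb
    rw [clF, mem_cl_iff] at hb
    obtain ⟨b', hb', hb2⟩ := hb ρ hL.pos
    obtain ⟨z, rfl⟩ : ∃ z : Comp ks ι, (z : Ω) = b' := ⟨⟨b', adjoin_u_le_comp ι u hb'⟩, rfl⟩
    have h1 : ((τ.symm z : Comp ks ι) : Ω) ∈ clF ks fun i => ι (u i) :=
      adjoin_le_cl _ (h.symm.map_adjoin_u u z hb')
    have h2 : ρ < ‖((τ t : Comp ks ι) : Ω) - (z : Ω)‖ := by
      have h3 := h.norm_sub t (τ.symm z)
      rw [RingEquiv.apply_symm_apply] at h3
      rw [h3]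
      exact hL.lt _ h1
    by_contra hc
    push Not at hc
    have h4 : ‖((τ t : Comp ks ι) : Ω) - (z : Ω)‖ ≤ ρ := Big.sub_le' ks hc hb2.le
    exact absurd h2 (not_lt.2 h4)
  app := by
    intro R hR
    obtain ⟨b, hb, hb2⟩ := hL.app R hR
    rw [clF, mem_cl_iff] at hb
    obtain ⟨b', hb', hb3⟩ := hb R (hL.pos.trans hR)
    obtain ⟨z, rfl⟩ : ∃ z : Comp ks ι, (z : Ω) = b' := ⟨⟨b', adjoin_u_le_comp ι u hb'⟩, rfl⟩
    refine ⟨((τ z : Comp ks ι) : Ω), adjoin_le_cl _ (h.map_adjoin_u u z hb'), ?_⟩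
    rw [h.norm_sub]
    rw [show (t : Ω) - (z : Ω) = ((t : Ω) - b) + (b - z) by ring]
    exact (Big.add_le ks _ _).trans_lt (max_lt hb2 hb3)

end LUW
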