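import Mathlib

/-! Project LUW: (E1a) the ambient field. -/

set_option autoImplicit false

namespace LUW

open Polynomial

universe u

/-- A complete nonarchimedean field with a dense algebraically closed subfield is algebraically
closed. -/
theorem isAlgClosed_of_dense {K L : Type*} [Field K] [NontriviallyNormedField L]
    [CompleteSpace L] [IsUltrametricDist L] [Algebra K L]
    (hi : DenseRange (algebraMap K L)) [IsAlgClosed K] : IsAlgClosed L := by
  apply IsAlgClosed.of_exists_root
  intro f fmon firr
  have fnatdeg0 : f.natDegree ≠ 0 := (Irreducible.natDegree_pos firr).ne'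
  let F := f.SplittingField
  let : NormedField F := spectralNorm.normedField L F
  let : NormedAlgebra L F := spectralNorm.normedAlgebra L F
  let a := rootOfSplits (SplittingField.splits f)
      (by simpa using degree_ne_of_natDegree_ne fnatdeg0)
  have fa0 : f.aeval a = 0 := by
    rw [← eval_map_algebraMap]
    exact eval_rootOfSplits (Polynomial.SplittingField.splits f)
      (by simpa using degree_ne_of_natDegree_ne fnatdeg0)
  have hcl : a ∈ closure (Set.range (algebraMap L F)) := by
    rw [Metric.mem_closure_iff]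
    intro δ δpos
    have hε : (δ / (max ‖a‖ 1)) ^ f.natDegree / (f.natDegree + 1) > 0 := by positivity
    obtain ⟨g, gmon, gdeg, gcoeff⟩ :=
      exists_monic_and_natDegree_eq_and_norm_map_algebraMap_coeff_sub_lt hi fmon hε
    obtain ⟨b, hb, hab⟩ := exists_aroots_norm_sub_lt_of_norm_coeff_sub_lt
        hε fa0 fmon (gmon.map _) (gdeg ▸ (g.natDegree_map _)) gcoeff
        (by simpa [Polynomial.map_map] using (IsAlgClosed.splits g).map ((algebraMap L F).comp _))
    have hab : ‖a - b‖ < δ := by
      rw [← Real.rpow_natCast, ← mul_comm_div, div_self, one_mul,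
          ← Real.rpow_mul (div_pos δpos (by positivity)).le, mul_inv_cancel₀] at hab
      · simpa [mul_assoc, div_mul_cancel₀ _ (by positivity : (max ‖a‖ 1) > 0).ne'] using hab
      · simp [fnatdeg0]
      · positivity
    rw [Polynomial.aroots_def, Splits.roots_map ((IsAlgClosed.splits g).map _),
        Multiset.mem_map] at hb
    obtain ⟨c, _, hc⟩ := hb
    exact ⟨b, ⟨c, hc⟩, by rwa [dist_eq_norm]⟩
  have hclosed : IsClosed (Set.range (algebraMap L F)) :=
    (algebraMap_isometry L F).isClosedEmbedding.isClosed_range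
  rw [hclosed.closure_eq] at hcl
  obtain ⟨c, hc⟩ := hcl
  refine ⟨c, ?_⟩
  apply (algebraMap L F).injective
  rw [← Polynomial.aeval_algebraMap_apply_eq_algebraMap_eval, hc, fa0, map_zero]

/-- The completion of an algebraically closed nonarchimedean field is algebraically closed. -/
theorem isAlgClosed_completion (C : Type u) [NontriviallyNormedField C] [IsUltrametricDist C]
    [IsAlgClosed C] : IsAlgClosed (UniformSpace.Completion C) := by
  let : NontriviallyNormedField (UniformSpace.Completion C) :=
    { (inferInstance : NormedField (UniformSpace.Completion C)) with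
      non_trivial := by
        obtain ⟨x, hx⟩ := NontriviallyNormedField.non_trivial (α := C)
        exact ⟨(x : UniformSpace.Completion C), by rwa [UniformSpace.Completion.norm_coe]⟩ }
  have : IsUltrametricDist (UniformSpace.Completion C) := IsUltrametricDist.of_normedAlgebra C
  exact isAlgClosed_of_dense (K := C) (L := UniformSpace.Completion C)
    UniformSpace.Completion.denseRange_coe

/-- Powers of close elements of norm at most one are close. -/
theorem norm_pow_sub_pow_le {Ω : Type*} [NormedField Ω] [IsUltrametricDist Ω] {x y : Ω}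
    (hx : ‖x‖ ≤ 1) (hy : ‖y‖ ≤ 1) (n : ℕ) : ‖x ^ n - y ^ n‖ ≤ ‖x - y‖ := by
  induction n with
  | zero => simp
  | succ n ih =>
    have e : x ^ (n + 1) - y ^ (n + 1) = x ^ n * (x - y) + (x ^ n - y ^ n) * y := by ring
    rw [e]
    refine (IsUltrametricDist.norm_add_le_max _ _).trans (max_le ?_ ?_)
    · rw [norm_mul, norm_pow]
      exact mul_le_of_le_one_left (norm_nonneg _) (pow_le_one₀ (norm_nonneg _) hx)
    · rw [norm_mul]
      exact (mul_le_of_le_one_right (norm_nonneg _) hy).trans ih

/-- A polynomial with integral coefficients is contracting on the unit ball. -/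
theorem norm_eval_sub_le {Ω : Type*} [NormedField Ω] [IsUltrametricDist Ω] {x y : Ω}
    (hx : ‖x‖ ≤ 1) (hy : ‖y‖ ≤ 1) (P : Polynomial Ω) (hP : ∀ i, ‖P.coeff i‖ ≤ 1) :
    ‖P.eval x - P.eval y‖ ≤ ‖x - y‖ := by
  rw [eval_eq_sum_range, eval_eq_sum_range, ← Finset.sum_sub_distrib]
  refine IsUltrametricDist.norm_sum_le_of_forall_le_of_nonneg (norm_nonneg _) fun i _ => ?_
  rw [← mul_sub, norm_mul]
  exact (mul_le_of_le_one_left (norm_nonneg _) (hP i)).trans (norm_pow_sub_pow_le hx hy i)

/-- Polynomials with close coefficients have close values on the unit ball. -/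
theorem norm_eval_sub_lt {Ω : Type*} [NormedField Ω] [IsUltrametricDist Ω] {y : Ω}
    (hy : ‖y‖ ≤ 1) (P Q : Polynomial Ω) (hPQ : ∀ i, ‖P.coeff i - Q.coeff i‖ < 1) :
    ‖P.eval y - Q.eval y‖ < 1 := by
  rw [← eval_sub, eval_eq_sum_range]
  obtain ⟨i, -, hi⟩ := IsUltrametricDist.exists_norm_finsetSum_le (Finset.range ((P - Q).natDegree + 1))
    (fun i => (P - Q).coeff i * y ^ i)
  refine hi.trans_lt ?_
  rw [norm_mul, norm_pow, coeff_sub]
  exact (mul_le_of_le_one_right (norm_nonneg _) (pow_le_one₀ (norm_nonneg _) hy)).trans_lt (hPQ i)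

/-- An algebraic closure of a complete field as a normed field. -/
theorem exists_alg_closure (L : Type u) [NontriviallyNormedField L] [CompleteSpace L]
    [IsUltrametricDist L] : ∃ (C : Type u) (_ : NontriviallyNormedField C) (_ : NormedAlgebra L C),
      IsUltrametricDist C ∧ IsAlgClosed C ∧
      ∀ y : C, ‖y‖ ≤ 1 → ∃ Q : Polynomial L, Q.Monic ∧ (∀ i, ‖Q.coeff i‖ ≤ 1) ∧ aeval y Q = 0 := by
  let : NontriviallyNormedField (AlgebraicClosure L) :=
    spectralNorm.nontriviallyNormedField L (AlgebraicClosure L)
  let : NormedAlgebra L (AlgebraicClosure L) := spectralNorm.normedAlgebra L (AlgebraicClosure L)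
  refine ⟨AlgebraicClosure L, inferInstance, inferInstance, IsUltrametricDist.of_normedAlgebra L,
    AlgebraicClosure.isAlgClosed L, fun y hy => ⟨minpoly L y, ?_, ?_, ?_⟩⟩
  · exact minpoly.monic (Algebra.IsIntegral.isIntegral y)
  · have h : spectralValue (minpoly L y) ≤ 1 := hy
    rwa [spectralValue_le_one_iff (minpoly.monic (Algebra.IsIntegral.isIntegral y))] at h
  · exact minpoly.aeval L y

/-- The second half of the construction, from a complete field. -/
theorem exists_complete_of_complete (L : Type u) [NontriviallyNormedField L] [CompleteSpace L]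
    [IsUltrametricDist L] : ∃ (Ω : Type u) (_ : NormedField Ω) (j : L →+* Ω),
      IsUltrametricDist Ω ∧ CompleteSpace Ω ∧ IsAlgClosed Ω ∧ (∀ x, ‖j x‖ = ‖x‖) ∧
      ∀ x : Ω, ‖x‖ ≤ 1 → ∃ Q : Polynomial L, Q.Monic ∧ (∀ i, ‖Q.coeff i‖ ≤ 1) ∧
        ‖Q.eval₂ j x‖ < 1 := by
  obtain ⟨C, _, _, hult, halg, hy⟩ := exists_alg_closure L
  have hu : IsUltrametricDist (UniformSpace.Completion C) := IsUltrametricDist.of_normedAlgebra C
  refine ⟨UniformSpace.Completion C, inferInstance,
    (algebraMap C (UniformSpace.Completion C)).comp (algebraMap L C), hu, inferInstance,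
    isAlgClosed_completion C, fun x => ?_, fun x hx => ?_⟩
  · rw [RingHom.comp_apply, norm_algebraMap', norm_algebraMap']
  · obtain ⟨y, hxy⟩ := (Metric.denseRange_iff.mp
      (UniformSpace.Completion.denseRange_coe (α := C))) x 1 one_pos
    rw [dist_eq_norm] at hxy
    have hy1 : ‖(y : UniformSpace.Completion C)‖ ≤ 1 := by
      have e : (y : UniformSpace.Completion C) = x + -(x - y) := by ring
      rw [e]
      exact (IsUltrametricDist.norm_add_le_max _ _).trans (max_le hx (by rw [norm_neg]; exact hxy.le))
    have hy2 : ‖y‖ ≤ 1 := by rwa [UniformSpace.Completion.norm_coe] at hy1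
    obtain ⟨Q, hQ, hQ1, hQ0⟩ := hy y hy2
    refine ⟨Q, hQ, hQ1, ?_⟩
    rw [← eval_map]
    set R := Q.map ((algebraMap C (UniformSpace.Completion C)).comp (algebraMap L C)) with hR
    have h0 : R.eval (y : UniformSpace.Completion C) = 0 := by
      rw [hR, ← Polynomial.map_map, eval_map]
      change eval₂ (algebraMap C (UniformSpace.Completion C))
        (algebraMap C (UniformSpace.Completion C) y) (Q.map (algebraMap L C)) = 0
      rw [eval₂_at_apply, eval_map_algebraMap, hQ0, map_zero]
    have h1 : ∀ i, ‖R.coeff i‖ ≤ 1 := fun i => by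
      rw [hR, coeff_map, RingHom.comp_apply, norm_algebraMap', norm_algebraMap']
      exact hQ1 i
    have h2 := norm_eval_sub_le hx hy1 R h1
    rw [h0, sub_zero] at h2
    exact h2.trans_lt hxy

/-- Ambient field: completion of an algebraic closure of the completion; it is residually algebraic
over `K`. -/
theorem exists_complete_closure (K : Type u) [Field K] (f : AbsoluteValue K ℝ)
    (hna : IsNonarchimedean f) (hnt : f.IsNontrivial) :
    ∃ (Ω : Type u) (_ : NormedField Ω) (j : K →+* Ω), IsUltrametricDist Ω ∧ CompleteSpace Ω ∧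
      IsAlgClosed Ω ∧ (∀ x, ‖j x‖ = f x) ∧
      ∀ x : Ω, ‖x‖ ≤ 1 → ∃ P : Polynomial K, P.Monic ∧ (∀ i, f (P.coeff i) ≤ 1) ∧
        ‖P.eval₂ j x‖ < 1 := by
  have hultW : IsUltrametricDist (WithAbs f) :=
    IsUltrametricDist.isUltrametricDist_of_forall_norm_add_le_max_norm fun x y => hna x.ofAbs y.ofAbs
  let iW : NontriviallyNormedField (WithAbs f) := NontriviallyNormedField.ofNormNeOne (by
    obtain ⟨x, hx, hx1⟩ := hnt
    exact ⟨WithAbs.toAbs f x, by simpa using hx, hx1⟩)
  let : NontriviallyNormedField f.Completion :=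
    { (inferInstance : NormedField f.Completion) with
      non_trivial := by
        obtain ⟨x, hx⟩ := NontriviallyNormedField.non_trivial (α := WithAbs f)
        exact ⟨(x : f.Completion), by rwa [UniformSpace.Completion.norm_coe]⟩ }
  have hu : IsUltrametricDist f.Completion := IsUltrametricDist.of_normedAlgebra (WithAbs f)
  obtain ⟨Ω, _, j, h1, h2, h3, h4, h5⟩ := exists_complete_of_complete f.Completion
  let α : WithAbs f →+* f.Completion := algebraMap (WithAbs f) f.Completion
  have hα : ∀ y, ‖α y‖ = ‖y‖ := fun y => norm_algebraMap' _ _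
  refine ⟨Ω, inferInstance, (j.comp α).comp (WithAbs.equiv f).symm.toRingHom, h1, h2, h3,
    fun x => ?_, fun x hx => ?_⟩
  · change ‖j (α (WithAbs.toAbs f x))‖ = f x
    rw [h4, hα]
    rfl
  · obtain ⟨Q, hQ, hQ1, hQ2⟩ := h5 x hx
    obtain ⟨P, hP, -, hPQ⟩ := exists_monic_and_natDegree_eq_and_norm_map_algebraMap_coeff_sub_lt
      (K := WithAbs f) (L := f.Completion) UniformSpace.Completion.denseRange_coe hQ one_pos
    have hPQ' : ∀ n, ‖α (P.coeff n) - Q.coeff n‖ < 1 := fun n => by
      have := hPQ n
      rwa [coeff_map] at this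
    have hP1 : ∀ n, ‖P.coeff n‖ ≤ 1 := fun n => by
      rw [← hα]
      have e : α (P.coeff n) = (α (P.coeff n) - Q.coeff n) + Q.coeff n := by ring
      rw [e]
      exact (IsUltrametricDist.norm_add_le_max _ _).trans (max_le (hPQ' n).le (hQ1 n))
    refine ⟨P.map (WithAbs.equiv f).toRingHom, hP.map _, fun i => ?_, ?_⟩
    · rw [coeff_map]
      exact hP1 i
    · rw [eval₂_map]
      have e : (((j.comp α).comp (WithAbs.equiv f).symm.toRingHom).comp
          (WithAbs.equiv f).toRingHom) = j.comp α := by
        ext y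
        rfl
      rw [e]
      have h6 := norm_eval_sub_lt hx (P.map (j.comp α)) (Q.map j) fun i => by
        rw [coeff_map, coeff_map, RingHom.comp_apply, ← map_sub, h4]
        exact hPQ' i
      rw [eval_map, eval_map] at h6
      have e2 : P.eval₂ (j.comp α) x = (P.eval₂ (j.comp α) x - Q.eval₂ j x) + Q.eval₂ j x := by ring
      rw [e2]
      exact (IsUltrametricDist.norm_add_le_max _ _).trans_lt (max_lt h6 hQ2)

end LUW
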