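import Pool.Agent.LUW.Basic

/-! Project LUW: (D2) subfields and uniqueness. -/

set_option autoImplicit false

namespace LUW

open Polynomial

variable {k : Type*} [Field k] {Ω : Type*} [NormedField Ω] [Algebra k Ω] [Big k Ω]

omit [Big k Ω] in
private theorem exists_coeffs {x : Ω} {l : ℕ} (hl : 0 < l) {M : IntermediateField k Ω}
    (hx : x ^ l ∈ M) {y : Ω} (hy : y ∈ M ⊔ IntermediateField.adjoin k {x}) :
    ∃ f : Fin l → Ω, (∀ a, f a ∈ M) ∧ y = ∑ a : Fin l, x ^ (a : ℕ) * f a := by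
  set q : M[X] := X ^ l - C (⟨x ^ l, hx⟩ : M) with hq
  have hqm : q.Monic := monic_X_pow_sub_C _ hl.ne'
  have hq0 : aeval x q = 0 := by
    rw [hq, map_sub, map_pow, aeval_X, aeval_C]
    exact sub_self _
  have hint : IsIntegral M x := ⟨q, hqm, by rw [← aeval_def]; exact hq0⟩
  rw [← IntermediateField.restrictScalars_adjoin_eq_sup] at hy
  have hy2 : y ∈ (IntermediateField.adjoin M {x}).toSubalgebra := hy
  rw [IntermediateField.adjoin_simple_toSubalgebra_of_isAlgebraic hint.isAlgebraic,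
    Algebra.adjoin_singleton_eq_range_aeval] at hy2
  obtain ⟨P, hP⟩ := hy2
  have hP2 : aeval x (P %ₘ q) = y := by
    have h1 := congrArg (aeval x) (modByMonic_add_div P q)
    rw [map_add, map_mul, hq0, zero_mul, add_zero] at h1
    rw [h1]
    exact hP
  have hdeg : (P %ₘ q).natDegree < l := by
    have h1 : q.natDegree = l := natDegree_X_pow_sub_C
    have h2 : q ≠ 1 := by
      intro h3
      rw [h3, natDegree_one] at h1
      omega
    have h3 := natDegree_modByMonic_lt P hqm h2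
    omega
  refine ⟨fun a => ((P %ₘ q).coeff (a : ℕ) : M), fun a => SetLike.coe_mem _, ?_⟩
  rw [← hP2, aeval_eq_sum_range' hdeg, Finset.sum_range]
  refine Finset.sum_congr rfl fun a _ => ?_
  rw [mul_comm]
  rfl

/-- Subfields of a decomposed extension. -/
theorem dec_sub {x : Ω} {l : ℕ} {L L' : IntermediateField k Ω} (hD : Dec x l L L')
    {M : IntermediateField k Ω} (hM : IsClosed (M : Set Ω)) (hML : M ≤ L) (hx : x ^ l ∈ M) :
    Dec x l M (M ⊔ IntermediateField.adjoin k {x}) ∧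
      IsClosed ((M ⊔ IntermediateField.adjoin k {x} : IntermediateField k Ω) : Set Ω) := by
  have hxm : x ∈ M ⊔ IntermediateField.adjoin k {x} :=
    (le_sup_right : IntermediateField.adjoin k {x} ≤ M ⊔ IntermediateField.adjoin k {x})
      (IntermediateField.subset_adjoin k {x} rfl)
  have hMN : M ≤ M ⊔ IntermediateField.adjoin k {x} := le_sup_left
  have hnorm : ∀ f : Fin l → Ω, (∀ a, f a ∈ M) →
      ∀ a : Fin l, ‖x ^ (a : ℕ) * f a‖ ≤ ‖∑ b : Fin l, x ^ (b : ℕ) * f b‖ :=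
    fun f hf => hD.norm f fun a => hML (hf a)
  refine ⟨⟨hD.pos, hD.ne, hMN, hxm, hx, fun y hy => exists_coeffs hD.pos hx hy, hnorm⟩, ?_⟩
  have _ : CompleteSpace Ω := Big.complete k
  apply isClosed_of_closure_subset
  intro y hy
  obtain ⟨s, hs, hsy⟩ := mem_closure_iff_seq_limit.1 hy
  have hex : ∀ n, ∃ f : Fin l → Ω, (∀ a, f a ∈ M) ∧ s n = ∑ a : Fin l, x ^ (a : ℕ) * f a :=
    fun n => exists_coeffs hD.pos hx (hs n)
  choose f hf hfs using hex
  have hlim : ∀ a, ∃ g ∈ M, Filter.Tendsto (fun n => f n a) Filter.atTop (nhds g) := by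
    intro a
    have hxa : 0 < ‖x ^ (a : ℕ)‖ := norm_pos_iff.2 (pow_ne_zero _ hD.ne)
    have hc : CauchySeq fun n => f n a := by
      rw [Metric.cauchySeq_iff]
      intro ε hε
      obtain ⟨N, hN⟩ := Metric.cauchySeq_iff.1 hsy.cauchySeq (ε * ‖x ^ (a : ℕ)‖) (by positivity)
      refine ⟨N, fun m hm n hn => ?_⟩
      have h1 := hN m hm n hn
      rw [dist_eq_norm] at h1 ⊢
      have h2 := hnorm (fun b => f m b - f n b) (fun b => sub_mem (hf m b) (hf n b)) a
      have h3 : ∑ b : Fin l, x ^ (b : ℕ) * (f m b - f n b) = s m - s n := by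
        rw [hfs m, hfs n, ← Finset.sum_sub_distrib]
        exact Finset.sum_congr rfl fun b _ => mul_sub _ _ _
      rw [h3, norm_mul] at h2
      have h4 : ‖x ^ (a : ℕ)‖ * ‖f m a - f n a‖ < ε * ‖x ^ (a : ℕ)‖ := lt_of_le_of_lt h2 h1
      rw [mul_comm] at h4
      exact lt_of_mul_lt_mul_right h4 hxa.le
    obtain ⟨g, hg⟩ := cauchySeq_tendsto_of_complete hc
    exact ⟨g, hM.mem_of_tendsto hg (Filter.Eventually.of_forall fun n => hf n a), hg⟩
  choose g hg hgl using hlim
  have h5 : Filter.Tendsto s Filter.atTop (nhds (∑ a : Fin l, x ^ (a : ℕ) * g a)) := by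
    have h6 : s = fun n => ∑ a : Fin l, x ^ (a : ℕ) * f n a := funext hfs
    rw [h6]
    exact tendsto_finsetSum _ fun a _ => (hgl a).const_mul _
  rw [tendsto_nhds_unique hsy h5]
  exact sum_mem fun a _ => mul_mem (pow_mem hxm _) (hMN (hg a))

theorem dec_unique {x : Ω} {l : ℕ} {L L' : IntermediateField k Ω} (hD : Dec x l L L')
    {f f' : Fin l → Ω} (hf : ∀ a, f a ∈ L) (hf' : ∀ a, f' a ∈ L)
    (h : ∑ a : Fin l, x ^ (a : ℕ) * f a = ∑ a : Fin l, x ^ (a : ℕ) * f' a) : f = f' := by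
  funext a
  have h2 := hD.norm (fun b => f b - f' b) (fun b => sub_mem (hf b) (hf' b)) a
  have h3 : ∑ b : Fin l, x ^ (b : ℕ) * (f b - f' b) = 0 := by
    rw [← sub_eq_zero.2 h, ← Finset.sum_sub_distrib]
    exact Finset.sum_congr rfl fun b _ => mul_sub _ _ _
  rw [h3, norm_zero] at h2
  have h4 : x ^ (a : ℕ) * (f a - f' a) = 0 := norm_eq_zero.1 (le_antisymm h2 (norm_nonneg _))
  rcases mul_eq_zero.1 h4 with h5 | h5
  · exact absurd h5 (pow_ne_zero _ hD.ne)
  · exact sub_eq_zero.1 h5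

end LUW
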