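import Pool.Agent.LUW.Basic
import Pool.Agent.LUW.Closed
import Pool.Agent.LUW.FDense

/-! Project LUW: (D1) adjoining one root. -/

set_option autoImplicit false

namespace LUW

open Polynomial

variable {k : Type*} [Field k] {Ω : Type*} [NormedField Ω] [Algebra k Ω] [Big k Ω] {r : ℕ}

omit [Algebra k Ω] [Big k Ω] in
private theorem dr_ne {u : Fin r → Ω} (hu : Base u) (i0 : Fin r) {l : ℕ} (hl : 0 < l) {x : Ω}
    (hx : x ^ l = u i0) : x ≠ 0 := by
  rintro rfl
  exact hu.ne i0 (by rw [← hx, zero_pow hl.ne'])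

omit [Algebra k Ω] [Big k Ω] in
theorem base_update {u : Fin r → Ω} (hu : Base u) (i0 : Fin r) {l : ℕ} (hl : 0 < l) {x : Ω}
    (hx : x ^ l = u i0) : Base (Function.update u i0 x) := by
  have hx0 : x ≠ 0 := dr_ne hu i0 hl hx
  have hlog : Real.log ‖u i0‖ = l * Real.log ‖x‖ := by
    rw [← hx, norm_pow, Real.log_pow]
  refine ⟨fun i => ?_, fun a b hab => ?_⟩
  · by_cases h : i = i0
    · subst h; simpa using hx0
    · simpa [Function.update_of_ne h] using hu.ne i
  · have key : ∀ c : G r, (l : ℝ) * wt (Function.update u i0 x) c =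
        wt u (fun i => if i = i0 then c i else l * c i) := by
      intro c
      simp only [wt, AddMonoidHom.coe_mk, ZeroHom.coe_mk, Finset.mul_sum]
      refine Finset.sum_congr rfl fun i _ => ?_
      by_cases h : i = i0
      · subst h
        rw [Function.update_self, if_pos rfl, hlog]
        ring
      · rw [Function.update_of_ne h, if_neg h]
        push_cast
        ring
    have h1 : (fun i => if i = i0 then a i else (l : ℤ) * a i) =
        fun i => if i = i0 then b i else (l : ℤ) * b i := by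
      apply hu.inj
      rw [← key a, ← key b, hab]
    funext i
    have h2 := congrFun h1 i
    by_cases h : i = i0
    · simpa [h] using h2
    · simp only [if_neg h] at h2
      exact mul_left_cancel₀ (by exact_mod_cast hl.ne') h2

omit [Algebra k Ω] [Big k Ω] in
private theorem dr_mon {u : Fin r → Ω} (hu : Base u) (i0 : Fin r) {l : ℕ} (hl : 0 < l) {x : Ω}
    (hx : x ^ l = u i0) (b : G r) (a : ℕ) :
    mon (Function.update u i0 x) (Function.update b i0 (l * b i0 + a)) = x ^ a * mon u b := by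
  classical
  have hx0 : x ≠ 0 := dr_ne hu i0 hl hx
  rw [mon, mon, ← Finset.mul_prod_erase Finset.univ _ (Finset.mem_univ i0),
    ← Finset.mul_prod_erase Finset.univ (fun i => u i ^ b i) (Finset.mem_univ i0),
    Function.update_self, Function.update_self, zpow_add₀ hx0, zpow_mul, zpow_natCast, zpow_natCast,
    hx]
  have h : ∏ i ∈ Finset.univ.erase i0, Function.update u i0 x i ^
      Function.update b i0 (l * b i0 + a) i = ∏ i ∈ Finset.univ.erase i0, u i ^ b i := by
    refine Finset.prod_congr rfl fun i hi => ?_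
    rw [Function.update_of_ne (Finset.ne_of_mem_erase hi),
      Function.update_of_ne (Finset.ne_of_mem_erase hi)]
  rw [h]
  ring

omit [Algebra k Ω] [Big k Ω] in
theorem mon_update {u : Fin r → Ω} (hu : Base u) (i0 : Fin r) {l : ℕ} (hl : 0 < l) {x : Ω}
    (hx : x ^ l = u i0) (b : G r) :
    mon (Function.update u i0 x) (Function.update b i0 (l * b i0)) = mon u b := by
  have h := dr_mon hu i0 hl hx b 0
  simpa using h

omit [Algebra k Ω] [Big k Ω] in
private theorem dr_norm_ne {u : Fin r → Ω} (hu : Base u) (i0 : Fin r) : ‖u i0‖ ≠ 1 := by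
  classical
  intro h
  have h1 : wt u (Pi.single i0 1) = wt u 0 := by
    rw [map_zero]
    simp only [wt, AddMonoidHom.coe_mk, ZeroHom.coe_mk]
    refine Finset.sum_eq_zero fun i _ => ?_
    by_cases hi : i = i0
    · subst hi; simp [h]
    · simp [Pi.single_eq_of_ne hi]
  have h2 := congrFun (hu.inj h1) i0
  simp at h2

/-- A finite sum whose nonzero terms have distinct norms. -/
private theorem dr_sum (k : Type*) [Field k] {Ω : Type*} [NormedField Ω] [Algebra k Ω] [Big k Ω]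
    {ι : Type*} [Fintype ι] (z : ι → Ω)
    (h : ∀ a b, a ≠ b → z a ≠ 0 → z b ≠ 0 → ‖z a‖ ≠ ‖z b‖) (hne : ∃ a, z a ≠ 0) :
    ∃ a, z a ≠ 0 ∧ ‖∑ b, z b‖ = ‖z a‖ ∧ (∀ b, ‖z b‖ ≤ ‖z a‖) ∧
      ‖(∑ b, z b) - z a‖ < ‖z a‖ := by
  classical
  obtain ⟨a0, ha0⟩ := hne
  obtain ⟨a, -, ha⟩ := Finset.exists_max_image Finset.univ (fun a => ‖z a‖) ⟨a0, Finset.mem_univ _⟩
  have hpos : 0 < ‖z a‖ := lt_of_lt_of_le (norm_pos_iff.2 ha0) (ha a0 (Finset.mem_univ _))
  have hza : z a ≠ 0 := norm_pos_iff.1 hpos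
  have h1 : ‖(∑ b, z b) - z a‖ < ‖z a‖ := by
    rw [← Finset.add_sum_erase Finset.univ z (Finset.mem_univ a), add_sub_cancel_left]
    refine FDense_sum_lt (k := k) _ _ hpos fun b hb => ?_
    by_cases hb0 : z b = 0
    · rw [hb0, norm_zero]; exact hpos
    · exact lt_of_le_of_ne (ha b (Finset.mem_univ _)) (h b a (Finset.ne_of_mem_erase hb) hb0 hza)
  exact ⟨a, hza, Big.norm_eq k h1, fun b => ha b (Finset.mem_univ _), h1⟩

private theorem dr_terms {u : Fin r → Ω} (hu : Base u) (i0 : Fin r) {l : ℕ} (hl : 0 < l) {x : Ω}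
    (hx : x ^ l = u i0) {L : IntermediateField k Ω} (hI : Imm u L) {f : Fin l → Ω}
    (hf : ∀ a, f a ∈ L) (a : Fin l) (ha : x ^ (a : ℕ) * f a ≠ 0) :
    ∃ (g : G r) (c : k), ‖x ^ (a : ℕ) * f a‖ =
      ‖mon (Function.update u i0 x) (Function.update g i0 (l * g i0 + ((a : ℕ) : ℤ)))‖ ∧
      ‖x ^ (a : ℕ) * f a - algebraMap k Ω c *
        mon (Function.update u i0 x) (Function.update g i0 (l * g i0 + ((a : ℕ) : ℤ)))‖ <
      ‖x ^ (a : ℕ) * f a‖ := by
  obtain ⟨g, c, -, hg, hc⟩ := hI.exists_c hu.ne (hf a) (right_ne_zero_of_mul ha)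
  have hxa : 0 < ‖x ^ (a : ℕ)‖ := norm_pos_iff.2 (left_ne_zero_of_mul ha)
  refine ⟨g, c, by rw [dr_mon hu i0 hl hx, norm_mul, norm_mul, hg], ?_⟩
  rw [dr_mon hu i0 hl hx, show x ^ (a : ℕ) * f a - algebraMap k Ω c * (x ^ (a : ℕ) * mon u g) =
    x ^ (a : ℕ) * (f a - algebraMap k Ω c * mon u g) by ring, norm_mul, norm_mul, hg]
  exact mul_lt_mul_of_pos_left hc hxa

private theorem dr_dist {u : Fin r → Ω} (hu : Base u) (i0 : Fin r) {l : ℕ} (hl : 0 < l) {x : Ω}
    (hx : x ^ l = u i0) {L : IntermediateField k Ω} (hI : Imm u L) {f : Fin l → Ω}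
    (hf : ∀ a, f a ∈ L) (a b : Fin l) (hab : a ≠ b) (ha : x ^ (a : ℕ) * f a ≠ 0)
    (hb : x ^ (b : ℕ) * f b ≠ 0) : ‖x ^ (a : ℕ) * f a‖ ≠ ‖x ^ (b : ℕ) * f b‖ := by
  intro h
  obtain ⟨g, _, hg, _⟩ := dr_terms hu i0 hl hx hI hf a ha
  obtain ⟨g', _, hg', _⟩ := dr_terms hu i0 hl hx hI hf b hb
  have hu' := base_update hu i0 hl hx
  rw [hg, hg', norm_mon hu'.ne, norm_mon hu'.ne, Real.exp_eq_exp, neg_inj] at h
  have h1 := congrFun (hu'.inj h) i0
  rw [Function.update_self, Function.update_self] at h1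
  apply hab
  have hlt : ((a : ℕ) : ℤ) < l := by exact_mod_cast a.2
  have hlt' : ((b : ℕ) : ℤ) < l := by exact_mod_cast b.2
  have h2 : ((a : ℕ) : ℤ) % l = ((b : ℕ) : ℤ) % l := by
    have h3 := congrArg (· % (l : ℤ)) h1
    simpa using h3
  rw [Int.emod_eq_of_lt (by positivity) hlt, Int.emod_eq_of_lt (by positivity) hlt'] at h2
  exact Fin.ext (by exact_mod_cast h2)

omit [Big k Ω] in
private theorem dr_ex {u : Fin r → Ω} (i0 : Fin r) {l : ℕ} (hl : 0 < l) {x : Ω}
    (hx : x ^ l = u i0) {L : IntermediateField k Ω} (huL : ∀ i, u i ∈ L) {y : Ω}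
    (hy : y ∈ L ⊔ IntermediateField.adjoin k {x}) :
    ∃ f : Fin l → Ω, (∀ a, f a ∈ L) ∧ y = ∑ a : Fin l, x ^ (a : ℕ) * f a := by
  have hmon : (X ^ l - C (⟨u i0, huL i0⟩ : L)).Monic := monic_X_pow_sub_C _ hl.ne'
  have hroot : aeval x (X ^ l - C (⟨u i0, huL i0⟩ : L)) = 0 := by
    rw [map_sub, map_pow, aeval_X, aeval_C, hx]
    exact sub_self _
  have hal : IsAlgebraic L x := ⟨_, hmon.ne_zero, hroot⟩
  rw [← IntermediateField.restrictScalars_adjoin_eq_sup k L {x}] at hy
  have hy1 : y ∈ (IntermediateField.adjoin L {x}).toSubalgebra := hy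
  rw [IntermediateField.adjoin_simple_toSubalgebra_of_isAlgebraic hal,
    Algebra.adjoin_singleton_eq_range_aeval] at hy1
  obtain ⟨p, rfl⟩ := hy1
  have hdeg : (p %ₘ (X ^ l - C (⟨u i0, huL i0⟩ : L))).natDegree < l := by
    have h1 := degree_modByMonic_lt p hmon
    rw [degree_X_pow_sub_C hl] at h1
    by_cases h0 : p %ₘ (X ^ l - C (⟨u i0, huL i0⟩ : L)) = 0
    · rw [h0, natDegree_zero]; exact hl
    · exact (natDegree_lt_iff_degree_lt h0).2 h1
  refine ⟨fun a => ((p %ₘ (X ^ l - C (⟨u i0, huL i0⟩ : L))).coeff a : L), fun a => Subtype.prop _, ?_⟩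
  have h2 : aeval x p = aeval x (p %ₘ (X ^ l - C (⟨u i0, huL i0⟩ : L))) := by
    conv_lhs => rw [← modByMonic_add_div p (X ^ l - C (⟨u i0, huL i0⟩ : L))]
    rw [map_add, map_mul, hroot, zero_mul, add_zero]
  change aeval x p = _
  rw [h2, aeval_eq_sum_range' hdeg, Finset.sum_range]
  refine Finset.sum_congr rfl fun a _ => ?_
  rw [mul_comm]
  rfl

/-- Adjoining a root of one of the toric variables to a closed immediate field. -/
theorem dec_root {u : Fin r → Ω} (hu : Base u) (i0 : Fin r) {l : ℕ} (hl : 0 < l) {x : Ω}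
    (hx : x ^ l = u i0) {L : IntermediateField k Ω} (hL : IsClosed (L : Set Ω))
    (huL : ∀ i, u i ∈ L) (hI : Imm u L) :
    Dec x l L (L ⊔ IntermediateField.adjoin k {x}) ∧
      Imm (Function.update u i0 x) (L ⊔ IntermediateField.adjoin k {x}) ∧
      IsClosed ((L ⊔ IntermediateField.adjoin k {x} : IntermediateField k Ω) : Set Ω) := by
  have hx0 : x ≠ 0 := dr_ne hu i0 hl hx
  refine ⟨⟨hl, hx0, le_sup_left, ?_, ?_, fun y hy => dr_ex i0 hl hx huL hy, fun f hf a => ?_⟩,
    fun y hy hy0 => ?_, ?_⟩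
  · exact (le_sup_right : IntermediateField.adjoin k {x} ≤ _)
      (IntermediateField.subset_adjoin k {x} rfl)
  · rw [hx]; exact huL i0
  · by_cases hne : ∃ a : Fin l, x ^ (a : ℕ) * f a ≠ 0
    · obtain ⟨a', -, h1, h2, -⟩ := dr_sum k (fun a : Fin l => x ^ (a : ℕ) * f a)
        (fun a b hab ha hb => dr_dist hu i0 hl hx hI hf a b hab ha hb) hne
      rw [h1]
      exact h2 a
    · push Not at hne
      rw [hne a, norm_zero]
      exact norm_nonneg _
  · obtain ⟨f, hf, rfl⟩ := dr_ex i0 hl hx huL hy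
    have hne : ∃ a : Fin l, x ^ (a : ℕ) * f a ≠ 0 := by
      by_contra hcon
      push Not at hcon
      exact hy0 (Finset.sum_eq_zero fun a _ => hcon a)
    obtain ⟨a, ha, h1, -, h2⟩ := dr_sum k (fun a : Fin l => x ^ (a : ℕ) * f a)
      (fun a b hab ha hb => dr_dist hu i0 hl hx hI hf a b hab ha hb) hne
    obtain ⟨g, c, hg, hc⟩ := dr_terms hu i0 hl hx hI hf a ha
    refine ⟨Function.update g i0 (l * g i0 + ((a : ℕ) : ℤ)), c, ?_⟩
    rw [h1]
    have h3 := max_lt h2 hc
    refine lt_of_le_of_lt ?_ h3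
    refine le_trans (le_of_eq (congrArg norm ?_)) (Big.add_le k
      ((∑ b : Fin l, x ^ (b : ℕ) * f b) - x ^ (a : ℕ) * f a)
      (x ^ (a : ℕ) * f a - algebraMap k Ω c * mon (Function.update u i0 x)
        (Function.update g i0 (l * g i0 + ((a : ℕ) : ℤ)))))
    ring
  · refine closed_sup_adjoin L hL ⟨u i0, huL i0, hu.ne i0, dr_norm_ne hu i0⟩ {x}
      (Set.finite_singleton x) fun y hy => ?_
    rw [Set.mem_singleton_iff.1 hy]
    refine ⟨X ^ l - C (⟨u i0, huL i0⟩ : L), (monic_X_pow_sub_C _ hl.ne').ne_zero, ?_⟩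
    rw [map_sub, map_pow, aeval_X, aeval_C, hx]
    exact sub_self _

theorem clF_update {u : Fin r → Ω} (hu : Base u) (i0 : Fin r) {l : ℕ} (hl : 0 < l) {x : Ω}
    (hx : x ^ l = u i0) :
    clF k (Function.update u i0 x) = clF k u ⊔ IntermediateField.adjoin k {x} := by
  apply le_antisymm
  · refine clF_le (dec_root hu i0 hl hx (cl_closed _) (u_mem_clF u) (clF_imm hu)).2.2 fun i => ?_
    by_cases h : i = i0
    · subst h
      rw [Function.update_self]
      exact (le_sup_right : IntermediateField.adjoin k {x} ≤ _)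
        (IntermediateField.subset_adjoin k {x} rfl)
    · rw [Function.update_of_ne h]
      exact (le_sup_left : clF k u ≤ _) (u_mem_clF u i)
  · refine sup_le (clF_le (cl_closed _) fun i => ?_) ?_
    · by_cases h : i = i0
      · subst h
        have h1 := u_mem_clF (k := k) (Function.update u i x) i
        rw [Function.update_self] at h1
        rw [← hx]
        exact pow_mem h1 l
      · have h1 := u_mem_clF (k := k) (Function.update u i0 x) i
        rwa [Function.update_of_ne h] at h1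
    · rw [IntermediateField.adjoin_simple_le_iff]
      have h1 := u_mem_clF (k := k) (Function.update u i0 x) i0
      rwa [Function.update_self] at h1

end LUW
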