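import Pool.Agent.LUW.Basic
import Pool.Agent.LUW.TayShift
import Pool.Agent.LUW.DenseT
import Pool.Agent.LUW.Hensel

/-! Project LUW: (A8) perturbation of generators. -/

set_option autoImplicit false

namespace LUW

open Polynomial

variable {k : Type*} [Field k] {Ω : Type*} [NormedField Ω] [Algebra k Ω] [Big k Ω]

/-- One step of the approximation. -/
private theorem perturb_aux {F : IntermediateField k Ω} (hF : IsClosed (F : Set Ω)) {t : Ω} {ρ : ℝ}
    (hL : Lim F t ρ) (hC : Cau F t ρ) {y b q : Ω} (hy : y ∈ cl k (insert t (F : Set Ω)))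
    (hb : b ∈ F) (hq : q ∈ F) (h : ‖t - (b + q * y)‖ ≤ ρ) {ε : ℝ} (hε : 0 < ε) :
    ∃ w ∈ cl k (insert y (F : Set Ω)), ‖t - w‖ < ε := by
  have hFN : F ≤ cl k (insert y (F : Set Ω)) := fun z hz =>
    subset_cl _ (Set.mem_insert_of_mem _ hz)
  have hyN : y ∈ cl k (insert y (F : Set Ω)) := subset_cl _ (Set.mem_insert _ _)
  have hFT : F ≤ cl k (insert t (F : Set Ω)) := fun z hz =>
    subset_cl _ (Set.mem_insert_of_mem _ hz)
  have htT : t ∈ cl k (insert t (F : Set Ω)) := subset_cl _ (Set.mem_insert _ _)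
  have hNc : IsClosed ((cl k (insert y (F : Set Ω)) : IntermediateField k Ω) : Set Ω) := cl_closed _
  obtain ⟨E, hE, hEη⟩ := dense_T hF hL hC
    (sub_mem (add_mem (hFT hb) (mul_mem (hFT hq) hy)) htT)
    (lt_min hε hL.pos)
  -- the value of `E` at `t`
  have hEt : ‖E.eval t‖ ≤ ρ := by
    have h1 : E.eval t = (b + q * y - t) - ((b + q * y - t) - E.eval t) := by ring
    rw [h1]
    refine (Big.sub_le k _ _).trans (max_le ?_ ?_)
    · rw [norm_sub_rev]; exact h
    · exact hEη.le.trans (min_le_right _ _)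
  -- the Cauchy estimates for `E`
  obtain ⟨R, hR, hER⟩ : ∃ R > ρ, ∀ i, ‖(Polynomial.taylor t E).coeff i‖ * R ^ i ≤ ρ := by
    by_cases h0 : E = 0
    · refine ⟨ρ + 1, by linarith, fun i => ?_⟩
      rw [h0, map_zero, coeff_zero, norm_zero, zero_mul]
      exact hL.pos.le
    · obtain ⟨R, hR, h2⟩ := hC E h0 hE
      exact ⟨R, hR, fun i => (h2 i).trans hEt⟩
  obtain ⟨a, ha, haR⟩ := hL.app R hR
  have haρ := hL.lt a ha
  have hρ := hL.pos
  have hR0 : 0 < R := hρ.trans hR
  set R0 : ℝ := ‖t - a‖ with hR0def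
  have hR00 : 0 < R0 := hρ.trans haρ
  have hB : 0 ≤ ρ * (R0 / R) := by positivity
  have hBlt : ρ * (R0 / R) / R0 < 1 := by
    rw [show ρ * (R0 / R) / R0 = ρ / R by field_simp]
    exact (div_lt_one hR0).2 hR
  have hsh := taylor_shift k E hR00 hB (a := a) (t := t)
    (by rw [norm_sub_rev]) 1 (fun l hl => by
      have h3 := hER l
      have h4 : R0 ^ l ≤ R ^ l * (R0 / R) := by
        have h5 : R0 / R ≤ 1 := (div_le_one hR0).2 haR.le
        have h6 : (R0 / R) ^ l ≤ R0 / R := by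
          obtain ⟨n, rfl⟩ : ∃ n, l = n + 1 := ⟨l - 1, by omega⟩
          rw [pow_succ]
          exact mul_le_of_le_one_left (by positivity) (pow_le_one₀ (by positivity) h5)
        calc R0 ^ l = R ^ l * (R0 / R) ^ l := by
              rw [div_pow]; field_simp
          _ ≤ R ^ l * (R0 / R) := by gcongr
      calc ‖(Polynomial.taylor t E).coeff l‖ * R0 ^ l
          ≤ ‖(Polynomial.taylor t E).coeff l‖ * (R ^ l * (R0 / R)) := by gcongr
        _ = (‖(Polynomial.taylor t E).coeff l‖ * R ^ l) * (R0 / R) := by ring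
        _ ≤ ρ * (R0 / R) := by gcongr)
  -- bounds divided by `R0`
  have hco : ∀ i, 1 ≤ i → ‖(Polynomial.taylor a E).coeff i‖ * R0 ^ (i - 1) < 1 := by
    intro i hi
    have h3 := hsh i hi
    have h4 : ‖(Polynomial.taylor a E).coeff i‖ * R0 ^ (i - 1) ≤ ρ * (R0 / R) / R0 := by
      rw [le_div_iff₀ hR00, mul_assoc, ← pow_succ, Nat.sub_add_cancel hi]
      exact h3
    exact h4.trans_lt hBlt
  let Φ : Polynomial Ω := X + Polynomial.taylor a E + C (a - (b + q * y))
  have hΦ : ∀ i, Φ.coeff i ∈ cl k (insert y (F : Set Ω)) := by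
    intro i
    simp only [Φ, coeff_add]
    refine add_mem (add_mem ?_ ?_) ?_
    · rw [coeff_X]; split_ifs
      · exact one_mem _
      · exact zero_mem _
    · exact hFN (taylor_coeff_mem hE ha i)
    · rw [coeff_C]; split_ifs
      · exact sub_mem (hFN ha) (add_mem (hFN hb) (mul_mem (hFN hq) hyN))
      · exact zero_mem _
  have hΦ1 : Φ.coeff 1 = (Polynomial.taylor a E).coeff 1 + 1 := by
    simp only [Φ, coeff_add, coeff_X_one, coeff_C]
    simp [add_comm]
  have hΦ1n : ‖Φ.coeff 1‖ = 1 := by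
    have h5 := hco 1 le_rfl
    rw [Nat.sub_self, pow_zero, mul_one] at h5
    have h6 : ‖Φ.coeff 1‖ = ‖(1 : Ω)‖ := by
      apply Big.norm_eq k
      rw [hΦ1, add_sub_cancel_right, norm_one]
      exact h5
    rw [h6, norm_one]
  have hΦi : ∀ i, 2 ≤ i → Φ.coeff i = (Polynomial.taylor a E).coeff i := by
    intro i hi
    simp only [Φ, coeff_add, coeff_X, coeff_C]
    rw [if_neg (by omega), if_neg (by omega), zero_add, add_zero]
  have hev : Φ.eval (t - a) = -((b + q * y - t) - E.eval t) := by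
    simp only [Φ, eval_add, eval_X, eval_C, Polynomial.taylor_eval]
    rw [sub_add_cancel]
    ring
  have hevn : ‖Φ.eval (t - a)‖ < min ε ρ := by
    rw [hev, norm_neg]; exact hEη
  obtain ⟨x', hx'N, -, -, hx'⟩ := hensel (k := k) (cl k (insert y (F : Set Ω))) hNc Φ hΦ R0 hR00
    (by
      intro h7
      rw [h7, norm_zero] at hΦ1n
      exact zero_ne_one hΦ1n)
    (fun i hi => by rw [hΦ1n, hΦi i hi]; exact hco i (by omega))
    (t - a) le_rfl
    (by
      rw [hΦ1n, one_mul]
      exact (hevn.le.trans (min_le_right _ _)).trans haρ.le)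
  refine ⟨a + x', add_mem (hFN ha) hx'N, ?_⟩
  rw [hΦ1n, mul_one] at hx'
  rw [show t - (a + x') = t - a - x' by ring, hx']
  exact hevn.trans_le (min_le_left _ _)

/-- Perturbation of the generator. -/
theorem perturb {F : IntermediateField k Ω} (hF : IsClosed (F : Set Ω)) {t : Ω} {ρ : ℝ}
    (hL : Lim F t ρ) (hC : Cau F t ρ) {y b q : Ω} (hy : y ∈ cl k (insert t (F : Set Ω)))
    (hb : b ∈ F) (hq : q ∈ F) (h : ‖t - (b + q * y)‖ ≤ ρ) :
    t ∈ cl k (insert y (F : Set Ω)) := by
  have hcl : t ∈ closure ((cl k (insert y (F : Set Ω)) : IntermediateField k Ω) : Set Ω) := by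
    rw [Metric.mem_closure_iff]
    intro ε hε
    obtain ⟨w, hw, h1⟩ := perturb_aux hF hL hC hy hb hq h hε
    exact ⟨w, hw, by rw [dist_eq_norm]; exact h1⟩
  rw [(cl_closed (k := k) (insert y (F : Set Ω))).closure_eq] at hcl
  exact hcl

end LUW
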