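import Pool.Agent.LUW.Basic
import Pool.Agent.LUW.DecRoot
import Pool.Agent.LUW.DecSub
import Pool.Agent.LUW.Fourier
import Pool.Agent.LUW.CauF

/-! Project LUW: (D6) descent, one root. -/

set_option autoImplicit false

namespace LUW

open Polynomial

variable {k : Type*} [Field k] {Ω : Type*} [NormedField Ω] [Algebra k Ω] [Big k Ω] {r : ℕ}

/-- An element of `L` given by a decomposition over a subfield `M` of `L` lies in `M`. -/
private theorem desc_mem {x : Ω} {l : ℕ} {L L' M : IntermediateField k Ω} (hD : Dec x l L L')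
    (hML : M ≤ L) {y : Ω} (hy : y ∈ L) {f : Fin l → Ω} (hf : ∀ a, f a ∈ M)
    (hyf : y = ∑ a : Fin l, x ^ (a : ℕ) * f a) : y ∈ M := by
  classical
  let f' : Fin l → Ω := fun a => if a = ⟨0, hD.pos⟩ then y else 0
  have h1 : ∑ a : Fin l, x ^ (a : ℕ) * f' a = y := by
    rw [Finset.sum_eq_single (⟨0, hD.pos⟩ : Fin l)]
    · simp [f']
    · intro b _ hb
      simp [f', hb]
    · intro h
      exact absurd (Finset.mem_univ _) h
  have h2 : f = f' := by
    refine dec_unique hD (fun a => hML (hf a)) (fun a => ?_) (by rw [h1, ← hyf])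
    show (if a = ⟨0, hD.pos⟩ then y else 0) ∈ L
    split_ifs
    · exact hy
    · exact zero_mem _
  have h3 : f ⟨0, hD.pos⟩ = y := by
    rw [h2]
    simp [f']
  rw [← h3]
  exact hf _

/-- Descent of the generator from `L'` to `L`. -/
theorem desc_gen {x : Ω} {l : ℕ} {F F' L L' : IntermediateField k Ω}
    (hL : IsClosed (L : Set Ω)) (hFL : F ≤ L) (hDF : Dec x l F F') (hDL : Dec x l L L')
    {t0 : Ω} (ht0 : t0 ∈ L) (hgen : cl k (insert t0 (F' : Set Ω)) = L') :
    cl k (insert t0 (F : Set Ω)) = L := by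
  have hML : cl k (insert t0 (F : Set Ω)) ≤ L := by
    refine cl_le hL ?_
    rintro y (rfl | hy)
    · exact ht0
    · exact hFL hy
  have hFM : ∀ y ∈ F, y ∈ cl k (insert t0 (F : Set Ω)) := fun y hy =>
    subset_cl _ (Set.mem_insert_of_mem _ hy)
  obtain ⟨hDM, hcl⟩ := dec_sub hDL (cl_closed (insert t0 (F : Set Ω))) hML (hFM _ hDF.xpow)
  have hL'M : L' ≤ cl k (insert t0 (F : Set Ω)) ⊔ IntermediateField.adjoin k {x} := by
    rw [← hgen]
    refine cl_le hcl ?_
    rintro y (rfl | hy)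
    · exact hDM.le (subset_cl _ (Set.mem_insert _ _))
    · obtain ⟨f, hf, hyf⟩ := hDF.ex y hy
      rw [SetLike.mem_coe, hyf]
      exact sum_mem fun a _ => mul_mem (pow_mem hDM.xmem _) (hDM.le (hFM _ (hf a)))
  refine le_antisymm hML fun y hy => ?_
  obtain ⟨f, hf, hyf⟩ := hDM.ex y (hL'M (hDL.le hy))
  exact desc_mem hDL hML hy hf hyf

theorem desc_F {x : Ω} {l : ℕ} {F L L' : IntermediateField k Ω} (hFL : F ≤ L)
    (hDF : Dec x l F L') (hDL : Dec x l L L') : L = F := by
  refine le_antisymm (fun y hy => ?_) hFL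
  obtain ⟨f, hf, hyf⟩ := hDF.ex y (hDL.le hy)
  exact desc_mem hDL hFL hy hf hyf

/-- Descent, one root. -/
theorem desc_one [IsSepClosed k] {u : Fin r → Ω} (hu : Base u) (i0 : Fin r) {l : ℕ}
    (hl : (l : k) ≠ 0) {x : Ω} (hx : x ^ l = u i0) {L : IntermediateField k Ω}
    (hL : IsClosed (L : Set Ω)) (huL : ∀ i, u i ∈ L) (hI : Imm u L)
    (hG : ∃ t, L ⊔ IntermediateField.adjoin k {x} = clT k (Function.update u i0 x) t) :
    ∃ t, L = clT k u t := by
  have hl0 : 0 < l := by
    rcases Nat.eq_zero_or_pos l with h | h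
    · exact absurd (by rw [h]; exact Nat.cast_zero) hl
    · exact h
  obtain ⟨t, ht⟩ := hG
  obtain ⟨hDL, hI', hcl'⟩ := dec_root hu i0 hl0 hx hL huL hI
  obtain ⟨hDF, _, hclF⟩ := dec_root (L := clF k u) hu i0 hl0 hx (cl_closed (Set.range u))
    (u_mem_clF u) (clF_imm hu)
  have hFL : clF k u ≤ L := clF_le hL huL
  have hFL' : clF k u ⊔ IntermediateField.adjoin k {x} ≤
      L ⊔ IntermediateField.adjoin k {x} := sup_le_sup_right hFL _
  have hup := clF_update (k := k) hu i0 hl0 hx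
  by_cases htF : t ∈ clF k (Function.update u i0 x)
  · refine ⟨0, ?_⟩
    rw [clT_of_mem (zero_mem _)]
    rw [clT_of_mem htF, hup] at ht
    rw [ht] at hDL
    exact desc_F hFL hDF hDL
  · have ht' : t ∈ L ⊔ IntermediateField.adjoin k {x} := by
      rw [ht]
      exact t_mem_clT _ _
    have hgen : cl k (insert t ((clF k u ⊔ IntermediateField.adjoin k {x} :
        IntermediateField k Ω) : Set Ω)) = L ⊔ IntermediateField.adjoin k {x} := by
      rw [← hup, clT_eq, ht]
    have hLC : ∀ y ∈ L ⊔ IntermediateField.adjoin k {x},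
        y ∉ clF k u ⊔ IntermediateField.adjoin k {x} →
        ∃ ρ : ℝ, Lim (clF k u ⊔ IntermediateField.adjoin k {x}) y ρ ∧
          Cau (clF k u ⊔ IntermediateField.adjoin k {x}) y ρ := by
      rw [← hup]
      intro y hy hyF
      refine lim_cau (base_update hu i0 hl0 hx) (fun i => ?_) hI' hy hyF
      have h1 : Function.update u i0 x i ∈ clF k (Function.update u i0 x) := u_mem_clF _ i
      rw [hup] at h1
      exact hFL' h1
    rw [hup] at htF
    obtain ⟨t0, ht0, hgen0⟩ := fourier hl hclF hcl' hFL hFL' hDF hDL hLC ht' htF hgen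
    refine ⟨t0, ?_⟩
    rw [← clT_eq]
    exact (desc_gen hL hFL hDF hDL ht0 hgen0).symm

end LUW
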