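import Pool.Agent.LUW.Basic
import Pool.Agent.LUW.Closed
import Pool.Agent.LUW.Wild
import Pool.Agent.LUW.Eigen

/-! Project LUW: (G4) reduction to p-groups. -/

set_option autoImplicit false

namespace LUW

open Polynomial

variable {k : Type*} [Field k] {Ω : Type*} [NormedField Ω] [Algebra k Ω] [Big k Ω] {r : ℕ}

variable [IsSepClosed k] (p : ℕ) [Fact p.Prime] [CharP k p]

omit [Big k Ω] [IsSepClosed k] in
/-- The toric variables have norms different from one. -/
private theorem base_nt {u : Fin r → Ω} (hu : Base u) (hr : 0 < r) {M : IntermediateField k Ω}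
    (huM : ∀ i, u i ∈ M) : ∃ y ∈ M, y ≠ 0 ∧ ‖y‖ ≠ 1 := by
  refine ⟨u ⟨0, hr⟩, huM _, hu.ne _, fun h => ?_⟩
  have h1 : wt u (Pi.single (⟨0, hr⟩ : Fin r) (1 : ℤ)) = wt u 0 := by
    rw [map_zero]
    simp only [wt, AddMonoidHom.coe_mk, ZeroHom.coe_mk]
    rw [Finset.sum_eq_single (⟨0, hr⟩ : Fin r)]
    · simp [h]
    · intro b _ hb
      rw [Pi.single_eq_of_ne hb]; simp
    · intro hb; exact absurd (Finset.mem_univ _) hb
  have h2 := congrFun (hu.inj h1) ⟨0, hr⟩
  simp at h2

/-- No automorphism of prime order `q ≠ p`. -/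
private theorem no_order (hR : ResP k (Ω := Ω) p) {u : Fin r → Ω} (hu : Base u) (hr : 0 < r) {M : IntermediateField k Ω}
    (hM : IsClosed (M : Set Ω)) (huM : ∀ i, u i ∈ M) (hI : Imm u M)
    (N0 : IntermediateField M Ω) [FiniteDimensional M N0] [IsGalois M N0] {l a : ℕ}
    (hl0 : 0 < l) (hfin : Module.finrank M N0 = p ^ a * l) {x : Fin r → Ω}
    (hx : ∀ i, x i ^ l = u i) {M' : IntermediateField k Ω} (hxM : ∀ i, x i ∈ M')
    (hM' : IsClosed (M' : Set Ω)) (hMM : ∀ z ∈ M, z ∈ M')
    (N : IntermediateField M' Ω) [Algebra.IsAlgebraic M' N] (τ : N ≃ₐ[M'] N) {q : ℕ}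
    (hq : q.Prime) (hqp : q ≠ p) (hτ : τ ^ q = 1) (s : N) (hs : τ s ≠ s)
    (hN : ∀ i : ℕ, (((τ ^ i) s : N) : Ω) ∈ N0) : False := by
  have hqk : (q : k) ≠ 0 := by
    intro h
    have h1 := (CharP.cast_eq_zero_iff k p q).1 h
    rcases (Nat.dvd_prime hq).1 h1 with h2 | h2
    · exact (Fact.out : p.Prime).one_lt.ne' h2
    · exact hqp h2.symm
  have hpow : ∀ i : ℕ, ∀ y : N, ((fun z => τ z)^[i]) y = (τ ^ i) y := by
    intro i
    induction i with
    | zero => intro y; rfl
    | succ i ih =>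
      intro y
      rw [Function.iterate_succ_apply, ih, pow_succ]
      rfl
  let τk : N →ₐ[k] N := (τ : N →ₐ[M'] N).restrictScalars k
  have hτk : ∀ y : N, τk y = τ y := fun y => rfl
  let S : Subalgebra k N := ((N0.restrictScalars k).toSubalgebra).comap (N.val.restrictScalars k)
  have hS : ∀ y : N, y ∈ S ↔ (y : Ω) ∈ N0 := fun y => Iff.rfl
  obtain ⟨y, ζ, hyS, hy0, hζ, hyζ⟩ := eigen (k := k) (E := N) q hq hqk τk
    (fun y => by
      have h1 : ((τk : N → N)^[q]) y = (τ ^ q) y := hpow q y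
      rw [h1, hτ]; rfl) S (s := s) (by rw [hτk]; exact hs)
    (fun i => by
      rw [hS]
      have h1 : ((τk : N → N)^[i]) s = (τ ^ i) s := hpow i s
      rw [h1]; exact hN i)
  have hyN0 : (y : Ω) ∈ N0 := (hS y).1 hyS
  have hyΩ : (y : Ω) ≠ 0 := fun h => hy0 (Subtype.ext h)
  obtain ⟨g, hg⟩ := norm_pow_mem (k := k) hu hr hM huM hI N0 hyN0 hyΩ
  rw [hfin] at hg
  let E : IntermediateField k Ω := N.restrictScalars k
  have hEN : ∀ z : Ω, z ∈ E ↔ z ∈ N := fun z => Iff.rfl
  let σ : N →ₐ[M'] Ω := N.val.comp (τ : N →ₐ[M'] N)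
  let τE : E →ₐ[k] Ω := σ.restrictScalars k
  have hM'N : ∀ z : Ω, z ∈ M' → z ∈ N := fun z hz => N.algebraMap_mem ⟨z, hz⟩
  have hw := wild (k := k) p hR hu hl0 hx hyΩ hg (E := E) (fun i => hM'N _ (hxM i))
    (y.2 : (y : Ω) ∈ E) τE
    (fun z => norm_conj M' hM' (base_nt hu hr fun i => hMM _ (huM i)) N σ z)
    (fun i => by
      change ((τ ⟨x i, hM'N _ (hxM i)⟩ : N) : Ω) = x i
      have h1 : (⟨x i, hM'N _ (hxM i)⟩ : N) = algebraMap M' N ⟨x i, hxM i⟩ := rfl
      rw [h1, AlgEquiv.commutes]; rfl)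
  have h2 : τE ⟨(y : Ω), (y.2 : (y : Ω) ∈ E)⟩ = algebraMap k Ω ζ * (y : Ω) := by
    change ((τk y : N) : Ω) = _
    rw [hyζ]; rfl
  rw [h2] at hw
  have h3 : algebraMap k Ω ζ * (y : Ω) - y = algebraMap k Ω (ζ - 1) * y := by
    rw [map_sub, map_one]; ring
  rw [h3, norm_mul, Big.norm_k (Ω := Ω) _ (sub_ne_zero.2 hζ), one_mul] at hw
  exact lt_irrefl _ hw

/-- After adjoining the `l`-th roots of the toric variables, a given separable element of an
immediate field lies in a finite Galois extension whose group is a `p`-group. -/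
theorem exists_pgroup (hR : ResP k (Ω := Ω) p) {u : Fin r → Ω} (hu : Base u) (hr : 0 < r) {M : IntermediateField k Ω}
    (hM : IsClosed (M : Set Ω)) (huM : ∀ i, u i ∈ M) (hI : Imm u M) {y : Ω}
    (hy : IsSeparable M y) :
    ∃ l : ℕ, (l : k) ≠ 0 ∧ ∀ x : Fin r → Ω, (∀ i, x i ^ l = u i) →
      ∃ N : IntermediateField
          ↥(M ⊔ IntermediateField.adjoin k (Set.range x) : IntermediateField k Ω) Ω,
        FiniteDimensional ↥(M ⊔ IntermediateField.adjoin k (Set.range x)) N ∧
        IsGalois ↥(M ⊔ IntermediateField.adjoin k (Set.range x)) N ∧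
        IsPGroup p (N ≃ₐ[↥(M ⊔ IntermediateField.adjoin k (Set.range x))] N) ∧ y ∈ N := by
  classical
  haveI : IsAlgClosed Ω := Big.closed k
  set f : Polynomial M := minpoly M y with hf
  have hyint : IsIntegral M y := hy.isIntegral
  have hf0 : f ≠ 0 := minpoly.ne_zero hyint
  have hfsep : f.Separable := hy
  have hspl : (f.map (algebraMap M Ω)).Splits := IsAlgClosed.splits _
  let N0 : IntermediateField M Ω := IntermediateField.adjoin M (f.rootSet Ω)
  haveI hN0s : f.IsSplittingField M N0 := IntermediateField.adjoin_rootSet_isSplittingField hspl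
  haveI : FiniteDimensional M N0 := IsSplittingField.finiteDimensional N0 f
  haveI : IsGalois M N0 := IsGalois.of_separable_splitting_field hfsep
  have hpos : Module.finrank M N0 ≠ 0 := Module.finrank_pos.ne'
  obtain ⟨a, l, hpl, hal⟩ := Nat.exists_eq_pow_mul_and_not_dvd hpos p (Fact.out : p.Prime).ne_one
  have hl0 : l ≠ 0 := by
    rintro rfl
    exact hpl (dvd_zero p)
  refine ⟨l, fun h => hpl ((CharP.cast_eq_zero_iff k p l).1 h), fun x hx => ?_⟩
  generalize hM'def : (M ⊔ IntermediateField.adjoin k (Set.range x) : IntermediateField k Ω) = M'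
  have hMle : M ≤ M' := hM'def ▸ le_sup_left
  have hxM : ∀ i, x i ∈ M' := fun i => by
    rw [← hM'def]
    exact (le_sup_right : IntermediateField.adjoin k (Set.range x) ≤ _)
      (IntermediateField.subset_adjoin k _ ⟨i, rfl⟩)
  have hM' : IsClosed (M' : Set Ω) := by
    rw [← hM'def]
    refine closed_sup_adjoin M hM (base_nt hu hr huM) _ (Set.finite_range x) ?_
    rintro _ ⟨i, rfl⟩
    refine ⟨X ^ l - C (⟨u i, huM i⟩ : M), (monic_X_pow_sub_C _ hl0).ne_zero, ?_⟩
    rw [map_sub, map_pow, aeval_X, aeval_C, hx i]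
    exact sub_self _
  let ι : M →+* M' := (IntermediateField.inclusion hMle).toRingHom
  have hι : (algebraMap M' Ω).comp ι = algebraMap M Ω := rfl
  let f' : Polynomial M' := f.map ι
  have hf'map : f'.map (algebraMap M' Ω) = f.map (algebraMap M Ω) := by
    rw [Polynomial.map_map, hι]
  have hf'sep : f'.Separable := hfsep.map
  have hf'spl : (f'.map (algebraMap M' Ω)).Splits := IsAlgClosed.splits _
  let N : IntermediateField M' Ω := IntermediateField.adjoin M' (f'.rootSet Ω)
  haveI : f'.IsSplittingField M' N := IntermediateField.adjoin_rootSet_isSplittingField hf'spl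
  haveI : FiniteDimensional M' N := IsSplittingField.finiteDimensional N f'
  haveI : IsGalois M' N := IsGalois.of_separable_splitting_field hf'sep
  have hrs : ∀ z : Ω, z ∈ f'.rootSet Ω ↔ z ∈ f.rootSet Ω := by
    intro z
    rw [mem_rootSet, mem_rootSet, aeval_def, aeval_def, ← eval_map, ← eval_map, hf'map]
    have h1 : f' ≠ 0 := hf'sep.ne_zero
    exact ⟨fun h => ⟨hf0, h.2⟩, fun h => ⟨h1, h.2⟩⟩
  have hyr : y ∈ f.rootSet Ω := by
    rw [mem_rootSet]
    exact ⟨hf0, minpoly.aeval M y⟩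
  refine ⟨N, inferInstance, inferInstance, ?_, ?_⟩
  · rw [IsPGroup.iff_orderOf]
    intro τ
    refine ⟨_, Nat.eq_prime_pow_of_unique_prime_dvd (orderOf_pos τ).ne' ?_⟩
    intro q hq hqd
    by_contra hqp
    obtain ⟨m, hm⟩ := hqd
    have hm0 : m ≠ 0 := by
      rintro rfl
      exact (orderOf_pos τ).ne' (by rw [hm, mul_zero])
    have hord : orderOf (τ ^ m) = q := by
      rw [orderOf_pow_of_dvd hm0 (by rw [hm]; exact dvd_mul_left _ _), hm]
      exact Nat.mul_div_cancel _ (Nat.pos_of_ne_zero hm0)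
    have hτq : (τ ^ m) ^ q = 1 := by rw [← hord]; exact pow_orderOf_eq_one _
    have hne : τ ^ m ≠ 1 := by
      intro h
      rw [h, orderOf_one] at hord
      exact hq.one_lt.ne hord
    -- some root is moved
    have hex : ∃ s : N, (s : Ω) ∈ f'.rootSet Ω ∧ (τ ^ m) s ≠ s := by
      by_contra hcon
      push Not at hcon
      apply hne
      have h1 : ∀ z : N, (((τ ^ m) z : N) : Ω) = z := by
        intro z
        have h2 : N ≤ (IntermediateField.map N.val
            (IntermediateField.fixedField (Subgroup.zpowers (τ ^ m)))) := by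
          refine IntermediateField.adjoin_le_iff.2 fun w hw => ?_
          have hwN : w ∈ N := IntermediateField.subset_adjoin M' _ hw
          refine ⟨⟨w, hwN⟩, ?_, rfl⟩
          refine (IntermediateField.mem_fixedField_iff _ _).2 fun g hg => ?_
          obtain ⟨j, rfl⟩ := Subgroup.mem_zpowers_iff.1 hg
          have h3 : (τ ^ m) • (⟨w, hwN⟩ : N) = ⟨w, hwN⟩ := hcon ⟨w, hwN⟩ hw
          exact (MulAction.mem_stabilizer_iff (G := N ≃ₐ[M'] N)).1
            (Subgroup.zpow_mem (MulAction.stabilizer (N ≃ₐ[M'] N) (⟨w, hwN⟩ : N))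
              (MulAction.mem_stabilizer_iff.2 h3) j)
        obtain ⟨z', hz', hzz⟩ := h2 z.2
        have h4 : z' = z := Subtype.ext hzz
        rw [h4] at hz'
        have h5 := (IntermediateField.mem_fixedField_iff _ _).1 hz' _ (Subgroup.mem_zpowers _)
        rw [h5]
      ext z
      exact h1 z
    obtain ⟨s, hsr, hs⟩ := hex
    refine no_order p hR hu hr hM huM hI N0 (Nat.pos_of_ne_zero hl0) (by rw [hal]) hx hxM hM'
      (fun z hz => hMle hz) N (τ ^ m) hq hqp hτq s hs fun i => ?_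
    have h5 : ((((τ ^ m) ^ i) s : N) : Ω) ∈ f'.rootSet Ω := by
      rw [mem_rootSet] at hsr ⊢
      refine ⟨hsr.1, ?_⟩
      have h6 : aeval (s : Ω) f' = 0 := hsr.2
      have h7 : aeval s f' = 0 := by
        apply Subtype.val_injective
        have h6' : N.val (aeval s f') = 0 := by
          rw [← Polynomial.aeval_algHom_apply N.val s f']
          exact h6
        exact h6'
      have h8 : aeval (((τ ^ m) ^ i) s) f' = 0 := by
        have := congrArg (((τ ^ m) ^ i)) h7
        rw [map_zero] at this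
        rw [← this]
        exact Polynomial.aeval_algHom_apply ((((τ ^ m) ^ i) : N ≃ₐ[M'] N) : N →ₐ[M'] N) s f'
      have h9 := congrArg (N.val) h8
      rw [map_zero] at h9
      rw [← h9]
      exact Polynomial.aeval_algHom_apply N.val (((τ ^ m) ^ i) s) f'
    exact IntermediateField.subset_adjoin M _ ((hrs _).1 h5)
  · exact IntermediateField.subset_adjoin M' _ ((hrs y).2 hyr)

end LUW
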