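import Pool.Agent.LUW.Defs
import Pool.Agent.LUW.AsGen

/-! Project LUW: (G6) towers from p-groups. -/

set_option autoImplicit false

namespace LUW

open Polynomial

section Abstract

variable {M N : Type*} [Field M] [Field N] [Algebra M N]

/-- One step of the tower, abstractly. -/
private theorem TowP_step (p : ℕ) [Fact p.Prime] [CharP M p] [FiniteDimensional M N]
    [IsGalois M N] (hG : IsPGroup p (N ≃ₐ[M] N)) (F : IntermediateField M N) (hF : F ≠ ⊥) :
    ∃ E : IntermediateField M N, E ≤ F ∧ Module.finrank M E < Module.finrank M F ∧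
      ∃ z ∈ F, z ^ p - z ∈ E ∧ ∀ P : N → Prop, P z → (∀ e ∈ E, P e) →
        (∀ a b, P a → P b → P (a + b)) → (∀ a, P a → P a⁻¹) →
        (∀ a b, P a → P b → P (a * b)) → ∀ x ∈ F, P x := by
  classical
  have hp : p.Prime := Fact.out
  obtain ⟨t, ht⟩ := IsPGroup.iff_card.1 hG
  obtain ⟨n, hn⟩ := IsPGroup.iff_card.1 (hG.to_subgroup F.fixingSubgroup)
  have hnt : n < t := by
    by_contra hc
    have hle : Nat.card F.fixingSubgroup ≤ Nat.card (N ≃ₐ[M] N) := Subgroup.card_le_card_group _
    have hge : Nat.card (N ≃ₐ[M] N) ≤ Nat.card F.fixingSubgroup := by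
      rw [hn, ht]; exact Nat.pow_le_pow_right hp.pos (not_lt.1 hc)
    have htop : F.fixingSubgroup = ⊤ := Subgroup.eq_top_of_card_eq _ (le_antisymm hle hge)
    apply hF
    rw [← IsGalois.fixedField_fixingSubgroup F, htop, IsGalois.fixedField_top]
  obtain ⟨K, hK, hHK⟩ := Sylow.exists_subgroup_card_pow_succ (G := N ≃ₐ[M] N) (p := p) (n := n)
    (by rw [ht]; exact pow_dvd_pow p hnt) hn
  set E : IntermediateField M N := IntermediateField.fixedField K with hE
  have hEF : E ≤ F := by
    rw [← IsGalois.fixedField_fixingSubgroup F]
    exact IntermediateField.fixedField_le hHK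
  have hEN : Module.finrank E N = p ^ (n + 1) := by
    rw [hE, IntermediateField.finrank_fixedField_eq_card, hK]
  have hFN : Module.finrank F N = p ^ n := by
    rw [← IsGalois.card_fixingSubgroup_eq_finrank F, hn]
  let F' : IntermediateField E N := IntermediateField.extendScalars hEF
  have hF'N : Module.finrank F' N = p ^ n := hFN
  have hEF' : Module.finrank E F' = p := by
    have h := Module.finrank_mul_finrank E F' N
    rw [hEN, hF'N, pow_succ'] at h
    exact Nat.eq_of_mul_eq_mul_right (pow_pos hp.pos n) h
  have hgalN : IsGalois E N := inferInstance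
  have hfd : FiniteDimensional E N := inferInstance
  have hcardG : Nat.card (N ≃ₐ[E] N) = p ^ (n + 1) := by
    rw [IsGalois.card_aut_eq_finrank, hEN]
  have hidx : F'.fixingSubgroup.index = (Nat.card (N ≃ₐ[E] N)).minFac := by
    rw [← IntermediateField.finrank_eq_fixingSubgroup_index, hEF', hcardG,
      Nat.pow_minFac (Nat.succ_ne_zero n), hp.minFac_eq]
  have hnorm : F'.fixingSubgroup.Normal := Subgroup.normal_of_index_eq_minFac_card hidx
  have hgal : IsGalois E F' := by
    have h := IsGalois.of_fixedField_normal_subgroup (K := E) (L := N) F'.fixingSubgroup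
    rw [IsGalois.fixedField_fixingSubgroup] at h
    exact h
  have hchar : CharP E p := charP_of_injective_algebraMap (algebraMap M E).injective p
  have hfd' : FiniteDimensional E F' := inferInstance
  obtain ⟨z, ⟨f, hf⟩, hz⟩ := as_gen (M := E) (E := F') p hEF'
  refine ⟨E, hEF, ?_, (z : N), z.2, ?_, ?_⟩
  · have h1 := Module.finrank_mul_finrank M E N
    have h2 := Module.finrank_mul_finrank M F N
    rw [hEN] at h1
    rw [hFN, ← h1, pow_succ', ← mul_assoc] at h2
    have h3 := Nat.eq_of_mul_eq_mul_right (pow_pos hp.pos n) h2
    rw [h3]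
    have h4 : 0 < Module.finrank M E := Module.finrank_pos
    exact lt_mul_of_one_lt_right h4 hp.one_lt
  · have h : (z : N) ^ p - z = (f : N) := by
      have := congrArg (fun x : F' => (x : N)) hf
      simpa using this
    rw [h]
    exact f.2
  · intro P hPz hPE hadd hinv hmul x hx
    have hx' : (⟨x, hx⟩ : F') ∈ IntermediateField.adjoin E {z} := by
      rw [hz]; exact IntermediateField.mem_top
    have key : ∀ w : F', w ∈ IntermediateField.adjoin E {z} → P (w : N) := by
      intro w hw
      induction hw using IntermediateField.adjoin_induction with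
      | mem w hw => rw [Set.mem_singleton_iff] at hw; rw [hw]; exact hPz
      | algebraMap e => exact hPE _ e.2
      | add a b _ _ ha hb => exact hadd _ _ ha hb
      | inv a _ ha => exact hinv _ ha
      | mul a b _ _ ha hb => exact hmul _ _ ha hb
    exact key _ hx'

end Abstract

variable {k : Type*} [Field k] {Ω : Type*} [NormedField Ω] [Algebra k Ω]
variable (p : ℕ) [Fact p.Prime] [CharP k p]

/-- The image in `Ω`. -/
private noncomputable def TowP_im {M : IntermediateField k Ω} {N : IntermediateField M Ω}
    (F : IntermediateField M N) : IntermediateField k Ω :=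
  IntermediateField.restrictScalars k (IntermediateField.lift F)

private theorem TowP_mem_im {M : IntermediateField k Ω} {N : IntermediateField M Ω}
    (F : IntermediateField M N) (x : N) : (x : Ω) ∈ TowP_im F ↔ x ∈ F := by
  rw [TowP_im, IntermediateField.mem_restrictScalars, IntermediateField.mem_lift]

private theorem TowP_mem_im' {M : IntermediateField k Ω} {N : IntermediateField M Ω}
    (F : IntermediateField M N) {x : Ω} (hx : x ∈ TowP_im F) : ∃ y : N, y ∈ F ∧ (y : Ω) = x := by
  have h1 : x ∈ IntermediateField.lift F := hx
  have h2 : x ∈ N := IntermediateField.lift_le F h1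
  exact ⟨⟨x, h2⟩, (IntermediateField.mem_lift (⟨x, h2⟩ : N)).1 h1, rfl⟩

private theorem TowP_le_im {M : IntermediateField k Ω} {N : IntermediateField M Ω}
    (F : IntermediateField M N) : M ≤ TowP_im F := by
  intro x hx
  exact (TowP_mem_im F (algebraMap M N ⟨x, hx⟩)).2 (F.algebraMap_mem _)

private theorem TowP_im_bot {M : IntermediateField k Ω} {N : IntermediateField M Ω} :
    TowP_im (⊥ : IntermediateField M N) = M := by
  apply le_antisymm
  · intro x hx
    obtain ⟨y, hy, rfl⟩ := TowP_mem_im' _ hx
    obtain ⟨m, rfl⟩ := IntermediateField.mem_bot.1 hy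
    exact m.2
  · exact TowP_le_im _

private theorem TowP_all (M : IntermediateField k Ω) (N : IntermediateField M Ω)
    [FiniteDimensional M N] [IsGalois M N] (hG : IsPGroup p (N ≃ₐ[M] N)) :
    ∀ (n : ℕ) (F : IntermediateField M N), Module.finrank M F ≤ n → Tow p M (TowP_im F) := by
  have hchar : CharP M p := charP_of_injective_algebraMap (algebraMap k M).injective p
  intro n
  induction n with
  | zero =>
    intro F hF
    have h : 0 < Module.finrank M F := Module.finrank_pos
    omega
  | succ n ih =>
    intro F hF
    by_cases hb : F = ⊥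
    · rw [hb, TowP_im_bot]
      exact Tow.refl
    · obtain ⟨E, hEF, hlt, z, hzF, hzE, hgen⟩ := TowP_step p hG F hb
      have hT := ih E (by omega)
      have hz' : (z : Ω) ^ p - (z : Ω) ∈ TowP_im E := by
        have h : ((z ^ p - z : N) : Ω) ∈ TowP_im E := (TowP_mem_im E _).2 hzE
        simpa using h
      have heq : TowP_im F = TowP_im E ⊔ IntermediateField.adjoin k {(z : Ω)} := by
        apply le_antisymm
        · intro x hx
          obtain ⟨y, hy, rfl⟩ := TowP_mem_im' _ hx
          refine hgen (fun w : N => (w : Ω) ∈ TowP_im E ⊔ IntermediateField.adjoin k {(z : Ω)})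
            ?_ ?_ ?_ ?_ ?_ y hy
          · exact (le_sup_right : IntermediateField.adjoin k {(z : Ω)} ≤ _)
              (IntermediateField.mem_adjoin_simple_self k (z : Ω))
          · intro e he
            exact (le_sup_left : TowP_im E ≤ _) ((TowP_mem_im E e).2 he)
          · intro a b ha hb'
            exact add_mem ha hb'
          · intro a ha
            exact inv_mem ha
          · intro a b ha hb'
            exact mul_mem ha hb'
        · refine sup_le ?_ ?_
          · intro x hx
            obtain ⟨y, hy, rfl⟩ := TowP_mem_im' _ hx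
            exact (TowP_mem_im F y).2 (hEF hy)
          · rw [IntermediateField.adjoin_simple_le_iff]
            exact (TowP_mem_im F z).2 hzF
      rw [heq]
      exact Tow.step _ _ hT hz'

/-- Elements of Galois extensions with group a `p`-group lie in Artin-Schreier towers. -/
theorem tow_of_pgroup (M : IntermediateField k Ω) (N : IntermediateField M Ω)
    [FiniteDimensional M N] [IsGalois M N] (hG : IsPGroup p (N ≃ₐ[M] N)) {y : Ω} (hy : y ∈ N) :
    Tow p M (M ⊔ IntermediateField.adjoin k {y}) := by
  have h := TowP_all p M N hG _ (IntermediateField.adjoin M {(⟨y, hy⟩ : N)}) le_rfl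
  have heq : TowP_im (IntermediateField.adjoin M {(⟨y, hy⟩ : N)}) =
      M ⊔ IntermediateField.adjoin k {y} := by
    apply le_antisymm
    · intro x hx
      obtain ⟨w, hw, rfl⟩ := TowP_mem_im' _ hx
      induction hw using IntermediateField.adjoin_induction with
      | mem w hw =>
        rw [Set.mem_singleton_iff] at hw; rw [hw]
        exact (le_sup_right : IntermediateField.adjoin k {y} ≤ _)
          (IntermediateField.mem_adjoin_simple_self k y)
      | algebraMap e => exact (le_sup_left : M ≤ _) e.2
      | add a b _ _ ha hb =>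
        exact add_mem (ha ((TowP_mem_im _ _).2 (by assumption)))
          (hb ((TowP_mem_im _ _).2 (by assumption)))
      | inv a _ ha => exact inv_mem (ha ((TowP_mem_im _ _).2 (by assumption)))
      | mul a b _ _ ha hb =>
        exact mul_mem (ha ((TowP_mem_im _ _).2 (by assumption)))
          (hb ((TowP_mem_im _ _).2 (by assumption)))
    · refine sup_le (TowP_le_im _) ?_
      rw [IntermediateField.adjoin_simple_le_iff]
      exact (TowP_mem_im _ (⟨y, hy⟩ : N)).2 (IntermediateField.mem_adjoin_simple_self M _)
  rw [← heq]
  exact h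

end LUW
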