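import Pool.Agent.LUW.Basic
import Pool.Agent.LUW.SepDer

/-! Project LUW: (E2, E3) choice of u and t. -/

set_option autoImplicit false

namespace LUW

open Polynomial

universe u

/-- the constants of a derivation form an intermediate field -/
private theorem eu_adjoin {k K : Type u} [Field k] [Field K] [Algebra k K]
    (D : Derivation k K K) (S : Set K) (h : ∀ s ∈ S, D s = 0) :
    ∀ e ∈ IntermediateField.adjoin k S, D e = 0 := by
  intro e he
  induction he using IntermediateField.adjoin_induction with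
  | mem x hx => exact h x hx
  | algebraMap x => exact D.map_algebraMap x
  | add x y _ _ hx hy => rw [map_add, hx, hy, add_zero]
  | inv x _ hx => rw [D.leibniz_inv, hx, smul_zero]
  | mul x y _ _ hx hy => rw [D.leibniz, hx, hy, smul_zero, smul_zero, add_zero]

/-- a derivation vanishing on `E` vanishes if `K/E` is separable -/
private theorem eu_zero {k K : Type u} [Field k] [Field K] [Algebra k K]
    (E : IntermediateField k K) (hE : Algebra.IsSeparable E K)
    (D : Derivation k K K) (h : ∀ e ∈ E, D e = 0) : D = 0 := by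
  let D' : Derivation E K K :=
    { toFun := D
      map_add' := fun a b => map_add D a b
      map_smul' := fun e a => by
        rw [RingHom.id_apply, Algebra.smul_def, Algebra.smul_def, D.leibniz]
        change (e : K) • D a + a • D (e : K) = (e : K) * D a
        rw [h _ e.2, smul_zero, add_zero, smul_eq_mul]
      map_one_eq_zero' := D.map_one_eq_zero
      leibniz' := fun a b => D.leibniz a b }
  have : Algebra.FormallyUnramified E K := Algebra.FormallyUnramified.of_isSeparable E K
  have h1 : Subsingleton (Ω[K⁄E]) := inferInstance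
  have h2 : D' = 0 := by
    have h3 : (KaehlerDifferential.linearMapEquivDerivation E K).symm D' = 0 :=
      LinearMap.ext fun x => by
        rw [Subsingleton.elim x 0, map_zero, map_zero]
    exact (LinearEquiv.map_eq_zero_iff _).1 h3
  ext a
  exact congrArg (fun F : Derivation E K K => F a) h2

private theorem eu_sum {k K : Type u} [Field k] [Field K] [Algebra k K] {n : ℕ}
    (c : Fin n → K) (d : Fin n → Derivation k K K) (a : K) :
    (∑ j, c j • d j) a = ∑ j, c j * d j a := by
  have h := map_sum (Derivation.coeFnAddMonoidHom (R := k) (A := K) (M := K))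
    (fun j => c j • d j) Finset.univ
  have h2 := congrFun h a
  rw [Finset.sum_apply] at h2
  exact h2

/-- `D (h^p x) = h^p D x` in characteristic `p` -/
private theorem eu_pow {k K : Type u} [Field k] [Field K] [Algebra k K] (p : ℕ) [CharP K p]
    (D : Derivation k K K) (h x : K) : D (h ^ p * x) = h ^ p * D x := by
  rw [D.leibniz, D.leibniz_pow, nsmul_eq_mul, CharP.cast_eq_zero, zero_mul, smul_zero, add_zero,
    smul_eq_mul]

variable {k K : Type u} [Field k] [Field K] [Algebra k K]
  [Algebra.EssFiniteType k K] {Ω : Type*} [NormedField Ω] [Algebra k Ω] [Big k Ω] {r : ℕ}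

omit [Algebra.EssFiniteType k K] [Big k Ω] in
/-- a small element -/
private theorem eu_small (ι : K →ₐ[k] Ω) (hr : 0 < r) (y : Fin r → K)
    (hy : Base fun i => ι (y i)) : ∃ g : K, 0 < ‖ι g‖ ∧ ‖ι g‖ < 1 := by
  set i0 : Fin r := ⟨0, hr⟩
  have hne : ι (y i0) ≠ 0 := hy.ne i0
  have hpos : 0 < ‖ι (y i0)‖ := norm_pos_iff.2 hne
  have h1 : ‖ι (y i0)‖ ≠ 1 := by
    intro h
    have h2 : wt (fun i => ι (y i)) (Pi.single i0 1) = wt (fun i => ι (y i)) 0 := by
      rw [map_zero]
      change ∑ i, (((Pi.single i0 1 : G r) i : ℤ) : ℝ) * (-Real.log ‖ι (y i)‖) = 0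
      rw [Finset.sum_eq_single i0]
      · rw [h]; simp
      · intro b _ hb
        rw [Pi.single_eq_of_ne hb]; simp
      · intro h; exact absurd (Finset.mem_univ _) h
    have h3 := congrFun (hy.inj h2) i0
    rw [Pi.single_eq_same] at h3
    exact one_ne_zero h3
  rcases lt_or_gt_of_ne h1 with h | h
  · exact ⟨y i0, hpos, h⟩
  · refine ⟨(y i0)⁻¹, ?_, ?_⟩
    · rw [map_inv₀, norm_inv]; positivity
    · rw [map_inv₀, norm_inv]; exact inv_lt_one_of_one_lt₀ h

/-- Changing the toric variables so that they are part of a separating transcendence basis. -/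
theorem exists_u (hsg : SG k K) (p : ℕ) [Fact p.Prime] [CharP k p] (ι : K →ₐ[k] Ω) (hr : 0 < r)
    (hn : Algebra.trdeg k K = (r + 1 : ℕ)) (y : Fin r → K) (hy : Base fun i => ι (y i)) :
    ∃ (u : Fin r → K) (x0 : K), (∀ i, ‖ι (u i)‖ = ‖ι (y i)‖) ∧ (Base fun i => ι (u i)) ∧
      Algebra.IsSeparable (IntermediateField.adjoin k (insert x0 (Set.range u))) K := by
  classical
  have hp : p ≠ 0 := (Fact.out : p.Prime).ne_zero
  have hcK : CharP K p := charP_of_injective_algebraMap (algebraMap k K).injective p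
  obtain ⟨z, d, hdz, hD⟩ := exists_der_basis (k := k) (K := K) hsg (r + 1) hn
  obtain ⟨g, hg0, hg1⟩ := eu_small ι hr y hy
  have hgne : g ≠ 0 := by
    rintro rfl
    rw [map_zero, norm_zero] at hg0
    exact lt_irrefl _ hg0
  -- the matrix
  let y' : Fin (r + 1) → K := Fin.snoc (α := fun _ => K) y 0
  let N : Matrix (Fin (r + 1)) (Fin (r + 1)) K := fun i j => -(d j (y' i))
  -- good exponents
  have hinj : Function.Injective fun m : ℕ => (g ^ m) ^ p := by
    intro m m' hm
    have h1 : ‖ι g‖ ^ (m * p) = ‖ι g‖ ^ (m' * p) := by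
      have h2 := congrArg (fun a => ‖ι a‖) hm
      simpa only [map_pow, norm_pow, ← pow_mul] using h2
    have h3 := (pow_right_strictAnti₀ hg0 hg1).injective h1
    exact Nat.eq_of_mul_eq_mul_right (Nat.pos_of_ne_zero hp) h3
  have hdet : ∀ᶠ m : ℕ in Filter.atTop, N.charpoly.eval ((g ^ m) ^ p) ≠ 0 := by
    rw [← Nat.cofinite_eq_atTop]
    have hfin : {x : K | N.charpoly.eval x = 0}.Finite := by
      have h0 : N.charpoly ≠ 0 := (Matrix.charpoly_monic N).ne_zero
      refine (N.charpoly.roots.toFinset.finite_toSet).subset fun x hx => ?_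
      simpa [h0] using hx
    have := hfin.preimage (f := fun m : ℕ => (g ^ m) ^ p) hinj.injOn
    filter_upwards [this.compl_mem_cofinite] with m hm
    exact hm
  have hsmall : ∀ i : Fin r, ∀ᶠ m : ℕ in Filter.atTop,
      ‖ι ((g ^ m) ^ p * z i.castSucc)‖ < ‖ι (y i)‖ := by
    intro i
    have h1 : Filter.Tendsto (fun m : ℕ => ‖ι ((g ^ m) ^ p * z i.castSucc)‖) Filter.atTop
        (nhds 0) := by
      have h2 : Filter.Tendsto (fun m : ℕ => (‖ι g‖ ^ p) ^ m * ‖ι (z i.castSucc)‖) Filter.atTop
          (nhds (0 * ‖ι (z i.castSucc)‖)) :=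
        (tendsto_pow_atTop_nhds_zero_of_lt_one (by positivity)
          (pow_lt_one₀ hg0.le hg1 hp)).mul_const _
      rw [zero_mul] at h2
      refine h2.congr fun m => ?_
      rw [map_mul, map_pow, map_pow, norm_mul, norm_pow, norm_pow, ← pow_mul, ← pow_mul,
        mul_comm m p]
    exact h1.eventually_lt_const (norm_pos_iff.2 (hy.ne i))
  obtain ⟨m, hm1, hm2⟩ := (hdet.and (Filter.eventually_all.2 hsmall)).exists
  set h : K := g ^ m with hh
  let v : Fin (r + 1) → K := fun i => y' i + h ^ p * z i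
  have hv : ∀ i : Fin r, v i.castSucc = y i + h ^ p * z i.castSucc := fun i => by
    simp only [v, y', Fin.snoc_castSucc]
  have hvl : v (Fin.last r) = h ^ p * z (Fin.last r) := by
    simp only [v, y', Fin.snoc_last, zero_add]
  have hnorm : ∀ i : Fin r, ‖ι (v i.castSucc)‖ = ‖ι (y i)‖ := by
    intro i
    refine Big.norm_eq k ?_
    rw [hv, map_add, add_sub_cancel_left]
    exact hm2 i
  refine ⟨fun i => v i.castSucc, v (Fin.last r), hnorm, ⟨fun i => ?_, ?_⟩, ?_⟩
  · have := norm_pos_iff.2 (hy.ne i)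
    rw [← hnorm i] at this
    exact norm_pos_iff.1 this
  · have e : wt (fun i => ι (v i.castSucc)) = wt (fun i => ι (y i)) := by
      refine AddMonoidHom.ext fun e => ?_
      change ∑ i : Fin r, ((e i : ℤ) : ℝ) * (-Real.log ‖ι (v i.castSucc)‖) =
        ∑ i : Fin r, ((e i : ℤ) : ℝ) * (-Real.log ‖ι (y i)‖)
      exact Finset.sum_congr rfl fun i _ => by rw [hnorm i]
    rw [e]
    exact hy.inj
  · refine sep_of_der _ fun D hDE => ?_
    have hDv : ∀ i : Fin (r + 1), D (v i) = 0 := by
      intro i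
      refine hDE _ (IntermediateField.subset_adjoin k _ ?_)
      refine Fin.lastCases ?_ (fun i => ?_) i
      · exact Set.mem_insert _ _
      · exact Set.mem_insert_of_mem _ ⟨i, rfl⟩
    have h1 : (Matrix.scalar (Fin (r + 1)) (h ^ p) - N).mulVec (fun j => D (z j)) = 0 := by
      ext i
      rw [Pi.zero_apply, Matrix.sub_mulVec, Pi.sub_apply]
      have e1 : (Matrix.scalar (Fin (r + 1)) (h ^ p)).mulVec (fun j => D (z j)) i =
          h ^ p * D (z i) := by
        rw [Matrix.scalar_apply, Matrix.mulVec_diagonal]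
      have e2 : N.mulVec (fun j => D (z j)) i = -D (y' i) := by
        conv_rhs => rw [hD D]
        rw [Matrix.mulVec, dotProduct]
        simp only [N]
        rw [eu_sum, ← Finset.sum_neg_distrib]
        refine Finset.sum_congr rfl fun j _ => ?_
        ring
      rw [e1, e2, sub_neg_eq_add, ← eu_pow p D h (z i), ← map_add, add_comm]
      exact hDv i
    have h2 : (fun j => D (z j)) = 0 := by
      refine Matrix.eq_zero_of_mulVec_eq_zero ?_ h1
      rw [← Matrix.eval_charpoly]
      exact hm1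
    rw [hD D]
    refine Finset.sum_eq_zero fun j _ => ?_
    rw [congrFun h2 j, Pi.zero_apply, zero_smul]

/-- Choosing `t` close to `t0` with `K/k(u,t)` separable. -/
theorem exists_t (hsg : SG k K) (p : ℕ) [Fact p.Prime] [CharP k p] (ι : K →ₐ[k] Ω) (hr : 0 < r)
    (hn : Algebra.trdeg k K = (r + 1 : ℕ)) (u : Fin r → K) (hu : Base fun i => ι (u i)) (x0 : K)
    (hsep : Algebra.IsSeparable (IntermediateField.adjoin k (insert x0 (Set.range u))) K)
    {t0 : Ω} (ht0 : t0 ∈ cl k (Set.range ι)) {ρ : ℝ} (hρ : 0 < ρ) :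
    ∃ t : K, ‖ι t - t0‖ ≤ ρ ∧
      Algebra.IsSeparable (IntermediateField.adjoin k (insert t (Set.range u))) K := by
  classical
  have hp : p ≠ 0 := (Fact.out : p.Prime).ne_zero
  have hcK : CharP K p := charP_of_injective_algebraMap (algebraMap k K).injective p
  obtain ⟨z, d, hdz, hD⟩ := exists_der_basis (k := k) (K := K) hsg (r + 1) hn
  obtain ⟨g, hg0, hg1⟩ := eu_small ι hr u hu
  have hgne : g ≠ 0 := by
    rintro rfl
    rw [map_zero, norm_zero] at hg0
    exact lt_irrefl _ hg0
  -- derivations killing `u` and `x0` vanish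
  have hz : ∀ D : Derivation k K K, (∀ i, D (u i) = 0) → D x0 = 0 → D = 0 := by
    intro D h1 h2
    refine eu_zero _ hsep D (eu_adjoin D _ ?_)
    rintro s (rfl | ⟨i, rfl⟩)
    · exact h2
    · exact h1 i
  -- a derivation killing `u`
  obtain ⟨D0, hD0u, hD0x⟩ : ∃ D : Derivation k K K, (∀ i, D (u i) = 0) ∧ D x0 ≠ 0 := by
    let f : (Fin (r + 1) → K) →ₗ[K] (Fin r → K) :=
      Matrix.mulVecLin (Matrix.of fun i j => d j (u i))
    have hf : LinearMap.ker f ≠ ⊥ := by
      refine LinearMap.ker_ne_bot_of_finrank_lt ?_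
      rw [Module.finrank_fin_fun, Module.finrank_fin_fun]
      exact Nat.lt_succ_self r
    obtain ⟨c, hc, hc0⟩ := (Submodule.ne_bot_iff _).1 hf
    have hap : ∀ a, (∑ j, c j • d j) a = ∑ j, c j * d j a := eu_sum c d
    have h1 : ∀ i, (∑ j, c j • d j) (u i) = 0 := by
      intro i
      have h2 : f c i = 0 := congrFun (LinearMap.mem_ker.1 hc) i
      rw [hap]
      rw [← h2]
      simp only [f, Matrix.mulVecLin_apply, Matrix.mulVec, dotProduct, Matrix.of_apply]
      exact Finset.sum_congr rfl fun j _ => mul_comm _ _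
    refine ⟨∑ j, c j • d j, h1, fun h2 => hc0 ?_⟩
    have h3 := hz _ h1 h2
    ext j
    have h4 : (∑ i, c i • d i) (z j) = 0 := by rw [h3]; rfl
    rw [hap] at h4
    simpa [hdz] using h4
  -- separability from `D0 t ≠ 0`
  have key : ∀ t : K, D0 t ≠ 0 →
      Algebra.IsSeparable (IntermediateField.adjoin k (insert t (Set.range u))) K := by
    intro t ht
    refine sep_of_der _ fun D hDE => ?_
    have h1 : ∀ i, D (u i) = 0 := fun i =>
      hDE _ (IntermediateField.subset_adjoin k _ (Set.mem_insert_of_mem _ ⟨i, rfl⟩))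
    have h2 : D t = 0 := hDE _ (IntermediateField.subset_adjoin k _ (Set.mem_insert _ _))
    have h3 : D - (D x0 / D0 x0) • D0 = 0 := by
      refine hz _ (fun i => ?_) ?_
      · rw [Derivation.sub_apply, Derivation.smul_apply, h1, hD0u, smul_zero, sub_zero]
      · rw [Derivation.sub_apply, Derivation.smul_apply, smul_eq_mul, div_mul_cancel₀ _ hD0x,
          sub_self]
    have h4 : D = (D x0 / D0 x0) • D0 := sub_eq_zero.1 h3
    have h5 : (D x0 / D0 x0) * D0 t = 0 := by
      rw [← smul_eq_mul, ← Derivation.smul_apply, ← h4, h2]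
    have h6 : D x0 / D0 x0 = 0 := (mul_eq_zero.1 h5).resolve_right ht
    rw [h4, h6, zero_smul]
  -- approximation
  obtain ⟨t1, ht1⟩ : ∃ t1 : K, ‖ι t1 - t0‖ ≤ ρ := by
    obtain ⟨w, hw, hw2⟩ := mem_cl_iff.1 ht0 ρ hρ
    have h1 : IntermediateField.adjoin k (Set.range ι) ≤ ι.fieldRange :=
      IntermediateField.adjoin_le_iff.2 (by rintro _ ⟨a, rfl⟩; exact ⟨a, rfl⟩)
    obtain ⟨t1, rfl⟩ := h1 hw
    refine ⟨t1, ?_⟩
    rw [norm_sub_rev]
    exact hw2.le
  by_cases h1 : D0 t1 = 0
  · obtain ⟨m, hm⟩ : ∃ m : ℕ, ‖ι ((g ^ m) ^ p * x0)‖ < ρ := by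
      have h1 : Filter.Tendsto (fun m : ℕ => ‖ι ((g ^ m) ^ p * x0)‖) Filter.atTop
          (nhds 0) := by
        have h2 : Filter.Tendsto (fun m : ℕ => (‖ι g‖ ^ p) ^ m * ‖ι x0‖) Filter.atTop
            (nhds (0 * ‖ι x0‖)) :=
          (tendsto_pow_atTop_nhds_zero_of_lt_one (by positivity)
            (pow_lt_one₀ hg0.le hg1 hp)).mul_const _
        rw [zero_mul] at h2
        refine h2.congr fun m => ?_
        rw [map_mul, map_pow, map_pow, norm_mul, norm_pow, norm_pow, ← pow_mul, ← pow_mul,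
          mul_comm m p]
      exact (h1.eventually_lt_const hρ).exists
    refine ⟨t1 + (g ^ m) ^ p * x0, ?_, key _ ?_⟩
    · rw [map_add, show ι t1 + ι ((g ^ m) ^ p * x0) - t0 = (ι t1 - t0) + ι ((g ^ m) ^ p * x0) by
        ring]
      exact (Big.add_le k _ _).trans (max_le ht1 hm.le)
    · rw [map_add, h1, zero_add, eu_pow p]
      exact mul_ne_zero (pow_ne_zero _ (pow_ne_zero _ hgne)) hD0x
  · exact ⟨t1, ht1, key t1 h1⟩

end LUW
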