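import Mathlib

/-! Project LUW: (W5) coordinates by conjugates. -/

set_option autoImplicit false

namespace LUW

open Classical in
/-- A relation `∑ c_j σ(ω_j) = 0` for all automorphisms is trivial. -/
private theorem gal_coord_aux {k ks : Type*} [Field k] [Field ks] [Algebra k ks] [IsGalois k ks]
    {m : ℕ} (ω : Fin m → ks) (hω : LinearIndependent k ω) :
    ∀ (n : ℕ) (c : Fin m → ks), (Finset.univ.filter fun j => c j ≠ 0).card ≤ n →
      (∀ σ : ks ≃ₐ[k] ks, ∑ j, c j * σ (ω j) = 0) → c = 0 := by
  intro n
  induction n with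
  | zero =>
    intro c hc _
    funext j
    by_contra hj
    have : j ∈ (Finset.univ.filter fun j => c j ≠ 0) := by simpa using hj
    have h0 := Finset.card_pos.mpr ⟨j, this⟩
    omega
  | succ n ih =>
    intro c hc hrel
    by_contra hne
    obtain ⟨j0, hj0⟩ : ∃ j, c j ≠ 0 := by
      by_contra hcon
      push Not at hcon
      exact hne (funext hcon)
    -- normalise
    obtain ⟨b, hb⟩ : ∃ b : Fin m → ks, ∀ j, b j = (c j0)⁻¹ * c j := ⟨_, fun _ => rfl⟩
    have hbrel : ∀ σ : ks ≃ₐ[k] ks, ∑ j, b j * σ (ω j) = 0 := by
      intro σ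
      have h1 : ∑ j, b j * σ (ω j) = (c j0)⁻¹ * ∑ j, c j * σ (ω j) := by
        rw [Finset.mul_sum]
        refine Finset.sum_congr rfl fun j _ => ?_
        rw [hb j]
        ring
      rw [h1, hrel σ, mul_zero]
    have hb0 : b j0 = 1 := by rw [hb j0]; exact inv_mul_cancel₀ hj0
    have hfix : ∀ τ : ks ≃ₐ[k] ks, ∀ j, τ (b j) = b j := by
      intro τ
      have hd : (fun j => b j - τ (b j)) = 0 := by
        refine ih (fun j => b j - τ (b j)) ?_ ?_
        · have hsub : (Finset.univ.filter fun j => b j - τ (b j) ≠ 0) ⊂
              (Finset.univ.filter fun j => c j ≠ 0) := by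
            refine Finset.ssubset_iff_subset_ne.mpr ⟨?_, ?_⟩
            · intro j hj
              simp only [Finset.mem_filter, Finset.mem_univ, true_and] at hj ⊢
              intro h0
              apply hj
              rw [hb j, h0, mul_zero, map_zero, sub_self]
            · intro heq
              have : j0 ∈ (Finset.univ.filter fun j => b j - τ (b j) ≠ 0) := by
                rw [heq]
                simpa using hj0
              simp only [Finset.mem_filter, Finset.mem_univ, true_and] at this
              apply this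
              rw [hb0, map_one, sub_self]
          have := Finset.card_lt_card hsub
          omega
        · intro σ
          have h1 : ∑ j, τ (b j) * σ (ω j) = 0 := by
            have h2 := congrArg τ (hbrel (τ⁻¹ * σ))
            rw [map_sum, map_zero] at h2
            rw [← h2]
            refine Finset.sum_congr rfl fun j _ => ?_
            have h5 : τ ((τ⁻¹ * σ) (ω j)) = σ (ω j) := by
              rw [← AlgEquiv.mul_apply, mul_inv_cancel_left]
            rw [map_mul, h5]
          have h3 : ∑ j, (b j - τ (b j)) * σ (ω j) =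
              ∑ j, b j * σ (ω j) - ∑ j, τ (b j) * σ (ω j) := by
            rw [← Finset.sum_sub_distrib]
            refine Finset.sum_congr rfl fun j _ => ?_
            ring
          rw [h3, h1, hbrel σ, sub_zero]
      intro j
      have := congrFun hd j
      simp only [Pi.zero_apply] at this
      exact (sub_eq_zero.mp this).symm
    have hmem : ∀ j, ∃ a : k, algebraMap k ks a = b j := by
      intro j
      exact (InfiniteGalois.mem_range_algebraMap_iff_fixed (k := k) (b j)).mpr
        fun τ => hfix τ j
    choose a ha using hmem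
    have hlin : ∑ j, a j • ω j = 0 := by
      have h1 := hbrel 1
      rw [← h1]
      refine Finset.sum_congr rfl fun j _ => ?_
      rw [Algebra.smul_def, ha j]
      rfl
    have hz := (Fintype.linearIndependent_iff.mp hω) a hlin j0
    have := ha j0
    rw [hz, map_zero, hb0] at this
    exact zero_ne_one this

/-- Linearly independent elements of a Galois extension are separated by finitely many
automorphisms: there are `σ_a ∈ Gal(ks/k)` and `c_(i,a) ∈ ks` with
`∑_a c_(i,a) σ_a(ω_j) = δ_ij`. Proof: the vectors `(σ ω_1, ..., σ ω_m)`, `σ ∈ Gal(ks/k)`, span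
`ks^m` over `ks` (otherwise there is a nontrivial relation `∑ c_j σ(ω_j) = 0` for all `σ`; take one
with the minimal number of nonzero `c_j`, one of them equal to `1`; applying automorphisms all `c_j`
are fixed by the group, so in `k`: contradiction at `σ = 1`), or use the trace form of a finite
Galois subextension containing the `ω_j`. -/
theorem gal_coord {k ks : Type*} [Field k] [Field ks] [Algebra k ks] [IsGalois k ks] {m : ℕ}
    (ω : Fin m → ks) (hω : LinearIndependent k ω) :
    ∃ (N : ℕ) (σ : Fin N → (ks ≃ₐ[k] ks)) (c : Fin m → Fin N → ks),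
      ∀ i j, ∑ a, c i a * σ a (ω j) = if i = j then 1 else 0 := by
  classical
  set v : (ks ≃ₐ[k] ks) → (Fin m → ks) := fun σ j => σ (ω j) with hv
  have htop : Submodule.span ks (Set.range v) = ⊤ := by
    by_contra hne
    obtain ⟨f, hf0, hf⟩ := Submodule.exists_le_ker_of_lt_top _ (lt_top_iff_ne_top.mpr hne)
    apply hf0
    have hsum : ∀ x : Fin m → ks, f x = ∑ j, x j * f (Pi.single j 1) := by
      intro x
      conv_lhs => rw [pi_eq_sum_univ' x]
      rw [map_sum]
      refine Finset.sum_congr rfl fun j _ => ?_
      rw [map_smul, smul_eq_mul]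
    have hc : (fun j => f (Pi.single j 1)) = (0 : Fin m → ks) := by
      refine gal_coord_aux ω hω _ _ le_rfl ?_
      intro σ
      have h1 : f (v σ) = 0 := hf (Submodule.subset_span ⟨σ, rfl⟩)
      rw [← h1, hsum (v σ)]
      refine Finset.sum_congr rfl fun j _ => ?_
      rw [mul_comm]
    refine LinearMap.ext fun x => ?_
    rw [hsum x, LinearMap.zero_apply]
    refine Finset.sum_eq_zero fun j _ => ?_
    have := congrFun hc j
    simp only [Pi.zero_apply] at this
    rw [this, mul_zero]
  have hex : ∀ i : Fin m, ∃ l : (ks ≃ₐ[k] ks) →₀ ks, (l.sum fun σ a => a • v σ) = Pi.single i 1 := by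
    intro i
    have : (Pi.single i 1 : Fin m → ks) ∈ Submodule.span ks (Set.range v) := by
      rw [htop]; trivial
    exact (Finsupp.mem_span_range_iff_exists_finsupp).mp this
  choose l hl using hex
  let T : Finset (ks ≃ₐ[k] ks) := Finset.univ.biUnion fun i => (l i).support
  refine ⟨T.card, fun a => (T.equivFin.symm a : ks ≃ₐ[k] ks),
    fun i a => l i (T.equivFin.symm a : ks ≃ₐ[k] ks), fun i j => ?_⟩
  have h1 : ∑ a : Fin T.card, l i (T.equivFin.symm a : ks ≃ₐ[k] ks) *
      (T.equivFin.symm a : ks ≃ₐ[k] ks) (ω j) = ∑ s : T, l i s.1 * s.1 (ω j) :=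
    Equiv.sum_comp T.equivFin.symm (fun s : T => l i s.1 * s.1 (ω j))
  have h2 : ∑ s : T, l i s.1 * s.1 (ω j) = ∑ s ∈ T, l i s * s (ω j) :=
    Finset.sum_coe_sort T (fun s => l i s * s (ω j))
  have h3 : ∑ s ∈ T, l i s * s (ω j) = ∑ s ∈ (l i).support, l i s * s (ω j) := by
    symm
    refine Finset.sum_subset ?_ ?_
    · intro s hs
      exact Finset.mem_biUnion.mpr ⟨i, Finset.mem_univ _, hs⟩
    · intro s _ hs
      rw [Finsupp.notMem_support_iff.mp hs, zero_mul]
  have h4 := congrFun (hl i) j
  rw [Finsupp.sum, Finset.sum_apply] at h4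
  rw [h1, h2, h3]
  have h5 : ∑ s ∈ (l i).support, l i s * s (ω j) =
      ∑ c ∈ (l i).support, ((l i) c • v c) j := by
    refine Finset.sum_congr rfl fun s _ => ?_
    rw [Pi.smul_apply, smul_eq_mul]
  rw [h5, h4, Pi.single_apply]
  simp only [eq_comm]

end LUW
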