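import Pool.Agent.LUW.AutoCl
import Pool.Agent.LUW.GalCoord
import Pool.Agent.LUW.TwoGen
import Pool.Agent.LUW.Perturb

/-! Project LUW: (W6) Galois descent of the generator. -/

set_option autoImplicit false

namespace LUW

variable {k ks K : Type*} [Field k] [Field ks] [Algebra k ks] [Field K] [Algebra k K]
  {Ω : Type*} [NormedField Ω] [Algebra k Ω] [Algebra ks Ω] [IsScalarTower k ks Ω] {r : ℕ}

/-- Galois descent: if the closure `L'` of the compositum has one generator `t'` in the compositum,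
not in `F' = clF ks u`, then one in `K`. Proof: `t' = ∑ ω_j ι(t_j)` (`mem_span` with `E = ⊤`, `ω_j`
independent), `gal_coord`: `ι(t_j) = ∑_a c_(j,a) τ_a(t')`, `τ_a` extending `σ_a` (`exists_ext`).
`t'` and `τ_a t'` are generators with the same radius `ρ` (`IsExt.gen`, `IsExt.lim`, `lim_cau`,
`Lim.unique`), so by `two_gen` `τ_a t' = b_a + q_a t' + (norm ≤ ρ)`, `b_a, q_a ∈ F'`, `‖q_a‖ ≤ 1`;
hence `ι(t_j) = b'_j + q'_j t' + (norm ≤ ρ)`, `‖q'_j‖ ≤ 1`; `(1 - ∑ ω_j q'_j) t' ∈ F' + (norm ≤ ρ)`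
and `ρ < ‖t' - b‖` for all `b ∈ F'` (`Lim.lt`) gives `‖1 - ∑ ω_j q'_j‖ < 1`, so `‖q'_j‖ = 1` for
some `j`, and `perturb` gives `t' ∈ clT u (ι t_j)`. -/
theorem gal_desc [Big ks Ω] [IsGalois k ks] {ι : K →ₐ[k] Ω} (hres : ResK ι)
    (u : Fin r → K) (hu : Base fun i => ι (u i))
    (hI : Imm (k := ks) (fun i => ι (u i)) (cl ks (Set.range ι))) (t' : Ω)
    (ht' : t' ∈ Comp ks ι) (htF : t' ∉ clF ks fun i => ι (u i))
    (hg : cl ks (Set.range ι) = clT ks (fun i => ι (u i)) t') :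
    ∃ t : K, cl ks (Set.range ι) = clT ks (fun i => ι (u i)) (ι t) := by
  classical
  set v : Fin r → Ω := fun i => ι (u i) with hv
  set F' : IntermediateField ks Ω := clF ks v with hF'def
  set L' : IntermediateField ks Ω := cl ks (Set.range ι) with hL'def
  have hF' : IsClosed (F' : Set Ω) := cl_closed _
  have hL' : IsClosed (L' : Set Ω) := cl_closed _
  have hCL : ∀ w : Comp ks ι, (w : Ω) ∈ L' := fun w => adjoin_le_cl _ w.2
  have hιL : ∀ y : K, ι y ∈ L' := fun y => subset_cl _ ⟨y, rfl⟩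
  have hvL : ∀ i, v i ∈ L' := fun i => hιL (u i)
  obtain ⟨ρ, hLt, hCt⟩ := lim_cau hu hvL hI (hCL ⟨t', ht'⟩) htF
  -- coordinates
  obtain ⟨m, ω, y, hω, -, hty⟩ := mem_span (ks := ks) ι ⊤ (w := t') (by
    have : ι '' ((⊤ : IntermediateField k K) : Set K) = Set.range ι := by
      rw [IntermediateField.coe_top, Set.image_univ]
    rw [this]; exact ht')
  obtain ⟨N, σ, c, hc⟩ := gal_coord ω hω
  choose τ hτ using fun a => exists_ext (ks := ks) hres (σ a)
  set T : Comp ks ι := ⟨t', ht'⟩ with hT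
  have hTy : T = ∑ j, algebraMap ks (Comp ks ι) (ω j) * ⟨ι (y j), mem_comp ι (y j)⟩ := by
    apply Subtype.ext
    rw [hT, AddSubmonoidClass.coe_finsetSum]
    exact hty
  have hs : ∀ a, ((τ a T : Comp ks ι) : Ω) = ∑ j, algebraMap ks Ω (σ a (ω j)) * ι (y j) := by
    intro a
    rw [hTy, map_sum, AddSubmonoidClass.coe_finsetSum]
    refine Finset.sum_congr rfl fun j _ => ?_
    rw [map_mul, (hτ a).onks, (hτ a).onK]
    rfl
  have hinv : ∀ i, ι (y i) = ∑ a, algebraMap ks Ω (c i a) * ((τ a T : Comp ks ι) : Ω) := by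
    intro i
    simp only [hs, Finset.mul_sum]
    rw [Finset.sum_comm]
    have h1 : ∀ j, ∑ a, algebraMap ks Ω (c i a) * (algebraMap ks Ω (σ a (ω j)) * ι (y j)) =
        algebraMap ks Ω (if i = j then 1 else 0) * ι (y j) := by
      intro j
      rw [← hc i j, map_sum, Finset.sum_mul]
      exact Finset.sum_congr rfl fun a _ => by rw [map_mul]; ring
    simp only [h1]
    rw [Finset.sum_eq_single i]
    · simp
    · intro j _ hj
      rw [if_neg (Ne.symm hj)]
      simp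
    · intro h
      exact absurd (Finset.mem_univ i) h
  -- the conjugates
  have hgen' : ∀ a, L' = clT ks v ((τ a T : Comp ks ι) : Ω) := fun a => (hτ a).gen u T hg
  have hLs : ∀ a, Lim F' ((τ a T : Comp ks ι) : Ω) ρ := fun a => (hτ a).lim u T hLt
  have hCs : ∀ a, Cau F' ((τ a T : Comp ks ι) : Ω) ρ := by
    intro a
    have hn : ((τ a T : Comp ks ι) : Ω) ∉ F' := fun h => by
      have := (hLs a).lt _ h
      rw [sub_self, norm_zero] at this
      exact lt_asymm this (hLs a).pos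
    obtain ⟨ρ', h1, h2⟩ := lim_cau hu hvL hI (hCL (τ a T)) hn
    rwa [Lim.unique (hLs a) h1]
  have htwo : ∀ a, ∃ b ∈ F', ∃ q ∈ F', ‖q‖ ≤ 1 ∧
      ‖((τ a T : Comp ks ι) : Ω) - (b + q * t')‖ ≤ ρ := by
    intro a
    refine two_gen hF' (hLs a) (hCs a) hLt hCt ?_ ?_
    · rw [hF'def, clT_eq, ← hg]; exact hCL _
    · rw [hF'def, clT_eq, ← hgen' a]; exact hCL T
  choose b hb q hq hq1 hbq using htwo
  set B : Fin m → Ω := fun i => ∑ a, algebraMap ks Ω (c i a) * b a with hB
  set Q : Fin m → Ω := fun i => ∑ a, algebraMap ks Ω (c i a) * q a with hQ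
  have hBF : ∀ i, B i ∈ F' := fun i =>
    sum_mem fun a _ => mul_mem (F'.algebraMap_mem _) (hb a)
  have hQF : ∀ i, Q i ∈ F' := fun i =>
    sum_mem fun a _ => mul_mem (F'.algebraMap_mem _) (hq a)
  have hmain : ∀ i, ‖ι (y i) - (B i + Q i * t')‖ ≤ ρ := by
    intro i
    have h1 : ι (y i) - (B i + Q i * t') =
        ∑ a, algebraMap ks Ω (c i a) * (((τ a T : Comp ks ι) : Ω) - (b a + q a * t')) := by
      rw [hinv i, hB, hQ]
      simp only
      rw [Finset.sum_mul, ← Finset.sum_add_distrib, ← Finset.sum_sub_distrib]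
      exact Finset.sum_congr rfl fun a _ => by ring
    rw [h1]
    refine Big.sum_le ks _ _ hLt.pos.le fun a _ => ?_
    rw [norm_mul]
    calc _ ≤ 1 * ρ := mul_le_mul (Big.norm_c_le ks _) (hbq a) (norm_nonneg _) zero_le_one
      _ = ρ := one_mul ρ
  set B' : Ω := ∑ i, algebraMap ks Ω (ω i) * B i with hB'
  set Q' : Ω := ∑ i, algebraMap ks Ω (ω i) * Q i with hQ'
  have hB'F : B' ∈ F' := sum_mem fun i _ => mul_mem (F'.algebraMap_mem _) (hBF i)
  have hQ'F : Q' ∈ F' := sum_mem fun i _ => mul_mem (F'.algebraMap_mem _) (hQF i)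
  have hsum : ‖t' - (B' + Q' * t')‖ ≤ ρ := by
    have h1 : t' - (B' + Q' * t') =
        ∑ i, algebraMap ks Ω (ω i) * (ι (y i) - (B i + Q i * t')) := by
      have h2 : ∑ i, algebraMap ks Ω (ω i) * (ι (y i) - (B i + Q i * t')) =
          (∑ i, algebraMap ks Ω (ω i) * ι (y i)) - (B' + Q' * t') := by
        rw [hB', hQ', Finset.sum_mul, ← Finset.sum_add_distrib, ← Finset.sum_sub_distrib]
        exact Finset.sum_congr rfl fun i _ => by ring
      rw [h2, ← hty]
    rw [h1]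
    refine Big.sum_le ks _ _ hLt.pos.le fun i _ => ?_
    rw [norm_mul]
    calc _ ≤ 1 * ρ := mul_le_mul (Big.norm_c_le ks _) (hmain i) (norm_nonneg _) zero_le_one
      _ = ρ := one_mul ρ
  have hq' : ‖1 - Q'‖ < 1 := by
    by_contra hcon
    rw [not_lt] at hcon
    have hne : (1 - Q') ≠ 0 := fun h => by
      rw [h, norm_zero] at hcon
      exact absurd hcon (not_le.2 zero_lt_one)
    have hmem : B' / (1 - Q') ∈ F' := div_mem hB'F (sub_mem (one_mem _) hQ'F)
    have h1 := hLt.lt _ hmem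
    have h2 : t' - (B' + Q' * t') = (1 - Q') * (t' - B' / (1 - Q')) := by
      field_simp
      ring
    rw [h2, norm_mul] at hsum
    have h3 : ‖t' - B' / (1 - Q')‖ ≤ ‖1 - Q'‖ * ‖t' - B' / (1 - Q')‖ :=
      le_mul_of_one_le_left (norm_nonneg _) hcon
    exact absurd (h1.trans_le (h3.trans hsum)) (lt_irrefl _)
  obtain ⟨i, hi⟩ : ∃ i, 1 ≤ ‖Q i‖ := by
    by_contra hcon
    push Not at hcon
    have hlt : ‖Q'‖ < 1 := by
      rcases isEmpty_or_nonempty (Fin m) with he | hne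
      · rw [hQ', Finset.univ_eq_empty, Finset.sum_empty, norm_zero]
        exact zero_lt_one
      · have : IsUltrametricDist Ω := Big.ultra ks
        obtain ⟨i, -, h⟩ := IsUltrametricDist.exists_norm_finsetSum_le_of_nonempty
          (Finset.univ_nonempty (α := Fin m)) fun i => algebraMap ks Ω (ω i) * Q i
        refine h.trans_lt (lt_of_le_of_lt ?_ (hcon i))
        rw [norm_mul]
        exact mul_le_of_le_one_left (norm_nonneg _) (Big.norm_c_le ks _)
    have h1 : ‖(1 : Ω)‖ ≤ max ‖1 - Q'‖ ‖Q'‖ := by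
      have := Big.add_le ks (1 - Q') Q'
      rwa [sub_add_cancel] at this
    rw [norm_one] at h1
    exact absurd h1 (not_le.2 (max_lt hq' hlt))
  have hQi : Q i ≠ 0 := fun h => by
    rw [h, norm_zero] at hi
    exact absurd hi (not_le.2 zero_lt_one)
  have hper : t' ∈ cl ks (insert (ι (y i)) (F' : Set Ω)) := by
    refine perturb hF' hLt hCt (y := ι (y i)) (b := -((Q i)⁻¹ * B i)) (q := (Q i)⁻¹)
      (by rw [hF'def, clT_eq, ← hg]; exact hιL _) (neg_mem (mul_mem (inv_mem (hQF i)) (hBF i)))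
      (inv_mem (hQF i)) ?_
    have h1 : t' - (-((Q i)⁻¹ * B i) + (Q i)⁻¹ * ι (y i)) =
        -((Q i)⁻¹ * (ι (y i) - (B i + Q i * t'))) := by
      field_simp
      ring
    rw [h1, norm_neg, norm_mul, norm_inv]
    calc _ ≤ 1 * ρ := mul_le_mul (inv_le_one_of_one_le₀ hi) (hmain i) (norm_nonneg _) zero_le_one
      _ = ρ := one_mul ρ
  refine ⟨y i, le_antisymm ?_ ?_⟩
  · rw [hg]
    refine clT_le (cl_closed _) (fun j => clF_le_clT _ _ (u_mem_clF _ j)) ?_
    rw [hF'def, clT_eq] at hper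
    exact hper
  · exact clT_le hL' hvL (hιL _)

end LUW
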