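import Pool.Agent.LUW.NSum
import Pool.Agent.LUW.Span

/-! Project LUW: (W8) the closure of the compositum is immediate; density descends. -/

set_option autoImplicit false

namespace LUW

variable {k ks K : Type*} [Field k] [Field ks] [Algebra k ks] [Field K] [Algebra k K]
  {Ω : Type*} [NormedField Ω] [Algebra k Ω] [Algebra ks Ω] [IsScalarTower k ks Ω] {r : ℕ}

/-- Constants from `k` have norm one. -/
theorem ImmCl_norm_k [Big ks Ω] {c : k} (hc : c ≠ 0) : ‖algebraMap k Ω c‖ = 1 := by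
  rw [IsScalarTower.algebraMap_apply k ks Ω]
  exact Big.norm_k _ ((map_ne_zero (algebraMap k ks)).2 hc)

theorem ImmCl_mon (ι : K →ₐ[k] Ω) (u : Fin r → K) (g : G r) :
    mon (fun i => ι (u i)) g = ι (∏ i, u i ^ g i) := by
  rw [mon, map_prod]
  exact Finset.prod_congr rfl fun i _ => (map_zpow₀ ι (u i) (g i)).symm

/-- The closure of the compositum of `ks` and `K` is immediate over `u` (over the field `ks`).
Proof: approximate by `w = ∑ ω_i y_i` (`mem_span` with `E = ⊤`), `lead_sum`, and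
`y_i0 = d' u^g + small`, `d' ∈ k` by `hres`. -/
theorem imm_cl [Big ks Ω] [Algebra.IsAlgebraic k ks] {ι : K →ₐ[k] Ω} (hres : ResK ι)
    (u : Fin r → K) (hu : Base fun i => ι (u i))
    (hI : ∀ y : K, y ≠ 0 → ∃ g : G r, ‖ι y‖ = ‖mon (fun i => ι (u i)) g‖) :
    Imm (k := ks) (fun i => ι (u i)) (cl ks (Set.range ι)) := by
  intro y hy hy0
  have hyn : 0 < ‖y‖ := norm_pos_iff.2 hy0
  obtain ⟨z, hz, hyz⟩ := (mem_cl_iff.1 hy) ‖y‖ hyn
  have hzn : ‖z‖ = ‖y‖ := Big.norm_eq ks (by rw [norm_sub_rev]; exact hyz)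
  have hz0 : z ≠ 0 := by
    rintro rfl
    rw [norm_zero] at hzn
    exact hyn.ne hzn
  have hz' : z ∈ IntermediateField.adjoin ks (ι '' ((⊤ : IntermediateField k K) : Set K)) := by
    have e : ι '' ((⊤ : IntermediateField k K) : Set K) = Set.range ι := by
      rw [IntermediateField.coe_top, Set.image_univ]
    rw [e]
    exact hz
  obtain ⟨m, ω, v, hω, -, hsum⟩ := mem_span ι ⊤ hz'
  have hm : (Finset.univ : Finset (Fin m)).Nonempty := by
    rw [Finset.nonempty_iff_ne_empty]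
    intro he
    apply hz0
    rw [hsum, he, Finset.sum_empty]
  obtain ⟨i0, -, hmax⟩ := Finset.exists_max_image Finset.univ (fun i => ‖ι (v i)‖) hm
  have hv0 : v i0 ≠ 0 := by
    intro h0
    apply hz0
    rw [hsum]
    refine Finset.sum_eq_zero fun i _ => ?_
    have h1 := hmax i (Finset.mem_univ i)
    rw [h0, map_zero, norm_zero] at h1
    rw [norm_le_zero_iff.1 h1, mul_zero]
  obtain ⟨d, hd0, hd⟩ := lead_sum hres ω hω v i0 hv0 fun i => hmax i (Finset.mem_univ i)
  rw [← hsum] at hd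
  have hdn : ‖algebraMap ks Ω d‖ = 1 := Big.norm_k _ hd0
  have h2 : ‖algebraMap ks Ω d * ι (v i0)‖ = ‖ι (v i0)‖ := by rw [norm_mul, hdn, one_mul]
  have h3 : ‖z‖ = ‖ι (v i0)‖ := by
    rw [← h2]
    exact Big.norm_eq ks (by rw [h2]; exact hd)
  obtain ⟨g, hg⟩ := hI (v i0) hv0
  have hM0 : mon (fun i => ι (u i)) g ≠ 0 := mon_ne hu.ne g
  have hMn : 0 < ‖mon (fun i => ι (u i)) g‖ := norm_pos_iff.2 hM0
  have hx : ι (v i0 / ∏ i, u i ^ g i) = ι (v i0) / mon (fun i => ι (u i)) g := by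
    rw [map_div₀, ImmCl_mon]
  obtain ⟨c, hc⟩ := hres (v i0 / ∏ i, u i ^ g i) (by
    rw [hx, norm_div, hg, div_self hMn.ne'])
  rw [hx] at hc
  have h4 : ‖ι (v i0) - algebraMap k Ω c * mon (fun i => ι (u i)) g‖ <
      ‖mon (fun i => ι (u i)) g‖ := by
    have e : ι (v i0) - algebraMap k Ω c * mon (fun i => ι (u i)) g =
        (ι (v i0) / mon (fun i => ι (u i)) g - algebraMap k Ω c) * mon (fun i => ι (u i)) g := by
      rw [sub_mul, div_mul_cancel₀ _ hM0]
    rw [e, norm_mul]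
    exact mul_lt_of_lt_one_left hMn hc
  refine ⟨g, d * algebraMap k ks c, ?_⟩
  have e2 : y - algebraMap ks Ω (d * algebraMap k ks c) * mon (fun i => ι (u i)) g =
      (y - z) + ((z - algebraMap ks Ω d * ι (v i0)) +
        algebraMap ks Ω d * (ι (v i0) - algebraMap k Ω c * mon (fun i => ι (u i)) g)) := by
    rw [map_mul, ← IsScalarTower.algebraMap_apply k ks Ω]
    ring
  rw [e2]
  refine (Big.add_le ks _ _).trans_lt (max_lt hyz ((Big.add_le ks _ _).trans_lt (max_lt ?_ ?_)))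
  · rw [← hzn, h3]
    exact hd
  · rw [norm_mul, hdn, one_mul, ← hzn, h3, hg]
    exact h4

/-- Density descends from `ks` to `k`. Proof: `w ∈ ks(E)`, `‖ι y - w‖ < ε`, `w = ∑ ω_i y_i`,
independent. If `1` is not in the span of the `ω_i`, then `1, ω_1, ...` are independent and
`‖ι y‖ < ε` (`norm_le_sum`). If `1 = ∑ c_i ω_i`, then `‖ι (c_i y - y_i)‖ < ε` for all `i`; divide by
some `c_i ≠ 0`. -/
theorem dense_desc [Big ks Ω] [Algebra.IsAlgebraic k ks] {ι : K →ₐ[k] Ω} (hres : ResK ι)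
    (E : IntermediateField k K) (y : K) (h : ι y ∈ cl ks (ι '' (E : Set K))) {ε : ℝ}
    (hε : 0 < ε) : ∃ e ∈ E, ‖ι y - ι e‖ < ε := by
  obtain ⟨w, hw, hyw⟩ := (mem_cl_iff.1 h) ε hε
  obtain ⟨m, ω, v, hω, hv, hsum⟩ := mem_span ι E hw
  by_cases h1 : (1 : ks) ∈ Submodule.span k (Set.range ω)
  · obtain ⟨c, hc⟩ := (Submodule.mem_span_range_iff_exists_fun k).1 h1
    have hci : ∃ i, c i ≠ 0 := by
      by_contra hcon
      push Not at hcon
      have : (0 : ks) = 1 := by
        rw [← hc]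
        exact (Finset.sum_eq_zero fun i _ => by rw [hcon i, zero_smul]).symm
      exact zero_ne_one this
    obtain ⟨i, hi⟩ := hci
    have e1 : ∑ j, algebraMap ks Ω (ω j) * ι (algebraMap k K (c j) * y - v j) = ι y - w := by
      have e2 : (∑ j, algebraMap ks Ω (ω j) * algebraMap k Ω (c j)) = 1 := by
        rw [← map_one (algebraMap ks Ω), ← hc, map_sum]
        refine Finset.sum_congr rfl fun j _ => ?_
        rw [Algebra.smul_def, map_mul, ← IsScalarTower.algebraMap_apply k ks Ω, mul_comm]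
      calc ∑ j, algebraMap ks Ω (ω j) * ι (algebraMap k K (c j) * y - v j)
          = ∑ j, (algebraMap ks Ω (ω j) * algebraMap k Ω (c j) * ι y -
              algebraMap ks Ω (ω j) * ι (v j)) := by
            refine Finset.sum_congr rfl fun j _ => ?_
            rw [map_sub, map_mul, AlgHom.commutes]
            ring
        _ = ι y - w := by
            rw [Finset.sum_sub_distrib, ← Finset.sum_mul, e2, one_mul, ← hsum]
    have h2 := norm_le_sum hres ω hω (fun j => algebraMap k K (c j) * y - v j) i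
    rw [e1] at h2
    have hcn : ‖algebraMap k Ω (c i)‖ = 1 := ImmCl_norm_k (ks := ks) hi
    have hc0 : algebraMap k Ω (c i) ≠ 0 := (map_ne_zero _).2 hi
    refine ⟨algebraMap k K (c i)⁻¹ * v i, E.mul_mem (E.algebraMap_mem _) (hv i), ?_⟩
    have e3 : ι (algebraMap k K (c i) * y - v i) =
        algebraMap k Ω (c i) * (ι y - ι (algebraMap k K (c i)⁻¹ * v i)) := by
      rw [map_sub, map_mul, map_mul, AlgHom.commutes, AlgHom.commutes, map_inv₀, mul_sub,
        mul_inv_cancel_left₀ hc0]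
    simp only [e3, norm_mul, hcn, one_mul] at h2
    exact h2.trans_lt hyw
  · have h2 : LinearIndependent k (Fin.cons 1 ω : Fin (m + 1) → ks) :=
      linearIndependent_finCons.2 ⟨hω, h1⟩
    have h3 := norm_le_sum hres (Fin.cons 1 ω : Fin (m + 1) → ks) h2
      (Fin.cons y (fun j => -v j) : Fin (m + 1) → K) 0
    rw [Fin.sum_univ_succ] at h3
    simp only [Fin.cons_zero, Fin.cons_succ, map_one, one_mul, map_neg, mul_neg,
      Finset.sum_neg_distrib, ← sub_eq_add_neg] at h3
    rw [← hsum] at h3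
    refine ⟨0, E.zero_mem, ?_⟩
    rw [map_zero, sub_zero]
    exact h3.trans_lt hyw

end LUW
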