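import Pool.Agent.LUW.Core
import Pool.Agent.LUW.ExistsU
import Pool.Agent.LUW.ImmCl
import Pool.Agent.LUW.GalDesc

/-! Project LUW: (W10) the generator inside K, arbitrary constants. -/

set_option autoImplicit false

namespace LUW

open Polynomial

universe u

variable {k K ks : Type u} [Field k] [Field K] [Algebra k K] [Field ks] [Algebra k ks]
  {Ω : Type*} [NormedField Ω] [Algebra k Ω] [Algebra ks Ω] [IsScalarTower k ks Ω] {r : ℕ}

/-- `Ω` is big over smaller fields of constants. -/
theorem big_of_tower (k ks : Type*) {Ω : Type*} [Field k] [Field ks] [Algebra k ks]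
    [NormedField Ω] [Algebra k Ω] [Algebra ks Ω] [IsScalarTower k ks Ω] [Big ks Ω] : Big k Ω where
  ultra := Big.ultra ks
  complete := Big.complete ks
  closed := Big.closed ks
  norm_k c hc := by
    rw [IsScalarTower.algebraMap_apply k ks Ω]
    exact Big.norm_k _ ((_root_.map_ne_zero _).2 hc)

variable [Algebra.EssFiniteType k K]

/-- `K` is finite over a subfield over which it is algebraic. -/
private theorem GenS_fd (E : IntermediateField k K) (h : Algebra.IsAlgebraic E K) :
    FiniteDimensional E K := by
  have : Algebra.EssFiniteType E K := Algebra.EssFiniteType.of_comp k E K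
  obtain ⟨S, hS⟩ := IntermediateField.fg_top E K
  have : FiniteDimensional E (IntermediateField.adjoin E (S : Set K)) :=
    IntermediateField.finiteDimensional_adjoin fun x _ =>
      (Algebra.IsAlgebraic.isAlgebraic (R := E) x).isIntegral
  rw [hS] at this
  exact (IntermediateField.topEquiv (F := E) (E := K)).toLinearEquiv.finiteDimensional

omit [Algebra.EssFiniteType k K] in
/-- The image of `k(S)` lies in `ks(ι S)`. -/
private theorem GenS_map (ι : K →ₐ[k] Ω) (S : Set K) {x : K}
    (hx : x ∈ IntermediateField.adjoin k S) : ι x ∈ IntermediateField.adjoin ks (ι '' S) := by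
  have h : IntermediateField.adjoin k S ≤
      ((IntermediateField.adjoin ks (ι '' S)).restrictScalars k).comap ι := by
    rw [IntermediateField.adjoin_le_iff]
    intro s hs
    exact IntermediateField.subset_adjoin ks _ ⟨s, hs, rfl⟩
  exact h hx

/-- The generator inside `K`. -/
theorem exists_gen_s [IsGalois k ks] [IsSepClosed ks] [Big ks Ω] (hsg : SG k K) (p : ℕ)
    [Fact p.Prime] [CharP k p] (hR : ResP ks (Ω := Ω) p) (ι : K →ₐ[k] Ω) (hres : ResK ι)
    (hr : 0 < r) (hn : Algebra.trdeg k K = (r + 1 : ℕ)) (u : Fin r → K)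
    (hu : Base fun i => ι (u i))
    (hI : ∀ y : K, y ≠ 0 → ∃ g : G r, ‖ι y‖ = ‖mon (fun i => ι (u i)) g‖) (x0 : K)
    (hsep : Algebra.IsSeparable (IntermediateField.adjoin k (insert x0 (Set.range u))) K) :
    ∃ t : K, Algebra.IsSeparable (IntermediateField.adjoin k (insert t (Set.range u))) K ∧
      ∀ (y : K) (ε : ℝ), 0 < ε →
        ∃ e ∈ IntermediateField.adjoin k (insert t (Set.range u)), ‖ι y - ι e‖ < ε := by
  classical
  have hcks : CharP ks p := charP_of_injective_algebraMap (algebraMap k ks).injective p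
  have hBk : Big k Ω := big_of_tower k ks
  set v : Fin r → Ω := fun i => ι (u i) with hv
  set E : IntermediateField k K := IntermediateField.adjoin k (insert x0 (Set.range u)) with hE
  have hfd : FiniteDimensional E K := GenS_fd E inferInstance
  obtain ⟨y, hy⟩ := Field.exists_primitive_element E K
  set L : IntermediateField ks Ω := cl ks (Set.range ι) with hL
  set M : IntermediateField ks Ω := clT ks v (ι x0) with hM
  have hLc : IsClosed (L : Set Ω) := cl_closed _
  have hιL : ∀ w : K, ι w ∈ L := fun w => subset_cl _ ⟨w, rfl⟩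
  have hMc : IsClosed (M : Set Ω) := cl_closed _
  have himg : ∀ t : K, ι '' (insert t (Set.range u)) = insert (ι t) (Set.range v) := by
    intro t
    rw [Set.image_insert_eq, ← Set.range_comp]
    rfl
  have hEM : ∀ e : K, e ∈ E → ι e ∈ M := by
    intro e he
    have h := GenS_map (ks := ks) ι _ he
    rw [himg] at h
    exact adjoin_le_cl _ h
  -- separability of `ι y` over `M`
  let φ : E →+* M :=
    { toFun := fun e => ⟨ι e, hEM e e.2⟩
      map_one' := by ext; simp
      map_mul' := fun a b => by ext; simp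
      map_zero' := by ext; simp
      map_add' := fun a b => by ext; simp }
  have hsy : IsSeparable E y := Algebra.IsSeparable.isSeparable E y
  have hroot : Polynomial.aeval (ι y) ((minpoly E y).map φ) = 0 := by
    rw [Polynomial.aeval_def, Polynomial.eval₂_map]
    have hc : (algebraMap M Ω).comp φ = (ι : K →+* Ω).comp (algebraMap E K) := by
      ext e; rfl
    rw [hc]
    change Polynomial.eval₂ ((ι : K →+* Ω).comp (algebraMap E K)) ((ι : K →+* Ω) y)
      (minpoly E y) = 0
    rw [← Polynomial.hom_eval₂]
    have h0 : Polynomial.eval₂ (algebraMap E K) y (minpoly E y) = 0 := minpoly.aeval E y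
    rw [h0, map_zero]
  have hsM : IsSeparable M (ι y) := by
    have hs : ((minpoly E y).map φ).Separable := Polynomial.Separable.map hsy
    exact hs.of_dvd (minpoly.dvd M (ι y) hroot)
  have hnt : ∃ w ∈ M, w ≠ 0 ∧ ‖w‖ ≠ 1 := by
    let i0 : Fin r := ⟨0, hr⟩
    refine ⟨v i0, hEM _ (IntermediateField.subset_adjoin _ _ (Set.mem_insert_of_mem _ ⟨i0, rfl⟩)),
      hu.ne i0, fun h1 => ?_⟩
    have h2 : wt v (Pi.single i0 1) = 0 := by
      have h3 : wt v (Pi.single i0 1) = -Real.log ‖v i0‖ := by
        change ∑ i, ((Pi.single i0 (1 : ℤ) : Fin r → ℤ) i : ℝ) * (-Real.log ‖v i‖) = _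
        rw [Finset.sum_eq_single i0]
        · simp
        · intro b _ hb; simp [hb]
        · intro h; exact absurd (Finset.mem_univ _) h
      rw [h3, h1, Real.log_one, neg_zero]
    have h4 := hu.inj (h2.trans (map_zero (wt v)).symm)
    have h5 := congrFun h4 i0
    simp at h5
  have hM'c : IsClosed ((M ⊔ IntermediateField.adjoin ks {ι y} : IntermediateField ks Ω) :
      Set Ω) :=
    closed_sup_adjoin M hMc hnt {ι y} (Set.finite_singleton _) (by
      intro w hw
      rw [Set.mem_singleton_iff] at hw
      rw [hw]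
      exact hsM.isIntegral.isAlgebraic)
  have hιM' : ∀ w : K, ι w ∈ (M ⊔ IntermediateField.adjoin ks {ι y} :
      IntermediateField ks Ω) := by
    intro w
    have hw : w ∈ IntermediateField.adjoin E {y} := by rw [hy]; exact IntermediateField.mem_top
    induction hw using IntermediateField.adjoin_induction with
    | mem w hw =>
      rw [Set.mem_singleton_iff] at hw; rw [hw]
      exact (le_sup_right : IntermediateField.adjoin ks {ι y} ≤ _)
        (IntermediateField.mem_adjoin_simple_self ks (ι y))
    | algebraMap e => exact (le_sup_left : M ≤ _) (hEM _ e.2)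
    | add a b _ _ ha hb => rw [map_add]; exact add_mem ha hb
    | inv a _ ha => rw [map_inv₀]; exact inv_mem ha
    | mul a b _ _ ha hb => rw [map_mul]; exact mul_mem ha hb
  have hLy : L = M ⊔ IntermediateField.adjoin ks {ι y} := by
    apply le_antisymm
    · refine cl_le hM'c ?_
      rintro _ ⟨w, rfl⟩
      exact hιM' w
    · refine sup_le ?_ ?_
      · refine clT_le hLc (fun i => hιL _) (hιL _)
      · rw [IntermediateField.adjoin_simple_le_iff]
        exact hιL y
  have hImm : Imm v L := imm_cl hres u hu hI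
  obtain ⟨t0, ht0, ρ, hρ, hcore⟩ := core (k := ks) (L := L) p hR hu hr hLc (fun i => hιL _) hImm
    (hιL x0) hsM hLy
  -- density from generation
  have hdense : ∀ t : K, L = clT ks v (ι t) → ∀ (y : K) (ε : ℝ), 0 < ε →
      ∃ e ∈ IntermediateField.adjoin k (insert t (Set.range u)), ‖ι y - ι e‖ < ε := by
    intro t ht y ε hε
    refine dense_desc (ks := ks) hres _ y ?_ hε
    have h1 : ι y ∈ clT ks v (ι t) := by rw [← ht]; exact hιL y
    refine cl_mono (k := ks) ?_ h1
    rw [← himg]
    exact Set.image_mono (IntermediateField.subset_adjoin k _)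
  -- an element of the compositum
  obtain ⟨t', ht', ht'0⟩ := mem_cl_iff.1 ht0 ρ hρ
  have ht'L : t' ∈ L := adjoin_le_cl _ ht'
  have hgen' : L = clT ks v t' := hcore t' ht'L (by rw [norm_sub_rev]; exact ht'0.le)
  by_cases htF : t' ∈ clF ks v
  · refine ⟨x0, hsep, hdense x0 ?_⟩
    have h1 : L = clF ks v := by rw [hgen', clT_of_mem htF]
    have h2 : ι x0 ∈ clF ks v := by rw [← h1]; exact hιL x0
    rw [clT_of_mem h2, h1]
  · obtain ⟨t1, ht1⟩ := gal_desc (ks := ks) hres u hu hImm t' ht' htF hgen'
    obtain ⟨t2, -, ht2, ρ2, hρ2, hnear⟩ := core_end (k := ks) hu hLc (fun i => hιL _) hImm ht1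
    have ht2k : t2 ∈ cl k (Set.range ι) := by
      rcases ht2 with rfl | rfl
      · exact subset_cl _ ⟨t1, rfl⟩
      · exact zero_mem _
    obtain ⟨t, ht, hsept⟩ := exists_t hsg p ι hr hn u hu x0 hsep (ρ := ρ2) ht2k hρ2
    exact ⟨t, hsept, hdense t (hnear (ι t) (hιL t) ht)⟩

end LUW
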