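import Pool.Agent.LUW.Basic
import Pool.Agent.LUW.GoodNorm
import Pool.Agent.LUW.Expn
import Pool.Agent.LUW.Trans

/-! Project LUW: (E4b) good stages, both cases. -/

set_option autoImplicit false

namespace LUW

open Polynomial

universe u

variable {k : Type*} [Field k] {Ω : Type*} [NormedField Ω] [Algebra k Ω] [Big k Ω] {r : ℕ}

omit [Big k Ω] in
private theorem GoodAll_shift_ne (c : ℕ → k) (g : ℕ → G r) (P : A k r) (hP : P ≠ 0) :
    ∀ m, shift c g m P ≠ 0
  | 0 => hP
  | m + 1 => rho_ne_zero (c m) (g m) (GoodAll_shift_ne c g P hP m)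

/-- If no stage is good, then the minimal levels are eventually of the form
`wt (bs + J • g m)` with `J ≥ 1`. -/
private theorem GoodAll_stab (wt : G r →+ ℝ) (hinj : Function.Injective wt) (c : ℕ → k)
    (g : ℕ → G r) (hmono : StrictMono fun m => wt (g m)) (P : A k r) (hP : P ≠ 0)
    (hcon : ∀ m b, ¬ Good wt (c m) (g m) (shift c g m P) b) :
    ∃ (m0 : ℕ) (bs : G r) (J : ℕ), 1 ≤ J ∧ ∀ m ≥ m0, ∀ q ∈ (shift c g m P).coeff.support,
      wt bs + J * wt (g m) ≤ lev wt (wt (g m)) q := by
  have hne := GoodAll_shift_ne c g P hP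
  choose b hb hmin using fun m => exists_min wt (g m) (hne m)
  have hev : ∀ m, (lf (g m) (b m) (shift c g m P)).eval (c m) = 0 := by
    intro m
    by_contra h
    exact hcon m (b m) ⟨hmin m, h⟩
  set L : ℕ → Polynomial k := fun m => lf (g m) (b m) (shift c g m P) with hLdef
  have hL0 : ∀ m, L m ≠ 0 := hb
  set j : ℕ → ℕ := fun m => (L m).natDegree with hj
  set S : ℕ → Finset (Ex r) := fun m => (shift c g m P).coeff.support with hS
  have hLc : ∀ m i, (L m).coeff i = (shift c g m P).coeff (b m - i • g m, i) := fun m i =>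
    lf_coeff _ _ _ _
  have hcomp : ∀ m i, ((L m).comp (X + C (c m))).coeff i =
      (shift c g (m + 1) P).coeff (b m - i • g m, i) := by
    intro m i
    have h1 := lf_rho (c m) (g m) (b m) (shift c g m P)
    change _ = (rho (c m) (g m) (shift c g m P)).coeff (b m - i • g m, i)
    rw [← lf_coeff, h1]
  have hdeg : ∀ m, ((L m).comp (X + C (c m))).natDegree = j m := by
    intro m
    rw [natDegree_comp, natDegree_X_add_C, mul_one]
  have hlc : ∀ m, ((L m).comp (X + C (c m))).coeff (j m) ≠ 0 := by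
    intro m
    have h1 := leadingCoeff_comp (p := L m) (q := X + C (c m))
      (by rw [natDegree_X_add_C]; exact one_ne_zero)
    rw [leadingCoeff_X_add_C, one_pow, mul_one] at h1
    have h2 : ((L m).comp (X + C (c m))).coeff (j m) = (L m).leadingCoeff := by
      rw [← h1, leadingCoeff, hdeg]
    rw [h2]
    exact leadingCoeff_ne_zero.2 (hL0 m)
  obtain ⟨-, m0, bs, J, hst⟩ := stab wt hinj g hmono S b j
    (fun m => by
      rw [Finsupp.mem_support_iff, ← hLc]
      exact leadingCoeff_ne_zero.2 (hL0 m))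
    hmin
    (fun m => rho_lev wt (c m) (g m) (shift c g m P) (wt (b m)) (hmin m))
    (fun m q hq hlev => by
      rw [lev_add] at hlev
      have h1 := hinj hlev
      have h2 : q = (b m - q.2 • g m, q.2) := by
        ext1
        · change q.1 = b m - q.2 • g m
          rw [← h1, add_sub_cancel_right]
        · rfl
      have h3 : ((L m).comp (X + C (c m))).coeff q.2 ≠ 0 := by
        rw [hcomp, ← h2]
        exact Finsupp.mem_support_iff.1 hq
      rw [← hdeg m]
      exact le_natDegree_of_ne_zero h3)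
    (fun m => by
      rw [Finsupp.mem_support_iff, ← hcomp]
      exact hlc m)
  have hjpos : 1 ≤ J := by
    by_contra h
    have hJ : J = 0 := by omega
    have h1 := (hst m0 le_rfl).1
    rw [hJ] at h1
    have h2 : L m0 = C ((L m0).coeff 0) := eq_C_of_natDegree_eq_zero h1
    have h3 : (L m0).eval (c m0) = 0 := hev m0
    rw [h2, eval_C] at h3
    exact hL0 m0 (by rw [h2, h3, C_0])
  refine ⟨m0, bs, J, hjpos, fun m hm q hq => ?_⟩
  have h1 := hmin m q hq
  rw [(hst m hm).2.1, map_add, map_nsmul, nsmul_eq_mul] at h1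
  exact h1

private theorem GoodAll_norm_le {u : Fin r → Ω} (hu : ∀ i, u i ≠ 0) (x : Ω) (g : G r)
    (hx : ‖x‖ = ‖mon u g‖) (P : A k r) (W : ℝ)
    (h : ∀ q ∈ P.coeff.support, W ≤ lev (wt u) (wt u g) q) : ‖ev hu x P‖ ≤ Real.exp (-W) := by
  rw [ev_eq_sum]
  refine Big.sum_le k _ _ (Real.exp_nonneg _) fun q hq => ?_
  rw [norm_mul, norm_mul, norm_pow, hx, norm_mon hu, norm_mon hu, ← Real.exp_nat_mul,
    ← Real.exp_add]
  calc _ ≤ 1 * Real.exp (-(wt u) q.1 + q.2 * -(wt u) g) :=
        mul_le_mul_of_nonneg_right (Big.norm_c_le k _) (Real.exp_nonneg _)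
    _ ≤ Real.exp (-W) := by
        rw [one_mul, Real.exp_le_exp]
        have := h q hq
        rw [lev] at this
        linarith

/-- Every polynomial not vanishing at `t` is good at all large stages (bounded or unbounded
expansions). -/
theorem good_all {u : Fin r → Ω} (hu : Base u) {t : Ω} {c : ℕ → k} {g : ℕ → G r}
    (ht : Expn u t c g) (P : A k r) (hP : ev hu.ne t P ≠ 0) :
    ∃ b, ∃ m0, ∀ m ≥ m0, Good (wt u) (c m) (g m) (shift c g m P) b := by
  have hP0 : P ≠ 0 := by
    rintro rfl
    exact hP (map_zero _)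
  suffices h : ∃ m b, Good (wt u) (c m) (g m) (shift c g m P) b by
    obtain ⟨m, b, h⟩ := h
    exact ⟨b, m, fun m' hm => good_le (wt u) c g ht.mono P hm b h⟩
  by_cases hbdd : BddAbove (Set.range fun m => wt u (g m))
  · exact trans_type (wt u) hu.inj c ht.c_ne g ht.mono hbdd P hP0
  · by_contra hcon
    push Not at hcon
    obtain ⟨m0, bs, J, hJ, hst⟩ := GoodAll_stab (wt u) hu.inj c g ht.mono P hP0 hcon
    have hnorm : ∀ m ≥ m0, ‖ev hu.ne t P‖ ≤ Real.exp (-(wt u bs + J * wt u (g m))) := by
      intro m hm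
      rw [← ev_shift hu.ne t c g m P]
      exact GoodAll_norm_le hu.ne _ (g m) (ht.norm m) _ _ (hst m hm)
    have hpos : 0 < ‖ev hu.ne t P‖ := norm_pos_iff.2 hP
    have hJ' : (1 : ℝ) ≤ J := by exact_mod_cast hJ
    have hall : ∀ m ≥ m0, J * wt u (g m) ≤ -(wt u bs) - Real.log ‖ev hu.ne t P‖ := by
      intro m hm
      have h1 := (Real.log_le_iff_le_exp hpos).2 (hnorm m hm)
      linarith
    apply hbdd
    refine ⟨max (|-(wt u bs) - Real.log ‖ev hu.ne t P‖|) (wt u (g m0)), ?_⟩
    rintro _ ⟨m, rfl⟩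
    rcases le_total m m0 with hm | hm
    · exact le_max_of_le_right (ht.mono.monotone hm)
    · refine le_max_of_le_left ?_
      change wt u (g m) ≤ _
      by_contra hlt
      push Not at hlt
      have h1 := hall m hm
      have h2 := le_abs_self (-(wt u bs) - Real.log ‖ev hu.ne t P‖)
      have h3 := abs_nonneg (-(wt u bs) - Real.log ‖ev hu.ne t P‖)
      nlinarith

end LUW
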