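import Pool.Agent.LUW.NSum
import Pool.Agent.LUW.SepDer

/-! Project LUW: function fields with a valuation with residue field `k` are separably generated. -/

set_option autoImplicit false

namespace LUW

section

variable {k K : Type*} [Field k] [Field K] [Algebra k K] {Ω : Type*} [NormedField Ω] [Algebra k Ω]
  [Big k Ω] (ι : K →ₐ[k] Ω)

private theorem SGen_smul {c : k} (hc : c ≠ 0) (y : K) : ‖ι (c • y)‖ = ‖ι y‖ := by
  rw [map_smul, Algebra.smul_def, norm_mul, Big.norm_k c hc, one_mul]

private theorem SGen_sum_lt (k : Type*) [Field k] {Ω : Type*} [NormedField Ω] [Algebra k Ω]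
    [Big k Ω] {J : Type*} (s : Finset J) (f : J → Ω) {B : ℝ} (hB : 0 < B)
    (h : ∀ i ∈ s, ‖f i‖ < B) : ‖∑ i ∈ s, f i‖ < B := by
  classical
  induction s using Finset.induction_on with
  | empty => simpa using hB
  | insert a s ha ih =>
    rw [Finset.sum_insert ha]
    exact (Big.add_le k _ _).trans_lt (max_lt (h a (Finset.mem_insert_self _ _))
      (ih fun i hi => h i (Finset.mem_insert_of_mem hi)))

/-- nonzero elements with distinct norms are independent -/
private theorem SGen_indep {J : Type*} (y : J → K) (h0 : ∀ j, y j ≠ 0)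
    (hinj : Function.Injective fun j => ‖ι (y j)‖) : LinearIndependent k y := by
  classical
  rw [linearIndependent_iff']
  intro s g hg
  by_contra hcon
  push Not at hcon
  obtain ⟨i₁, hi₁, hgi₁⟩ := hcon
  set s' := s.filter fun i => g i ≠ 0 with hs'
  have hne : s'.Nonempty := ⟨i₁, Finset.mem_filter.2 ⟨hi₁, hgi₁⟩⟩
  obtain ⟨i₀, hi₀, hmin⟩ := s'.exists_max_image (fun j => ‖ι (y j)‖) hne
  have hgi₀ : g i₀ ≠ 0 := (Finset.mem_filter.1 hi₀).2
  have hpos : 0 < ‖ι (y i₀)‖ := norm_pos_iff.2 ((map_ne_zero ι).2 (h0 i₀))
  have hsum : ∑ i ∈ s', g i • y i = 0 := by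
    rw [← hg]
    refine Finset.sum_filter_of_ne ?_
    intro i _ hi h
    exact hi (by rw [h, zero_smul])
  rw [← Finset.add_sum_erase _ _ hi₀] at hsum
  have hlt : ‖∑ i ∈ s'.erase i₀, ι (g i • y i)‖ < ‖ι (y i₀)‖ := by
    refine SGen_sum_lt k _ _ hpos fun i hi => ?_
    have hi' := Finset.mem_erase.1 hi
    have hgi : g i ≠ 0 := (Finset.mem_filter.1 hi'.2).2
    rw [SGen_smul ι hgi]
    exact lt_of_le_of_ne (hmin i hi'.2) fun h => hi'.1 (hinj h)
  have h1 := congrArg ι hsum
  rw [map_add, map_zero, map_sum] at h1
  have h2 : ι (g i₀ • y i₀) = -∑ i ∈ s'.erase i₀, ι (g i • y i) := eq_neg_of_add_eq_zero_left h1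
  have h3 := SGen_smul ι hgi₀ (y i₀)
  rw [h2, norm_neg] at h3
  exact absurd h3 hlt.ne

variable {ι}

omit [Big k Ω] in
/-- a finite dimensional space has a basis with distinct norms -/
private theorem SGen_basis (hres : ResK ι) (n : ℕ) : ∀ x : Fin n → K, LinearIndependent k x →
    ∃ y : Fin n → K, (∀ j, y j ≠ 0) ∧ (Function.Injective fun j => ‖ι (y j)‖) ∧
      Submodule.span k (Set.range y) = Submodule.span k (Set.range x) := by
  induction n with
  | zero =>
    intro x _
    exact ⟨x, fun j => j.elim0, fun j => j.elim0, rfl⟩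
  | succ n ih =>
    intro x hx
    obtain ⟨x', a, rfl⟩ : ∃ (x' : Fin n → K) (a : K), x = Fin.snoc x' a :=
      ⟨Fin.init x, x (Fin.last n), (Fin.snoc_init_self x).symm⟩
    rw [linearIndependent_finSnoc] at hx
    obtain ⟨y, hy0, hyi, hys⟩ := ih x' hx.1
    have ha : a ∉ Submodule.span k (Set.range y) := by rw [hys]; exact hx.2
    set W := Submodule.span k (Set.range y) with hW
    have hz0 : ∀ w ∈ W, a + w ≠ 0 := by
      intro w hw h
      apply ha
      have : a = -w := eq_neg_of_add_eq_zero_left h
      rw [this]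
      exact W.neg_mem hw
    obtain ⟨w, hw, hwv⟩ : ∃ w ∈ W, ∀ j, ‖ι (a + w)‖ ≠ ‖ι (y j)‖ := by
      by_contra hcon
      push Not at hcon
      set Z : Set ℝ := {r | ∃ w ∈ W, ‖ι (a + w)‖ = r} with hZ
      have hfin : Z.Finite := by
        refine Set.Finite.subset (Set.finite_range fun j => ‖ι (y j)‖) ?_
        rintro r ⟨w, hw, rfl⟩
        obtain ⟨j, hj⟩ := hcon w hw
        exact ⟨j, hj.symm⟩
      have hne : Z.Nonempty := ⟨_, 0, W.zero_mem, rfl⟩
      obtain ⟨r, ⟨w, hw, rfl⟩, hmin⟩ := Set.exists_min_image Z id hfin hne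
      obtain ⟨j, hj⟩ := hcon w hw
      have hyj : 0 < ‖ι (y j)‖ := norm_pos_iff.2 ((map_ne_zero ι).2 (hy0 j))
      have h1 : ‖ι ((a + w) / y j)‖ = 1 := by
        rw [map_div₀, norm_div, hj, div_self hyj.ne']
      obtain ⟨c, hc⟩ := hres _ h1.le
      have hyW : c • y j ∈ W := W.smul_mem _ (Submodule.subset_span ⟨j, rfl⟩)
      have hw' : w - c • y j ∈ W := W.sub_mem hw hyW
      have e : a + (w - c • y j) = ((a + w) / y j - algebraMap k K c) * y j := by
        rw [sub_mul, div_mul_cancel₀ _ (hy0 j), Algebra.smul_def]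
        ring
      have h2 := hmin _ ⟨_, hw', rfl⟩
      simp only [id] at h2
      rw [e, map_mul, norm_mul, map_sub, AlgHom.commutes, hj] at h2
      have h3 : ‖ι ((a + w) / y j) - algebraMap k Ω c‖ * ‖ι (y j)‖ < 1 * ‖ι (y j)‖ :=
        mul_lt_mul_of_pos_right hc hyj
      rw [one_mul] at h3
      exact absurd h2 (not_le.2 h3)
    refine ⟨Fin.snoc y (a + w), ?_, ?_, ?_⟩
    · intro j
      refine Fin.lastCases ?_ (fun j => ?_) j
      · rw [Fin.snoc_last]; exact hz0 w hw
      · rw [Fin.snoc_castSucc]; exact hy0 j
    · intro i j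
      refine Fin.lastCases ?_ (fun i => ?_) i
      · refine Fin.lastCases ?_ (fun j => ?_) j
        · intro _; rfl
        · intro h
          simp only [Fin.snoc_last, Fin.snoc_castSucc] at h
          exact absurd h (hwv j)
      · refine Fin.lastCases ?_ (fun j => ?_) j
        · intro h
          simp only [Fin.snoc_last, Fin.snoc_castSucc] at h
          exact absurd h.symm (hwv i)
        · intro h
          simp only [Fin.snoc_castSucc] at h
          rw [hyi h]
    · have hr : ∀ (f : Fin n → K) (b : K), Submodule.span k (Set.range (Fin.snoc f b : Fin (n + 1) → K)) =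
          Submodule.span k (Set.range f) ⊔ Submodule.span k {b} := by
        intro f b
        rw [Fin.range_snoc, ← Set.union_singleton, Submodule.span_union, sup_comm]
      rw [hr, hr, ← hys]
      apply le_antisymm
      · refine sup_le le_sup_left ?_
        rw [Submodule.span_singleton_le_iff_mem]
        refine Submodule.add_mem _ ?_ ?_
        · exact Submodule.mem_sup_right (Submodule.mem_span_singleton_self a)
        · exact Submodule.mem_sup_left hw
      · refine sup_le le_sup_left ?_
        rw [Submodule.span_singleton_le_iff_mem]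
        have h1 : a + w ∈ W ⊔ Submodule.span k {a + w} :=
          Submodule.mem_sup_right (Submodule.mem_span_singleton_self _)
        have h2 : w ∈ W ⊔ Submodule.span k {a + w} := Submodule.mem_sup_left hw
        have h3 := Submodule.sub_mem _ h1 h2
        rwa [add_sub_cancel_right] at h3

private theorem SGen_indep_fin (p : ℕ) [Fact p.Prime] [CharP k p] (hres : ResK ι) (n : ℕ)
    (x : Fin n → K) (hx : LinearIndependent k x) : LinearIndependent k fun i => x i ^ p := by
  classical
  have hpp : p.Prime := Fact.out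
  have hKp : CharP K p := charP_of_injective_algebraMap (algebraMap k K).injective p
  obtain ⟨y, hy0, hyi, hys⟩ := SGen_basis hres n x hx
  have hmem : ∀ i, ∃ c : Fin n → k, ∑ j, c j • y j = x i := by
    intro i
    have : x i ∈ Submodule.span k (Set.range y) := by
      rw [hys]; exact Submodule.subset_span ⟨i, rfl⟩
    exact (Submodule.mem_span_range_iff_exists_fun k).1 this
  choose A hA using hmem
  have hyp : LinearIndependent k fun j => y j ^ p := by
    refine SGen_indep ι _ (fun j => pow_ne_zero _ (hy0 j)) ?_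
    intro i j h
    simp only [map_pow, norm_pow] at h
    exact hyi ((pow_left_inj₀ (norm_nonneg _) (norm_nonneg _) hpp.ne_zero).1 h)
  -- the matrix
  have hrows : LinearIndependent k (fun i => A i : Fin n → Fin n → k) := by
    rw [Fintype.linearIndependent_iff] at hx ⊢
    intro g hg
    refine hx g ?_
    have : ∀ j, ∑ i, g i * A i j = 0 := by
      intro j
      have := congrFun hg j
      simpa [Finset.sum_apply, Pi.smul_apply, smul_eq_mul] using this
    calc ∑ i, g i • x i = ∑ i, g i • ∑ j, A i j • y j := by simp_rw [hA]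
      _ = ∑ j, (∑ i, g i * A i j) • y j := by
        simp_rw [Finset.smul_sum, smul_smul]
        rw [Finset.sum_comm]
        refine Finset.sum_congr rfl fun j _ => ?_
        rw [Finset.sum_smul]
      _ = 0 := by simp [this]
  have hdet : IsUnit (Matrix.of A) := Matrix.linearIndependent_rows_iff_isUnit.1 hrows
  have hdet' : IsUnit ((Matrix.of A).map (frobenius k p)) := by
    have := hdet.map (frobenius k p).mapMatrix
    exact this
  have hrows' : LinearIndependent k (fun i j => A i j ^ p : Fin n → Fin n → k) := by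
    have := Matrix.linearIndependent_rows_iff_isUnit.2 hdet'
    exact this
  have hxp : ∀ i, x i ^ p = ∑ j, A i j ^ p • y j ^ p := by
    intro i
    rw [← hA i, sum_pow_char]
    refine Finset.sum_congr rfl fun j _ => ?_
    rw [smul_pow]
  rw [Fintype.linearIndependent_iff] at hyp hrows' ⊢
  intro g hg
  refine hrows' g ?_
  funext j
  have h1 : ∑ j, (∑ i, g i * A i j ^ p) • y j ^ p = 0 := by
    rw [← hg]
    simp_rw [hxp, Finset.smul_sum, smul_smul]
    rw [Finset.sum_comm]
    refine Finset.sum_congr rfl fun j _ => ?_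
    rw [Finset.sum_smul]
  have h2 := hyp _ h1 j
  simpa [Finset.sum_apply, Pi.smul_apply, smul_eq_mul] using h2

/-- If the `x i` are linearly independent over `k`, so are their `p`-th powers. -/
theorem SGen_linIndep_pow (p : ℕ) [Fact p.Prime] [CharP k p] (hres : ResK ι) {J : Type*} (x : J → K)
    (hx : LinearIndependent k x) : LinearIndependent k fun i => x i ^ p := by
  rw [linearIndependent_iff_finset_linearIndependent]
  intro s
  have h1 : LinearIndependent k (x ∘ (Subtype.val : s → J)) := hx.comp _ Subtype.val_injective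
  have e := s.equivFin
  have h2 : LinearIndependent k ((x ∘ (Subtype.val : s → J)) ∘ e.symm) :=
    h1.comp _ e.symm.injective
  have h3 := SGen_indep_fin p hres _ _ h2
  have h4 := h3.comp _ e.injective
  have h5 : ((fun i => ((x ∘ (Subtype.val : s → J)) ∘ e.symm) i ^ p) ∘ e) =
      (fun i => x i ^ p) ∘ (Subtype.val : s → J) := by
    funext i
    simp
  rwa [h5] at h4

end

/-- `K/k` is separably generated if `K` has a nonarchimedean absolute value, trivial on `k`, with
residue field `k`. Proof: Mathlib
`exists_isTranscendenceBasis_and_isSeparable_of_linearIndepOn_pow_of_essFiniteType`; if `x_i ∈ K`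
are independent over `k`, so are the `x_i^p`: their span has a basis `y_j` with pairwise different
norms (see the file /team-store/LUX_SepGen.lean, `SepGen.indep`, `SepGen.basis`, `linIndep_pow`,
which proves exactly this for real valuations `LX.RV k K`; either adapt it or build the `LX.RV`
`v x = - log ‖ι x‖` and cite `LX.linIndep_pow`: then import `Pool.Agent.helper90.LX.SepGen`). -/
theorem sg_of_res {k K : Type*} [Field k] [Field K] [Algebra k K] [Algebra.EssFiniteType k K]
    (p : ℕ) [Fact p.Prime] [CharP k p] {Ω : Type*} [NormedField Ω] [Algebra k Ω] [Big k Ω]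
    {ι : K →ₐ[k] Ω} (hres : ResK ι) : SG k K := by
  have hpp : p.Prime := Fact.out
  exact exists_isTranscendenceBasis_and_isSeparable_of_linearIndepOn_pow_of_essFiniteType (k := k)
    (K := K) p hpp (fun s hs => SGen_linIndep_pow p hres _ hs)

end LUW
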