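import Pool.Agent.LUW.Slu

/-! Project LUW: monomialization in k(u,t). -/

set_option autoImplicit false

namespace LUW

open Polynomial

universe u

variable {k : Type*} [Field k] {K : Type*} [Field K] [Algebra k K]
  {Ω : Type*} [NormedField Ω] [Algebra k Ω] [Big k Ω] {r : ℕ}

open SluAux

/-- Simultaneous monomialization in `k(u,t)`. -/
theorem slu_mon (ι : K →ₐ[k] Ω) (u : Fin r → K) (hu : Base fun i => ι (u i)) (t : K) {c : ℕ → k}
    {g : ℕ → G r} (ht : Expn (fun i => ι (u i)) (ι t) c g)
    (hne : ∀ P : A k r, P ≠ 0 → ev hu.ne (ι t) P ≠ 0) (Z : Finset K)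
    (hZ : ∀ z ∈ Z, z ∈ IntermediateField.adjoin k (insert t (Set.range u)) ∧ z ≠ 0) :
    ∃ s : Fin (r + 1) → K, (∀ i, s i ≠ 0 ∧ ‖ι (s i)‖ < 1) ∧
      IntermediateField.adjoin k (Set.range s) =
        IntermediateField.adjoin k (insert t (Set.range u)) ∧
      ∀ z ∈ Z, ∃ (a : Fin (r + 1) → ℤ) (N D : MvPolynomial (Fin (r + 1)) k),
        MvPolynomial.constantCoeff N ≠ 0 ∧ MvPolynomial.constantCoeff D ≠ 0 ∧
        z * MvPolynomial.aeval s D = (∏ i, s i ^ a i) * MvPolynomial.aeval s N ∧
        (‖ι z‖ ≤ 1 → ∀ i, 0 ≤ a i) := by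
  classical
  set v : Fin r → Ω := fun i => ι (u i) with hv
  -- data for each z
  have hdata : ∀ z : K, ∃ (P Q : A k r) (bP bQ : G r) (m0 : ℕ), z ∈ Z → z ≠ 0 →
      ι z * ev hu.ne (ι t) Q = ev hu.ne (ι t) P ∧
      (∀ m ≥ m0, Good (wt v) (c m) (g m) (shift c g m P) bP) ∧
      (∀ m ≥ m0, Good (wt v) (c m) (g m) (shift c g m Q) bQ) ∧
      (‖ι z‖ ≤ 1 → 0 ≤ wt v (bP - bQ)) := by
    intro z
    by_cases hz : z ∈ Z ∧ z ≠ 0
    · obtain ⟨hzZ, hz0⟩ := hz
      obtain ⟨hz1, hz2⟩ := hZ z hzZ
      obtain ⟨P, Q, hQ, hPQ⟩ := exists_ev_div ι u hu.ne t z hz1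
      have hιz : ι z ≠ 0 := fun h => hz2 ((map_eq_zero ι).1 h)
      have hP : ev hu.ne (ι t) P ≠ 0 := by rw [← hPQ]; exact mul_ne_zero hιz hQ
      obtain ⟨bP, m1, h1⟩ := good_all hu ht P hP
      obtain ⟨bQ, m2, h2⟩ := good_all hu ht Q hQ
      refine ⟨P, Q, bP, bQ, max m1 m2, fun _ _ => ⟨hPQ, fun m hm => h1 m
        (le_trans (le_max_left _ _) hm), fun m hm => h2 m (le_trans (le_max_right _ _) hm),
        fun hz3 => ?_⟩⟩
      have n1 := (good_norm hu ht P _ _ (h1 (max m1 m2) (le_max_left _ _))).1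
      have n2 := (good_norm hu ht Q _ _ (h2 (max m1 m2) (le_max_right _ _))).1
      have n3 : ‖mon v bP‖ ≤ ‖mon v bQ‖ := by
        rw [← n1, ← n2, ← hPQ, norm_mul]
        exact mul_le_of_le_one_left (norm_nonneg _) hz3
      have n4 := (norm_mon_le hu.ne).1 n3
      rw [map_sub]
      linarith
    · refine ⟨0, 0, 0, 0, 0, fun h1 h2 => absurd ⟨h1, h2⟩ hz⟩
  choose P Q bP bQ m0 hd using hdata
  -- the common stage
  obtain ⟨m, hm⟩ : ∃ m, ∀ z ∈ Z, m0 z ≤ m := ⟨Z.sup m0, fun z hz => Finset.le_sup hz⟩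
  -- vectors of nonnegative weight
  set T : Finset (G r) := (Z.filter (fun z => z ≠ 0)).biUnion (fun z =>
    (if ‖ι z‖ ≤ 1 then {bP z - bQ z} else ∅) ∪ (((shift c g m (P z)).coeff.support.image
      (fun q => q.1 + q.2 • g m - bP z)) ∪ ((shift c g m (Q z)).coeff.support.image
      (fun q => q.1 + q.2 • g m - bQ z)))) with hT
  have hT0 : ∀ a ∈ T, 0 ≤ wt v a := by
    intro a ha
    rw [hT, Finset.mem_biUnion] at ha
    obtain ⟨z, hz, ha⟩ := ha
    rw [Finset.mem_filter] at hz
    obtain ⟨e1, e2, e3, e4⟩ := hd z hz.1 hz.2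
    rw [Finset.mem_union, Finset.mem_union, Finset.mem_image, Finset.mem_image] at ha
    rcases ha with ha | ⟨q, hq, rfl⟩ | ⟨q, hq, rfl⟩
    · split_ifs at ha with h1
      · rw [Finset.mem_singleton.1 ha]
        exact e4 h1
      · exact absurd ha (Finset.notMem_empty _)
    · have := (e2 m (hm z hz.1)).1 q hq
      rw [lev_add] at this
      rw [map_sub]
      linarith
    · have := (e3 m (hm z hz.1)).1 q hq
      rw [lev_add] at this
      rw [map_sub]
      linarith
  obtain ⟨b, hb1, hb2⟩ := perron_wt (wt v) hu.inj T hT0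
  -- the new variables
  set w : K := (t - psumK u c g m) / monK u (g m) - algebraMap k K (c m) with hw
  set s : Fin (r + 1) → K := Fin.snoc (fun j => monK u (b j)) w with hs
  have hs1 : ∀ j : Fin r, s (Fin.castSucc j) = monK u (b j) := fun j => by
    rw [hs, Fin.snoc_castSucc (α := fun _ => K)]
  have hs2 : s (Fin.last r) = w := by rw [hs, Fin.snoc_last (α := fun _ => K)]
  have hιs1 : ∀ j : Fin r, ι (s (Fin.castSucc j)) = mon v (b j) := fun j => by
    rw [hs1, map_monK]
  have hιw : ι w = (ι t - psum v c g m) / mon v (g m) - algebraMap k Ω (c m) := by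
    rw [hw, map_sub, map_div₀, map_sub, map_psumK, map_monK, AlgHom.commutes]
  have hmn : mon v (g m) ≠ 0 := mon_ne hu.ne _
  have hιw' : ι w = (ι t - psum v c g (m + 1)) / mon v (g m) := by
    rw [hιw, psum_succ, ← sub_sub, sub_div _ (_ * _), mul_div_assoc, div_self hmn, mul_one]
  have hιw1 : ‖ι w‖ < 1 := by
    rw [hιw', norm_div, ht.norm (m + 1), div_lt_one (norm_pos_iff.2 hmn), norm_mon_lt hu.ne]
    exact ht.mono (Nat.lt_succ_self m)
  have hιt : ι t - psum v c g m = mon v (g m) * (algebraMap k Ω (c m) + ι (s (Fin.last r))) := by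
    rw [hs2, hιw, add_sub_cancel, mul_div_cancel₀ _ hmn]
  refine ⟨s, ?_, ?_, ?_⟩
  · intro i
    refine Fin.lastCases ?_ (fun j => ?_) i
    · rw [hs2]
      refine ⟨?_, hιw1⟩
      intro h0
      rw [h0, map_zero] at hιw'
      have h1 : ι t - psum v c g (m + 1) = 0 := by
        rcases div_eq_zero_iff.1 hιw'.symm with h | h
        · exact h
        · exact absurd h hmn
      have h2 := ht.norm (m + 1)
      rw [h1, norm_zero] at h2
      exact mon_ne hu.ne _ (norm_eq_zero.1 h2.symm)
    · constructor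
      · intro h0
        have h1 := hιs1 j
        rw [h0, map_zero] at h1
        exact mon_ne hu.ne _ h1.symm
      · rw [hιs1, norm_mon hu.ne, Real.exp_lt_one_iff]
        have := hb1 j
        linarith
  · apply le_antisymm
    · rw [IntermediateField.adjoin_le_iff]
      rintro _ ⟨i, rfl⟩
      have hu' : ∀ i, u i ∈ IntermediateField.adjoin k (insert t (Set.range u)) := fun i =>
        IntermediateField.subset_adjoin _ _ (Set.mem_insert_of_mem _ ⟨i, rfl⟩)
      have ht' : t ∈ IntermediateField.adjoin k (insert t (Set.range u)) :=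
        IntermediateField.subset_adjoin _ _ (Set.mem_insert _ _)
      refine Fin.lastCases ?_ (fun j => ?_) i
      · rw [hs2, hw]
        exact sub_mem (div_mem (sub_mem ht' (psumK_mem hu' _ _ _)) (monK_mem hu' _))
          (IntermediateField.algebraMap_mem _ _)
      · rw [hs1]
        exact monK_mem hu' _
    · rw [IntermediateField.adjoin_le_iff]
      have hsm : ∀ i, s i ∈ IntermediateField.adjoin k (Set.range s) := fun i =>
        IntermediateField.subset_adjoin _ _ ⟨i, rfl⟩
      have hu' : ∀ i, u i ∈ IntermediateField.adjoin k (Set.range s) := by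
        intro i
        have h1 : u i = ∏ j, monK u (b j) ^ (b.repr (Pi.single i 1) j) := by
          apply ι.toRingHom.injective
          change ι (u i) = ι _
          rw [map_prod]
          simp only [map_zpow₀, map_monK]
          have h2 := mon_basis hu.ne b (Pi.single i 1)
          have h3 : mon v (Pi.single i 1) = ι (u i) := by
            rw [mon, Finset.prod_eq_single i]
            · simp [hv]
            · intro j _ hj
              simp [hj]
            · simp
          rw [← h3]
          exact h2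
        rw [h1]
        refine prod_mem fun j _ => zpow_mem ?_ _
        rw [← hs1]
        exact hsm _
      rintro x (rfl | ⟨i, rfl⟩)
      · have h1 : x = psumK u c g m + monK u (g m) * (algebraMap k K (c m) + w) := by
          have h0 : monK u (g m) ≠ 0 := by
            intro h
            apply hmn
            rw [← map_monK, h, map_zero]
          rw [hw, add_sub_cancel, mul_div_cancel₀ _ h0]
          ring
        rw [h1]
        refine add_mem (psumK_mem hu' _ _ _) (mul_mem (monK_mem hu' _) (add_mem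
          (IntermediateField.algebraMap_mem _ _) ?_))
        rw [← hs2]
        exact hsm _
      · exact hu' i
  · intro z hz
    have hz0 : z ≠ 0 := (hZ z hz).2
    obtain ⟨e1, e2, e3, e4⟩ := hd z hz hz0
    have hTz : ∀ a ∈ (if ‖ι z‖ ≤ 1 then {bP z - bQ z} else ∅) ∪
        (((shift c g m (P z)).coeff.support.image
        (fun q => q.1 + q.2 • g m - bP z)) ∪ ((shift c g m (Q z)).coeff.support.image
        (fun q => q.1 + q.2 • g m - bQ z))), a ∈ T := by
      intro a ha
      rw [hT, Finset.mem_biUnion]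
      exact ⟨z, Finset.mem_filter.2 ⟨hz, hz0⟩, ha⟩
    have k1 : ‖ι z‖ ≤ 1 → ∀ j, 0 ≤ b.repr (bP z - bQ z) j := fun h j =>
      hb2 _ (hTz _ (Finset.mem_union_left _ (by rw [if_pos h]; exact Finset.mem_singleton_self _))) j
    have k2 : ∀ q ∈ (shift c g m (P z)).coeff.support, ∀ j,
        0 ≤ b.repr (q.1 + q.2 • g m - bP z) j := fun q hq j =>
      hb2 _ (hTz _ (Finset.mem_union_right _ (Finset.mem_union_left _
        (Finset.mem_image_of_mem _ hq)))) j
    have k3 : ∀ q ∈ (shift c g m (Q z)).coeff.support, ∀ j,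
        0 ≤ b.repr (q.1 + q.2 • g m - bQ z) j := fun q hq j =>
      hb2 _ (hTz _ (Finset.mem_union_right _ (Finset.mem_union_right _
        (Finset.mem_image_of_mem _ hq)))) j
    refine ⟨Fin.snoc (α := fun _ => ℤ) (fun j => b.repr (bP z - bQ z) j) 0,
      np b (c m) (g m) (bP z) (shift c g m (P z)),
      np b (c m) (g m) (bQ z) (shift c g m (Q z)), ?_, ?_, ?_, ?_⟩
    · rw [constantCoeff_np b _ _ _ _ k2]
      exact (e2 m (hm z hz)).2
    · rw [constantCoeff_np b _ _ _ _ k3]
      exact (e3 m (hm z hz)).2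
    · apply ι.toRingHom.injective
      change ι _ = ι _
      have hae : ∀ p : MvPolynomial (Fin (r + 1)) k,
          ι (MvPolynomial.aeval s p) = MvPolynomial.aeval (fun i => ι (s i)) p := fun p => by
        rw [← MvPolynomial.comp_aeval_apply]
      rw [map_mul, hae, map_mul, hae]
      have a1 : ι (∏ i, s i ^ (Fin.snoc (α := fun _ => ℤ) (fun j => b.repr (bP z - bQ z) j) 0 :
          Fin (r + 1) → ℤ) i) = mon v (bP z - bQ z) := by
        rw [map_prod, Fin.prod_univ_castSucc, Fin.snoc_last (α := fun _ => ℤ), zpow_zero, map_one,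
          mul_one, mon_basis hu.ne b]
        refine Finset.prod_congr rfl fun j _ => ?_
        rw [Fin.snoc_castSucc (α := fun _ => ℤ), map_zpow₀, hιs1]
      have a2 := aeval_np hu.ne b (fun i => ι (s i)) hιs1 (c m) (g m) (bP z)
        (shift c g m (P z)) k2
      have a3 := aeval_np hu.ne b (fun i => ι (s i)) hιs1 (c m) (g m) (bQ z)
        (shift c g m (Q z)) k3
      rw [← hιt, ev_shift] at a2 a3
      rw [a1]
      have hQn : mon v (bQ z) ≠ 0 := mon_ne hu.ne _
      apply mul_left_cancel₀ hQn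
      have a4 : mon v (bQ z) * mon v (bP z - bQ z) = mon v (bP z) := by
        rw [← mon_add hu.ne]
        congr 1
        abel
      rw [← mul_assoc (mon v (bQ z)) (mon v (bP z - bQ z)), a4]
      rw [a2, ← e1, ← a3]
      ring
    · intro h i
      refine Fin.lastCases ?_ (fun j => ?_) i
      · rw [Fin.snoc_last (α := fun _ => ℤ)]
      · rw [Fin.snoc_castSucc (α := fun _ => ℤ)]
        exact k1 h j

end LUW
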