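import Pool.Agent.LUW.MainAux
import Pool.Agent.LUW.GenS
import Pool.Agent.LUW.OmegaS
import Pool.Agent.LUW.SGen
import Pool.Agent.LUW.SluMon
import Pool.Agent.helper90.LX.SUDense

/-! Project LUW: assembly over an arbitrary field `k` of characteristic `p`. -/

set_option autoImplicit false

namespace LUW

open Polynomial

universe u

variable {k K : Type u} [Field k] [Field K] [Algebra k K] [Algebra.EssFiniteType k K]

omit [Algebra.EssFiniteType k K] in
/-- The residue field in terms of the norm. -/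
theorem resK_of_val (V : ValuationSubring K) {Ω : Type*} [NormedField Ω] [Algebra k Ω]
    (ι : K →ₐ[k] Ω) (hι : ∀ x y : K, ‖ι x‖ ≤ ‖ι y‖ ↔ V.valuation x ≤ V.valuation y)
    (hres : ∀ x ∈ V, ∃ c : k, V.valuation (x - algebraMap k K c) < 1) : ResK ι := by
  intro x hx
  have h1 : V.valuation x ≤ 1 := by
    rw [← V.valuation.map_one, ← hι, map_one, norm_one]
    exact hx
  obtain ⟨c, hc⟩ := hres x ((V.valuation_le_one_iff x).1 h1)
  refine ⟨c, ?_⟩
  rw [← ι.commutes c, ← map_sub, ← norm_one (α := Ω), ← map_one ι, ← not_le, hι, map_one, not_le]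
  exact hc

/-- All the data in the ambient field. -/
theorem luw_data (p : ℕ) [Fact p.Prime] [CharP k p] (V : ValuationSubring K)
    (hV : ∀ c : k, algebraMap k K c ∈ V) (harch : MulArchimedean V.ValueGroup)
    (hres : ∀ x ∈ V, ∃ c : k, V.valuation (x - algebraMap k K c) < 1)
    (hfg : Group.FG (V.ValueGroup)ˣ) (r : ℕ)
    (hrk : Module.finrank ℤ (Additive (V.ValueGroup)ˣ) = r)
    (hr : Algebra.trdeg k K = (r + 1 : ℕ)) (hr0 : 0 < r) :
    ∃ (Ω : Type u) (_ : NormedField Ω) (_ : Algebra k Ω) (_ : Big k Ω) (ι : K →ₐ[k] Ω)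
      (u : Fin r → K) (t : K),
      (∀ x y : K, ‖ι x‖ ≤ ‖ι y‖ ↔ V.valuation x ≤ V.valuation y) ∧ ResK ι ∧
      (Base fun i => ι (u i)) ∧
      (∀ z : K, z ≠ 0 → ∃ g : G r, ‖ι z‖ = ‖mon (fun i => ι (u i)) g‖) ∧
      Algebra.IsSeparable (IntermediateField.adjoin k (insert t (Set.range u))) K ∧
      (∀ (y : K) (ε : ℝ), 0 < ε →
        ∃ e ∈ IntermediateField.adjoin k (insert t (Set.range u)), ‖ι y - ι e‖ < ε) ∧
      (∀ i, ‖ι (u i)‖ < 1) ∧ t ≠ 0 ∧ ‖ι t‖ < 1 := by
  classical
  obtain ⟨Ω, _, _, _, _, _, ι, hR, hι⟩ :=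
    exists_omega_s (k := k) p V hV (Main_ne_top V (by rw [hrk]; exact hr0)) harch hres
  have hBk : Big k Ω := big_of_tower k (SeparableClosure k)
  have hresK : ResK ι := resK_of_val V ι hι hres
  have hsg : SG k K := sg_of_res p hresK
  obtain ⟨y0, hy0, hyI⟩ := exists_basis (k := k) V ι hι r hfg hrk
  obtain ⟨u, x0, hnorm, hu, hsep⟩ := exists_u hsg p ι hr0 hr y0 hy0
  have hmon : ∀ g, ‖mon (fun i => ι (u i)) g‖ = ‖mon (fun i => ι (y0 i)) g‖ := by
    intro g
    simp only [mon, norm_prod, norm_zpow, hnorm]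
  have hI : ∀ z : K, z ≠ 0 → ∃ g, ‖ι z‖ = ‖mon (fun i => ι (u i)) g‖ := by
    intro z hz
    obtain ⟨g, hg⟩ := hyI z hz
    exact ⟨g, hg.trans (hmon g).symm⟩
  obtain ⟨t, hsept, hdense⟩ := exists_gen_s (ks := SeparableClosure k) hsg p hR ι hresK hr0 hr u hu
    hI x0 hsep
  -- normalization
  have hwt : ∀ i : Fin r, ‖ι (u i)‖ ≠ 1 := by
    intro i h1
    have h2 : wt (fun i => ι (u i)) (Pi.single i 1) = wt (fun i => ι (u i)) 0 := by
      have h3 : ‖mon (fun i => ι (u i)) (Pi.single i 1)‖ = ‖mon (fun i => ι (u i)) 0‖ := by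
        rw [mon_zero, norm_one, mon, Finset.prod_eq_single i]
        · simpa using h1
        · intro j _ hj
          simp [hj]
        · simp
      rw [norm_mon hu.ne, norm_mon hu.ne, Real.exp_eq_exp, neg_inj] at h3
      exact h3
    have h4 := congrFun (hu.inj h2) i
    simp at h4
  let e : Fin r → ℤ := fun i => if ‖ι (u i)‖ < 1 then 1 else -1
  have he : ∀ i, e i = 1 ∨ e i = -1 := by
    intro i
    by_cases h : ‖ι (u i)‖ < 1
    · left; exact if_pos h
    · right; exact if_neg h
  have hee : ∀ i, e i * e i = 1 := by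
    intro i
    rcases he i with h | h <;> rw [h] <;> norm_num
  let u' : Fin r → K := fun i => u i ^ e i
  have hu'v : ∀ i, ι (u' i) = ι (u i) ^ e i := fun i => map_zpow₀ ι _ _
  have hmon' : ∀ g : G r, mon (fun i => ι (u' i)) g = mon (fun i => ι (u i)) (fun i => e i * g i) := by
    intro g
    simp only [mon, hu'v]
    exact Finset.prod_congr rfl fun i _ => (zpow_mul _ _ _).symm
  have hu'ne : ∀ i, ι (u' i) ≠ 0 := fun i => by
    rw [hu'v]; exact zpow_ne_zero _ (hu.ne i)
  have hu'B : Base fun i => ι (u' i) := by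
    refine ⟨hu'ne, fun a b hab => ?_⟩
    have h1 : ‖mon (fun i => ι (u' i)) a‖ = ‖mon (fun i => ι (u' i)) b‖ := by
      rw [norm_mon hu'ne, norm_mon hu'ne, hab]
    rw [hmon', hmon', norm_mon hu.ne, norm_mon hu.ne, Real.exp_eq_exp, neg_inj] at h1
    have h2 := hu.inj h1
    funext i
    have h3 := congrFun h2 i
    have h4 : e i * (e i * a i) = e i * (e i * b i) := congrArg (fun z => e i * z) h3
    rwa [← mul_assoc, ← mul_assoc, hee, one_mul, one_mul] at h4
  have hu'lt : ∀ i, ‖ι (u' i)‖ < 1 := by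
    intro i
    rw [hu'v, norm_zpow]
    by_cases h : ‖ι (u i)‖ < 1
    · have h1 : e i = 1 := if_pos h
      rw [h1, zpow_one]
      exact h
    · have h1 : e i = -1 := if_neg h
      rw [h1, zpow_neg, zpow_one]
      exact inv_lt_one_of_one_lt₀ (lt_of_le_of_ne (not_lt.1 h) (Ne.symm (hwt i)))
  have hI' : ∀ z : K, z ≠ 0 → ∃ g, ‖ι z‖ = ‖mon (fun i => ι (u' i)) g‖ := by
    intro z hz
    obtain ⟨g, hg⟩ := hI z hz
    refine ⟨fun i => e i * g i, ?_⟩
    rw [hg, hmon']
    congr 2
    funext i
    change g i = e i * (e i * g i)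
    rw [← mul_assoc, hee, one_mul]
  -- normalization of `t`
  obtain ⟨t', ht'0, ht'1, ht'⟩ : ∃ t' : K, t' ≠ 0 ∧ ‖ι t'‖ < 1 ∧
      IntermediateField.adjoin k {t'} = IntermediateField.adjoin k {t} := by
    have hind := Main_indep hr u t inferInstance
    have htr : Transcendental k t := hind.transcendental none
    have htk : ∀ c : k, t ≠ algebraMap k K c := fun c h => htr (h ▸ isAlgebraic_algebraMap c)
    by_cases h1 : ‖ι t‖ ≤ 1
    · obtain ⟨c, hc⟩ := hresK t h1
      refine ⟨t - algebraMap k K c, sub_ne_zero.2 (htk c), ?_, ?_⟩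
      · rw [map_sub, ι.commutes]
        exact hc
      · apply le_antisymm
        · rw [IntermediateField.adjoin_simple_le_iff]
          exact sub_mem (IntermediateField.mem_adjoin_simple_self k t)
            (IntermediateField.algebraMap_mem _ c)
        · rw [IntermediateField.adjoin_simple_le_iff]
          have h2 : t = (t - algebraMap k K c) + algebraMap k K c := by ring
          have h3 : (t - algebraMap k K c) + algebraMap k K c ∈
              IntermediateField.adjoin k {t - algebraMap k K c} :=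
            add_mem (IntermediateField.mem_adjoin_simple_self k _)
              (IntermediateField.algebraMap_mem _ c)
          rwa [← h2] at h3
    · have ht0 : t ≠ 0 := fun h => htk 0 (by rw [h, map_zero])
      refine ⟨t⁻¹, inv_ne_zero ht0, ?_, ?_⟩
      · rw [map_inv₀, norm_inv]
        exact inv_lt_one_of_one_lt₀ (not_le.1 h1)
      · apply le_antisymm
        · rw [IntermediateField.adjoin_simple_le_iff]
          exact inv_mem (IntermediateField.mem_adjoin_simple_self k t)
        · rw [IntermediateField.adjoin_simple_le_iff]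
          have h3 := inv_mem (IntermediateField.mem_adjoin_simple_self k t⁻¹)
          rwa [inv_inv] at h3
  have hadju : IntermediateField.adjoin k (Set.range u') =
      IntermediateField.adjoin k (Set.range u) := by
    apply le_antisymm
    · rw [IntermediateField.adjoin_le_iff]
      rintro _ ⟨i, rfl⟩
      exact zpow_mem (IntermediateField.subset_adjoin k _ (Set.mem_range_self i)) _
    · rw [IntermediateField.adjoin_le_iff]
      rintro _ ⟨i, rfl⟩
      have h1 : u i = u' i ^ e i := by
        change u i = (u i ^ e i) ^ e i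
        rw [← zpow_mul, hee, zpow_one]
      rw [h1]
      exact zpow_mem (IntermediateField.subset_adjoin k _ (Set.mem_range_self i)) _
  have hadj : IntermediateField.adjoin k (insert t' (Set.range u')) =
      IntermediateField.adjoin k (insert t (Set.range u)) := by
    rw [Set.insert_eq, Set.insert_eq, IntermediateField.adjoin_union,
      IntermediateField.adjoin_union, ht', hadju]
  refine ⟨Ω, inferInstance, inferInstance, hBk, ι, u', t', hι, hresK, hu'B, hI', ?_, ?_, hu'lt,
    ht'0, ht'1⟩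
  · rw [hadj]; exact hsept
  · rw [hadj]; exact hdense

/-- Everything in terms of the valuation ring: `K` has a subfield `k(u,t)`, `u_i` with values a basis
of the value group, `K/k(u,t)` separable and `k(u,t)` dense, with monomialization in `k(u,t)`. -/
theorem luw_gen (p : ℕ) [Fact p.Prime] [CharP k p] (V : ValuationSubring K)
    (hV : ∀ c : k, algebraMap k K c ∈ V) (harch : MulArchimedean V.ValueGroup)
    (hres : ∀ x ∈ V, ∃ c : k, V.valuation (x - algebraMap k K c) < 1)
    (hfg : Group.FG (V.ValueGroup)ˣ) (r : ℕ)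
    (hrk : Module.finrank ℤ (Additive (V.ValueGroup)ˣ) = r)
    (hr : Algebra.trdeg k K = (r + 1 : ℕ)) (hr0 : 0 < r) :
    ∃ (u : Fin r → K) (t : K),
      (∀ i, u i ≠ 0 ∧ V.valuation (u i) < 1) ∧ t ≠ 0 ∧ V.valuation t < 1 ∧
      (∀ z : K, z ≠ 0 → ∃! g : Fin r → ℤ, V.valuation z = V.valuation (∏ i, u i ^ g i)) ∧
      Algebra.IsSeparable (IntermediateField.adjoin k (insert t (Set.range u))) K ∧
      FiniteDimensional (IntermediateField.adjoin k (insert t (Set.range u))) K ∧
      LX.DenseF V (IntermediateField.adjoin k (insert t (Set.range u))) ∧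
      LX.MonF V (IntermediateField.adjoin k (insert t (Set.range u))) (r + 1) := by
  classical
  obtain ⟨Ω, _, _, _, ι, u, t, hι, hresK, hu, hI, hsept, hdense, hu1, ht0, ht1⟩ :=
    luw_data p V hV harch hres hfg r hrk hr hr0
  have halg : Algebra.IsAlgebraic (IntermediateField.adjoin k (insert t (Set.range u))) K :=
    inferInstance
  have hfd := Main_fd (IntermediateField.adjoin k (insert t (Set.range u))) halg
  have hind := Main_indep hr u t halg
  have hev : ∀ P : A k _, P ≠ 0 → ev hu.ne (ι t) P ≠ 0 := Main_ev_ne ι u t hu.ne hind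
  have hImm : Imm (k := k) (fun i => ι (u i)) (cl k (Set.range ι)) := imm_cl hresK u hu hI
  obtain ⟨c, g, hexp⟩ := exists_expn hu (L := cl k (Set.range ι)) (t := ι t)
    (fun i => subset_cl _ ⟨u i, rfl⟩) hImm (subset_cl _ ⟨t, rfl⟩) (by
      intro P hP h
      have h1 : ev hu.ne (ι t) P = ev hu.ne 0 P := by
        rw [ev_eq_sum, ev_eq_sum]
        refine Finset.sum_congr rfl fun q hq => ?_
        rw [hP q hq, pow_zero, pow_zero]
      refine hev (P - mono 0 1 1) ?_ ?_
      · intro h2
        have h3 : P = mono 0 1 1 := sub_eq_zero.1 h2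
        have h4 : ((0, 1) : Ex _) ∈ P.coeff.support := by
          rw [h3, mono]
          simp
        have h5 := hP _ h4
        exact one_ne_zero h5
      · rw [map_sub, h1, h, ev_mono, mon_zero]
        simp)
  have hlt : ∀ x z : K, ‖ι x‖ < ‖ι z‖ ↔ V.valuation x < V.valuation z := by
    intro x z
    rw [← not_le, ← not_le, hι]
  have hlt1 : ∀ x : K, ‖ι x‖ < 1 → V.valuation x < 1 := by
    intro x hx
    rw [← V.valuation.map_one, ← hlt, map_one, norm_one]
    exact hx
  have heq : ∀ x z : K, ‖ι x‖ = ‖ι z‖ ↔ V.valuation x = V.valuation z := by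
    intro x z
    constructor
    · intro h
      exact le_antisymm ((hι _ _).1 h.le) ((hι _ _).1 h.ge)
    · intro h
      exact le_antisymm ((hι _ _).2 h.le) ((hι _ _).2 h.ge)
  have hmonι : ∀ g : G r, mon (fun i => ι (u i)) g = ι (∏ i, u i ^ g i) := by
    intro g
    rw [map_prod, mon]
    exact Finset.prod_congr rfl fun i _ => (map_zpow₀ ι _ _).symm
  refine ⟨u, t, fun i => ⟨fun h => hu.ne i (by rw [h, map_zero]), hlt1 _ (hu1 i)⟩, ht0,
    hlt1 _ ht1, ?_, hsept, hfd, ?_, ?_⟩
  · -- basis
    intro z hz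
    obtain ⟨g, hg⟩ := hI z hz
    refine ⟨g, ?_, ?_⟩
    · change V.valuation z = V.valuation (∏ i, u i ^ g i)
      rw [← heq, ← hmonι]
      exact hg
    · intro g' hg'
      change V.valuation z = V.valuation (∏ i, u i ^ g' i) at hg'
      rw [← heq, ← hmonι] at hg'
      rw [hg, norm_mon hu.ne, norm_mon hu.ne, Real.exp_eq_exp, neg_inj] at hg'
      exact (hu.inj hg').symm
  · -- density
    intro z w hw
    have hw' : 0 < ‖ι w‖ := norm_pos_iff.2 ((_root_.map_ne_zero ι).2 hw)
    obtain ⟨e, he, h1⟩ := hdense z ‖ι w‖ hw'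
    refine ⟨e, he, (hlt _ _).1 ?_⟩
    rw [map_sub]
    exact h1
  · -- monomialization
    intro Z hZ
    obtain ⟨s, hs1, hsE, hsZ⟩ := slu_mon ι u hu t hexp hev Z hZ
    refine ⟨s, fun i => ⟨(hs1 i).1, hlt1 _ (hs1 i).2⟩, hsE, fun z hz => ?_⟩
    obtain ⟨a, N, D, h1, h2, h3, h4⟩ := hsZ z hz
    refine ⟨a, N, D, h1, h2, h3, fun h5 => h4 ?_⟩
    have h6 := (hι z 1).2 (by rw [map_one]; exact h5)
    rwa [map_one, norm_one] at h6

/-- Strong local uniformization over an arbitrary field of characteristic `p`: rank one, residue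
field `k`, finitely generated value group of rank `n - 1`. -/
theorem luw_strong (p : ℕ) [Fact p.Prime] [CharP k p] (V : ValuationSubring K)
    (hV : ∀ c : k, algebraMap k K c ∈ V) (harch : MulArchimedean V.ValueGroup)
    (hres : ∀ x ∈ V, ∃ c : k, V.valuation (x - algebraMap k K c) < 1)
    (hfg : Group.FG (V.ValueGroup)ˣ)
    (hr : Algebra.trdeg k K = (Module.finrank ℤ (Additive (V.ValueGroup)ˣ) + 1 : ℕ))
    (hr0 : 0 < Module.finrank ℤ (Additive (V.ValueGroup)ˣ)) :
    LX.StrongUnif k V := by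
  obtain ⟨u, t, hu, -, -, -, hsep, hfd, hd, hm⟩ := luw_gen p V hV harch hres hfg _ rfl hr hr0
  exact LX.strong_of_dense V hV _ hr (IntermediateField.adjoin k (insert t (Set.range u)))
    hsep ⟨u ⟨0, hr0⟩, hu _⟩ harch hd hm

end LUW
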