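import Pool.Agent.LUW.Basic

/-! Project LUW: (W1) the norm of a sum with independent constants. -/

set_option autoImplicit false

namespace LUW

variable {k ks K : Type*} [Field k] [Field ks] [Algebra k ks] [Field K] [Algebra k K]
  {Ω : Type*} [NormedField Ω] [Algebra k Ω] [Algebra ks Ω] [IsScalarTower k ks Ω]

/-- The residue field of the image of `K` is `k`. -/
def ResK (ι : K →ₐ[k] Ω) : Prop :=
  ∀ x : K, ‖ι x‖ ≤ 1 → ∃ c : k, ‖ι x - algebraMap k Ω c‖ < 1

omit [Field k] [Algebra k ks] [Algebra k Ω] [IsScalarTower k ks Ω] in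
private theorem sum_lt' [Big ks Ω] {J : Type*} (s : Finset J) (f : J → Ω) {B : ℝ} (hB : 0 < B)
    (h : ∀ i ∈ s, ‖f i‖ < B) : ‖∑ i ∈ s, f i‖ < B := by
  classical
  induction s using Finset.induction_on with
  | empty => simpa using hB
  | insert a s ha ih =>
    rw [Finset.sum_insert ha]
    exact (Big.add_le ks _ _).trans_lt (max_lt (h a (Finset.mem_insert_self _ _))
      (ih fun i hi => h i (Finset.mem_insert_of_mem hi)))

/-- Leading form of a sum `∑ ω_i y_i` with `ω_i ∈ ks` linearly independent over `k`, `y_i ∈ K`: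
if `y i0` has maximal norm, then the sum is `d * y i0` up to smaller terms, `d ∈ ks`, `d ≠ 0`.
Proof: `y_i / y_i0 = c_i + small`, `c_i ∈ k`, `c_i0 = 1`; `d = ∑ c_i ω_i ≠ 0`. -/
theorem lead_sum [Big ks Ω] {ι : K →ₐ[k] Ω} (hres : ResK ι) {J : Type*} [Fintype J]
    (ω : J → ks) (hω : LinearIndependent k ω) (y : J → K) (i0 : J) (h0 : y i0 ≠ 0)
    (hmax : ∀ i, ‖ι (y i)‖ ≤ ‖ι (y i0)‖) :
    ∃ d : ks, d ≠ 0 ∧ ‖∑ i, algebraMap ks Ω (ω i) * ι (y i) - algebraMap ks Ω d * ι (y i0)‖ <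
      ‖ι (y i0)‖ := by
  classical
  have hι0 : ι (y i0) ≠ 0 := fun h => h0 ((map_eq_zero_iff ι ι.toRingHom.injective).1 h)
  have hpos : 0 < ‖ι (y i0)‖ := norm_pos_iff.2 hι0
  have h1 : ∀ i, ∃ c : k, (i = i0 → c = 1) ∧ ‖ι (y i / y i0) - algebraMap k Ω c‖ < 1 := by
    intro i
    by_cases hi : i = i0
    · refine ⟨1, fun _ => rfl, ?_⟩
      rw [hi, div_self h0, map_one, map_one, sub_self, norm_zero]
      exact one_pos
    · have h2 : ‖ι (y i / y i0)‖ ≤ 1 := by
        rw [map_div₀, norm_div]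
        exact div_le_one_of_le₀ (hmax i) hpos.le
      obtain ⟨c, hc⟩ := hres _ h2
      exact ⟨c, fun h => absurd h hi, hc⟩
  choose c hc1 hc using h1
  refine ⟨∑ i, c i • ω i, ?_, ?_⟩
  · intro hz
    have h2 := Fintype.linearIndependent_iff.1 hω c hz i0
    rw [hc1 i0 rfl] at h2
    exact one_ne_zero h2
  · have h3 : ∑ i, algebraMap ks Ω (ω i) * ι (y i) - algebraMap ks Ω (∑ i, c i • ω i) * ι (y i0) =
        ∑ i, algebraMap ks Ω (ω i) * ((ι (y i / y i0) - algebraMap k Ω (c i)) * ι (y i0)) := by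
      rw [map_sum, Finset.sum_mul, ← Finset.sum_sub_distrib]
      refine Finset.sum_congr rfl fun i _ => ?_
      rw [Algebra.smul_def, map_mul, ← IsScalarTower.algebraMap_apply k ks Ω, map_div₀]
      field_simp
    rw [h3]
    refine sum_lt' (ks := ks) _ _ hpos fun i _ => ?_
    rw [norm_mul, norm_mul]
    have h4 := Big.norm_c_le ks (Ω := Ω) (ω i)
    have h5 : ‖ι (y i / y i0) - algebraMap k Ω (c i)‖ * ‖ι (y i0)‖ < 1 * ‖ι (y i0)‖ :=
      mul_lt_mul_of_pos_right (hc i) hpos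
    rw [one_mul] at h5
    refine lt_of_le_of_lt ?_ h5
    exact mul_le_of_le_one_left (by positivity) h4

/-- The norm of a sum with independent constants is the maximum of the norms. -/
theorem norm_le_sum [Big ks Ω] {ι : K →ₐ[k] Ω} (hres : ResK ι) {J : Type*} [Fintype J]
    (ω : J → ks) (hω : LinearIndependent k ω) (y : J → K) (j : J) :
    ‖ι (y j)‖ ≤ ‖∑ i, algebraMap ks Ω (ω i) * ι (y i)‖ := by
  haveI : Nonempty J := ⟨j⟩
  obtain ⟨i0, hi0⟩ := Finite.exists_max fun i => ‖ι (y i)‖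
  by_cases h0 : y i0 = 0
  · have h1 := hi0 j
    rw [h0, map_zero, norm_zero] at h1
    exact h1.trans (norm_nonneg _)
  · obtain ⟨d, hd, hlt⟩ := lead_sum hres ω hω y i0 h0 hi0
    have h1 : ‖algebraMap ks Ω d * ι (y i0)‖ = ‖ι (y i0)‖ := by
      rw [norm_mul, Big.norm_k d hd, one_mul]
    have h2 := Big.norm_eq ks (x := ∑ i, algebraMap ks Ω (ω i) * ι (y i))
      (y := algebraMap ks Ω d * ι (y i0)) (by rw [h1]; exact hlt)
    rw [h2, h1]
    exact hi0 j

/-- Two families of independent constants give the same norm. -/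
theorem norm_sum_eq [Big ks Ω] {ι : K →ₐ[k] Ω} (hres : ResK ι) {J : Type*} [Fintype J]
    (ω ω' : J → ks) (hω : LinearIndependent k ω) (hω' : LinearIndependent k ω') (y : J → K) :
    ‖∑ i, algebraMap ks Ω (ω i) * ι (y i)‖ = ‖∑ i, algebraMap ks Ω (ω' i) * ι (y i)‖ := by
  have key : ∀ ω ω' : J → ks, LinearIndependent k ω' →
      ‖∑ i, algebraMap ks Ω (ω i) * ι (y i)‖ ≤ ‖∑ i, algebraMap ks Ω (ω' i) * ι (y i)‖ := by
    intro ω ω' h'
    refine Big.sum_le ks _ _ (norm_nonneg _) fun i _ => ?_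
    rw [norm_mul]
    calc ‖algebraMap ks Ω (ω i)‖ * ‖ι (y i)‖ ≤ 1 * ‖ι (y i)‖ :=
          mul_le_mul_of_nonneg_right (Big.norm_c_le ks (ω i)) (norm_nonneg _)
      _ = ‖ι (y i)‖ := one_mul _
      _ ≤ _ := norm_le_sum hres ω' h' y i
  exact le_antisymm (key ω ω' hω') (key ω' ω hω)

end LUW
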