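import Pool.Agent.LUW.Defs

/-! Project LUW: (E4a) Perron algorithm. -/

set_option autoImplicit false

namespace LUW

open Polynomial

universe u

section meas

variable {ι : Type*} [DecidableEq ι]

/-- termination measure -/
noncomputable def PW_meas (N : Finset ι) (b : ι → ℤ) : ℕ ×ₗ (ℕ ×ₗ (ℕ ×ₗ ℕ)) :=
  toLex (N.card, toLex (N.sup (fun l => (-b l).toNat), toLex
    ((N.filter (fun l => (-b l).toNat = N.sup (fun l => (-b l).toNat))).card,
     ∑ l ∈ N, (b l).toNat)))

theorem PW_meas_lt_a {N : Finset ι} {b : ι → ℤ} {i j : ι} (hi : i ∈ N) (hj : j ∈ N)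
    (hm : (-b i).toNat = N.sup (fun l => (-b l).toNat)) (hbi : b i < 0) (hbj : 0 < b j) :
    PW_meas N (fun t => b t + if t = j then b i else 0) < PW_meas N b := by
  have hij : i ≠ j := by rintro rfl; omega
  have hle : ∀ l ∈ N, (-b l).toNat ≤ (-b i).toNat := by
    intro l hl
    rw [hm]
    exact Finset.le_sup (f := fun l => (-b l).toNat) hl
  have hsup : N.sup (fun l => (-(b l + if l = j then b i else 0)).toNat) = (-b i).toNat := by
    apply le_antisymm
    · apply Finset.sup_le
      intro l hl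
      by_cases h : l = j
      · subst h
        rw [if_pos rfl]
        omega
      · rw [if_neg h, add_zero]
        exact hle l hl
    · have := Finset.le_sup (f := fun l => (-(b l + if l = j then b i else 0)).toNat) hi
      simpa [hij] using this
  rw [PW_meas, PW_meas, Prod.Lex.toLex_lt_toLex]
  right
  refine ⟨rfl, ?_⟩
  simp only
  rw [Prod.Lex.toLex_lt_toLex]
  right
  simp only
  refine ⟨by rw [hsup, hm], ?_⟩
  rw [Prod.Lex.toLex_lt_toLex]
  right
  simp only
  refine ⟨?_, ?_⟩
  · rw [hsup, ← hm]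
    congr 1
    apply Finset.filter_congr
    intro l hl
    by_cases h : l = j
    · subst h
      rw [if_pos rfl]
      constructor <;> intro h' <;> omega
    · rw [if_neg h, add_zero]
  · apply Finset.sum_lt_sum
    · intro l hl
      split_ifs <;> omega
    · exact ⟨j, hj, by rw [if_pos rfl]; omega⟩

theorem PW_meas_lt_b {N : Finset ι} {b : ι → ℤ} {i j : ι} (hi : i ∈ N)
    (hm : (-b i).toNat = N.sup (fun l => (-b l).toNat)) (hbi : b i < 0) (hbj : 0 < b j) :
    PW_meas N (fun t => b t + if t = i then b j else 0) < PW_meas N b := by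
  have hle : ∀ l ∈ N, (-b l).toNat ≤ (-b i).toNat := by
    intro l hl
    rw [hm]
    exact Finset.le_sup (f := fun l => (-b l).toNat) hl
  have hsup : N.sup (fun l => (-(b l + if l = i then b j else 0)).toNat) ≤ (-b i).toNat := by
    apply Finset.sup_le
    intro l hl
    by_cases h : l = i
    · subst h
      rw [if_pos rfl]
      omega
    · rw [if_neg h, add_zero]
      exact hle l hl
  rw [PW_meas, PW_meas, Prod.Lex.toLex_lt_toLex]
  right
  refine ⟨rfl, ?_⟩
  simp only
  rw [Prod.Lex.toLex_lt_toLex]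
  rw [← hm]
  rcases lt_or_eq_of_le hsup with h | h
  · exact Or.inl h
  right
  refine ⟨h, ?_⟩
  simp only
  rw [Prod.Lex.toLex_lt_toLex]
  left
  simp only
  apply Finset.card_lt_card
  rw [Finset.ssubset_iff_of_subset]
  · refine ⟨i, Finset.mem_filter.2 ⟨hi, rfl⟩, ?_⟩
    intro hcon
    have := (Finset.mem_filter.1 hcon).2
    rw [if_pos rfl, h] at this
    omega
  · intro l hl
    rw [Finset.mem_filter] at hl ⊢
    refine ⟨hl.1, ?_⟩
    have h2 := hl.2
    rw [h] at h2
    by_cases hli : l = i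
    · rw [hli]
    · rwa [if_neg hli, add_zero] at h2

end meas

/-- the shear which adds the coordinate `j` to the coordinate `i` -/
def PW_shear {r : ℕ} (i j : Fin r) (h : i ≠ j) : (Fin r → ℤ) ≃ₗ[ℤ] (Fin r → ℤ) where
  toFun x := fun t => x t + if t = i then x j else 0
  invFun x := fun t => x t - if t = i then x j else 0
  map_add' x y := by
    funext t
    simp only [Pi.add_apply]
    split_ifs <;> ring
  map_smul' c x := by
    funext t
    simp only [Pi.smul_apply, smul_eq_mul, RingHom.id_apply]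
    split_ifs <;> ring
  left_inv x := by
    funext t
    simp only [if_neg h.symm]
    split_ifs <;> ring
  right_inv x := by
    funext t
    simp only [if_neg h.symm]
    split_ifs <;> ring

/-- change of signs -/
def PW_sign {r : ℕ} (s : Fin r → ℤ) (hs : ∀ i, s i * s i = 1) :
    (Fin r → ℤ) ≃ₗ[ℤ] (Fin r → ℤ) where
  toFun x := fun t => s t * x t
  invFun x := fun t => s t * x t
  map_add' x y := by
    funext t
    simp only [Pi.add_apply]
    ring
  map_smul' c x := by
    funext t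
    simp only [Pi.smul_apply, smul_eq_mul, RingHom.id_apply]
    ring
  left_inv x := by
    funext t
    simp only [← mul_assoc, hs, one_mul]
  right_inv x := by
    funext t
    simp only [← mul_assoc, hs, one_mul]

/-- the basis vectors for the coordinates `e` -/
def PW_vec {r : ℕ} (e : G r ≃ₗ[ℤ] (Fin r → ℤ)) (i : Fin r) : G r :=
  e.symm (Pi.single i 1)

theorem PW_vec_ne {r : ℕ} (e : G r ≃ₗ[ℤ] (Fin r → ℤ)) {i j : Fin r} (h : i ≠ j) :
    PW_vec e i ≠ PW_vec e j := by
  intro h1
  have h2 := congrFun (e.symm.injective h1) i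
  rw [Pi.single_eq_same, Pi.single_eq_of_ne h] at h2
  exact one_ne_zero h2

theorem PW_vec_shear {r : ℕ} (e : G r ≃ₗ[ℤ] (Fin r → ℤ)) (i j : Fin r) (h : i ≠ j) (t : Fin r) :
    PW_vec (e.trans (PW_shear i j h)) t =
      if t = j then PW_vec e j - PW_vec e i else PW_vec e t := by
  have h1 : (PW_shear i j h).symm (Pi.single t 1) =
      if t = j then Pi.single j 1 - Pi.single i 1 else Pi.single t 1 := by
    funext s
    change (Pi.single t (1 : ℤ) : Fin r → ℤ) s - (if s = i then (Pi.single t (1 : ℤ) : Fin r → ℤ) j else 0) = _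
    by_cases ht : t = j
    · subst ht
      rw [if_pos rfl, Pi.sub_apply, Pi.single_eq_same]
      by_cases hs : s = i
      · subst hs
        rw [if_pos rfl, Pi.single_eq_same]
      · rw [if_neg hs, Pi.single_eq_of_ne hs]
    · rw [if_neg ht, Pi.single_eq_of_ne (Ne.symm ht)]
      simp
  change e.symm ((PW_shear i j h).symm (Pi.single t 1)) = _
  rw [h1]
  split_ifs
  · rw [map_sub]
    rfl
  · rfl

theorem PW_sum {r : ℕ} (wt : G r →+ ℝ) (e : G r ≃ₗ[ℤ] (Fin r → ℤ)) (a : G r) :
    wt a = ∑ t, (e a t : ℝ) * wt (PW_vec e t) := by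
  have h1 : a = ∑ t, e a t • PW_vec e t := by
    have h2 := (Module.Basis.ofEquivFun e).sum_repr a
    rw [← h2]
    refine (congrArg _ ?_)
    funext t
    rw [h2]
    simp [PW_vec]
  conv_lhs => rw [h1]
  rw [map_sum]
  refine Finset.sum_congr rfl fun t _ => ?_
  rw [map_zsmul, zsmul_eq_mul]

theorem PW_one {r : ℕ} (wt : G r →+ ℝ) (hinj : Function.Injective wt) (a : G r)
    (ha : 0 < wt a) : ∀ e : G r ≃ₗ[ℤ] (Fin r → ℤ), (∀ i, 0 < wt (PW_vec e i)) →
    ∃ e' : G r ≃ₗ[ℤ] (Fin r → ℤ), (∀ i, 0 < wt (PW_vec e' i)) ∧ (∀ t, 0 ≤ e' a t) ∧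
      ∀ a', (∀ t, 0 ≤ e a' t) → ∀ t, 0 ≤ e' a' t := by
  suffices H : ∀ (w : ℕ ×ₗ (ℕ ×ₗ (ℕ ×ₗ ℕ))) (e : G r ≃ₗ[ℤ] (Fin r → ℤ)),
      (∀ i, 0 < wt (PW_vec e i)) → PW_meas Finset.univ (e a) = w →
      ∃ e' : G r ≃ₗ[ℤ] (Fin r → ℤ), (∀ i, 0 < wt (PW_vec e' i)) ∧ (∀ t, 0 ≤ e' a t) ∧
        ∀ a', (∀ t, 0 ≤ e a' t) → ∀ t, 0 ≤ e' a' t from
    fun e h => H _ e h rfl
  intro w
  induction w using WellFoundedLT.induction with
  | ind w ih =>
  intro e h hw
  subst hw
  by_cases hg : ∀ t, 0 ≤ e a t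
  · exact ⟨e, h, hg, fun _ h => h⟩
  push Not at hg
  obtain ⟨i0, hi0⟩ := hg
  obtain ⟨i, hi, him⟩ := Finset.exists_mem_eq_sup (Finset.univ : Finset (Fin r))
    ⟨i0, Finset.mem_univ _⟩ (fun l => (-(e a) l).toNat)
  have hbi : (e a) i < 0 := by
    have := Finset.le_sup (f := fun l => (-(e a) l).toNat) (Finset.mem_univ i0)
    rw [him] at this
    omega
  obtain ⟨j, hbj⟩ : ∃ j, 0 < e a j := by
    by_contra hcon
    push Not at hcon
    have h1 := PW_sum wt e a
    have h2 : ∑ t, (e a t : ℝ) * wt (PW_vec e t) ≤ 0 := by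
      refine Finset.sum_nonpos fun t _ => ?_
      have h3 : (e a t : ℝ) ≤ 0 := by exact_mod_cast hcon t
      exact mul_nonpos_of_nonpos_of_nonneg h3 (h t).le
    linarith
  have hij : i ≠ j := by rintro rfl; omega
  have hne : wt (PW_vec e i) ≠ wt (PW_vec e j) := fun h1 => PW_vec_ne e hij (hinj h1)
  -- one step
  have step : ∀ i' j' : Fin r, ∀ hne' : i' ≠ j', wt (PW_vec e i') < wt (PW_vec e j') →
      PW_meas Finset.univ (fun t => (e a) t + if t = i' then (e a) j' else 0) <
        PW_meas Finset.univ (e a) →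
      ∃ e' : G r ≃ₗ[ℤ] (Fin r → ℤ), (∀ i, 0 < wt (PW_vec e' i)) ∧ (∀ t, 0 ≤ e' a t) ∧
        ∀ a', (∀ t, 0 ≤ e a' t) → ∀ t, 0 ≤ e' a' t := by
    intro i' j' hne' hlt hm
    have h2 : ∀ t, 0 < wt (PW_vec (e.trans (PW_shear i' j' hne')) t) := by
      intro t
      rw [PW_vec_shear]
      split_ifs
      · rw [map_sub]
        linarith
      · exact h t
    obtain ⟨e', h4, h5, h6⟩ := ih _ hm (e.trans (PW_shear i' j' hne')) h2 rfl
    refine ⟨e', h4, h5, fun a' ha' => h6 a' fun t => ?_⟩
    change 0 ≤ (e a') t + if t = i' then (e a') j' else 0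
    have h7 := ha' t
    have h8 := ha' j'
    split_ifs <;> omega
  rcases lt_or_gt_of_ne hne with h1 | h1
  · exact step i j hij h1 (PW_meas_lt_b hi him.symm hbi hbj)
  · exact step j i hij.symm h1 (PW_meas_lt_a hi (Finset.mem_univ j) him.symm hbi hbj)

/-- Perron's algorithm for independent real weights. -/
theorem perron_wt {r : ℕ} (wt : G r →+ ℝ) (hinj : Function.Injective wt) (T : Finset (G r))
    (hT : ∀ a ∈ T, 0 ≤ wt a) :
    ∃ b : Module.Basis (Fin r) ℤ (G r), (∀ i, 0 < wt (b i)) ∧ ∀ a ∈ T, ∀ i, 0 ≤ b.repr a i := by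
  suffices H : ∃ e : G r ≃ₗ[ℤ] (Fin r → ℤ), (∀ i, 0 < wt (PW_vec e i)) ∧
      ∀ a ∈ T, ∀ i, 0 ≤ e a i by
    obtain ⟨e, h1, h2⟩ := H
    refine ⟨Module.Basis.ofEquivFun e, fun i => ?_, fun a ha i => ?_⟩
    · have h3 : Module.Basis.ofEquivFun e i = PW_vec e i := by simp [PW_vec]
      rw [h3]
      exact h1 i
    · have h3 : (Module.Basis.ofEquivFun e).repr a i = e a i := by simp
      rw [h3]
      exact h2 a ha i
  induction T using Finset.induction_on with
  | empty =>
    let s : Fin r → ℤ := fun i => if 0 < wt (Pi.single i 1) then 1 else -1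
    have hs : ∀ i, s i * s i = 1 := by
      intro i
      simp only [s]
      split_ifs <;> norm_num
    refine ⟨PW_sign s hs, fun i => ?_, by simp⟩
    have h1 : PW_vec (PW_sign s hs) i = s i • (Pi.single i 1 : G r) := by
      change (fun t => s t * (Pi.single i (1 : ℤ) : Fin r → ℤ) t) = _
      funext t
      by_cases ht : t = i
      · subst ht
        simp
      · simp [Pi.single_eq_of_ne ht]
    rw [h1, map_zsmul, zsmul_eq_mul]
    have h2 : wt (Pi.single i 1) ≠ 0 := by
      intro h3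
      have h4 : (Pi.single i 1 : G r) = 0 := hinj (h3.trans (map_zero wt).symm)
      have h5 := congrFun h4 i
      rw [Pi.single_eq_same] at h5
      exact one_ne_zero h5
    simp only [s]
    split_ifs with h3
    · simpa using h3
    · have h4 : wt (Pi.single i 1) < 0 := lt_of_le_of_ne (not_lt.1 h3) h2
      simpa using h4
  | insert a T _ ih =>
    obtain ⟨e, h1, h2⟩ := ih fun b hb => hT b (Finset.mem_insert_of_mem hb)
    by_cases ha0 : a = 0
    · refine ⟨e, h1, fun b hb i => ?_⟩
      rcases Finset.mem_insert.1 hb with rfl | hb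
      · rw [ha0, map_zero]
        exact le_rfl
      · exact h2 b hb i
    · have ha : 0 < wt a := by
        refine lt_of_le_of_ne (hT a (Finset.mem_insert_self _ _)) fun h3 => ha0 ?_
        exact hinj (h3.symm.trans (map_zero wt).symm)
      obtain ⟨e', h3, h4, h5⟩ := PW_one wt hinj a ha e h1
      refine ⟨e', h3, fun b hb i => ?_⟩
      rcases Finset.mem_insert.1 hb with rfl | hb
      · exact h4 i
      · exact h5 b (h2 b hb) i

end LUW
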