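import Pool.Agent.LUW.Slu
import Pool.Agent.helper90.LY.PerronPos

/-! Project LUW: relative monomialization in k(u,t). -/

set_option autoImplicit false

namespace LUW

open Polynomial

universe u

variable {k : Type*} [Field k] {K : Type*} [Field K] [Algebra k K]
  {Ω : Type*} [NormedField Ω] [Algebra k Ω] [Big k Ω] {r : ℕ}

open SluAux

/-- The elements `x` with `H^e x ∈ A` for some `e`. -/
def sluLoc (A : Subalgebra k K) (H : K) (hH : H ∈ A) : Subalgebra k K where
  carrier := {x | ∃ e : ℕ, H ^ e * x ∈ A}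
  mul_mem' := by
    rintro x y ⟨e, he⟩ ⟨f, hf⟩
    refine ⟨e + f, ?_⟩
    have h : H ^ (e + f) * (x * y) = (H ^ e * x) * (H ^ f * y) := by ring
    rw [h]
    exact mul_mem he hf
  one_mem' := ⟨0, by rw [pow_zero, one_mul]; exact one_mem A⟩
  add_mem' := by
    rintro x y ⟨e, he⟩ ⟨f, hf⟩
    refine ⟨e + f, ?_⟩
    have h : H ^ (e + f) * (x + y) = H ^ f * (H ^ e * x) + H ^ e * (H ^ f * y) := by ring
    rw [h]
    exact add_mem (mul_mem (pow_mem hH _) he) (mul_mem (pow_mem hH _) hf)
  zero_mem' := ⟨0, by rw [mul_zero]; exact zero_mem A⟩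
  algebraMap_mem' := fun c => ⟨0, by rw [pow_zero, one_mul]; exact A.algebraMap_mem c⟩

theorem le_sluLoc {A : Subalgebra k K} {H : K} (hH : H ∈ A) {x : K} (hx : x ∈ A) :
    x ∈ sluLoc A H hH := ⟨0, by rw [pow_zero, one_mul]; exact hx⟩

/-- Laurent monomials. -/
theorem monK_sluLoc {A : Subalgebra k K} {u : Fin r → K} (hu0 : ∀ i, u i ≠ 0)
    (huA : ∀ i, u i ∈ A) (b : G r) :
    monK u b ∈ sluLoc A (∏ i, u i) (prod_mem fun i _ => huA i) := by
  classical
  have hinv : ∀ i, (u i)⁻¹ ∈ sluLoc A (∏ i, u i) (prod_mem fun i _ => huA i) := by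
    intro i
    refine ⟨1, ?_⟩
    rw [pow_one, ← Finset.mul_prod_erase _ _ (Finset.mem_univ i), mul_comm (u i), mul_assoc,
      mul_inv_cancel₀ (hu0 i), mul_one]
    exact prod_mem fun j _ => huA j
  rw [monK]
  refine prod_mem fun i _ => ?_
  rcases Int.eq_nat_or_neg (b i) with ⟨n, h | h⟩
  · rw [h, zpow_natCast]
    exact pow_mem (le_sluLoc _ (huA i)) n
  · rw [h, zpow_neg, zpow_natCast, ← inv_pow]
    exact pow_mem (hinv i) n

theorem psumK_sluLoc {A : Subalgebra k K} {u : Fin r → K} (hu0 : ∀ i, u i ≠ 0)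
    (huA : ∀ i, u i ∈ A) (c : ℕ → k) (g : ℕ → G r) (m : ℕ) :
    psumK u c g m ∈ sluLoc A (∏ i, u i) (prod_mem fun i _ => huA i) :=
  sum_mem fun _ _ => mul_mem (Subalgebra.algebraMap_mem _ _) (monK_sluLoc hu0 huA _)

/-- Simultaneous relative monomialization in `k(u,t)`. -/
theorem slu_rel (ι : K →ₐ[k] Ω) (u : Fin r → K) (hu : Base fun i => ι (u i))
    (hu1 : ∀ i, ‖ι (u i)‖ < 1) (t : K) {c : ℕ → k}
    {g : ℕ → G r} (ht : Expn (fun i => ι (u i)) (ι t) c g)
    (hne : ∀ P : A k r, P ≠ 0 → ev hu.ne (ι t) P ≠ 0) (Z : Finset K)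
    (hZ : ∀ z ∈ Z, z ∈ IntermediateField.adjoin k (insert t (Set.range u)) ∧ z ≠ 0) :
    ∃ s : Fin (r + 1) → K, (∀ i, s i ≠ 0 ∧ ‖ι (s i)‖ < 1) ∧
      IntermediateField.adjoin k (Set.range s) =
        IntermediateField.adjoin k (insert t (Set.range u)) ∧
      (∀ z ∈ Z, ∃ (a : Fin (r + 1) → ℤ) (N D : MvPolynomial (Fin (r + 1)) k),
        MvPolynomial.constantCoeff N ≠ 0 ∧ MvPolynomial.constantCoeff D ≠ 0 ∧
        z * MvPolynomial.aeval s D = (∏ i, s i ^ a i) * MvPolynomial.aeval s N ∧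
        (∀ i : Fin (r + 1), r ≤ (i : ℕ) → a i = 0) ∧
        (‖ι z‖ < 1 → ∀ i : Fin (r + 1), (i : ℕ) < r → 1 ≤ a i) ∧ (‖ι z‖ = 1 → a = 0)) ∧
      (∃ a : Fin (r + 1) → ℤ, ∏ i, u i = ∏ i, s i ^ a i ∧
        (∀ i : Fin (r + 1), r ≤ (i : ℕ) → a i = 0) ∧
        (‖ι (∏ i, u i)‖ < 1 → ∀ i : Fin (r + 1), (i : ℕ) < r → 1 ≤ a i) ∧
        (‖ι (∏ i, u i)‖ = 1 → a = 0)) ∧
      ∀ i, ∃ e : ℕ, (∏ i, u i) ^ e * s i ∈ Algebra.adjoin k (insert t (Set.range u)) := by
  classical
  set v : Fin r → Ω := fun i => ι (u i) with hv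
  -- data for each z
  have hdata : ∀ z : K, ∃ (P Q : A k r) (bP bQ : G r) (m0 : ℕ), z ∈ Z → z ≠ 0 →
      ι z * ev hu.ne (ι t) Q = ev hu.ne (ι t) P ∧
      (∀ m ≥ m0, Good (wt v) (c m) (g m) (shift c g m P) bP) ∧
      (∀ m ≥ m0, Good (wt v) (c m) (g m) (shift c g m Q) bQ) ∧
      (‖ι z‖ ≤ 1 → 0 ≤ wt v (bP - bQ)) ∧ (‖ι z‖ < 1 → 0 < wt v (bP - bQ)) ∧
      (‖ι z‖ = 1 → wt v (bP - bQ) = 0) := by
    intro z
    by_cases hz : z ∈ Z ∧ z ≠ 0
    · obtain ⟨hzZ, hz0⟩ := hz
      obtain ⟨hz1, hz2⟩ := hZ z hzZ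
      obtain ⟨P, Q, hQ, hPQ⟩ := exists_ev_div ι u hu.ne t z hz1
      have hιz : ι z ≠ 0 := fun h => hz2 ((map_eq_zero ι).1 h)
      have hP : ev hu.ne (ι t) P ≠ 0 := by rw [← hPQ]; exact mul_ne_zero hιz hQ
      obtain ⟨bP, m1, h1⟩ := good_all hu ht P hP
      obtain ⟨bQ, m2, h2⟩ := good_all hu ht Q hQ
      refine ⟨P, Q, bP, bQ, max m1 m2, fun _ _ => ⟨hPQ, fun m hm => h1 m
        (le_trans (le_max_left _ _) hm), fun m hm => h2 m (le_trans (le_max_right _ _) hm),
        ?_⟩⟩
      have n1 := (good_norm hu ht P _ _ (h1 (max m1 m2) (le_max_left _ _))).1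
      have n2 := (good_norm hu ht Q _ _ (h2 (max m1 m2) (le_max_right _ _))).1
      have n5 : ‖mon v bP‖ = ‖ι z‖ * ‖mon v bQ‖ := by
        rw [← n1, ← n2, ← hPQ, norm_mul]
      have n6 : 0 < ‖mon v bQ‖ := norm_pos_iff.2 (mon_ne hu.ne _)
      refine ⟨fun hz3 => ?_, fun hz3 => ?_, fun hz3 => ?_⟩
      · have n3 : ‖mon v bP‖ ≤ ‖mon v bQ‖ := by
          rw [n5]
          exact mul_le_of_le_one_left (norm_nonneg _) hz3
        have n4 := (norm_mon_le hu.ne).1 n3
        rw [map_sub]
        linarith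
      · have n3 : ‖mon v bP‖ < ‖mon v bQ‖ := by
          rw [n5]
          exact mul_lt_of_lt_one_left n6 hz3
        have n4 := (norm_mon_lt hu.ne).1 n3
        rw [map_sub]
        linarith
      · have n3 : ‖mon v bP‖ = ‖mon v bQ‖ := by
          rw [n5, hz3, one_mul]
        rw [norm_mon hu.ne, norm_mon hu.ne, Real.exp_eq_exp, neg_inj] at n3
        rw [map_sub, n3, sub_self]
    · refine ⟨0, 0, 0, 0, 0, fun h1 h2 => absurd ⟨h1, h2⟩ hz⟩
  choose P Q bP bQ m0 hd using hdata
  -- the common stage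
  obtain ⟨m, hm⟩ : ∃ m, ∀ z ∈ Z, m0 z ≤ m := ⟨Z.sup m0, fun z hz => Finset.le_sup hz⟩
  -- vectors of nonnegative weight
  set T : Finset (G r) := insert (fun _ => 1) ((Z.filter (fun z => z ≠ 0)).biUnion (fun z =>
    (if ‖ι z‖ ≤ 1 then {bP z - bQ z} else ∅) ∪ (((shift c g m (P z)).coeff.support.image
      (fun q => q.1 + q.2 • g m - bP z)) ∪ ((shift c g m (Q z)).coeff.support.image
      (fun q => q.1 + q.2 • g m - bQ z))))) with hT
  have hone : mon v (fun _ => 1) = ι (∏ i, u i) := by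
    rw [mon, map_prod]
    exact Finset.prod_congr rfl fun i _ => zpow_one _
  have hT0 : ∀ a ∈ T, 0 ≤ wt v a := by
    intro a ha
    rw [hT, Finset.mem_insert, Finset.mem_biUnion] at ha
    rcases ha with rfl | ha
    · have h1 : ‖mon v (fun _ => 1)‖ ≤ ‖mon v 0‖ := by
        rw [hone, mon_zero, norm_one, map_prod, norm_prod]
        exact Finset.prod_le_one (fun i _ => norm_nonneg _) fun i _ => (hu1 i).le
      have h2 := (norm_mon_le hu.ne).1 h1
      rwa [map_zero] at h2
    obtain ⟨z, hz, ha⟩ := ha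
    rw [Finset.mem_filter] at hz
    obtain ⟨e1, e2, e3, e4, -, -⟩ := hd z hz.1 hz.2
    rw [Finset.mem_union, Finset.mem_union, Finset.mem_image, Finset.mem_image] at ha
    rcases ha with ha | ⟨q, hq, rfl⟩ | ⟨q, hq, rfl⟩
    · split_ifs at ha with h1
      · rw [Finset.mem_singleton.1 ha]
        exact e4 h1
      · exact absurd ha (Finset.notMem_empty _)
    · have := (e2 m (hm z hz.1)).1 q hq
      rw [lev_add] at this
      rw [map_sub]
      linarith
    · have := (e3 m (hm z hz.1)).1 q hq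
      rw [lev_add] at this
      rw [map_sub]
      linarith
  obtain ⟨b, hb1, hb2, hb3⟩ := LY.perron_pos (wt v) hu.inj T hT0
  -- the new variables
  set w : K := (t - psumK u c g m) / monK u (g m) - algebraMap k K (c m) with hw
  set s : Fin (r + 1) → K := Fin.snoc (fun j => monK u (b j)) w with hs
  have hs1 : ∀ j : Fin r, s (Fin.castSucc j) = monK u (b j) := fun j => by
    rw [hs, Fin.snoc_castSucc (α := fun _ => K)]
  have hs2 : s (Fin.last r) = w := by rw [hs, Fin.snoc_last (α := fun _ => K)]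
  have hιs1 : ∀ j : Fin r, ι (s (Fin.castSucc j)) = mon v (b j) := fun j => by
    rw [hs1, map_monK]
  have hιw : ι w = (ι t - psum v c g m) / mon v (g m) - algebraMap k Ω (c m) := by
    rw [hw, map_sub, map_div₀, map_sub, map_psumK, map_monK, AlgHom.commutes]
  have hmn : mon v (g m) ≠ 0 := mon_ne hu.ne _
  have hιw' : ι w = (ι t - psum v c g (m + 1)) / mon v (g m) := by
    rw [hιw, psum_succ, ← sub_sub, sub_div _ (_ * _), mul_div_assoc, div_self hmn, mul_one]
  have hιw1 : ‖ι w‖ < 1 := by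
    rw [hιw', norm_div, ht.norm (m + 1), div_lt_one (norm_pos_iff.2 hmn), norm_mon_lt hu.ne]
    exact ht.mono (Nat.lt_succ_self m)
  have hιt : ι t - psum v c g m = mon v (g m) * (algebraMap k Ω (c m) + ι (s (Fin.last r))) := by
    rw [hs2, hιw, add_sub_cancel, mul_div_cancel₀ _ hmn]
  refine ⟨s, ?_, ?_, ?_, ?_, ?_⟩
  · intro i
    refine Fin.lastCases ?_ (fun j => ?_) i
    · rw [hs2]
      refine ⟨?_, hιw1⟩
      intro h0
      rw [h0, map_zero] at hιw'
      have h1 : ι t - psum v c g (m + 1) = 0 := by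
        rcases div_eq_zero_iff.1 hιw'.symm with h | h
        · exact h
        · exact absurd h hmn
      have h2 := ht.norm (m + 1)
      rw [h1, norm_zero] at h2
      exact mon_ne hu.ne _ (norm_eq_zero.1 h2.symm)
    · constructor
      · intro h0
        have h1 := hιs1 j
        rw [h0, map_zero] at h1
        exact mon_ne hu.ne _ h1.symm
      · rw [hιs1, norm_mon hu.ne, Real.exp_lt_one_iff]
        have := hb1 j
        linarith
  · apply le_antisymm
    · rw [IntermediateField.adjoin_le_iff]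
      rintro _ ⟨i, rfl⟩
      have hu' : ∀ i, u i ∈ IntermediateField.adjoin k (insert t (Set.range u)) := fun i =>
        IntermediateField.subset_adjoin _ _ (Set.mem_insert_of_mem _ ⟨i, rfl⟩)
      have ht' : t ∈ IntermediateField.adjoin k (insert t (Set.range u)) :=
        IntermediateField.subset_adjoin _ _ (Set.mem_insert _ _)
      refine Fin.lastCases ?_ (fun j => ?_) i
      · rw [hs2, hw]
        exact sub_mem (div_mem (sub_mem ht' (psumK_mem hu' _ _ _)) (monK_mem hu' _))
          (IntermediateField.algebraMap_mem _ _)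
      · rw [hs1]
        exact monK_mem hu' _
    · rw [IntermediateField.adjoin_le_iff]
      have hsm : ∀ i, s i ∈ IntermediateField.adjoin k (Set.range s) := fun i =>
        IntermediateField.subset_adjoin _ _ ⟨i, rfl⟩
      have hu' : ∀ i, u i ∈ IntermediateField.adjoin k (Set.range s) := by
        intro i
        have h1 : u i = ∏ j, monK u (b j) ^ (b.repr (Pi.single i 1) j) := by
          apply ι.toRingHom.injective
          change ι (u i) = ι _
          rw [map_prod]
          simp only [map_zpow₀, map_monK]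
          have h2 := mon_basis hu.ne b (Pi.single i 1)
          have h3 : mon v (Pi.single i 1) = ι (u i) := by
            rw [mon, Finset.prod_eq_single i]
            · simp [hv]
            · intro j _ hj
              simp [hj]
            · simp
          rw [← h3]
          exact h2
        rw [h1]
        refine prod_mem fun j _ => zpow_mem ?_ _
        rw [← hs1]
        exact hsm _
      rintro x (rfl | ⟨i, rfl⟩)
      · have h1 : x = psumK u c g m + monK u (g m) * (algebraMap k K (c m) + w) := by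
          have h0 : monK u (g m) ≠ 0 := by
            intro h
            apply hmn
            rw [← map_monK, h, map_zero]
          rw [hw, add_sub_cancel, mul_div_cancel₀ _ h0]
          ring
        rw [h1]
        refine add_mem (psumK_mem hu' _ _ _) (mul_mem (monK_mem hu' _) (add_mem
          (IntermediateField.algebraMap_mem _ _) ?_))
        rw [← hs2]
        exact hsm _
      · exact hu' i
  · intro z hz
    have hz0 : z ≠ 0 := (hZ z hz).2
    obtain ⟨e1, e2, e3, e4, e5, e6⟩ := hd z hz hz0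
    have hTz : ∀ a ∈ (if ‖ι z‖ ≤ 1 then {bP z - bQ z} else ∅) ∪
        (((shift c g m (P z)).coeff.support.image
        (fun q => q.1 + q.2 • g m - bP z)) ∪ ((shift c g m (Q z)).coeff.support.image
        (fun q => q.1 + q.2 • g m - bQ z))), a ∈ T := by
      intro a ha
      rw [hT, Finset.mem_insert, Finset.mem_biUnion]
      exact Or.inr ⟨z, Finset.mem_filter.2 ⟨hz, hz0⟩, ha⟩
    have k1 : ‖ι z‖ < 1 → ∀ j, 1 ≤ b.repr (bP z - bQ z) j := fun h j =>
      hb3 _ (hTz _ (Finset.mem_union_left _ (by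
        rw [if_pos h.le]; exact Finset.mem_singleton_self _))) (e5 h) j
    have k2 : ∀ q ∈ (shift c g m (P z)).coeff.support, ∀ j,
        0 ≤ b.repr (q.1 + q.2 • g m - bP z) j := fun q hq j =>
      hb2 _ (hTz _ (Finset.mem_union_right _ (Finset.mem_union_left _
        (Finset.mem_image_of_mem _ hq)))) j
    have k3 : ∀ q ∈ (shift c g m (Q z)).coeff.support, ∀ j,
        0 ≤ b.repr (q.1 + q.2 • g m - bQ z) j := fun q hq j =>
      hb2 _ (hTz _ (Finset.mem_union_right _ (Finset.mem_union_right _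
        (Finset.mem_image_of_mem _ hq)))) j
    refine ⟨Fin.snoc (α := fun _ => ℤ) (fun j => b.repr (bP z - bQ z) j) 0,
      np b (c m) (g m) (bP z) (shift c g m (P z)),
      np b (c m) (g m) (bQ z) (shift c g m (Q z)), ?_, ?_, ?_, ?_, ?_, ?_⟩
    · rw [constantCoeff_np b _ _ _ _ k2]
      exact (e2 m (hm z hz)).2
    · rw [constantCoeff_np b _ _ _ _ k3]
      exact (e3 m (hm z hz)).2
    · apply ι.toRingHom.injective
      change ι _ = ι _
      have hae : ∀ p : MvPolynomial (Fin (r + 1)) k,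
          ι (MvPolynomial.aeval s p) = MvPolynomial.aeval (fun i => ι (s i)) p := fun p => by
        rw [← MvPolynomial.comp_aeval_apply]
      rw [map_mul, hae, map_mul, hae]
      have a1 : ι (∏ i, s i ^ (Fin.snoc (α := fun _ => ℤ) (fun j => b.repr (bP z - bQ z) j) 0 :
          Fin (r + 1) → ℤ) i) = mon v (bP z - bQ z) := by
        rw [map_prod, Fin.prod_univ_castSucc, Fin.snoc_last (α := fun _ => ℤ), zpow_zero, map_one,
          mul_one, mon_basis hu.ne b]
        refine Finset.prod_congr rfl fun j _ => ?_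
        rw [Fin.snoc_castSucc (α := fun _ => ℤ), map_zpow₀, hιs1]
      have a2 := aeval_np hu.ne b (fun i => ι (s i)) hιs1 (c m) (g m) (bP z)
        (shift c g m (P z)) k2
      have a3 := aeval_np hu.ne b (fun i => ι (s i)) hιs1 (c m) (g m) (bQ z)
        (shift c g m (Q z)) k3
      rw [← hιt, ev_shift] at a2 a3
      rw [a1]
      have hQn : mon v (bQ z) ≠ 0 := mon_ne hu.ne _
      apply mul_left_cancel₀ hQn
      have a4 : mon v (bQ z) * mon v (bP z - bQ z) = mon v (bP z) := by
        rw [← mon_add hu.ne]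
        congr 1
        abel
      rw [← mul_assoc (mon v (bQ z)) (mon v (bP z - bQ z)), a4]
      rw [a2, ← e1, ← a3]
      ring
    · intro i hi
      have h1 : i = Fin.last r := Fin.ext (by rw [Fin.val_last]; omega)
      rw [h1, Fin.snoc_last (α := fun _ => ℤ)]
    · intro h i hi
      refine Fin.lastCases (fun hi => ?_) (fun j _ => ?_) i hi
      · rw [Fin.val_last] at hi
        exact absurd hi (lt_irrefl _)
      · rw [Fin.snoc_castSucc (α := fun _ => ℤ)]
        exact k1 h j
    · intro h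
      have h1 : bP z - bQ z = 0 := hu.inj (by rw [e6 h, map_zero])
      funext i
      refine Fin.lastCases ?_ (fun j => ?_) i
      · rw [Fin.snoc_last (α := fun _ => ℤ)]
        rfl
      · rw [Fin.snoc_castSucc (α := fun _ => ℤ), h1, map_zero]
        rfl
  · have hoT : (fun _ => 1 : G r) ∈ T := by
      rw [hT]
      exact Finset.mem_insert_self _ _
    refine ⟨Fin.snoc (α := fun _ => ℤ) (fun j => b.repr (fun _ => 1) j) 0, ?_, ?_, ?_, ?_⟩
    · apply ι.toRingHom.injective
      change ι _ = ι _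
      rw [← hone, map_prod, Fin.prod_univ_castSucc, Fin.snoc_last (α := fun _ => ℤ), zpow_zero,
        map_one, mul_one, mon_basis hu.ne b]
      refine Finset.prod_congr rfl fun j _ => ?_
      rw [Fin.snoc_castSucc (α := fun _ => ℤ), map_zpow₀, hιs1]
    · intro i hi
      have h1 : i = Fin.last r := Fin.ext (by rw [Fin.val_last]; omega)
      rw [h1, Fin.snoc_last (α := fun _ => ℤ)]
    · intro h i hi
      refine Fin.lastCases (fun hi => ?_) (fun j _ => ?_) i hi
      · rw [Fin.val_last] at hi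
        exact absurd hi (lt_irrefl _)
      · rw [Fin.snoc_castSucc (α := fun _ => ℤ)]
        refine hb3 _ hoT ?_ j
        have h1 : ‖mon v (fun _ => 1)‖ < ‖mon v 0‖ := by
          rw [hone, mon_zero, norm_one]
          exact h
        have h2 := (norm_mon_lt hu.ne).1 h1
        rwa [map_zero] at h2
    · intro h
      have h0 : wt v (fun _ => 1) = wt v 0 := by
        have h1 : ‖mon v (fun _ => 1)‖ = ‖mon v 0‖ := by
          rw [hone, mon_zero, norm_one]
          exact h
        rwa [norm_mon hu.ne, norm_mon hu.ne, Real.exp_eq_exp, neg_inj] at h1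
      have h1 : (fun _ => 1 : G r) = 0 := hu.inj h0
      funext i
      refine Fin.lastCases ?_ (fun j => ?_) i
      · rw [Fin.snoc_last (α := fun _ => ℤ)]
        rfl
      · rw [Fin.snoc_castSucc (α := fun _ => ℤ), h1, map_zero]
        rfl
  · have hu0 : ∀ i, u i ≠ 0 := fun i h => hu.ne i (show ι (u i) = 0 by rw [h, map_zero])
    have huA : ∀ i, u i ∈ Algebra.adjoin k (insert t (Set.range u)) := fun i =>
      Algebra.subset_adjoin (Set.mem_insert_of_mem _ ⟨i, rfl⟩)
    have htA : t ∈ Algebra.adjoin k (insert t (Set.range u)) :=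
      Algebra.subset_adjoin (Set.mem_insert _ _)
    intro i
    refine Fin.lastCases ?_ (fun j => ?_) i
    · rw [hs2, hw]
      have h1 : (monK u (g m))⁻¹ = monK u (-(g m)) := by
        simp [monK]
      rw [div_eq_mul_inv, h1]
      exact sub_mem (mul_mem (sub_mem (le_sluLoc _ htA) (psumK_sluLoc hu0 huA _ _ _))
        (monK_sluLoc hu0 huA _)) (Subalgebra.algebraMap_mem _ _)
    · rw [hs1]
      exact monK_sluLoc hu0 huA _

end LUW
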