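import Pool.Agent.LUW.MainS
import Pool.Agent.LUW.SluRel
import Pool.Agent.LUW.AbhMon
import Pool.Agent.LUW.ExistsUa
import Pool.Agent.helper90.LY.RelDense

/-! Project LUW: relative forms; the Abhyankar case. -/

set_option autoImplicit false

namespace LUW

open Polynomial

universe u

variable {k K : Type u} [Field k] [Field K] [Algebra k K] [Algebra.EssFiniteType k K]

/-- Relative strong local uniformization over an arbitrary field of characteristic `p`: rank one,
residue field `k`, finitely generated value group of rank `n - 1`. -/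
theorem luw_rel (p : ℕ) [Fact p.Prime] [CharP k p] (V : ValuationSubring K)
    (hV : ∀ c : k, algebraMap k K c ∈ V) (harch : MulArchimedean V.ValueGroup)
    (hres : ∀ x ∈ V, ∃ c : k, V.valuation (x - algebraMap k K c) < 1)
    (hfg : Group.FG (V.ValueGroup)ˣ) (r : ℕ)
    (hrk : Module.finrank ℤ (Additive (V.ValueGroup)ˣ) = r)
    (hr : Algebra.trdeg k K = (r + 1 : ℕ)) (hr0 : 0 < r) :
    LY.RelU k V r := by
  classical
  obtain ⟨Ω, _, _, _, ι, u, t, hι, hresK, hu, hI, hsept, hdense, hu1, ht0, ht1⟩ :=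
    luw_data p V hV harch hres hfg r hrk hr hr0
  have halg : Algebra.IsAlgebraic (IntermediateField.adjoin k (insert t (Set.range u))) K :=
    inferInstance
  have hfd := Main_fd (IntermediateField.adjoin k (insert t (Set.range u))) halg
  have hind := Main_indep hr u t halg
  have hev : ∀ P : A k _, P ≠ 0 → ev hu.ne (ι t) P ≠ 0 := Main_ev_ne ι u t hu.ne hind
  have hImm : Imm (k := k) (fun i => ι (u i)) (cl k (Set.range ι)) := imm_cl hresK u hu hI
  obtain ⟨c, g, hexp⟩ := exists_expn hu (L := cl k (Set.range ι)) (t := ι t)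
    (fun i => subset_cl _ ⟨u i, rfl⟩) hImm (subset_cl _ ⟨t, rfl⟩) (by
      intro P hP h
      have h1 : ev hu.ne (ι t) P = ev hu.ne 0 P := by
        rw [ev_eq_sum, ev_eq_sum]
        refine Finset.sum_congr rfl fun q hq => ?_
        rw [hP q hq, pow_zero, pow_zero]
      refine hev (P - mono 0 1 1) ?_ ?_
      · intro h2
        have h3 : P = mono 0 1 1 := sub_eq_zero.1 h2
        have h4 : ((0, 1) : Ex _) ∈ P.coeff.support := by
          rw [h3, mono]
          simp
        have h5 := hP _ h4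
        exact one_ne_zero h5
      · rw [map_sub, h1, h, ev_mono, mon_zero]
        simp)
  have hlt : ∀ x z : K, ‖ι x‖ < ‖ι z‖ ↔ V.valuation x < V.valuation z := by
    intro x z
    rw [← not_le, ← not_le, hι]
  have hlt1 : ∀ x : K, ‖ι x‖ < 1 ↔ V.valuation x < 1 := by
    intro x
    rw [← V.valuation.map_one, ← hlt, map_one, norm_one]
  have heq1 : ∀ x : K, ‖ι x‖ = 1 ↔ V.valuation x = 1 := by
    intro x
    have h1 := hι x 1
    have h2 := hι 1 x
    rw [map_one, map_one, norm_one] at h1 h2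
    constructor
    · intro h
      exact le_antisymm (h1.1 h.le) (h2.1 h.ge)
    · intro h
      exact le_antisymm (h1.2 h.le) (h2.2 h.ge)
  refine LY.rel_of_dense V hV (r + 1) r hr
    (IntermediateField.adjoin k (insert t (Set.range u))) hsept ?_ harch ?_ ?_
  · exact ⟨t, ht0, (hlt1 t).1 ht1⟩
  · -- density
    intro z w hw
    have hw' : 0 < ‖ι w‖ := norm_pos_iff.2 ((_root_.map_ne_zero ι).2 hw)
    obtain ⟨e, he, h1⟩ := hdense z ‖ι w‖ hw'
    refine ⟨e, he, (hlt _ _).1 ?_⟩
    rw [map_sub]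
    exact h1
  · -- monomialization
    have hB : ((insert t (Finset.univ.image u) : Finset K) : Set K) = insert t (Set.range u) := by
      rw [Finset.coe_insert, Finset.coe_image, Finset.coe_univ, Set.image_univ]
    refine ⟨insert t (Finset.univ.image u), by rw [hB], fun Z hZ => ?_⟩
    rw [hB]
    obtain ⟨s, hs1, hsE, hsZ, ⟨a, ha0, ha1, ha2, ha3⟩, hsH⟩ :=
      slu_rel ι u hu hu1 t hexp hev Z hZ
    refine ⟨s, fun i => ⟨(hs1 i).1, (hlt1 _).1 (hs1 i).2⟩, hsE, fun z hz => ?_,
      ∏ i, u i, ?_, ?_, ?_, hsH⟩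
    · obtain ⟨a, N, D, h1, h2, h3, h4, h5, h6⟩ := hsZ z hz
      exact ⟨a, N, D, h1, h2, h3, h4, fun h => h5 ((hlt1 z).2 h), fun h => h6 ((heq1 z).2 h)⟩
    · exact prod_mem fun i _ => Algebra.subset_adjoin (Set.mem_insert_of_mem _ ⟨i, rfl⟩)
    · exact Finset.prod_ne_zero_iff.2 fun i _ h => hu.ne i (by rw [h, map_zero])
    · refine ⟨a, 1, 1, ?_, ?_, ?_, ha1, fun h => ha2 ((hlt1 _).2 h), fun h => ha3 ((heq1 _).2 h)⟩
      · rw [map_one]; exact one_ne_zero
      · rw [map_one]; exact one_ne_zero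
      · rw [map_one, mul_one, mul_one, ha0]

end LUW
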