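import Pool.Agent.LUW.Basic
import Pool.Agent.LUW.GoodNorm
import Pool.Agent.LUW.GoodAll
import Pool.Agent.LUW.PerronW
import Pool.Agent.LUW.Rho

/-! Project LUW: (E4) simultaneous local uniformization of k(u,t). -/

set_option autoImplicit false

namespace LUW

open Polynomial

universe u

variable {k : Type*} [Field k] {K : Type*} [Field K] [Algebra k K]
  {Ω : Type*} [NormedField Ω] [Algebra k Ω] [Big k Ω] {r : ℕ}

namespace SluAux

/-- The monomial `u^b` over a plain field. -/
noncomputable def monK (u : Fin r → K) (b : G r) : K := ∏ i, u i ^ b i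

theorem map_monK (ι : K →ₐ[k] Ω) (u : Fin r → K) (b : G r) :
    ι (monK u b) = mon (fun i => ι (u i)) b := by
  simp [mon, monK, map_prod, map_zpow₀]

theorem monK_mem {L : IntermediateField k K} {u : Fin r → K} (hu : ∀ i, u i ∈ L) (b : G r) :
    monK u b ∈ L := by
  rw [monK]
  exact prod_mem fun i _ => zpow_mem (hu i) _

/-- Partial sums over a plain field. -/
noncomputable def psumK (u : Fin r → K) (c : ℕ → k) (g : ℕ → G r) (m : ℕ) : K :=
  ∑ i ∈ Finset.range m, algebraMap k K (c i) * monK u (g i)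

theorem map_psumK (ι : K →ₐ[k] Ω) (u : Fin r → K) (c : ℕ → k) (g : ℕ → G r) (m : ℕ) :
    ι (psumK u c g m) = psum (fun i => ι (u i)) c g m := by
  simp [psum, psumK, map_sum, map_monK]

theorem psumK_mem {L : IntermediateField k K} {u : Fin r → K} (hu : ∀ i, u i ∈ L)
    (c : ℕ → k) (g : ℕ → G r) (m : ℕ) : psumK u c g m ∈ L :=
  sum_mem fun i _ => mul_mem (L.algebraMap_mem _) (monK_mem hu _)

theorem mon_zsmul {u : Fin r → Ω} (n : ℤ) (b : G r) : mon u (n • b) = mon u b ^ n := by
  simp only [mon, Pi.smul_apply, ← Finset.prod_zpow]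
  refine Finset.prod_congr rfl fun i _ => ?_
  rw [← zpow_mul]
  simp [mul_comm]

theorem mon_sum {ι : Type*} {u : Fin r → Ω} (hu : ∀ i, u i ≠ 0) (s : Finset ι) (f : ι → G r) :
    mon u (∑ i ∈ s, f i) = ∏ i ∈ s, mon u (f i) := by
  classical
  induction s using Finset.induction_on with
  | empty => simp [mon_zero]
  | insert a s ha ih => rw [Finset.sum_insert ha, Finset.prod_insert ha, mon_add hu, ih]

theorem mon_basis {u : Fin r → Ω} (hu : ∀ i, u i ≠ 0) (b : Module.Basis (Fin r) ℤ (G r))
    (a : G r) : mon u a = ∏ j, mon u (b j) ^ (b.repr a j) := by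
  conv_lhs => rw [← b.sum_repr a]
  rw [mon_sum hu]
  exact Finset.prod_congr rfl fun j _ => mon_zsmul _ _

/-- The monomial in the new variables. -/
noncomputable def mp (k : Type*) [Field k] (b : Module.Basis (Fin r) ℤ (G r)) (a : G r) :
    MvPolynomial (Fin (r + 1)) k :=
  ∏ j : Fin r, MvPolynomial.X (Fin.castSucc j) ^ (b.repr a j).toNat

theorem aeval_mp {u : Fin r → Ω} (hu : ∀ i, u i ≠ 0) (b : Module.Basis (Fin r) ℤ (G r))
    (s : Fin (r + 1) → Ω) (hs : ∀ j, s (Fin.castSucc j) = mon u (b j)) (a : G r)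
    (ha : ∀ j, 0 ≤ b.repr a j) : MvPolynomial.aeval s (mp k b a) = mon u a := by
  rw [mp, map_prod, mon_basis hu b a]
  refine Finset.prod_congr rfl fun j _ => ?_
  rw [map_pow, MvPolynomial.aeval_X, hs, ← zpow_natCast, Int.toNat_of_nonneg (ha j)]

theorem constantCoeff_mp (b : Module.Basis (Fin r) ℤ (G r)) (a : G r)
    (ha : ∀ j, 0 ≤ b.repr a j) :
    MvPolynomial.constantCoeff (mp k b a) = if a = 0 then 1 else 0 := by
  rw [mp, map_prod]
  simp only [map_pow, MvPolynomial.constantCoeff_X]
  split_ifs with h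
  · subst h
    simp
  · have : ∃ j, b.repr a j ≠ 0 := by
      by_contra hcon
      push Not at hcon
      apply h
      apply b.repr.injective
      ext j
      rw [hcon j]
      simp
    obtain ⟨j, hj⟩ := this
    apply Finset.prod_eq_zero (Finset.mem_univ j)
    rw [zero_pow]
    intro h0
    have h1 := ha j
    omega

/-- The polynomial in the new variables attached to `P`. -/
noncomputable def np (b : Module.Basis (Fin r) ℤ (G r)) (c : k) (g bP : G r) (P : A k r) :
    MvPolynomial (Fin (r + 1)) k :=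
  ∑ q ∈ P.coeff.support, MvPolynomial.C (P.coeff q) * (mp k b (q.1 + q.2 • g - bP) *
    (MvPolynomial.C c + MvPolynomial.X (Fin.last r)) ^ q.2)

theorem constantCoeff_np (b : Module.Basis (Fin r) ℤ (G r)) (c : k) (g bP : G r) (P : A k r)
    (h : ∀ q ∈ P.coeff.support, ∀ j, 0 ≤ b.repr (q.1 + q.2 • g - bP) j) :
    MvPolynomial.constantCoeff (np b c g bP P) = (lf g bP P).eval c := by
  classical
  rw [np, lf, map_sum, Polynomial.eval_finsetSum, Finset.sum_filter]
  refine Finset.sum_congr rfl fun q hq => ?_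
  rw [map_mul, map_mul, constantCoeff_mp b _ (h q hq)]
  simp only [sub_eq_zero, map_pow, map_add, MvPolynomial.constantCoeff_C,
    MvPolynomial.constantCoeff_X, add_zero]
  split_ifs with h1
  · simp
  · simp

theorem aeval_np {u : Fin r → Ω} (hu : ∀ i, u i ≠ 0) (b : Module.Basis (Fin r) ℤ (G r))
    (s : Fin (r + 1) → Ω) (hs : ∀ j, s (Fin.castSucc j) = mon u (b j)) (c : k) (g bP : G r)
    (P : A k r) (h : ∀ q ∈ P.coeff.support, ∀ j, 0 ≤ b.repr (q.1 + q.2 • g - bP) j) :
    mon u bP * MvPolynomial.aeval s (np b c g bP P) =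
      ev hu (mon u g * (algebraMap k Ω c + s (Fin.last r))) P := by
  rw [np, map_sum, ev_eq_sum, Finset.mul_sum]
  refine Finset.sum_congr rfl fun q hq => ?_
  rw [map_mul, map_mul, aeval_mp hu b s hs _ (h q hq), map_pow, map_add, MvPolynomial.aeval_X,
    MvPolynomial.aeval_C, MvPolynomial.aeval_C, mul_pow, ← mon_nsmul]
  have h1 : mon u bP * mon u (q.1 + q.2 • g - bP) = mon u q.1 * mon u (q.2 • g) := by
    rw [← mon_add hu, ← mon_add hu]
    congr 1
    abel
  calc mon u bP * (algebraMap k Ω (P.coeff q) * (mon u (q.1 + q.2 • g - bP) *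
        (algebraMap k Ω c + s (Fin.last r)) ^ q.2))
      = algebraMap k Ω (P.coeff q) * ((mon u bP * mon u (q.1 + q.2 • g - bP)) *
        (algebraMap k Ω c + s (Fin.last r)) ^ q.2) := by ring
    _ = _ := by rw [h1]; ring

/-- Elements of `k[u,t]` are values of `ev`. -/
theorem exists_ev (ι : K →ₐ[k] Ω) (u : Fin r → K) (hu : ∀ i, ι (u i) ≠ 0) (t : K) (z : K)
    (hz : z ∈ Algebra.adjoin k (insert t (Set.range u))) :
    ∃ P : A k r, ev hu (ι t) P = ι z := by
  have h : Algebra.adjoin k (insert t (Set.range u)) ≤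
      ((ev (k := k) hu (ι t)).range).comap ι := by
    refine Algebra.adjoin_le ?_
    rintro x (rfl | ⟨i, rfl⟩)
    · refine ⟨mono 0 1 1, ?_⟩
      change ev hu (ι x) (mono 0 1 1) = ι x
      rw [ev_mono, mon_zero]
      simp
    · refine ⟨mono (Pi.single i 1) 0 1, ?_⟩
      change ev hu (ι t) (mono (Pi.single i 1) 0 1) = ι (u i)
      rw [ev_mono, mon, Finset.prod_eq_single i]
      · simp
      · intro j _ hj
        simp [hj]
      · simp
  obtain ⟨P, hP⟩ := h hz
  exact ⟨P, hP⟩

/-- Elements of `k(u,t)` are fractions of values of `ev`. -/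
theorem exists_ev_div (ι : K →ₐ[k] Ω) (u : Fin r → K) (hu : ∀ i, ι (u i) ≠ 0) (t : K) (z : K)
    (hz : z ∈ IntermediateField.adjoin k (insert t (Set.range u))) :
    ∃ P Q : A k r, ev hu (ι t) Q ≠ 0 ∧ ι z * ev hu (ι t) Q = ev hu (ι t) P := by
  rw [IntermediateField.mem_adjoin_iff_div] at hz
  obtain ⟨a, ha, b, hb, rfl⟩ := hz
  by_cases hb0 : b = 0
  · refine ⟨0, 1, ?_, ?_⟩
    · rw [map_one]; exact one_ne_zero
    · rw [hb0]; simp
  · obtain ⟨P, hP⟩ := exists_ev ι u hu t a ha
    obtain ⟨Q, hQ⟩ := exists_ev ι u hu t b hb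
    have hb1 : ι b ≠ 0 := by
      intro h
      exact hb0 ((map_eq_zero ι).1 h)
    refine ⟨P, Q, ?_, ?_⟩
    · rw [hQ]; exact hb1
    · rw [hQ, hP, map_div₀, div_mul_cancel₀ _ hb1]

end SluAux

open SluAux

/-- Simultaneous local uniformization of `k(u,t)`. -/
theorem slu (ι : K →ₐ[k] Ω) (u : Fin r → K) (hu : Base fun i => ι (u i)) (t : K) {c : ℕ → k}
    {g : ℕ → G r} (ht : Expn (fun i => ι (u i)) (ι t) c g)
    (hne : ∀ P : A k r, P ≠ 0 → ev hu.ne (ι t) P ≠ 0) (Z : Finset K)
    (hZ : ∀ z ∈ Z, z ∈ IntermediateField.adjoin k (insert t (Set.range u)) ∧ ‖ι z‖ ≤ 1) :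
    ∃ s : Fin (r + 1) → K, (∀ i, ‖ι (s i)‖ < 1) ∧
      IntermediateField.adjoin k (Set.range s) =
        IntermediateField.adjoin k (insert t (Set.range u)) ∧
      ∀ z ∈ Z, ∃ N D : MvPolynomial (Fin (r + 1)) k, MvPolynomial.constantCoeff D ≠ 0 ∧
        z * MvPolynomial.aeval s D = MvPolynomial.aeval s N := by
  classical
  set v : Fin r → Ω := fun i => ι (u i) with hv
  -- data for each z
  have hdata : ∀ z : K, ∃ (P Q : A k r) (bP bQ : G r) (m0 : ℕ), z ∈ Z → z ≠ 0 →
      ι z * ev hu.ne (ι t) Q = ev hu.ne (ι t) P ∧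
      (∀ m ≥ m0, Good (wt v) (c m) (g m) (shift c g m P) bP) ∧
      (∀ m ≥ m0, Good (wt v) (c m) (g m) (shift c g m Q) bQ) ∧ 0 ≤ wt v (bP - bQ) := by
    intro z
    by_cases hz : z ∈ Z ∧ z ≠ 0
    · obtain ⟨hzZ, hz0⟩ := hz
      obtain ⟨hz1, hz2⟩ := hZ z hzZ
      obtain ⟨P, Q, hQ, hPQ⟩ := exists_ev_div ι u hu.ne t z hz1
      have hιz : ι z ≠ 0 := fun h => hz0 ((map_eq_zero ι).1 h)
      have hP : ev hu.ne (ι t) P ≠ 0 := by rw [← hPQ]; exact mul_ne_zero hιz hQ
      obtain ⟨bP, m1, h1⟩ := good_all hu ht P hP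
      obtain ⟨bQ, m2, h2⟩ := good_all hu ht Q hQ
      refine ⟨P, Q, bP, bQ, max m1 m2, fun _ _ => ⟨hPQ, fun m hm => h1 m
        (le_trans (le_max_left _ _) hm), fun m hm => h2 m (le_trans (le_max_right _ _) hm), ?_⟩⟩
      have n1 := (good_norm hu ht P _ _ (h1 (max m1 m2) (le_max_left _ _))).1
      have n2 := (good_norm hu ht Q _ _ (h2 (max m1 m2) (le_max_right _ _))).1
      have n3 : ‖mon v bP‖ ≤ ‖mon v bQ‖ := by
        rw [← n1, ← n2, ← hPQ, norm_mul]
        exact mul_le_of_le_one_left (norm_nonneg _) hz2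
      have n4 := (norm_mon_le hu.ne).1 n3
      rw [map_sub]
      linarith
    · refine ⟨0, 0, 0, 0, 0, fun h1 h2 => absurd ⟨h1, h2⟩ hz⟩
  choose P Q bP bQ m0 hd using hdata
  -- the common stage
  obtain ⟨m, hm⟩ : ∃ m, ∀ z ∈ Z, m0 z ≤ m := ⟨Z.sup m0, fun z hz => Finset.le_sup hz⟩
  -- vectors of nonnegative weight
  set T : Finset (G r) := (Z.filter (fun z => z ≠ 0)).biUnion (fun z =>
    insert (bP z - bQ z) (((shift c g m (P z)).coeff.support.image
      (fun q => q.1 + q.2 • g m - bP z)) ∪ ((shift c g m (Q z)).coeff.support.image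
      (fun q => q.1 + q.2 • g m - bQ z)))) with hT
  have hT0 : ∀ a ∈ T, 0 ≤ wt v a := by
    intro a ha
    rw [hT, Finset.mem_biUnion] at ha
    obtain ⟨z, hz, ha⟩ := ha
    rw [Finset.mem_filter] at hz
    obtain ⟨e1, e2, e3, e4⟩ := hd z hz.1 hz.2
    rw [Finset.mem_insert, Finset.mem_union, Finset.mem_image, Finset.mem_image] at ha
    rcases ha with rfl | ⟨q, hq, rfl⟩ | ⟨q, hq, rfl⟩
    · exact e4
    · have := (e2 m (hm z hz.1)).1 q hq
      rw [lev_add] at this
      rw [map_sub]
      linarith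
    · have := (e3 m (hm z hz.1)).1 q hq
      rw [lev_add] at this
      rw [map_sub]
      linarith
  obtain ⟨b, hb1, hb2⟩ := perron_wt (wt v) hu.inj T hT0
  -- the new variables
  set w : K := (t - psumK u c g m) / monK u (g m) - algebraMap k K (c m) with hw
  set s : Fin (r + 1) → K := Fin.snoc (fun j => monK u (b j)) w with hs
  have hs1 : ∀ j : Fin r, s (Fin.castSucc j) = monK u (b j) := fun j => by
    rw [hs, Fin.snoc_castSucc (α := fun _ => K)]
  have hs2 : s (Fin.last r) = w := by rw [hs, Fin.snoc_last (α := fun _ => K)]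
  have hιs1 : ∀ j : Fin r, ι (s (Fin.castSucc j)) = mon v (b j) := fun j => by
    rw [hs1, map_monK]
  have hιw : ι w = (ι t - psum v c g m) / mon v (g m) - algebraMap k Ω (c m) := by
    rw [hw, map_sub, map_div₀, map_sub, map_psumK, map_monK, AlgHom.commutes]
  have hmn : mon v (g m) ≠ 0 := mon_ne hu.ne _
  have hιw' : ι w = (ι t - psum v c g (m + 1)) / mon v (g m) := by
    rw [hιw, psum_succ, ← sub_sub, sub_div _ (_ * _), mul_div_assoc, div_self hmn, mul_one]
  have hιw1 : ‖ι w‖ < 1 := by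
    rw [hιw', norm_div, ht.norm (m + 1), div_lt_one (norm_pos_iff.2 hmn), norm_mon_lt hu.ne]
    exact ht.mono (Nat.lt_succ_self m)
  have hιt : ι t - psum v c g m = mon v (g m) * (algebraMap k Ω (c m) + ι (s (Fin.last r))) := by
    rw [hs2, hιw, add_sub_cancel, mul_div_cancel₀ _ hmn]
  refine ⟨s, ?_, ?_, ?_⟩
  · intro i
    refine Fin.lastCases ?_ (fun j => ?_) i
    · rw [hs2]; exact hιw1
    · rw [hιs1, norm_mon hu.ne, Real.exp_lt_one_iff]
      have := hb1 j
      linarith
  · apply le_antisymm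
    · rw [IntermediateField.adjoin_le_iff]
      rintro _ ⟨i, rfl⟩
      have hu' : ∀ i, u i ∈ IntermediateField.adjoin k (insert t (Set.range u)) := fun i =>
        IntermediateField.subset_adjoin _ _ (Set.mem_insert_of_mem _ ⟨i, rfl⟩)
      have ht' : t ∈ IntermediateField.adjoin k (insert t (Set.range u)) :=
        IntermediateField.subset_adjoin _ _ (Set.mem_insert _ _)
      refine Fin.lastCases ?_ (fun j => ?_) i
      · rw [hs2, hw]
        exact sub_mem (div_mem (sub_mem ht' (psumK_mem hu' _ _ _)) (monK_mem hu' _))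
          (IntermediateField.algebraMap_mem _ _)
      · rw [hs1]
        exact monK_mem hu' _
    · rw [IntermediateField.adjoin_le_iff]
      have hsm : ∀ i, s i ∈ IntermediateField.adjoin k (Set.range s) := fun i =>
        IntermediateField.subset_adjoin _ _ ⟨i, rfl⟩
      have hu' : ∀ i, u i ∈ IntermediateField.adjoin k (Set.range s) := by
        intro i
        have h1 : u i = ∏ j, monK u (b j) ^ (b.repr (Pi.single i 1) j) := by
          apply ι.toRingHom.injective
          change ι (u i) = ι _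
          rw [map_prod]
          simp only [map_zpow₀, map_monK]
          have h2 := mon_basis hu.ne b (Pi.single i 1)
          have h3 : mon v (Pi.single i 1) = ι (u i) := by
            rw [mon, Finset.prod_eq_single i]
            · simp [hv]
            · intro j _ hj
              simp [hj]
            · simp
          rw [← h3]
          exact h2
        rw [h1]
        refine prod_mem fun j _ => zpow_mem ?_ _
        rw [← hs1]
        exact hsm _
      rintro x (rfl | ⟨i, rfl⟩)
      · have h1 : x = psumK u c g m + monK u (g m) * (algebraMap k K (c m) + w) := by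
          have h0 : monK u (g m) ≠ 0 := by
            intro h
            apply hmn
            rw [← map_monK, h, map_zero]
          rw [hw, add_sub_cancel, mul_div_cancel₀ _ h0]
          ring
        rw [h1]
        refine add_mem (psumK_mem hu' _ _ _) (mul_mem (monK_mem hu' _) (add_mem
          (IntermediateField.algebraMap_mem _ _) ?_))
        rw [← hs2]
        exact hsm _
      · exact hu' i
  · intro z hz
    by_cases hz0 : z = 0
    · refine ⟨0, 1, ?_, ?_⟩
      · rw [map_one]; exact one_ne_zero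
      · rw [hz0]; simp
    · obtain ⟨e1, e2, e3, e4⟩ := hd z hz hz0
      have hTz : ∀ a ∈ insert (bP z - bQ z) (((shift c g m (P z)).coeff.support.image
          (fun q => q.1 + q.2 • g m - bP z)) ∪ ((shift c g m (Q z)).coeff.support.image
          (fun q => q.1 + q.2 • g m - bQ z))), a ∈ T := by
        intro a ha
        rw [hT, Finset.mem_biUnion]
        exact ⟨z, Finset.mem_filter.2 ⟨hz, hz0⟩, ha⟩
      have k1 : ∀ j, 0 ≤ b.repr (bP z - bQ z) j := fun j =>
        hb2 _ (hTz _ (Finset.mem_insert_self _ _)) j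
      have k2 : ∀ q ∈ (shift c g m (P z)).coeff.support, ∀ j,
          0 ≤ b.repr (q.1 + q.2 • g m - bP z) j := fun q hq j =>
        hb2 _ (hTz _ (Finset.mem_insert_of_mem (Finset.mem_union_left _
          (Finset.mem_image_of_mem _ hq)))) j
      have k3 : ∀ q ∈ (shift c g m (Q z)).coeff.support, ∀ j,
          0 ≤ b.repr (q.1 + q.2 • g m - bQ z) j := fun q hq j =>
        hb2 _ (hTz _ (Finset.mem_insert_of_mem (Finset.mem_union_right _
          (Finset.mem_image_of_mem _ hq)))) j
      refine ⟨mp k b (bP z - bQ z) * np b (c m) (g m) (bP z) (shift c g m (P z)),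
        np b (c m) (g m) (bQ z) (shift c g m (Q z)), ?_, ?_⟩
      · rw [constantCoeff_np b _ _ _ _ k3]
        exact (e3 m (hm z hz)).2
      · apply ι.toRingHom.injective
        change ι _ = ι _
        have hae : ∀ p : MvPolynomial (Fin (r + 1)) k,
            ι (MvPolynomial.aeval s p) = MvPolynomial.aeval (fun i => ι (s i)) p := fun p => by
          rw [← MvPolynomial.comp_aeval_apply]
        rw [map_mul, hae, hae, map_mul]
        have a1 := aeval_mp (k := k) hu.ne b (fun i => ι (s i)) hιs1 (bP z - bQ z) k1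
        have a2 := aeval_np hu.ne b (fun i => ι (s i)) hιs1 (c m) (g m) (bP z)
          (shift c g m (P z)) k2
        have a3 := aeval_np hu.ne b (fun i => ι (s i)) hιs1 (c m) (g m) (bQ z)
          (shift c g m (Q z)) k3
        rw [← hιt, ev_shift] at a2 a3
        rw [a1]
        have hQn : mon v (bQ z) ≠ 0 := mon_ne hu.ne _
        apply mul_left_cancel₀ hQn
        have a4 : mon v (bQ z) * mon v (bP z - bQ z) = mon v (bP z) := by
          rw [← mon_add hu.ne]
          congr 1
          abel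
        rw [← mul_assoc (mon v (bQ z)) (mon v (bP z - bQ z)), a4]
        rw [a2, ← e1, ← a3]
        ring

end LUW
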